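import Pool.Agent.James.Stmts

/-!
The vectors `g_t z` (`t` a lattice word) span the Specht module.
(MP_36c429_al, module JS_BAS; architect: helper36; Lean: helper27)
-/

set_option autoImplicit false

namespace Pool.Agent.James

section FamSpan
variable {R : Type*} [CommRing R] {q : R} {n : ℕ} {ν : ℕ → ℕ}
  {V : Type*} [AddCommGroup V] [Module R V] [Module (Hecke R q n) V]
  [IsScalarTower R (Hecke R q n) V]

/-- The span of a family is stable under the generators. -/
theorem IsFam.gT_mem {ε : R} {g : Wd n ν → V} (h : IsFam q ε g) {N : Submodule R V}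
    (hN : ∀ w, g w ∈ N) {j : ℕ} (hj : j + 1 < n) (w : Wd n ν) : gT R q n j • g w ∈ N := by
  rcases lt_trichotomy (w.1 j) (w.1 (j + 1)) with h1 | h1 | h1
  · rw [(h w j hj).1 h1]
    exact hN _
  · rw [(h w j hj).2 h1]
    exact N.smul_mem _ (hN _)
  · have h2 : (swW j w).1 j < (swW j w).1 (j + 1) := by
      rw [swW_left hj, swW_right hj]
      exact h1
    have h3 := (h (swW j w) j hj).1 h2
    rw [swW_swW] at h3
    rw [← h3, ← mul_smul, gT_rel.quad j hj, add_smul, smul_assoc, smul_assoc, one_smul, h3]
    exact N.add_mem (N.smul_mem _ (hN _)) (N.smul_mem _ (hN _))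

/-- The span of a family is stable under the Hecke algebra. -/
theorem IsFam.smul_mem {ε : R} {g : Wd n ν → V} (h : IsFam q ε g) (a : Hecke R q n) {x : V}
    (hx : x ∈ Submodule.span R (Set.range g)) : a • x ∈ Submodule.span R (Set.range g) := by
  refine smul_mem_of_gT (fun j hj x hx => ?_) a hx
  induction hx using Submodule.span_induction with
  | mem x hx =>
    obtain ⟨w, rfl⟩ := hx
    exact h.gT_mem (N := Submodule.span R (Set.range g))
      (fun w => Submodule.subset_span (Set.mem_range_self w)) hj w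
  | zero => rw [smul_zero]; exact Submodule.zero_mem _
  | add x y _ _ hx hy => rw [smul_add]; exact Submodule.add_mem _ hx hy
  | smul r x _ hx =>
    rw [smul_algebra_smul_comm]
    exact Submodule.smul_mem _ _ hx

omit [Module R V] [IsScalarTower R (Hecke R q n) V] in
/-- The members of the family generated by `u` are in the module generated by `u`. -/
theorem famAux_mem (N : Submodule (Hecke R q n) V) {u : V} (hu : u ∈ N) :
    ∀ (m : ℕ) (w : ℕ → ℕ), famAux q n u m w ∈ N := by
  intro m
  induction m with
  | zero => intro w; exact hu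
  | succ m ih =>
    intro w
    unfold famAux
    split_ifs with h
    · exact N.smul_mem _ (ih _)
    · exact hu

omit [Module R V] [IsScalarTower R (Hecke R q n) V] in
theorem fam_mem (N : Submodule (Hecke R q n) V) {u : V} (hu : u ∈ N) (w : Wd n ν) :
    fam q ν u w ∈ N := famAux_mem N hu _ _

end FamSpan

theorem Ptn.isComp {n : ℕ} (μ : Ptn n) : IsComp n μ.part := ⟨n, μ.zero, μ.sum⟩

/-- The vectors `g_t z` span the Specht module. -/
theorem bas (hdiam : S_DIAM) (hsrt : S_SRT) (hzinv : S_ZINV) (hinv : S_INV) (hbelt : S_BELT)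
    (hno : S_NOWORD) (hspan : S_SPAN) : S_BAS := by
  intro R _ q n μ hq hq1
  obtain ⟨w0, hw0, htie⟩ := (hsrt n μ.part).1 μ.isComp
  obtain ⟨hg0, hg⟩ := hdiam R q q n μ.part (Lam R q n μ.conj) w0 (zvec R q μ) hw0
    fun j hj h => hzinv R q n μ j hj ((htie j hj).1 h)
  have hmem := hspan R q n μ (Lam R q n μ.conj) (fam q μ.part (zvec R q μ)) w0 hw0 hg
    fun r c hc => by
      have hI := hbelt R q n μ (Lam R q n μ.conj) (fam q μ.part (zvec R q μ)) w0 hw0 hg r c hc
      exact funext fun w => (hinv R q n μ.conj _ _ hq hq1 hI).1 w (hno n μ r c hc w)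
  have hspan' : Submodule.span R (Set.range (bvec R q μ)) =
      Submodule.span R (Set.range (fam q μ.part (zvec R q μ) : Wd n μ.part → Lam R q n μ.conj)) := by
    refine le_antisymm ?_ ?_
    · refine Submodule.span_mono ?_
      rintro _ ⟨t, rfl⟩
      exact ⟨t.1, rfl⟩
    · rw [Submodule.span_le]
      rintro _ ⟨w, rfl⟩
      exact hmem w
  refine le_antisymm ?_ ?_
  · rw [Submodule.span_le]
    rintro _ ⟨t, rfl⟩
    exact fam_mem (Specht R q μ) (Submodule.subset_span rfl) t.1
  · intro x hx
    have hx' : x ∈ Submodule.span (Hecke R q n) {zvec R q μ} := hx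
    obtain ⟨a, rfl⟩ := Submodule.mem_span_singleton.1 hx'
    rw [hspan']
    refine hg.smul_mem a (Submodule.subset_span ⟨w0, hg0⟩)

end Pool.Agent.James
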