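import Pool.Agent.James.Stmts

/-!
Facts on column words of lattice words (`S_COLW`).
-/

set_option autoImplicit false

namespace Pool.Agent.James

namespace ColwAux

theorem cnt_succ (w : ℕ → ℕ) (c m : ℕ) :
    cnt w c (m + 1) = cnt w c m + if w m = c then 1 else 0 := by
  unfold cnt
  rw [Finset.range_add_one, Finset.filter_insert]
  split_ifs with h
  · rw [Finset.card_insert_of_notMem]
    simp
  · simp

theorem cnt_zero (w : ℕ → ℕ) (c : ℕ) : cnt w c 0 = 0 := by
  simp [cnt]

theorem cnt_mono (w : ℕ → ℕ) (c : ℕ) : Monotone (cnt w c) := by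
  refine monotone_nat_of_le_succ fun m => ?_
  rw [cnt_succ]
  omega

theorem cnt_congr {w w' : ℕ → ℕ} (c : ℕ) {m : ℕ} (h : ∀ k, k < m → w k = w' k) :
    cnt w c m = cnt w' c m := by
  unfold cnt
  congr 1
  refine Finset.filter_congr fun k hk => ?_
  rw [h k (Finset.mem_range.1 hk)]

/-- the positions with a given letter and given number of previous occurrences -/
theorem cnt_inj {w : ℕ → ℕ} {k k' : ℕ} (h1 : w k = w k') (h2 : cnt w (w k) k = cnt w (w k') k') :
    k = k' := by
  by_contra hne
  rcases Nat.lt_or_gt_of_ne hne with h | h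
  · have a1 := cnt_succ w (w k) k
    rw [if_pos rfl] at a1
    have a2 := cnt_mono w (w k) (show k + 1 ≤ k' from h)
    rw [← h1] at h2
    omega
  · have a1 := cnt_succ w (w k') k'
    rw [if_pos rfl] at a1
    have a2 := cnt_mono w (w k') (show k' + 1 ≤ k from h)
    rw [h1] at h2
    omega

theorem cnt_ivt (w : ℕ → ℕ) (r c : ℕ) : ∀ m, c < cnt w r m → ∃ k, k < m ∧ w k = r ∧
    cnt w r k = c := by
  intro m
  induction m with
  | zero => intro h; rw [cnt_zero] at h; omega
  | succ m ih =>
    intro h
    by_cases h1 : c < cnt w r m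
    · obtain ⟨k, hk, h2⟩ := ih h1
      exact ⟨k, by omega, h2⟩
    · rw [cnt_succ] at h
      split_ifs at h with h2
      · exact ⟨m, by omega, h2, by omega⟩
      · omega

/-- The number of positions before `m` in column `c`. -/
theorem cnt_col (w : ℕ → ℕ) (c m B : ℕ) (hB : ∀ k, k < m → w k < B) :
    ((Finset.range m).filter (fun k => cnt w (w k) k = c)).card =
      ((Finset.range B).filter (fun r => c < cnt w r m)).card := by
  refine Finset.card_bij (fun k _ => w k) ?_ ?_ ?_
  · intro k hk
    rw [Finset.mem_filter, Finset.mem_range] at hk ⊢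
    refine ⟨hB k hk.1, ?_⟩
    have a1 := cnt_succ w (w k) k
    rw [if_pos rfl] at a1
    have a2 := cnt_mono w (w k) (show k + 1 ≤ m from hk.1)
    omega
  · intro k hk k' hk' h
    rw [Finset.mem_filter] at hk hk'
    exact cnt_inj h (hk.2.trans hk'.2.symm)
  · intro r hr
    rw [Finset.mem_filter] at hr
    obtain ⟨k, hk, h1, h2⟩ := cnt_ivt w r c m hr.2
    refine ⟨k, ?_, h1⟩
    rw [Finset.mem_filter, Finset.mem_range, h1]
    exact ⟨hk, h2⟩

theorem lat_le {n : ℕ} {w : ℕ → ℕ} (h : IsLat n w) {r r' m : ℕ} (hr : r ≤ r') (hm : m ≤ n) :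
    cnt w r' m ≤ cnt w r m := by
  induction r', hr using Nat.le_induction with
  | base => exact le_rfl
  | succ k _ ih => exact (h k m hm).trans ih

theorem colw_lt {n : ℕ} (w : ℕ → ℕ) {k : ℕ} (hk : k < n) : colw n w k = cnt w (w k) k := by
  unfold colw
  rw [if_pos hk]

theorem colw_ge {n : ℕ} (w : ℕ → ℕ) {k : ℕ} (hk : n ≤ k) : colw n w k = 0 := by
  unfold colw
  rw [if_neg (by omega)]

theorem letter_lt {n : ℕ} {μ : Ptn n} {w : ℕ → ℕ} (h : IsWord n μ.part w) {k : ℕ} (hk : k < n) :
    w k < n := by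
  by_contra hc
  have h1 := h.2 (w k)
  rw [μ.zero (w k) (by omega)] at h1
  have a1 := cnt_succ w (w k) k
  rw [if_pos rfl] at a1
  have a2 := cnt_mono w (w k) (show k + 1 ≤ n from hk)
  omega

theorem cnt_colw {n : ℕ} (w : ℕ → ℕ) (c : ℕ) {m : ℕ} (hm : m ≤ n) :
    cnt (colw n w) c m = ((Finset.range m).filter (fun k => cnt w (w k) k = c)).card := by
  unfold cnt
  congr 1
  refine Finset.filter_congr fun k hk => ?_
  rw [colw_lt w (lt_of_lt_of_le (Finset.mem_range.1 hk) hm)]
  rfl

theorem cnt_sw_ne {j : ℕ} (w : ℕ → ℕ) (c : ℕ) {m : ℕ} (hm : m ≠ j + 1) :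
    cnt (sw j w) c m = cnt w c m := by
  rcases Nat.lt_or_ge m (j + 1) with h | h
  · refine cnt_congr c fun k hk => ?_
    exact sw_ne w (by omega) (by omega)
  · exact cnt_sw (by omega) w c

theorem cnt_sw_eq (j : ℕ) (w : ℕ → ℕ) (c : ℕ) :
    cnt (sw j w) c (j + 1) = cnt w c j + if w (j + 1) = c then 1 else 0 := by
  rw [cnt_succ, sw_left, cnt_sw_ne w c (by omega)]

/-- A prefix criterion for the lattice property of `sw j w`. -/
theorem isLat_sw {n j : ℕ} {w : ℕ → ℕ} (h : IsLat n w) (hj : j + 1 < n)
    (hb : ∀ r, r + 1 = w (j + 1) → cnt w (r + 1) j + 1 ≤ cnt w r j) : IsLat n (sw j w) := by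
  intro r m hm
  by_cases h1 : m = j + 1
  · subst h1
    rw [cnt_sw_eq, cnt_sw_eq]
    have h2 := h r j (by omega)
    by_cases h3 : r + 1 = w (j + 1)
    · have := hb r h3
      rw [if_pos h3.symm, if_neg (by omega)]
      omega
    · rw [if_neg (fun h => h3 h.symm)]
      omega
  · rw [cnt_sw_ne w _ h1, cnt_sw_ne w _ h1]
    exact h r m hm

end ColwAux

open ColwAux in
theorem colw_facts : S_COLW := by
  intro n μ t
  obtain ⟨⟨w, hw⟩, hl⟩ := t
  simp only at hl ⊢
  have f3 : ∀ j, j + 1 < n → w (j + 1) < w j → colw n w j < colw n w (j + 1) := by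
    intro j hj h
    rw [colw_lt w (by omega), colw_lt w hj]
    have a1 := cnt_succ w (w j) j
    rw [if_pos rfl] at a1
    have a2 := lat_le hl h.le (show j + 1 ≤ n by omega)
    omega
  have f4 : ∀ j, j + 1 < n → colw n w (j + 1) < colw n w j → w j < w (j + 1) := by
    intro j hj h
    by_contra hc
    rcases Nat.eq_or_lt_of_not_lt hc with h1 | h1
    · rw [colw_lt w hj, colw_lt w (show j < n by omega), ← h1] at h
      have a1 := cnt_succ w (w j) j
      rw [if_pos rfl] at a1
      omega
    · have := f3 j hj h1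
      omega
  refine ⟨⟨fun k hk => colw_ge w hk, fun c => ?_⟩, ?_, f3, f4, ?_, ?_, ?_⟩
  · rw [cnt_colw w c le_rfl, cnt_col w c n n (fun k hk => letter_lt hw hk)]
    unfold Ptn.conj
    congr 1
    refine Finset.filter_congr fun r _ => ?_
    rw [hw.2 r]
  · funext k
    rcases Nat.lt_or_ge k n with hk | hk
    · rw [colw_lt _ hk, cnt_colw w _ hk.le, colw_lt w hk,
        cnt_col w _ k n (fun i hi => letter_lt hw (by omega))]
      have : (Finset.range n).filter (fun r => cnt w (w k) k < cnt w r k) =
          Finset.range (w k) := by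
        ext r
        rw [Finset.mem_filter, Finset.mem_range, Finset.mem_range]
        constructor
        · rintro ⟨_, h2⟩
          by_contra hc
          have := lat_le hl (show w k ≤ r by omega) hk.le
          omega
        · intro hr
          refine ⟨hr.trans (letter_lt hw hk), ?_⟩
          have a1 := cnt_succ w (w k) k
          rw [if_pos rfl] at a1
          have a2 := lat_le hl hr.le (show k + 1 ≤ n by omega)
          have a3 := cnt_succ w r k
          rw [if_neg (by omega)] at a3
          omega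
      rw [this, Finset.card_range]
    · rw [colw_ge _ hk, hw.1 k hk]
  · intro j hj h
    refine isLat_sw hl hj fun r hr => ?_
    have h1 := hl r (j + 2) (by omega)
    have a1 := cnt_succ w (r + 1) (j + 1)
    have a2 := cnt_succ w (r + 1) j
    have a3 := cnt_succ w r (j + 1)
    have a4 := cnt_succ w r j
    rw [if_pos hr.symm] at a1
    rw [if_neg (by omega)] at a3 a4
    have a5 : cnt w (r + 1) j ≤ cnt w (r + 1) (j + 1) := cnt_mono w _ (by omega)
    have e : j + 2 = j + 1 + 1 := rfl
    rw [e] at h1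
    omega
  · intro j hj h
    refine isLat_sw hl hj fun r hr => ?_
    have h0 := f4 j hj h
    have h1 := hl r (j + 2) (by omega)
    have a1 := cnt_succ w (r + 1) (j + 1)
    have a2 := cnt_succ w (r + 1) j
    have a3 := cnt_succ w r (j + 1)
    have a4 := cnt_succ w r j
    rw [if_pos hr.symm] at a1
    rw [if_neg (by omega)] at a2 a3
    have e : j + 2 = j + 1 + 1 := rfl
    rw [e] at h1
    by_cases hc : w j = r
    · rw [colw_lt w hj, colw_lt w (show j < n by omega), ← hr, hc] at h
      omega
    · rw [if_neg hc] at a4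
      omega
  · intro j hj hne
    funext k
    by_cases h1 : k = j
    · subst h1
      rw [sw_left, colw_lt _ (by omega), colw_lt _ hj, sw_left, cnt_sw_ne w _ (by omega), cnt_succ,
        if_neg hne]
      rfl
    · by_cases h2 : k = j + 1
      · subst h2
        rw [sw_right, colw_lt _ hj, colw_lt _ (by omega), sw_right, cnt_sw_eq,
          if_neg (fun h => hne h.symm)]
        rfl
      · rw [sw_ne _ h1 h2]
        rcases Nat.lt_or_ge k n with hk | hk
        · rw [colw_lt _ hk, colw_lt _ hk, sw_ne _ h1 h2, cnt_sw_ne w _ h2]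
        · rw [colw_ge _ hk, colw_ge _ hk]

end Pool.Agent.James
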