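import Pool.Agent.James.Stmts

/-!
Completeness: every finite dimensional simple module of the Hecke algebra over a field is some
`D^μ` (module JS_COMP).
-/

set_option autoImplicit false

namespace Pool.Agent.James

namespace Complete

section FamMap
variable {R : Type*} [CommRing R] {n : ℕ} {ν : ℕ → ℕ}
  {V W : Type*} [AddCommGroup V] [Module R V] [AddCommGroup W] [Module R W]

omit [Module R V] [Module R W] in
theorem famAux_map (q : R) [Module (Hecke R q n) V] [Module (Hecke R q n) W]
    (φ : V →ₗ[Hecke R q n] W) (u : V) (m : ℕ) :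
    ∀ w : ℕ → ℕ, famAux q n (φ u) m w = φ (famAux q n u m w) := by
  induction m with
  | zero =>
    intro w
    rfl
  | succ m ih =>
    intro w
    unfold famAux
    split_ifs with h
    · rw [ih, map_smul]
    · rfl

omit [Module R V] [Module R W] in
/-- Module maps commute with the formation of families. -/
theorem fam_map (q : R) [Module (Hecke R q n) V] [Module (Hecke R q n) W]
    (φ : V →ₗ[Hecke R q n] W) (u : V) (w : Wd n ν) :
    fam q ν (φ u) w = φ (fam q ν u w) := famAux_map q φ u _ _

omit [Module R W] [AddCommGroup W] in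
/-- The span of a family is stable under the generators. -/
theorem fam_span_stable (q : R) [Module (Hecke R q n) V] [IsScalarTower R (Hecke R q n) V]
    {ε : R} {g : Wd n ν → V} (hg : IsFam q ε g) {j : ℕ} (hj : j + 1 < n) {x : V}
    (hx : x ∈ Submodule.span R (Set.range g)) :
    gT R q n j • x ∈ Submodule.span R (Set.range g) := by
  induction hx using Submodule.span_induction with
  | mem x hx =>
    obtain ⟨w, rfl⟩ := hx
    rcases lt_trichotomy (w.1 j) (w.1 (j + 1)) with h | h | h
    · rw [(hg w j hj).1 h]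
      exact Submodule.subset_span ⟨_, rfl⟩
    · rw [(hg w j hj).2 h]
      exact Submodule.smul_mem _ _ (Submodule.subset_span ⟨_, rfl⟩)
    · have h' : (swW j w).1 j < (swW j w).1 (j + 1) := by
        rw [swW_left hj, swW_right hj]
        exact h
      have h1 := (hg (swW j w) j hj).1 h'
      rw [swW_swW] at h1
      have h2 : gT R q n j • g w = (q - 1) • g w + q • g (swW j w) := by
        conv_lhs => rw [← h1]
        rw [smul_smul, gT_rel.quad j hj, add_smul, smul_assoc, smul_assoc, one_smul, h1]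
      rw [h2]
      exact Submodule.add_mem _ (Submodule.smul_mem _ _ (Submodule.subset_span ⟨_, rfl⟩))
        (Submodule.smul_mem _ _ (Submodule.subset_span ⟨_, rfl⟩))
  | zero =>
    rw [smul_zero]
    exact Submodule.zero_mem _
  | add x y _ _ hx hy =>
    rw [smul_add]
    exact Submodule.add_mem _ hx hy
  | smul a x _ hx =>
    have h2 : gT R q n j • a • x = a • gT R q n j • x := by
      rw [← algebraMap_smul (Hecke R q n) a x, ← algebraMap_smul (Hecke R q n) a (gT R q n j • x),
        smul_smul, smul_smul, Algebra.commutes]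
    rw [h2]
    exact Submodule.smul_mem _ _ hx

end FamMap

theorem isComp_part {n : ℕ} (μ : Ptn n) : IsComp n μ.part := ⟨n, μ.zero, μ.sum⟩

/-- The dimension of the Specht module. -/
theorem finrank_specht (hIND : S_IND) (hBAS : S_BAS) {F : Type} [Field F] {q : F} {n : ℕ}
    (μ : Ptn n) (hq : q ≠ 0) (hq1 : 1 + q ≠ 0) :
    Module.finrank F (Specht F q μ) = Fintype.card (Lat μ) := by
  have h1 := hIND F q n μ (mem_nonZeroDivisors_of_ne_zero hq) (mem_nonZeroDivisors_of_ne_zero hq1)
  have h2 := hBAS F q n μ (mem_nonZeroDivisors_of_ne_zero hq) (mem_nonZeroDivisors_of_ne_zero hq1)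
  have h3 := finrank_span_eq_card h1
  rw [h2] at h3
  rw [← h3]
  exact (LinearEquiv.finrank_eq ((Submodule.restrictScalarsEquiv F (Hecke F q n)
    (Lam F q n μ.conj) (Specht F q μ)).restrictScalars F)).symm

instance finite_lam {F : Type} [Field F] {q : F} {n : ℕ} {ν : ℕ → ℕ} :
    FiniteDimensional F (Lam F q n ν) :=
  inferInstanceAs (FiniteDimensional F (Wd n ν → F))

instance finite_specht {F : Type} [Field F] {q : F} {n : ℕ} (μ : Ptn n) :
    FiniteDimensional F (Specht F q μ) :=
  FiniteDimensional.finiteDimensional_submodule ((Specht F q μ).restrictScalars F)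

/-- The generator of the Specht module, as an element of it. -/
noncomputable def zel (F : Type) [Field F] (q : F) {n : ℕ} (μ : Ptn n) : Specht F q μ :=
  ⟨zvec F q μ, Submodule.subset_span rfl⟩

theorem span_zel {F : Type} [Field F] {q : F} {n : ℕ} (μ : Ptn n) (x : Specht F q μ) :
    ∃ h : Hecke F q n, x = h • zel F q μ := by
  obtain ⟨h, hh⟩ := Submodule.mem_span_singleton.1 x.2
  exact ⟨h, Subtype.ext hh.symm⟩

open scoped Classical in
/-- The belt sums of the family of a vector `h • e` vanish for a module killed by the invariants of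
the Garnir composition. -/
theorem belt_zero_left (hDIAM : S_DIAM) (hBELT : S_BELT) {F : Type} [Field F] {q : F} {n : ℕ}
    {V : Type} [AddCommGroup V] [Module F V] [Module (Hecke F q n) V]
    [IsScalarTower F (Hecke F q n) V] {μ : Ptn n} {w0 : Wd n μ.part} (hw0 : Sorted n w0.1)
    (hw0' : ∀ j, j + 1 < n → (w0.1 j = w0.1 (j + 1) ↔ InY μ.part j))
    {h0 : Hecke F q n} {e : V} (hL : LInv q n μ.part h0) {r c : ℕ} (hc : c < μ.part (r + 1))
    (hmax : ∀ h : Hecke F q n, LInv q n (garComp μ.part r c) h → ∀ v : V, h • v = 0) :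
    ∑ w ∈ Finset.univ.filter (fun w : Wd n μ.part => InBelt μ.part r c w0.1 w.1),
      fam q μ.part (h0 • e) w = 0 := by
  have h1 := hDIAM F q q n μ.part (Hecke F q n) w0 h0 hw0
    (fun j hj hw => hL j hj ((hw0' j hj).1 hw))
  have h2 := hBELT F q n μ (Hecke F q n) _ w0 hw0 h1.2 r c hc
  have h3 := hmax _ h2 e
  rw [Finset.sum_smul] at h3
  rw [← h3]
  refine Finset.sum_congr rfl fun w _ => ?_
  exact fam_map q (LinearMap.toSpanSingleton (Hecke F q n) V e) h0 w

open scoped Classical in
/-- The belt sums of the family of `z` vanish. -/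
theorem belt_zero_right (hDIAM : S_DIAM) (hBELT : S_BELT) (hINV : S_INV) (hNO : S_NOWORD)
    (hZINV : S_ZINV) {F : Type} [Field F] {q : F} {n : ℕ} (hq : q ≠ 0) (hq1 : 1 + q ≠ 0)
    {μ : Ptn n} {w0 : Wd n μ.part} (hw0 : Sorted n w0.1)
    (hw0' : ∀ j, j + 1 < n → (w0.1 j = w0.1 (j + 1) ↔ InY μ.part j))
    {r c : ℕ} (hc : c < μ.part (r + 1)) :
    ∑ w ∈ Finset.univ.filter (fun w : Wd n μ.part => InBelt μ.part r c w0.1 w.1),
      fam q μ.part (zvec F q μ) w = 0 := by
  have h1 := hDIAM F q q n μ.part (Lam F q n μ.conj) w0 (zvec F q μ) hw0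
    (fun j hj hw => hZINV F q n μ j hj ((hw0' j hj).1 hw))
  have h2 := hBELT F q n μ (Lam F q n μ.conj) _ w0 hw0 h1.2 r c hc
  have h3 := (hINV F q n μ.conj (garComp μ.part r c) _ (mem_nonZeroDivisors_of_ne_zero hq)
    (mem_nonZeroDivisors_of_ne_zero hq1) h2).1
  funext w
  exact h3 w (hNO n μ r c hc w)

end Complete

open Complete in
theorem comp (hMAX : S_MAX) (hDIAM : S_DIAM) (hSRT : S_SRT) (hZINV : S_ZINV) (hINV : S_INV)
    (hBELT : S_BELT) (hNO : S_NOWORD) (hSPAN : S_SPAN) (hIND : S_IND) (hBAS : S_BAS)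
    (hSUBT : S_SUBT) : S_COMP := by
  classical
  intro F _ q n V _ _ _ _ _ _ hq hq1
  have hnt : Nontrivial V := IsSimpleModule.nontrivial (Hecke F q n) V
  obtain ⟨μ, ⟨h0, e, hL, hne⟩, hmax⟩ := hMAX F q n V hq
  refine ⟨μ, ?_⟩
  obtain ⟨w0, hw0, hw0'⟩ := (hSRT n μ.part).1 (isComp_part μ)
  -- the family of (u, z)
  obtain ⟨p, hp⟩ : ∃ p : V × Specht F q μ, p = (h0 • e, zel F q μ) := ⟨_, rfl⟩
  have hpinv : ∀ j, j + 1 < n → w0.1 j = w0.1 (j + 1) → gT F q n j • p = q • p := by
    intro j hj hw
    have hY := (hw0' j hj).1 hw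
    rw [hp]
    refine Prod.ext ?_ ?_
    · have : gT F q n j • h0 • e = q • h0 • e := by
        rw [smul_smul, hL j hj hY, smul_assoc]
      exact this
    · exact Subtype.ext (hZINV F q n μ j hj hY)
  obtain ⟨hfam0, hfam⟩ := hDIAM F q q n μ.part (V × Specht F q μ) w0 p hw0 hpinv
  have hf1 : ∀ w : Wd n μ.part, (fam q μ.part p w).1 = fam q μ.part (h0 • e) w := by
    intro w
    have := fam_map q (LinearMap.fst (Hecke F q n) V (Specht F q μ)) p w
    rw [LinearMap.fst_apply, LinearMap.fst_apply, hp] at this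
    rw [hp]
    exact this.symm
  have hf2 : ∀ w : Wd n μ.part, ((fam q μ.part p w).2 : Lam F q n μ.conj) =
      fam q μ.part (zvec F q μ) w := by
    intro w
    have := fam_map q ((Specht F q μ).subtype.comp
      (LinearMap.snd (Hecke F q n) V (Specht F q μ))) p w
    rw [hp] at this ⊢
    exact this.symm
  have hbelt : ∀ r c, c < μ.part (r + 1) →
      ∑ w ∈ Finset.univ.filter (fun w : Wd n μ.part => InBelt μ.part r c w0.1 w.1),
        fam q μ.part p w = 0 := by
    intro r c hc
    have b1 := belt_zero_left hDIAM hBELT hw0 hw0' (e := e) hL hc (hmax r c hc)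
    have b2 := belt_zero_right hDIAM hBELT hINV hNO hZINV hq hq1 hw0 hw0' hc
    refine Prod.ext ?_ (Subtype.ext ?_)
    · rw [Prod.fst_sum, Prod.fst_zero, ← b1]
      exact Finset.sum_congr rfl fun w _ => hf1 w
    · rw [Prod.snd_sum, Prod.snd_zero, Submodule.coe_sum, Submodule.coe_zero, ← b2]
      exact Finset.sum_congr rfl fun w _ => hf2 w
  have hspan := hSPAN F q n μ (V × Specht F q μ) _ w0 hw0 hfam hbelt
  -- the submodule generated by (u, z)
  have hspan2 : Submodule.span F (Set.range (fun w : Wd n μ.part => fam q μ.part p w)) ≤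
      Submodule.span F (Set.range (fun t : Lat μ => fam q μ.part p t.1)) := by
    rw [Submodule.span_le]
    rintro _ ⟨w, rfl⟩
    exact hspan w
  obtain ⟨G, hG⟩ : ∃ G : Submodule (Hecke F q n) (V × Specht F q μ),
    G = Submodule.span (Hecke F q n) {p} := ⟨_, rfl⟩
  have hGle : G.restrictScalars F ≤
      Submodule.span F (Set.range (fun t : Lat μ => fam q μ.part p t.1)) := by
    refine le_trans ?_ hspan2
    intro x hx
    rw [Submodule.restrictScalars_mem, hG, Submodule.mem_span_singleton] at hx
    obtain ⟨a, rfl⟩ := hx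
    refine smul_mem_of_gT (fun j hj x hx => fam_span_stable q hfam hj hx) a ?_
    exact Submodule.subset_span ⟨w0, hfam0⟩
  have hdim1 : Module.finrank F G ≤ Module.finrank F (Specht F q μ) := by
    rw [finrank_specht hIND hBAS μ hq hq1]
    have e1 : Module.finrank F G = Module.finrank F (G.restrictScalars F) :=
      (LinearEquiv.finrank_eq ((Submodule.restrictScalarsEquiv F (Hecke F q n)
        (V × Specht F q μ) G).restrictScalars F)).symm
    rw [e1]
    refine (Submodule.finrank_mono hGle).trans ?_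
    exact finrank_range_le_card (R := F) (fun t : Lat μ => fam q μ.part p t.1)
  -- the projection to the Specht module
  let π : G →ₗ[Hecke F q n] Specht F q μ :=
    (LinearMap.snd (Hecke F q n) V (Specht F q μ)).comp G.subtype
  have hpG : p ∈ G := by
    rw [hG]
    exact Submodule.mem_span_singleton_self p
  have hπ : Function.Surjective π := by
    intro x
    obtain ⟨h, rfl⟩ := span_zel μ x
    refine ⟨h • ⟨p, hpG⟩, ?_⟩
    have : π (h • ⟨p, hpG⟩) = h • p.2 := rfl
    rw [this, hp]
  have hfinG : FiniteDimensional F G :=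
    FiniteDimensional.finiteDimensional_submodule (G.restrictScalars F)
  have hπ' : Function.Injective π := by
    have e1 : Module.finrank F (Specht F q μ) ≤ Module.finrank F G :=
      LinearMap.finrank_le_finrank_of_surjective (f := π.restrictScalars F) hπ
    have e2 := LinearMap.injective_iff_surjective_of_finrank_eq_finrank
      (f := π.restrictScalars F) (le_antisymm hdim1 e1)
    exact e2.2 hπ
  let π' : G ≃ₗ[Hecke F q n] Specht F q μ := LinearEquiv.ofBijective π ⟨hπ', hπ⟩
  let φ : Specht F q μ →ₗ[Hecke F q n] V :=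
    ((LinearMap.fst (Hecke F q n) V (Specht F q μ)).comp G.subtype).comp π'.symm.toLinearMap
  have hφz : φ (zel F q μ) = h0 • e := by
    have e1 : π'.symm (zel F q μ) = ⟨p, hpG⟩ := by
      rw [LinearEquiv.symm_apply_eq]
      have : π' ⟨p, hpG⟩ = p.2 := rfl
      rw [this, hp]
    have e2 : φ (zel F q μ) = (π'.symm (zel F q μ) : V × Specht F q μ).1 := rfl
    rw [e2, e1]
    exact congrArg Prod.fst hp
  have hφ0 : φ ≠ 0 := by
    intro h
    rw [h, LinearMap.zero_apply] at hφz
    exact hne hφz.symm
  have hφs : Function.Surjective φ := LinearMap.surjective_of_ne_zero hφ0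
  -- the kernel is the radical
  obtain ⟨hsub, hsimple, hnontriv⟩ := hSUBT F q n μ hq hq1
  have hkne : LinearMap.ker φ ≠ ⊤ := by
    rw [Ne, LinearMap.ker_eq_top]
    exact hφ0
  have hkle : LinearMap.ker φ ≤ spechtRad F q μ := (hsub _).resolve_left hkne
  obtain ⟨s, hs⟩ := hφs e
  have hDn : Nontrivial (Dmod F q μ) := by
    refine hnontriv h0 s.1 hL s.2 ?_
    intro h
    apply hne
    have h1 : h0 • s = 0 := Subtype.ext h
    rw [← hs, ← map_smul, h1, map_zero]
  have hradne : spechtRad F q μ ≠ ⊤ := Submodule.Quotient.nontrivial_iff.1 hDn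
  have hker : IsCoatom (LinearMap.ker φ) := by
    rw [← isSimpleModule_iff_isCoatom]
    exact IsSimpleModule.congr (φ.quotKerEquivOfSurjective hφs)
  have hkeq : LinearMap.ker φ = spechtRad F q μ := by
    rcases hkle.lt_or_eq with h | h
    · exact absurd (hker.2 _ h) hradne
    · exact h
  exact ⟨((Submodule.quotEquivOfEq _ _ hkeq).symm.trans
    (φ.quotKerEquivOfSurjective hφs)).symm⟩

end Pool.Agent.James
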