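import Pool.Agent.James.Stmts

/-!
Counting facts on words of content `λ'` (helper53): the row word, dominance, and no word for the
Garnir compositions.
-/

set_option autoImplicit false

namespace Pool.Agent.James

namespace Cn

variable {n : ℕ}

theorem ps_succ (ν : ℕ → ℕ) (r : ℕ) : ps ν (r + 1) = ps ν r + ν r := Finset.sum_range_succ _ _

theorem ps_mono (ν : ℕ → ℕ) : Monotone (ps ν) := by
  apply monotone_nat_of_le_succ
  intro r
  rw [ps_succ]
  exact Nat.le_add_right _ _

theorem ps_top (μ : Ptn n) : ps μ.part n = n := μ.sum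

theorem ps_ge (μ : Ptn n) {k : ℕ} (hk : n ≤ k) : ps μ.part k = n := by
  induction k, hk using Nat.le_induction with
  | base => exact ps_top μ
  | succ k hk ih => rw [ps_succ, ih, μ.zero k hk, add_zero]

theorem ps_le (μ : Ptn n) (k : ℕ) : ps μ.part k ≤ n := by
  rcases le_total k n with h | h
  · exact (ps_mono _ h).trans (ps_top μ).le
  · exact (ps_ge μ h).le

theorem part_le (μ : Ptn n) (r : ℕ) : μ.part r ≤ n := by
  have h1 := ps_le μ (r + 1)
  rw [ps_succ] at h1
  omega

/-- The number of rows longer than `c` among the first `k` rows. -/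
def mc (μ : ℕ → ℕ) (k c : ℕ) : ℕ := ((Finset.range k).filter (fun r => c < μ r)).card

theorem mc_succ (μ : ℕ → ℕ) (k c : ℕ) : mc μ (k + 1) c = mc μ k c + if c < μ k then 1 else 0 := by
  unfold mc
  rw [Finset.card_filter, Finset.card_filter, Finset.sum_range_succ]

theorem sum_mc (μ : Ptn n) (k : ℕ) : ∑ c ∈ Finset.range n, mc μ.part k c = ps μ.part k := by
  unfold mc ps
  simp only [Finset.card_filter]
  rw [Finset.sum_comm]
  apply Finset.sum_congr rfl
  intro r _
  rw [← Finset.card_filter]
  have : (Finset.range n).filter (fun c => c < μ.part r) = Finset.range (μ.part r) := by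
    ext c
    rw [Finset.mem_filter, Finset.mem_range, Finset.mem_range]
    have := part_le μ r
    omega
  rw [this, Finset.card_range]

theorem le_mc (μ : Ptn n) (k c a : ℕ) (h1 : a ≤ k) (h2 : a ≤ μ.conj c) : a ≤ mc μ.part k c := by
  by_cases h : ∀ r < k, c < μ.part r
  · have : mc μ.part k c = k := by
      unfold mc
      rw [Finset.filter_true_of_mem (fun r hr => h r (Finset.mem_range.1 hr)), Finset.card_range]
    omega
  · push Not at h
    obtain ⟨r0, hr0, hc⟩ := h
    refine h2.trans ?_
    unfold mc Ptn.conj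
    apply Finset.card_le_card
    intro r hr
    rw [Finset.mem_filter, Finset.mem_range] at hr ⊢
    refine ⟨?_, hr.2⟩
    by_contra hk
    have := μ.anti (show r0 ≤ r by omega)
    omega

theorem letter_lt (μ : Ptn n) (w : Wd n μ.conj) {k : ℕ} (hk : k < n) : w.1 k < n := by
  have h1 : 0 < cnt w.1 (w.1 k) n := by
    unfold cnt
    rw [Finset.card_pos]
    exact ⟨k, by rw [Finset.mem_filter, Finset.mem_range]; exact ⟨hk, rfl⟩⟩
  rw [w.2.2] at h1
  unfold Ptn.conj at h1
  rw [Finset.card_pos] at h1
  obtain ⟨r, hr⟩ := h1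
  rw [Finset.mem_filter] at hr
  have := part_le μ r
  omega

/-- The basic estimate. -/
theorem fiber_le (μ : Ptn n) (w : Wd n μ.conj) (S : Finset ℕ) (hS : ∀ l ∈ S, l < n) (k : ℕ)
    (h : ∀ c, (S.filter (fun l => w.1 l = c)).card ≤ k) (c : ℕ) :
    (S.filter (fun l => w.1 l = c)).card ≤ mc μ.part k c := by
  apply le_mc μ k c _ (h c)
  rw [← w.2.2 c]
  unfold cnt
  apply Finset.card_le_card
  intro l hl
  rw [Finset.mem_filter] at hl ⊢
  exact ⟨Finset.mem_range.2 (hS l hl.1), hl.2⟩

theorem card_fib (μ : Ptn n) (w : Wd n μ.conj) (S : Finset ℕ) (hS : ∀ l ∈ S, l < n) :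
    S.card = ∑ c ∈ Finset.range n, (S.filter (fun l => w.1 l = c)).card := by
  apply Finset.card_eq_sum_card_fiberwise
  intro l hl
  exact Finset.mem_coe.2 (Finset.mem_range.2 (letter_lt μ w (hS l hl)))

theorem card_le (μ : Ptn n) (w : Wd n μ.conj) (S : Finset ℕ) (hS : ∀ l ∈ S, l < n) (k : ℕ)
    (h : ∀ c, (S.filter (fun l => w.1 l = c)).card ≤ k) : S.card ≤ ps μ.part k := by
  rw [card_fib μ w S hS, ← sum_mc]
  exact Finset.sum_le_sum (fun c _ => fiber_le μ w S hS k h c)

theorem card_eq (μ : Ptn n) (w : Wd n μ.conj) (S : Finset ℕ) (hS : ∀ l ∈ S, l < n) (k : ℕ)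
    (h : ∀ c, (S.filter (fun l => w.1 l = c)).card ≤ k) (he : S.card = ps μ.part k) (c : ℕ)
    (hc : c < n) : (S.filter (fun l => w.1 l = c)).card = mc μ.part k c := by
  rw [card_fib μ w S hS, ← sum_mc] at he
  exact (Finset.sum_eq_sum_iff_of_le (fun c _ => fiber_le μ w S hS k h c)).1 he c
    (Finset.mem_range.2 hc)

/-- In a block a letter occurs at most once. -/
theorem block_le_one {ν w : ℕ → ℕ} (h : BlockDistinct n ν w) (c s : ℕ) {a b : ℕ}
    (ha : ps ν s ≤ a) (hb : b ≤ ps ν (s + 1)) (hn : b ≤ n) :
    ((Finset.Ico a b).filter (fun l => w l = c)).card ≤ 1 := by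
  have key : ∀ x y : ℕ, a ≤ x → x < y → y < b → w x ≠ w y := by
    intro x y hx hxy hy
    apply h x y hxy (by omega)
    rintro r ⟨hr1, hr2⟩
    have h1 : s < r := by
      by_contra hcon
      have := ps_mono ν (show r ≤ s by omega)
      omega
    have := ps_mono ν (show s + 1 ≤ r by omega)
    omega
  rw [Finset.card_le_one]
  intro x hx y hy
  rw [Finset.mem_filter, Finset.mem_Ico] at hx hy
  by_contra hne
  rcases Nat.lt_or_gt_of_ne hne with hlt | hlt
  · exact key x y hx.1.1 hlt hy.1.2 (by rw [hx.2, hy.2])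
  · exact key y x hy.1.1 hlt hx.1.2 (by rw [hx.2, hy.2])

theorem cnt_split (w : ℕ → ℕ) (c : ℕ) {m m' : ℕ} (h : m ≤ m') :
    cnt w c m' = cnt w c m + ((Finset.Ico m m').filter (fun l => w l = c)).card := by
  unfold cnt
  rw [Finset.card_filter, Finset.card_filter, Finset.card_filter, Finset.sum_range_add_sum_Ico _ h]

theorem cnt_ps_le {ν w : ℕ → ℕ} (h : BlockDistinct n ν w) (c k : ℕ) (hk : ps ν k ≤ n) :
    cnt w c (ps ν k) ≤ k := by
  induction k with
  | zero =>
    unfold cnt ps
    simp
  | succ k ih =>
    have h1 : ps ν k ≤ ps ν (k + 1) := ps_mono ν (Nat.le_succ k)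
    rw [cnt_split w c h1]
    have h2 := ih (h1.trans hk)
    have h3 := block_le_one h c k (le_refl _) (le_refl _) hk
    omega

end Cn

open Cn

theorem dom : S_DOM := by
  intro n μ ν w h k
  have h1 := card_le μ w (Finset.range (ps ν.part k)) (by
    intro l hl
    have := ps_le ν k
    rw [Finset.mem_range] at hl
    omega) k (fun c => cnt_ps_le h c k (ps_le ν k))
  rw [Finset.card_range] at h1
  exact h1

namespace Cn

theorem gar_low (μ : ℕ → ℕ) (r c : ℕ) {i : ℕ} (hi : i ≤ r) : ps (garComp μ r c) i = ps μ i := by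
  unfold ps
  apply Finset.sum_congr rfl
  intro j hj
  rw [Finset.mem_range] at hj
  unfold garComp
  rw [if_pos (by omega)]

theorem gar_one (μ : ℕ → ℕ) (r c : ℕ) : ps (garComp μ r c) (r + 1) = ps μ r + c := by
  rw [ps_succ, gar_low μ r c (le_refl r)]
  unfold garComp
  rw [if_neg (by omega), if_pos rfl]

theorem gar_two (μ : ℕ → ℕ) (r c : ℕ) : ps (garComp μ r c) (r + 2) = ps μ (r + 1) + c + 1 := by
  rw [ps_succ (garComp μ r c) (r + 1), gar_one, ps_succ]
  unfold garComp
  rw [if_neg (by omega), if_neg (by omega), if_pos rfl]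
  omega

theorem gar_high (μ : ℕ → ℕ) (r c : ℕ) (hc : c < μ (r + 1)) {i : ℕ} (hi : r + 2 ≤ i) :
    ps (garComp μ r c) (i + 1) = ps μ i := by
  induction i, hi using Nat.le_induction with
  | base =>
    rw [ps_succ (garComp μ r c) (r + 2), gar_two, ps_succ μ (r + 1)]
    unfold garComp
    rw [if_neg (by omega), if_neg (by omega), if_neg (by omega), if_pos rfl]
    omega
  | succ i hi ih =>
    rw [ps_succ (garComp μ r c) (i + 1), ih, ps_succ μ i]
    unfold garComp
    rw [if_neg (by omega), if_neg (by omega), if_neg (by omega), if_neg (by omega)]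
    rfl

end Cn

theorem noword : S_NOWORD := by
  intro n μ r c hc w h
  have e1 := gar_one μ.part r c
  have e2 := gar_two μ.part r c
  have e3 := ps_succ μ.part r
  have e4 := ps_succ μ.part (r + 1)
  have e5 := ps_le μ (r + 1 + 1)
  have e6 := μ.anti (Nat.le_succ r)
  have e7 : μ.part (r + 1) ≤ μ.part r := e6
  have h1 := card_le μ w (Finset.range (ps μ.part r) ∪
    Finset.Ico (ps μ.part r + c) (ps μ.part (r + 1) + c + 1)) (by
      intro l hl
      rw [Finset.mem_union, Finset.mem_range, Finset.mem_Ico] at hl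
      omega) (r + 1) (by
      intro x
      rw [Finset.filter_union]
      refine (Finset.card_union_le _ _).trans ?_
      have h2 := cnt_ps_le h x r (by rw [gar_low μ.part r c (le_refl r)]; omega)
      rw [gar_low μ.part r c (le_refl r)] at h2
      unfold cnt at h2
      have h3 := block_le_one h x (r + 1) (a := ps μ.part r + c) (b := ps μ.part (r + 1) + c + 1)
        e1.le e2.ge (by omega)
      omega)
  rw [Finset.card_union_of_disjoint, Finset.card_range, Nat.card_Ico] at h1
  · omega
  · rw [Finset.disjoint_left]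
    intro l hl hl'
    rw [Finset.mem_range] at hl
    rw [Finset.mem_Ico] at hl'
    omega

namespace Cn

variable {n : ℕ}

/-- In a block distinct word the letter `c` occurs `mc k c` times in the first `k` blocks. -/
theorem cnt_row (μ : Ptn n) (w : Wd n μ.conj) (h : BlockDistinct n μ.part w.1) (k c : ℕ)
    (hc : c < n) : cnt w.1 c (ps μ.part k) = mc μ.part k c := by
  unfold cnt
  exact card_eq μ w (Finset.range (ps μ.part k)) (by
    intro l hl
    have := ps_le μ k
    rw [Finset.mem_range] at hl
    omega) k (fun c => cnt_ps_le h c k (ps_le μ k)) (Finset.card_range _) c hc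

/-- The letters in block `r` are smaller than `μ_r`. -/
theorem letter_lt_row (μ : Ptn n) (w : Wd n μ.conj) (h : BlockDistinct n μ.part w.1) {r l : ℕ}
    (h1 : ps μ.part r ≤ l) (h2 : l < ps μ.part (r + 1)) : w.1 l < μ.part r := by
  have hl : l < n := by
    have := ps_le μ (r + 1)
    omega
  have hx := letter_lt μ w hl
  have a1 := cnt_row μ w h r (w.1 l) hx
  have a2 := cnt_row μ w h (r + 1) (w.1 l) hx
  rw [mc_succ, cnt_split w.1 (w.1 l) (ps_mono _ (Nat.le_succ r)), a1] at a2
  have a3 : 0 < ((Finset.Ico (ps μ.part r) (ps μ.part (r + 1))).filter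
      (fun k => w.1 k = w.1 l)).card := by
    rw [Finset.card_pos]
    exact ⟨l, by rw [Finset.mem_filter, Finset.mem_Ico]; exact ⟨⟨h1, h2⟩, rfl⟩⟩
  by_contra hcon
  rw [if_neg hcon] at a2
  have a4 : (Finset.Ico (ps μ.part r) (ps μ.part r.succ)) =
    (Finset.Ico (ps μ.part r) (ps μ.part (r + 1))) := rfl
  rw [a4] at a2
  omega

/-- The row of a position. -/
def row (μ : ℕ → ℕ) (n k : ℕ) : ℕ := Nat.findGreatest (fun r => ps μ r ≤ k) n

theorem row_le (μ : ℕ → ℕ) (n k : ℕ) : ps μ (row μ n k) ≤ k :=
  Nat.findGreatest_spec (P := fun r => ps μ r ≤ k) (m := 0) (n := n) (Nat.zero_le _)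
    (by unfold ps; simp)

theorem row_lt (μ : Ptn n) {k : ℕ} (hk : k < n) : k < ps μ.part (row μ.part n k + 1) := by
  by_contra hcon
  push Not at hcon
  have h1 : row μ.part n k ≤ n := Nat.findGreatest_le n
  rcases Nat.lt_or_ge (row μ.part n k) n with h | h
  · have := Nat.findGreatest_is_greatest (P := fun r => ps μ.part r ≤ k) (n := n)
      (k := row μ.part n k + 1) (Nat.lt_succ_self _) h
    exact this hcon
  · have h2 : row μ.part n k = n := le_antisymm h1 h
    have := row_le μ.part n k
    rw [h2, ps_top] at this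
    omega

theorem row_eq (μ : Ptn n) {r k : ℕ} (hk : k < n) (h1 : ps μ.part r ≤ k)
    (h2 : k < ps μ.part (r + 1)) : row μ.part n k = r := by
  have a1 := row_le μ.part n k
  have a2 := row_lt μ hk
  rcases lt_trichotomy (row μ.part n k) r with h | h | h
  · have := ps_mono μ.part (show row μ.part n k + 1 ≤ r by omega)
    omega
  · exact h
  · have := ps_mono μ.part (show r + 1 ≤ row μ.part n k by omega)
    omega

/-- The row word. -/
def rword (μ : ℕ → ℕ) (n k : ℕ) : ℕ := if k < n then k - ps μ (row μ n k) else 0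

theorem rword_eq (μ : Ptn n) {r k : ℕ} (h1 : ps μ.part r ≤ k) (h2 : k < ps μ.part (r + 1)) :
    rword μ.part n k = k - ps μ.part r := by
  have hk : k < n := by
    have := ps_le μ (r + 1)
    omega
  unfold rword
  rw [if_pos hk, row_eq μ hk h1 h2]

theorem cnt_rword (μ : Ptn n) (c k : ℕ) : cnt (rword μ.part n) c (ps μ.part k) = mc μ.part k c := by
  induction k with
  | zero =>
    unfold cnt ps mc
    simp
  | succ k ih =>
    rw [cnt_split _ _ (ps_mono _ (Nat.le_succ k)), ih, mc_succ]
    congr 1
    have e := ps_succ μ.part k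
    split_ifs with h
    · rw [Finset.card_eq_one]
      refine ⟨ps μ.part k + c, ?_⟩
      ext l
      rw [Finset.mem_filter, Finset.mem_Ico, Finset.mem_singleton]
      constructor
      · rintro ⟨⟨h1, h2⟩, h3⟩
        rw [rword_eq μ h1 h2] at h3
        omega
      · intro hl
        have h1 : ps μ.part k ≤ l := by omega
        have h2 : l < ps μ.part (k + 1) := by omega
        refine ⟨⟨h1, h2⟩, ?_⟩
        rw [rword_eq μ h1 h2]
        omega
    · rw [Finset.card_eq_zero]
      ext l
      rw [Finset.mem_filter, Finset.mem_Ico]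
      constructor
      · rintro ⟨⟨h1, h2⟩, h3⟩
        have h2' : l < ps μ.part (k + 1) := h2
        rw [rword_eq μ h1 h2'] at h3
        omega
      · intro hl
        exact absurd hl (Finset.notMem_empty l)

theorem rword_isWord (μ : Ptn n) : IsWord n μ.conj (rword μ.part n) := by
  constructor
  · intro k hk
    unfold rword
    rw [if_neg (by omega)]
  · intro c
    have := cnt_rword μ c n
    rw [ps_top] at this
    rw [this]
    rfl

theorem incr_add {f : ℕ → ℕ} {m : ℕ} (hf : ∀ t s, t < s → s < m → f t < f s) (d t : ℕ)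
    (h : t + d < m) : f t + d ≤ f (t + d) := by
  induction d with
  | zero => exact le_refl _
  | succ d ih =>
    have h1 := ih (by omega)
    have h2 := hf (t + d) (t + (d + 1)) (by omega) h
    omega

theorem incr_eq {f : ℕ → ℕ} {m : ℕ} (hf : ∀ t s, t < s → s < m → f t < f s)
    (hb : ∀ t, t < m → f t < m) (t : ℕ) (ht : t < m) : f t = t := by
  have h1 := incr_add hf t 0 (by omega)
  have h2 := incr_add hf (m - 1 - t) t (by omega)
  have h3 := hb (t + (m - 1 - t)) (by omega)
  rw [zero_add] at h1
  omega

theorem blockDistinct_of_incr {ν w : ℕ → ℕ} (h : BlockIncr n ν w) : BlockDistinct n ν w :=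
  fun k l hkl hl hs => (h k l hkl hl hs).ne

theorem blockIncr_local {ν w : ℕ → ℕ}
    (h : ∀ j, j + 1 < n → SameBlock ν j (j + 1) → w j < w (j + 1)) : BlockIncr n ν w := by
  have key : ∀ d k, k + d + 1 < n → SameBlock ν k (k + d + 1) → w k < w (k + d + 1) := by
    intro d
    induction d with
    | zero =>
      intro k hk hs
      exact h k hk hs
    | succ d ih =>
      intro k hk hs
      have h1 := ih k (by omega) (by
        intro r hr
        exact hs r (by omega))
      have h2 := h (k + d + 1) (by omega) (by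
        intro r hr
        exact hs r (by omega))
      have e : k + (d + 1) + 1 = k + d + 1 + 1 := by omega
      rw [e]
      omega
  intro k l hkl hl hs
  have e : k + (l - k - 1) + 1 = l := by omega
  have := key (l - k - 1) k (by omega) (by rw [e]; exact hs)
  rw [e] at this
  exact this

theorem blockDistinct_sw {ν w : ℕ → ℕ} (h : BlockDistinct n ν w) {j : ℕ} (hj : j + 1 < n)
    (hs : SameBlock ν j (j + 1)) : BlockDistinct n ν (sw j w) := by
  intro k l hkl hl hkl'
  unfold sw
  rcases Nat.lt_or_ge (Equiv.swap j (j + 1) k) (Equiv.swap j (j + 1) l) with h1 | h1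
  · apply h _ _ h1 (swap_lt hj hl)
    intro r
    have h2 := hs r
    have h3 := hkl' r
    simp only [Equiv.swap_apply_def] at h1 ⊢
    split_ifs at h1 ⊢ <;> omega
  · have hne : Equiv.swap j (j + 1) l ≠ Equiv.swap j (j + 1) k := by
      intro he
      have := (Equiv.swap j (j + 1)).injective he
      omega
    have h1' : Equiv.swap j (j + 1) l < Equiv.swap j (j + 1) k := lt_of_le_of_ne h1 hne
    apply (h _ _ h1' (swap_lt hj (by omega)) _).symm
    intro r
    have h2 := hs r
    have h3 := hkl' r
    simp only [Equiv.swap_apply_def] at h1' ⊢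
    split_ifs at h1' ⊢ <;> omega

theorem rword_incr (μ : Ptn n) : BlockIncr n μ.part (rword μ.part n) := by
  intro k l hkl hl hs
  have a1 := row_le μ.part n k
  have a2 := row_lt μ (show k < n by omega)
  have a3 := hs (row μ.part n k + 1)
  have a4 : l < ps μ.part (row μ.part n k + 1) := by omega
  rw [rword_eq μ a1 a2, rword_eq μ (show ps μ.part (row μ.part n k) ≤ l by omega) a4]
  omega

theorem eq_rword (μ : Ptn n) (w : Wd n μ.conj) (h : BlockIncr n μ.part w.1) :
    w.1 = rword μ.part n := by
  have hd := blockDistinct_of_incr h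
  funext k
  rcases Nat.lt_or_ge k n with hk | hk
  · have a1 := row_le μ.part n k
    have a2 := row_lt μ hk
    set r := row μ.part n k with hr
    rw [rword_eq μ a1 a2]
    have e := ps_succ μ.part r
    have a5 := ps_le μ (r + 1)
    have h1 := incr_eq (f := fun t => w.1 (ps μ.part r + t)) (m := μ.part r) (by
      intro t s hts hs
      apply h _ _ (by omega) (by omega)
      rintro r' ⟨hr1, hr2⟩
      have h1 : r < r' := by
        by_contra hcon
        have := ps_mono μ.part (show r' ≤ r by omega)
        omega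
      have := ps_mono μ.part (show r + 1 ≤ r' by omega)
      omega) (by
      intro t ht
      exact letter_lt_row μ w hd (r := r) (by omega) (by omega)) (k - ps μ.part r) (by omega)
    have e2 : ps μ.part r + (k - ps μ.part r) = k := by omega
    simp only [e2] at h1
    exact h1
  · rw [w.2.1 k hk, (rword_isWord μ).1 k hk]

end Cn

theorem row : S_ROW := by
  intro n μ
  refine ⟨⟨rword μ.part n, rword_isWord μ⟩, rword_incr μ, ?_⟩
  have key : ∀ N : ℕ, ∀ w : Wd n μ.conj, BlockDistinct n μ.part w.1 → inv n w.1 = N →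
      inv n (rword μ.part n) ≤ N ∧ (N = inv n (rword μ.part n) → w.1 = rword μ.part n) := by
    intro N
    induction N using Nat.strong_induction_on with
    | _ N ih =>
      intro w hw hN
      by_cases hex : ∃ j, j + 1 < n ∧ SameBlock μ.part j (j + 1) ∧ w.1 (j + 1) < w.1 j
      · obtain ⟨j, hj, hs, hlt⟩ := hex
        have h1 := inv_sw' hj hlt
        have h2 : BlockDistinct n μ.part (swW j w).1 := by
          rw [swW_val hj]
          exact blockDistinct_sw hw hj hs
        have h3 := ih (inv n (swW j w).1) (by rw [swW_val hj]; omega) (swW j w) h2 rfl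
        rw [swW_val hj] at h3
        have h4 := h3.1
        constructor
        · omega
        · intro h5
          omega
      · push Not at hex
        have h1 : BlockIncr n μ.part w.1 := by
          apply blockIncr_local
          intro j hj hs
          have h2 := hex j hj hs
          have h3 := hw j (j + 1) (Nat.lt_succ_self j) hj hs
          omega
        have h2 := eq_rword μ w h1
        rw [← hN, h2]
        exact ⟨le_refl _, fun _ => rfl⟩
  intro w hw
  have h1 := key _ w hw rfl
  refine ⟨h1.1, ?_, ?_⟩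
  · intro h2
    exact Subtype.ext (h1.2 h2)
  · intro h2
    exact Subtype.ext (eq_rword μ w h2)

end Pool.Agent.James
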