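import Pool.Agent.James.Fam

/-!
Combinatorics of words: counting, sorted words, belts (helper83).
-/

set_option autoImplicit false

namespace Pool.Agent.James.F83

/-- A predicate which is inherited by smaller elements holds on an initial segment. -/
theorem initial_iff (P : ℕ → Prop) [DecidablePred P] (a b : ℕ)
    (hP : ∀ j, a ≤ j → j + 1 < b → P (j + 1) → P j) :
    ∀ k, a ≤ k → k < b → (P k ↔ k < a + ((Finset.Ico a b).filter P).card) := by
  have hdown : ∀ k l, a ≤ k → k ≤ l → l < b → P l → P k := by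
    intro k l hk hkl
    induction l, hkl using Nat.le_induction with
    | base => intro _ h; exact h
    | succ l hkl ih =>
      intro hl h
      exact ih (by omega) (hP l (by omega) hl h)
  intro k hk hkb
  constructor
  · intro h
    have h1 : Finset.Ico a (k + 1) ⊆ (Finset.Ico a b).filter P := by
      intro x hx
      rw [Finset.mem_Ico] at hx
      rw [Finset.mem_filter, Finset.mem_Ico]
      exact ⟨⟨hx.1, by omega⟩, hdown x k hx.1 (by omega) hkb h⟩
    have h2 := Finset.card_le_card h1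
    rw [Nat.card_Ico] at h2
    omega
  · intro h
    by_contra hcon
    have h1 : (Finset.Ico a b).filter P ⊆ Finset.Ico a k := by
      intro x hx
      rw [Finset.mem_filter, Finset.mem_Ico] at hx
      rw [Finset.mem_Ico]
      refine ⟨hx.1.1, ?_⟩
      by_contra hcon2
      exact hcon (hdown k x hk (by omega) hx.1.2 hx.2)
    have h2 := Finset.card_le_card h1
    rw [Nat.card_Ico] at h2
    omega

theorem cnt_eq_Ico (w : ℕ → ℕ) (c m : ℕ) :
    cnt w c m = ((Finset.Ico 0 m).filter (fun k => w k = c)).card := by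
  unfold cnt
  rw [Finset.range_eq_Ico]

theorem cnt_zero (w : ℕ → ℕ) (c : ℕ) : cnt w c 0 = 0 := by
  unfold cnt
  simp

theorem cnt_succ (w : ℕ → ℕ) (c m : ℕ) : cnt w c (m + 1) = cnt w c m + if w m = c then 1 else 0 := by
  unfold cnt
  rw [Finset.range_add_one, Finset.filter_insert]
  split_ifs with h
  · rw [Finset.card_insert_of_notMem (by simp)]
  · rfl

theorem cnt_mono (w : ℕ → ℕ) (c : ℕ) : Monotone (cnt w c) := by
  apply monotone_nat_of_le_succ
  intro m
  rw [cnt_succ]
  exact Nat.le_add_right _ _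

theorem cnt_congr {w w' : ℕ → ℕ} (c : ℕ) {m : ℕ} (h : ∀ k, k < m → w k = w' k) :
    cnt w c m = cnt w' c m := by
  unfold cnt
  congr 1
  apply Finset.filter_congr
  intro k hk
  rw [h k (Finset.mem_range.1 hk)]

/-- Number of positions `k ∈ [a, b)` with `w k < x`. -/
def low (w : ℕ → ℕ) (x a b : ℕ) : ℕ := ((Finset.Ico a b).filter (fun k => w k < x)).card

theorem low_add (w : ℕ → ℕ) (x : ℕ) {a b c : ℕ} (hab : a ≤ b) (hbc : b ≤ c) :
    low w x a b + low w x b c = low w x a c := by
  unfold low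
  rw [← Finset.Ico_union_Ico_eq_Ico hab hbc, Finset.filter_union, Finset.card_union_of_disjoint]
  exact Finset.disjoint_filter_filter (Finset.Ico_disjoint_Ico_consecutive a b c)

theorem low_congr {w w' : ℕ → ℕ} (x : ℕ) {a b : ℕ} (h : ∀ k, a ≤ k → k < b → w k = w' k) :
    low w x a b = low w' x a b := by
  unfold low
  congr 1
  apply Finset.filter_congr
  intro k hk
  rw [Finset.mem_Ico] at hk
  rw [h k hk.1 hk.2]

theorem low_le (w : ℕ → ℕ) (x a b : ℕ) : low w x a b ≤ b - a := by
  unfold low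
  refine (Finset.card_filter_le _ _).trans ?_
  rw [Nat.card_Ico]

theorem low_succ_letter (w : ℕ → ℕ) (x m : ℕ) : low w (x + 1) 0 m = low w x 0 m + cnt w x m := by
  rw [cnt_eq_Ico]
  unfold low
  rw [← Finset.card_union_of_disjoint]
  · congr 1
    ext k
    rw [Finset.mem_union, Finset.mem_filter, Finset.mem_filter, Finset.mem_filter]
    constructor
    · rintro ⟨h1, h2⟩
      rcases Nat.lt_succ_iff_lt_or_eq.1 h2 with h3 | h3
      · exact Or.inl ⟨h1, h3⟩
      · exact Or.inr ⟨h1, h3⟩
    · rintro (⟨h1, h2⟩ | ⟨h1, h2⟩)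
      · exact ⟨h1, by omega⟩
      · exact ⟨h1, by omega⟩
  · rw [Finset.disjoint_left]
    intro k h1 h2
    rw [Finset.mem_filter] at h1 h2
    omega

theorem low_eq_sum (w : ℕ → ℕ) (x m : ℕ) :
    low w x 0 m = ∑ c ∈ Finset.range x, cnt w c m := by
  induction x with
  | zero =>
    rw [Finset.sum_range_zero]
    unfold low
    simp
  | succ x ih => rw [low_succ_letter, ih, Finset.sum_range_succ]

/-- On an interval where `w` is increasing. -/
theorem lt_iff_of_mono {w : ℕ → ℕ} {a b : ℕ} (h : ∀ j, a ≤ j → j + 1 < b → w j ≤ w (j + 1))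
    (x : ℕ) {k : ℕ} (hk : a ≤ k) (hkb : k < b) : w k < x ↔ k < a + low w x a b :=
  initial_iff (fun k => w k < x) a b (fun j h1 h2 h3 => lt_of_le_of_lt (h j h1 h2) h3) k hk hkb

/-- On an interval where `w` is decreasing. -/
theorem le_iff_of_anti {w : ℕ → ℕ} {a b : ℕ} (h : ∀ j, a ≤ j → j + 1 < b → w (j + 1) ≤ w j)
    (x : ℕ) {k : ℕ} (hk : a ≤ k) (hkb : k < b) : x ≤ w k ↔ k + low w x a b < b := by
  have h1 := initial_iff (fun k => x ≤ w k) a b (fun j h1 h2 h3 => le_trans h3 (h j h1 h2)) k hk hkb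
  have h2 : ((Finset.Ico a b).filter (fun k => x ≤ w k)).card + low w x a b = b - a := by
    unfold low
    rw [← Nat.card_Ico, add_comm, ← Finset.card_filter_add_card_filter_not (s := Finset.Ico a b)
      (fun k => w k < x)]
    congr 2
    apply Finset.filter_congr
    intro k _
    rw [not_lt]
  rw [h1]
  omega

section
variable {n : ℕ} {ν : ℕ → ℕ}

theorem low_word {w : ℕ → ℕ} (hw : IsWord n ν w) (x : ℕ) : low w x 0 n = ps ν x := by
  rw [low_eq_sum]
  unfold ps
  exact Finset.sum_congr rfl (fun c _ => hw.2 c)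

theorem ps_succ (ν : ℕ → ℕ) (x : ℕ) : ps ν (x + 1) = ps ν x + ν x := Finset.sum_range_succ _ _

theorem ps_zero (ν : ℕ → ℕ) : ps ν 0 = 0 := rfl

theorem ps_mono (ν : ℕ → ℕ) : Monotone (ps ν) := by
  apply monotone_nat_of_le_succ
  intro x
  rw [ps_succ]
  exact Nat.le_add_right _ _

theorem noDesc_lt {w : ℕ → ℕ} (hw : IsWord n ν w) (h : NoDesc n w) (x : ℕ) {k : ℕ} (hk : k < n) :
    w k < x ↔ k < ps ν x := by
  rw [lt_iff_of_mono (a := 0) (b := n) (fun j _ h2 => h j h2) x (Nat.zero_le k) hk, low_word hw,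
    Nat.zero_add]

theorem inY_of_tie {w : ℕ → ℕ} (hw : IsWord n ν w) (h : NoDesc n w) {j : ℕ} (hj : j + 1 < n)
    (ht : w j = w (j + 1)) : InY ν j := by
  intro r hr
  have h1 := (noDesc_lt hw h r (k := j) (by omega)).2 (by omega)
  have h2 := (noDesc_lt hw h r (k := j + 1) hj).1 (by omega)
  omega

theorem tie_of_inY {w : ℕ → ℕ} (hw : IsWord n ν w) (h : NoDesc n w) {j : ℕ} (hj : j + 1 < n)
    (hY : InY ν j) : w j = w (j + 1) := by
  by_contra hne
  have hlt : w j < w (j + 1) := lt_of_le_of_ne (h j hj) hne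
  have h1 := (noDesc_lt hw h (w (j + 1)) (k := j) (by omega)).1 hlt
  have h2 : ¬ (j + 1 < ps ν (w (j + 1))) := fun h3 =>
    absurd ((noDesc_lt hw h (w (j + 1)) (k := j + 1) hj).2 h3) (lt_irrefl _)
  exact hY (w (j + 1)) (by omega)

/-- Compositions of `n`. -/
def IsComp (n : ℕ) (ν : ℕ → ℕ) : Prop := ∃ N, (∀ i, N ≤ i → ν i = 0) ∧ ps ν N = n

theorem ps_stable {N : ℕ} (hN : ∀ i, N ≤ i → ν i = 0) {x : ℕ} (hx : N ≤ x) : ps ν x = ps ν N := by
  induction x, hx using Nat.le_induction with
  | base => rfl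
  | succ x hx ih => rw [ps_succ, ih, hN x hx, Nat.add_zero]

theorem IsComp.ps_le (h : IsComp n ν) (x : ℕ) : ps ν x ≤ n := by
  obtain ⟨N, hN, hs⟩ := h
  rcases le_total x N with h1 | h1
  · rw [← hs]; exact ps_mono ν h1
  · rw [ps_stable hN h1, hs]

theorem ptn_isComp (μ : Ptn n) : IsComp n μ.part := ⟨n, μ.zero, μ.sum⟩

/-- Existence of the sorted word. -/
theorem exists_sorted (h : IsComp n ν) : ∃ w : Wd n ν, NoDesc n w.1 := by
  have hc := h
  obtain ⟨N, hN, hs⟩ := h
  let w : ℕ → ℕ := fun k => if k < n then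
    ((Finset.Ico 0 N).filter (fun x => ps ν (x + 1) ≤ k)).card else 0
  have hw : ∀ k, k < n → ∀ y, (y < w k ↔ ps ν (y + 1) ≤ k) := by
    intro k hk y
    have hwk : w k = ((Finset.Ico 0 N).filter (fun x => ps ν (x + 1) ≤ k)).card := if_pos hk
    rcases lt_or_ge y N with hy | hy
    · have := initial_iff (fun x => ps ν (x + 1) ≤ k) 0 N (fun j _ _ h3 =>
        le_trans (ps_mono ν (by omega)) h3) y (Nat.zero_le _) hy
      rw [this, hwk, Nat.zero_add]
    · constructor
      · intro h1
        exfalso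
        have h2 : w k ≤ N := by
          rw [hwk]
          refine (Finset.card_filter_le _ _).trans ?_
          rw [Nat.card_Ico]
          omega
        omega
      · intro h1
        rw [ps_stable hN (by omega), hs] at h1
        omega
  have hw' : ∀ k, k < n → ∀ x, (w k < x ↔ k < ps ν x) := by
    intro k hk x
    cases x with
    | zero => rw [ps_zero]; omega
    | succ y =>
      have := hw k hk y
      omega
  have hword : IsWord n ν w := by
    refine ⟨fun k hk => if_neg (by omega), fun c => ?_⟩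
    have : (Finset.range n).filter (fun k => w k = c) = Finset.Ico (ps ν c) (ps ν (c + 1)) := by
      ext k
      rw [Finset.mem_filter, Finset.mem_range, Finset.mem_Ico]
      constructor
      · rintro ⟨h1, h2⟩
        have h3 := hw' k h1 c
        have h4 := hw' k h1 (c + 1)
        omega
      · rintro ⟨h1, h2⟩
        have h5 : k < n := lt_of_lt_of_le h2 (hc.ps_le _)
        have h3 := hw' k h5 c
        have h4 := hw' k h5 (c + 1)
        omega
    unfold cnt
    rw [this, Nat.card_Ico, ps_succ, Nat.add_sub_cancel_left]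
  refine ⟨⟨w, hword⟩, ?_⟩
  intro j hj
  by_contra hcon
  have h1 := hw' j (by omega) (w j)
  have h2 := hw' (j + 1) hj (w j)
  have h3 : w (j + 1) < w j := by simpa using hcon
  omega

theorem word_ext {w w' : Wd n ν} (h : ∀ k, k < n → w.1 k = w'.1 k) : w = w' := by
  apply Subtype.ext
  funext k
  by_cases hk : k < n
  · exact h k hk
  · rw [w.2.1 k (by omega), w'.2.1 k (by omega)]

theorem sorted_unique {w w' : Wd n ν} (h : NoDesc n w.1) (h' : NoDesc n w'.1) : w = w' := by
  apply word_ext
  intro k hk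
  have h1 := noDesc_lt w.2 h (w'.1 k) hk
  have h2 := noDesc_lt w'.2 h' (w'.1 k) hk
  have h3 := noDesc_lt w.2 h (w.1 k) hk
  have h4 := noDesc_lt w'.2 h' (w.1 k) hk
  omega

end

section
variable {R : Type*} [CommRing R] {q : R} {n : ℕ} {V : Type*} [AddCommGroup V] [Module R V]
  [Module (Hecke R q n) V] [IsScalarTower R (Hecke R q n) V] {ν : ℕ → ℕ}

/-- Universal property, with the condition expressed by the composition. -/
theorem isFam_of_inY {ε : R} {u : V} (hu : ∀ j, j + 1 < n → InY ν j → gT R q n j • u = ε • u) :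
    IsFam q n ε (fam q n (ν := ν) u) :=
  isFam_fam (fun _ hw j hj ht => hu j hj (inY_of_tie (Subtype.property _) hw hj ht))

/-- `H u` is the span of the family. -/
theorem smul_mem_span_fam {ε : R} {u : V}
    (hu : ∀ j, j + 1 < n → InY ν j → gT R q n j • u = ε • u) (hν : IsComp n ν)
    (a : Hecke R q n) : a • u ∈ Submodule.span R (Set.range (fam q n (ν := ν) u)) := by
  obtain ⟨w, hw⟩ := exists_sorted hν
  apply (isFam_of_inY hu).smul_mem_span
  exact Submodule.subset_span ⟨w, fam_noDesc u hw⟩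

end

end Pool.Agent.James.F83
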