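import Pool.Agent.James.Stmts
import Pool.Agent.James.Comb

/-!
The diamond lemma `S_DIAM` (helper83).
-/

set_option autoImplicit false

namespace Pool.Agent.James

theorem famAux_eq_gact {R : Type*} [CommRing R] {q : R} {n : ℕ} {V : Type*} [AddCommGroup V]
    [Module R V] [Module (Hecke R q n) V] (u : V) :
    ∀ (m : ℕ) (w : ℕ → ℕ), famAux q n u m w = F83.gact q n (F83.famWord n m w) u := by
  intro m
  induction m with
  | zero => intro w; rfl
  | succ m ih =>
    intro w
    unfold famAux F83.famWord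
    split_ifs with h
    · rw [ih, F83.gact_cons]
    · rfl

theorem fam_eq_fam {R : Type*} [CommRing R] {q : R} {n : ℕ} {ν : ℕ → ℕ} {V : Type*}
    [AddCommGroup V] [Module R V] [Module (Hecke R q n) V] (u : V) (w : Wd n ν) :
    fam q ν u w = F83.fam q n u w := famAux_eq_gact u _ _

theorem isFam_iff {R : Type*} [CommRing R] {q : R} {n : ℕ} {ν : ℕ → ℕ} {V : Type*}
    [AddCommGroup V] [Module R V] [Module (Hecke R q n) V] (ε : R) (g : Wd n ν → V) :
    IsFam q ε g ↔ F83.IsFam q n ε g :=
  ⟨fun h => ⟨fun w j hj => (h w j hj).1, fun w j hj => (h w j hj).2⟩,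
    fun h w j hj => ⟨h.asc w j hj, h.tie w j hj⟩⟩

theorem diam : S_DIAM := by
  intro R _ q ε n ν V _ _ _ _ w0 u hw0 hu
  constructor
  · rw [fam_eq_fam]
    exact F83.fam_noDesc u hw0
  · rw [isFam_iff]
    have h : F83.IsFam q n ε (F83.fam q n (ν := ν) u) := by
      apply F83.isFam_fam
      intro w hw j hj ht
      have : w = w0 := F83.sorted_unique hw hw0
      subst this
      exact hu j hj ht
    exact ⟨fun w j hj hlt => by rw [fam_eq_fam, fam_eq_fam]; exact h.asc w j hj hlt,
      fun w j hj hlt => by rw [fam_eq_fam]; exact h.tie w j hj hlt⟩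

end Pool.Agent.James
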