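import Pool.Agent.James.Stmts

/-!
The dimension of `D^μ` is the rank of the Gram matrix at `q` (module JS_DIM).
-/

set_option autoImplicit false

namespace Pool.Agent.James

open Polynomial

theorem dimD (hIND : S_IND) (hBAS : S_BAS) (hBC : S_BC) : S_DIM := by
  intro F _ q n μ hq hq1
  classical
  have hq' : q ∈ nonZeroDivisors F := mem_nonZeroDivisors_of_ne_zero hq
  have hq1' : (1 + q) ∈ nonZeroDivisors F := mem_nonZeroDivisors_of_ne_zero hq1
  have hli : LinearIndependent F (bvec F q μ) := hIND F q n μ hq' hq1'
  have hsp : Submodule.span F (Set.range (bvec F q μ)) = (Specht F q μ).restrictScalars F :=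
    hBAS F q n μ hq' hq1'
  -- the basis of the Specht module
  let b : Module.Basis (Lat μ) F ((Specht F q μ).restrictScalars F) :=
    (Module.Basis.span hli).map (LinearEquiv.ofEq _ _ hsp)
  have hb : ∀ t, ((b t : (Specht F q μ).restrictScalars F) : Lam F q n μ.conj) = bvec F q μ t := by
    intro t
    change ((LinearEquiv.ofEq _ _ hsp (Module.Basis.span hli t) :
      (Specht F q μ).restrictScalars F) : Lam F q n μ.conj) = _
    rw [LinearEquiv.coe_ofEq_apply, Module.Basis.span_apply]
  -- the form
  let B : ((Specht F q μ).restrictScalars F) →ₗ[F] ((Specht F q μ).restrictScalars F) →ₗ[F] F :=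
    LinearMap.mk₂ F (fun x y => bform x.1 y.1)
      (fun x x' y => bform_add_left x.1 x'.1 y.1)
      (fun c x y => bform_smul_left c x.1 y.1)
      (fun x y y' => bform_add_right x.1 y.1 y'.1)
      (fun c x y => bform_smul_right c x.1 y.1)
  have h1 := finrank_quotient_ker_eq_rank B b
  -- the quotient
  let f : ((Specht F q μ).restrictScalars F) →ₗ[F] Dmod F q μ :=
    { toFun := fun x => Submodule.Quotient.mk ⟨x.1, x.2⟩
      map_add' := fun x y => rfl
      map_smul' := fun c x => rfl }
  have hf : Function.Surjective f := by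
    intro y
    obtain ⟨x, rfl⟩ := Submodule.Quotient.mk_surjective _ y
    exact ⟨⟨x.1, x.2⟩, rfl⟩
  have hk : LinearMap.ker f = LinearMap.ker B := by
    ext x
    rw [LinearMap.mem_ker, LinearMap.mem_ker]
    have e1 : f x = 0 ↔ (⟨x.1, x.2⟩ : Specht F q μ) ∈ spechtRad F q μ :=
      Submodule.Quotient.mk_eq_zero _
    rw [e1]
    constructor
    · intro h
      ext y
      exact h ⟨y.1, y.2⟩
    · intro h y
      exact LinearMap.congr_fun h ⟨y.1, y.2⟩
  have h2 : Module.finrank F (Dmod F q μ) =
      Module.finrank F (((Specht F q μ).restrictScalars F) ⧸ LinearMap.ker B) := by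
    rw [← hk]
    exact (LinearEquiv.finrank_eq (f.quotKerEquivOfSurjective hf)).symm
  rw [h2, h1]
  congr 1
  ext s t
  change bform (b s).1 (b t).1 = aeval q (gram μ s t)
  rw [hBC F q n μ s t, hb, hb]

end Pool.Agent.James
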