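import Pool.Agent.James.Stmts

/-!
The content sequences of the standard tableaux of a shape form a good set.
-/

set_option autoImplicit false

namespace Pool.Agent.James

theorem cnt_succ (w : ℕ → ℕ) (c m : ℕ) : cnt w c (m + 1) = cnt w c m + if w m = c then 1 else 0 := by
  unfold cnt
  rw [Finset.range_add_one, Finset.filter_insert]
  split_ifs with h
  · rw [Finset.card_insert_of_notMem]
    intro hm
    rw [Finset.mem_filter, Finset.mem_range] at hm
    omega
  · rfl

theorem cnt_mono (w : ℕ → ℕ) (c : ℕ) {m m' : ℕ} (h : m ≤ m') : cnt w c m ≤ cnt w c m' := by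
  unfold cnt
  apply Finset.card_le_card
  intro k hk
  rw [Finset.mem_filter, Finset.mem_range] at hk ⊢
  exact ⟨by omega, hk.2⟩

theorem lat_anti {n : ℕ} {w : ℕ → ℕ} (h : IsLat n w) {m : ℕ} (hm : m ≤ n) {r r' : ℕ}
    (hr : r ≤ r') : cnt w r' m ≤ cnt w r m := by
  induction hr with
  | refl => exact le_rfl
  | step _ ih => exact le_trans (h _ m hm) ih

/-- Sum of the counts of the first rows. -/
theorem sum_cnt_le (n : ℕ) (w : ℕ → ℕ) (r : ℕ) : ∑ s ∈ Finset.range r, cnt w s n ≤ n := by
  unfold cnt
  rw [← Finset.card_biUnion]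
  · calc _ ≤ (Finset.range n).card := by
          apply Finset.card_le_card
          intro k hk
          rw [Finset.mem_biUnion] at hk
          obtain ⟨s, -, hs⟩ := hk
          rw [Finset.mem_filter] at hs
          exact hs.1
      _ = n := Finset.card_range n
  · intro a _ b _ hab
    rw [Function.onFun, Finset.disjoint_left]
    intro k hk hk'
    rw [Finset.mem_filter] at hk hk'
    exact hab (hk.2.symm.trans hk'.2)

theorem ctn_lt {n : ℕ} {w : ℕ → ℕ} {k : ℕ} (hk : k < n) :
    ctn n w k = (cnt w (w k) k : ℤ) - w k := by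
  unfold ctn colw
  rw [if_pos hk, if_pos hk]

theorem good_ne1 {n : ℕ} {w : ℕ → ℕ} (h : IsLat n w) {j : ℕ} (hj : j + 1 < n) :
    ctn n w j ≠ ctn n w (j + 1) := by
  rw [ctn_lt (by omega), ctn_lt hj]
  intro he
  have e1 := cnt_succ w (w j) j
  rw [if_pos rfl] at e1
  have e2 := cnt_succ w (w (j + 1)) j
  have e3 := cnt_succ w (w (j + 1)) (j + 1)
  rw [if_pos rfl] at e3
  have e4 := cnt_succ w (w j) (j + 1)
  rcases lt_trichotomy (w j) (w (j + 1)) with h1 | h1 | h1
  · have l1 := lat_anti h (m := j + 1 + 1) (by omega) h1.le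
    rw [if_neg (by omega)] at e4
    rw [if_neg (by omega)] at e2
    omega
  · rw [← h1] at he
    omega
  · have l1 := lat_anti h (m := j + 1) (by omega) h1.le
    omega

theorem good_ne2 {n : ℕ} {w : ℕ → ℕ} (h : IsLat n w) {j : ℕ} (hj : j + 2 < n) :
    ctn n w j ≠ ctn n w (j + 2) := by
  rw [ctn_lt (by omega), ctn_lt hj]
  intro he
  have e1 := cnt_succ w (w j) j
  rw [if_pos rfl] at e1
  have m1 := cnt_mono w (w j) (show j + 1 ≤ j + 2 by omega)
  rcases lt_trichotomy (w j) (w (j + 2)) with h1 | h1 | h1
  · have l1 := lat_anti h (m := j + 3) (by omega) (show w j + 1 ≤ w (j + 2) by omega)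
    have l2 := lat_anti h (m := j + 3) (by omega) (show w j ≤ w j + 1 by omega)
    have l3 := lat_anti h (m := j) (by omega) (show w j ≤ w j + 1 by omega)
    have l4 := lat_anti h (m := j + 3) (by omega) h1.le
    have a1 : cnt w (w j) (j + 2) = _ := cnt_succ w (w j) (j + 1)
    have a2 : cnt w (w j) (j + 3) = _ := cnt_succ w (w j) (j + 2)
    have b0 := cnt_succ w (w j + 1) j
    have b1 : cnt w (w j + 1) (j + 2) = _ := cnt_succ w (w j + 1) (j + 1)
    have b2 : cnt w (w j + 1) (j + 3) = _ := cnt_succ w (w j + 1) (j + 2)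
    have c2 : cnt w (w (j + 2)) (j + 3) = _ := cnt_succ w (w (j + 2)) (j + 2)
    rw [if_pos rfl] at c2
    rw [if_neg (by omega)] at a2
    rw [if_neg (by omega)] at b0
    by_cases hr : w (j + 1) = w j
    · rw [if_pos hr] at a1
      rw [if_neg (by omega)] at b1
      by_cases hr2 : w (j + 2) = w j + 1
      · rw [if_pos hr2] at b2
        rw [hr2] at c2 he
        omega
      · rw [if_neg hr2] at b2
        omega
    · rw [if_neg hr] at a1
      omega
  · rw [← h1] at he
    omega
  · have l1 := lat_anti h (m := j + 2) (by omega) h1.le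
    omega

theorem good_bdd1 {n : ℕ} {w : ℕ → ℕ} (h : IsLat n w) {i j : ℕ} (hi : i < n) (hj : j < n) :
    ctn n w i - ctn n w j < n := by
  rw [ctn_lt hi, ctn_lt hj]
  have e1 := cnt_succ w (w i) i
  rw [if_pos rfl] at e1
  have m1 := cnt_mono w (w i) (show i + 1 ≤ n by omega)
  have l1 := lat_anti h le_rfl (Nat.zero_le (w i))
  have e2 := cnt_succ w (w j) j
  rw [if_pos rfl] at e2
  have m2 := cnt_mono w (w j) (show j + 1 ≤ n by omega)
  have key : cnt w 0 n + w j ≤ n := by
    have hs := sum_cnt_le n w (w j + 1)
    rw [Finset.sum_range_succ'] at hs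
    have : w j ≤ ∑ s ∈ Finset.range (w j), cnt w (s + 1) n := by
      calc w j = ∑ s ∈ Finset.range (w j), 1 := by simp
        _ ≤ _ := by
          apply Finset.sum_le_sum
          intro s hs
          rw [Finset.mem_range] at hs
          have := lat_anti h le_rfl (show s + 1 ≤ w j by omega)
          omega
    omega
  have : (cnt w (w j) j : ℤ) ≥ 0 := by positivity
  omega

theorem good (hC : S_COLW) : S_GOOD := by
  intro n μ
  refine ⟨⟨?_, ?_, ?_, ?_⟩, ?_⟩
  · rintro α ⟨t, rfl⟩ j hj
    exact good_ne1 t.2 hj
  · rintro α ⟨t, rfl⟩ j hj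
    exact good_ne2 t.2 hj
  · rintro α ⟨t, rfl⟩ j hj hd
    obtain ⟨-, -, -, -, h5, h6, h7⟩ := hC n μ t
    have hne : t.1.1 j ≠ t.1.1 (j + 1) := by
      intro he
      apply hd
      right
      simp only
      rw [ctn_lt (by omega), ctn_lt hj, ← he, cnt_succ, if_pos rfl]
      push_cast
      ring
    have hlat : IsLat n (sw j t.1.1) := by
      rcases lt_or_gt_of_ne hne with h1 | h1
      · apply h6 j hj
        by_contra hcon
        apply hd
        left
        simp only
        rw [ctn_lt (by omega), ctn_lt hj]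
        unfold colw at hcon
        rw [if_pos hj, if_pos (by omega)] at hcon
        have e1 := cnt_succ t.1.1 (t.1.1 j) j
        rw [if_pos rfl] at e1
        have a1 := cnt_succ t.1.1 (t.1.1 j) (j + 1)
        rw [if_neg (by omega)] at a1
        have c1 := cnt_succ t.1.1 (t.1.1 (j + 1)) (j + 1)
        rw [if_pos rfl] at c1
        have l1 := lat_anti t.2 (m := j + 1 + 1) (by omega) h1.le
        have l2 := lat_anti t.2 (m := j + 1 + 1) (by omega)
          (show t.1.1 j + 1 ≤ t.1.1 (j + 1) by omega)
        have l3 := lat_anti t.2 (m := j) (by omega) (show t.1.1 j ≤ t.1.1 j + 1 by omega)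
        have b0 := cnt_succ t.1.1 (t.1.1 j + 1) j
        have b1 := cnt_succ t.1.1 (t.1.1 j + 1) (j + 1)
        rw [if_neg (by omega)] at b0
        by_cases hr : t.1.1 (j + 1) = t.1.1 j + 1
        · rw [hr] at c1 l1 hcon ⊢
          push_cast
          omega
        · rw [if_neg hr] at b1
          omega
      · exact h5 j hj h1
    refine ⟨⟨swW j t.1, ?_⟩, ?_⟩
    · rw [swW_val hj]
      exact hlat
    · simp only
      rw [swW_val hj]
      have e7 := h7 j hj hne
      funext k
      unfold ctn JamesSemi.sw
      rw [e7]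
      by_cases hk : k < n
      · simp only
        rw [if_pos hk, if_pos (swap_lt hj hk)]
        rfl
      · have hk' : Equiv.swap j (j + 1) k = k :=
          Equiv.swap_apply_of_ne_of_ne (by omega) (by omega)
        simp only
        rw [hk', if_neg hk, if_neg hk]
  · rintro α ⟨t, rfl⟩ i j hi hj
    rw [abs_lt]
    have h1 := good_bdd1 t.2 hi hj
    have h2 := good_bdd1 t.2 hj hi
    simp only
    constructor
    · omega
    · exact h1
  · intro t t' he
    simp only at he
    have key : ∀ m, m ≤ n → ∀ k, k < m → t.1.1 k = t'.1.1 k := by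
      intro m
      induction m with
      | zero =>
        intro _ k hk
        omega
      | succ m ih =>
        intro hm k hk
        have ih' := ih (by omega)
        by_cases hkm : k < m
        · exact ih' k hkm
        have hk' : k = m := by omega
        subst hk'
        have hcnt : ∀ c, cnt t.1.1 c k = cnt t'.1.1 c k := by
          intro c
          unfold cnt
          congr 1
          apply Finset.filter_congr
          intro i hi
          rw [Finset.mem_range] at hi
          rw [ih' i hi]
        have h1 := congrFun he k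
        rw [ctn_lt (by omega), ctn_lt (by omega), hcnt] at h1
        rcases lt_trichotomy (t.1.1 k) (t'.1.1 k) with h2 | h2 | h2
        · have := lat_anti t'.2 (m := k) (by omega) h2.le
          omega
        · exact h2
        · have := lat_anti t'.2 (m := k) (by omega) h2.le
          omega
    apply Subtype.ext
    apply Subtype.ext
    funext k
    by_cases hk : k < n
    · exact key n le_rfl k hk
    · rw [t.1.2.1 k (by omega), t'.1.2.1 k (by omega)]

end Pool.Agent.James
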