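import Pool.Agent.James.Stmts

/-!
(JS_IND) linear independence of the vectors `g_t z`.   (helper72)
-/

set_option autoImplicit false

namespace Pool.Agent.James

namespace Ind

variable {R : Type} [CommRing R] {q : R} {n : ℕ}

lemma gT_apply_eq {ν : ℕ → ℕ} {j : ℕ} (hj : j + 1 < n) (f : Lam R q n ν) {w : Wd n ν}
    (h : w.1 j = w.1 (j + 1)) : (gT R q n j • f) w = -f w := by
  rw [gT_smul hj]
  exact lT_eq h

lemma gT_apply_lt {ν : ℕ → ℕ} {j : ℕ} (hj : j + 1 < n) (f : Lam R q n ν) {w : Wd n ν}
    (h : w.1 j < w.1 (j + 1)) : (gT R q n j • f) w = q * f (swW j w) := by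
  rw [gT_smul hj]
  exact lT_lt h

lemma gT_apply_gt {ν : ℕ → ℕ} {j : ℕ} (hj : j + 1 < n) (f : Lam R q n ν) {w : Wd n ν}
    (h : w.1 (j + 1) < w.1 j) :
    (gT R q n j • f) w = f (swW j w) + (q - 1) * f w := by
  rw [gT_smul hj]
  exact lT_gt h

/-- a descent of a word which is not sorted -/
lemma exists_descent {w : ℕ → ℕ} (h : ¬ Sorted n w) : ∃ j, j + 1 < n ∧ w (j + 1) < w j := by
  unfold Sorted at h
  push Not at h
  exact h

/-- (a) -/
lemma supp_bound {ν ν' : ℕ → ℕ} (g : Wd n ν' → Lam R q n ν) (hg : IsFam q q g)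
    {w0 : Wd n ν'} (hw0 : ∀ w : Wd n ν', Sorted n w.1 → w = w0) {L : ℕ}
    (h0 : ∀ w : Wd n ν, g w0 w ≠ 0 → L ≤ inv n w.1) :
    ∀ (m : ℕ) (t : Wd n ν'), inv n t.1 = m → ∀ w : Wd n ν, g t w ≠ 0 → L ≤ m + inv n w.1 := by
  intro m
  induction m with
  | zero =>
    intro t ht w hw
    by_cases hs : Sorted n t.1
    · rw [hw0 t hs] at hw
      have := h0 w hw
      omega
    · obtain ⟨j, hj, hd⟩ := exists_descent hs
      have := inv_sw' hj hd
      omega
  | succ m ih =>
    intro t ht w hw
    by_cases hs : Sorted n t.1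
    · rw [hw0 t hs] at hw
      have := h0 w hw
      omega
    · obtain ⟨j, hj, hd⟩ := exists_descent hs
      have h1 := inv_sw' hj hd
      have h2 : inv n (swW j t).1 = m := by
        rw [swW_val hj]
        omega
      have h3 : (swW j t).1 j < (swW j t).1 (j + 1) := by
        rw [swW_left hj, swW_right hj]
        exact hd
      have h4 := (hg (swW j t) j hj).1 h3
      rw [swW_swW] at h4
      rw [← h4] at hw
      have ih' := ih (swW j t) h2
      rcases lt_trichotomy (w.1 j) (w.1 (j + 1)) with h | h | h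
      · rw [gT_apply_lt hj _ h] at hw
        have h5 : g (swW j t) (swW j w) ≠ 0 := by
          intro h0
          rw [h0, mul_zero] at hw
          exact hw rfl
        have h6 := ih' _ h5
        rw [swW_val hj, inv_sw hj h] at h6
        omega
      · rw [gT_apply_eq hj _ h] at hw
        have h5 : g (swW j t) w ≠ 0 := by
          intro h0
          rw [h0, neg_zero] at hw
          exact hw rfl
        have h6 := ih' _ h5
        omega
      · rw [gT_apply_gt hj _ h] at hw
        by_cases h5 : g (swW j t) w = 0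
        · have h6 : g (swW j t) (swW j w) ≠ 0 := by
            intro h0
            rw [h0, h5, mul_zero, add_zero] at hw
            exact hw rfl
          have h7 := ih' _ h6
          rw [swW_val hj] at h7
          have h8 := inv_sw' hj h
          omega
        · have h7 := ih' _ h5
          omega

lemma sorted_block {ν : ℕ → ℕ} {w0 : ℕ → ℕ}
    (htie : ∀ j, j + 1 < n → (w0 j = w0 (j + 1) ↔ InY ν j)) {k l : ℕ} (hkl : k ≤ l) (hl : l < n)
    (hb : SameBlock ν k l) : w0 k = w0 l := by
  have key : ∀ i, k + i ≤ l → w0 k = w0 (k + i) := by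
    intro i
    induction i with
    | zero => exact fun _ => rfl
    | succ i ih =>
      intro hi
      rw [ih (by omega), (htie (k + i) (by omega)).2, add_assoc]
      intro r hr
      exact hb r ⟨by omega, by omega⟩
  have := key (l - k) (by omega)
  rwa [show k + (l - k) = l by omega] at this

lemma cnt_mono (w : ℕ → ℕ) (c : ℕ) {m m' : ℕ} (h : m ≤ m') : cnt w c m ≤ cnt w c m' := by
  unfold cnt
  apply Finset.card_le_card
  apply Finset.filter_subset_filter
  exact Finset.range_mono h

lemma sorted_le {w : ℕ → ℕ} (hs : Sorted n w) {k l : ℕ} (hkl : k ≤ l) (hl : l < n) :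
    w k ≤ w l := by
  have key : ∀ i, k + i ≤ l → w k ≤ w (k + i) := by
    intro i
    induction i with
    | zero => exact fun _ => le_rfl
    | succ i ih =>
      intro hi
      exact (ih (by omega)).trans (hs (k + i) (by omega))
  have := key (l - k) (by omega)
  rwa [show k + (l - k) = l by omega] at this

/-- the sorted word of partition content is a lattice word -/
lemma sorted_lat (μ : Ptn n) {w0 : Wd n μ.part} (hs : Sorted n w0.1) : IsLat n w0.1 := by
  intro r m hm
  rcases Nat.eq_zero_or_pos (cnt w0.1 (r + 1) m) with h | h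
  · omega
  · have h1 : 0 < cnt w0.1 (r + 1) m := h
    unfold cnt at h1
    rw [Finset.card_pos] at h1
    obtain ⟨k, hk⟩ := h1
    rw [Finset.mem_filter, Finset.mem_range] at hk
    have h2 : cnt w0.1 r n ≤ cnt w0.1 r m := by
      unfold cnt
      apply Finset.card_le_card
      intro i hi
      rw [Finset.mem_filter, Finset.mem_range] at hi ⊢
      refine ⟨?_, hi.2⟩
      by_contra hcon
      have := sorted_le hs (show k ≤ i by omega) hi.1
      omega
    have h3 : cnt w0.1 (r + 1) m ≤ cnt w0.1 (r + 1) n := cnt_mono _ _ hm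
    rw [w0.2.2] at h2 h3
    have h4 : μ.part (r + 1) ≤ μ.part r := μ.anti (Nat.le_succ r)
    omega

/-- the column word of the sorted word is increasing in the blocks -/
lemma colw_incr {ν : ℕ → ℕ} {w0 : ℕ → ℕ}
    (htie : ∀ j, j + 1 < n → (w0 j = w0 (j + 1) ↔ InY ν j)) : BlockIncr n ν (colw n w0) := by
  intro k l hkl hl hb
  have h1 := sorted_block htie hkl.le hl hb
  unfold colw
  rw [if_pos (by omega), if_pos hl, h1]
  unfold cnt
  apply Finset.card_lt_card
  rw [Finset.ssubset_iff_of_subset (Finset.filter_subset_filter _ (Finset.range_mono hkl.le))]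
  refine ⟨k, ?_, ?_⟩
  · rw [Finset.mem_filter, Finset.mem_range]
    exact ⟨hkl, h1⟩
  · rw [Finset.mem_filter, Finset.mem_range]
    omega

lemma incr_distinct {ν w : ℕ → ℕ} (h : BlockIncr n ν w) : BlockDistinct n ν w :=
  fun k l hkl hl hb => (h k l hkl hl hb).ne

end Ind

open Ind in
theorem ind (hdiam : S_DIAM) (hz : S_ZINV) (hs : S_SRT) (hr : S_ROW) (hc : S_COLW) : S_IND := by
  classical
  intro R _ q n μ hq _
  obtain ⟨w0, hw0s, hw0t⟩ := (hs n μ.part).1 ⟨n, μ.zero, μ.sum⟩
  have hw0u : ∀ w : Wd n μ.part, Sorted n w.1 → w = w0 := fun w hw => (hs n μ.part).2 w w0 hw hw0s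
  obtain ⟨wr, hwr1, hwr2⟩ := hr n μ
  obtain ⟨hg0, hg⟩ := hdiam R q q n μ.part (Lam R q n μ.conj) w0 (zvec R q μ) hw0s
    (fun j hj hjt => hz R q n μ j hj ((hw0t j hj).1 hjt))
  obtain ⟨g, hgdef⟩ : ∃ g : Wd n μ.part → Lam R q n μ.conj, g = fam q μ.part (zvec R q μ) :=
    ⟨_, rfl⟩
  rw [← hgdef] at hg0 hg
  obtain ⟨L, hL⟩ : ∃ L, L = inv n wr.1 := ⟨_, rfl⟩
  have hz0 : ∀ w : Wd n μ.conj, zvec R q μ w ≠ 0 → BlockDistinct n μ.part w.1 := by
    intro w hw
    by_contra hcon
    apply hw
    unfold zvec
    rw [if_neg hcon]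
  have ha := supp_bound g hg hw0u (L := L) (by
    intro w hw
    rw [hg0] at hw
    rw [hL]
    exact (hwr2 w (hz0 w hw)).1)
  have hlat0 := sorted_lat μ hw0s
  have hcol0 : colw n w0.1 = wr.1 := by
    obtain ⟨h1, _⟩ := hc n μ ⟨w0, hlat0⟩
    have h2 : BlockIncr n μ.part (colw n w0.1) := colw_incr hw0t
    have h3 := (hwr2 ⟨colw n w0.1, h1⟩ (incr_distinct h2)).2.2 h2
    exact congrArg Subtype.val h3
  -- the step to a shorter lattice word
  have hstep : ∀ t : Lat μ, ∀ j, j + 1 < n → t.1.1 (j + 1) < t.1.1 j →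
      ∃ t' : Lat μ, t'.1 = swW j t.1 ∧ inv n t.1.1 = inv n t'.1.1 + 1 ∧
        colw n t'.1.1 = sw j (colw n t.1.1) ∧ colw n t.1.1 j < colw n t.1.1 (j + 1) ∧
        inv n (colw n t'.1.1) = inv n (colw n t.1.1) + 1 ∧ g t.1 = gT R q n j • g t'.1 := by
    intro t j hj hd
    obtain ⟨_, _, c3, _, c5, _, c7⟩ := hc n μ t
    have h1 : (swW j t.1).1 = sw j t.1.1 := swW_val hj t.1
    have h2 : IsLat n (swW j t.1).1 := by
      rw [h1]
      exact c5 j hj hd
    have h3 := c3 j hj hd
    have h4 : colw n (swW j t.1).1 = sw j (colw n t.1.1) := by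
      rw [h1]
      exact c7 j hj (by omega)
    refine ⟨⟨swW j t.1, h2⟩, rfl, ?_, h4, h3, ?_, ?_⟩
    · change inv n t.1.1 = inv n (swW j t.1).1 + 1
      rw [h1]
      exact inv_sw' hj hd
    · change inv n (colw n (swW j t.1).1) = _
      rw [h4]
      exact inv_sw hj h3
    · have h5 : (swW j t.1).1 j < (swW j t.1).1 (j + 1) := by
        rw [swW_left hj, swW_right hj]
        exact hd
      have h6 := (hg (swW j t.1) j hj).1 h5
      rw [swW_swW] at h6
      exact h6.symm
  have hinv : ∀ (m : ℕ) (t : Lat μ), inv n t.1.1 = m → m + inv n (colw n t.1.1) = L := by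
    intro m
    induction m with
    | zero =>
      intro t ht
      by_cases hs' : Sorted n t.1.1
      · rw [hw0u t.1 hs', hcol0, hL, zero_add]
      · obtain ⟨j, hj, hd⟩ := exists_descent hs'
        have := inv_sw' hj hd
        omega
    | succ m ih =>
      intro t ht
      by_cases hs' : Sorted n t.1.1
      · have h1 := hstep t
        have h2 : inv n t.1.1 = 0 := by
          unfold inv
          rw [Finset.card_eq_zero, Finset.filter_eq_empty_iff]
          rintro ⟨a, b⟩ hab ⟨h3, h4⟩
          rw [Finset.mem_product, Finset.mem_range, Finset.mem_range] at hab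
          have := sorted_le hs' (show a ≤ b from le_of_lt h3) hab.2
          simp only at h4 this
          omega
        omega
      · obtain ⟨j, hj, hd⟩ := exists_descent hs'
        obtain ⟨t', e1, e2, e3, e4, e5, e6⟩ := hstep t j hj hd
        have := ih t' (by omega)
        omega
  have hb : ∀ (m : ℕ) (t : Lat μ), inv n t.1.1 = m → ∀ w : Wd n μ.conj, m + inv n w.1 = L →
      g t.1 w = if w.1 = colw n t.1.1 then q ^ m else 0 := by
    intro m
    induction m with
    | zero =>
      intro t ht w hw
      have hs' : Sorted n t.1.1 := by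
        by_contra hs'
        obtain ⟨j, hj, hd⟩ := exists_descent hs'
        have := inv_sw' hj hd
        omega
      rw [hw0u t.1 hs', hcol0, hg0, pow_zero]
      unfold zvec
      by_cases hbd : BlockDistinct n μ.part w.1
      · have h1 := (hwr2 w hbd).2.1 (by rw [← hL]; omega)
        rw [if_pos hbd, if_pos (congrArg Subtype.val h1)]
      · rw [if_neg hbd, if_neg]
        intro h1
        apply hbd
        rw [h1]
        exact incr_distinct hwr1
    | succ m ih =>
      intro t ht w hw
      have hs' : ¬ Sorted n t.1.1 := by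
        intro hs'
        have h2 : inv n t.1.1 = 0 := by
          unfold inv
          rw [Finset.card_eq_zero, Finset.filter_eq_empty_iff]
          rintro ⟨a, b⟩ hab ⟨h3, h4⟩
          rw [Finset.mem_product, Finset.mem_range, Finset.mem_range] at hab
          have := sorted_le hs' (show a ≤ b from le_of_lt h3) hab.2
          simp only at h4 this
          omega
        omega
      obtain ⟨j, hj, hd⟩ := exists_descent hs'
      obtain ⟨t', e1, e2, e3, e4, e5, e6⟩ := hstep t j hj hd
      have ht' : inv n t'.1.1 = m := by omega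
      have hzero : ∀ w' : Wd n μ.conj, m + inv n w'.1 < L → g t'.1 w' = 0 := by
        intro w' hw'
        by_contra hne
        have := ha m t'.1 ht' w' hne
        omega
      rw [e6]
      rcases lt_trichotomy (w.1 j) (w.1 (j + 1)) with h | h | h
      · rw [gT_apply_lt hj _ h]
        have h1 : inv n (swW j w).1 = inv n w.1 + 1 := by
          rw [swW_val hj]
          exact inv_sw hj h
        rw [ih t' ht' (swW j w) (by omega), e3, swW_val hj]
        by_cases h2 : w.1 = colw n t.1.1
        · rw [if_pos (by rw [h2]), if_pos h2, pow_succ]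
          ring
        · rw [if_neg, if_neg h2, mul_zero]
          intro h3
          apply h2
          have h4 := congrArg (sw j) h3
          rwa [sw_sw, sw_sw] at h4
      · rw [gT_apply_eq hj _ h, hzero w (by omega), neg_zero, if_neg]
        intro h2
        rw [← h2] at e4
        omega
      · rw [gT_apply_gt hj _ h]
        have h1 : inv n w.1 = inv n (swW j w).1 + 1 := by
          rw [swW_val hj]
          exact inv_sw' hj h
        rw [hzero w (by omega), hzero (swW j w) (by omega), mul_zero, add_zero, if_neg]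
        intro h2
        rw [← h2] at e4
        omega
  -- independence
  rw [Fintype.linearIndependent_iff]
  intro c hsum
  by_contra hcon
  push Not at hcon
  obtain ⟨t0, ht0⟩ := hcon
  obtain ⟨t, htmem, htmax⟩ := Finset.exists_max_image
    (Finset.univ.filter (fun t : Lat μ => c t ≠ 0)) (fun t => inv n t.1.1)
    ⟨t0, Finset.mem_filter.2 ⟨Finset.mem_univ _, ht0⟩⟩
  have htc : c t ≠ 0 := (Finset.mem_filter.1 htmem).2
  obtain ⟨c1, c2, _⟩ := hc n μ t
  obtain ⟨w, hw⟩ : ∃ w : Wd n μ.conj, w = ⟨colw n t.1.1, c1⟩ := ⟨_, rfl⟩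
  have hw1 : w.1 = colw n t.1.1 := by rw [hw]
  have hwL : inv n t.1.1 + inv n w.1 = L := by
    rw [hw1]
    exact hinv _ t rfl
  have hval : ∀ s : Lat μ, s ≠ t → c s * g s.1 w = 0 := by
    intro s hst
    by_cases hcs : c s = 0
    · rw [hcs, zero_mul]
    · have h1 : inv n s.1.1 ≤ inv n t.1.1 :=
        htmax s (Finset.mem_filter.2 ⟨Finset.mem_univ _, hcs⟩)
      have h2 : g s.1 w = 0 := by
        rcases h1.lt_or_eq with h | h
        · by_contra hne
          have := ha _ s.1 rfl w hne
          omega
        · rw [hb _ s h w (by rw [← hwL]), if_neg]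
          intro h3
          apply hst
          have h4 := (hc n μ s).2.1
          rw [← h3, hw1, c2] at h4
          exact Subtype.ext (Subtype.ext h4.symm)
      rw [h2, mul_zero]
  have hsumw : ∑ s : Lat μ, c s * g s.1 w = 0 := by
    have h1 : (∑ s : Lat μ, c s • bvec R q μ s) w = (0 : Lam R q n μ.conj) w := by rw [hsum]
    have h2 : (∑ s : Lat μ, c s • bvec R q μ s) w = ∑ s : Lat μ, c s * g s.1 w := by
      have h3 : ∀ (S : Finset (Lat μ)), (∑ s ∈ S, c s • bvec R q μ s : Lam R q n μ.conj) w =
          ∑ s ∈ S, c s * g s.1 w := by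
        intro S
        induction S using Finset.induction_on with
        | empty => rfl
        | insert a S ha' ih' =>
          rw [Finset.sum_insert ha', Finset.sum_insert ha', ← ih']
          unfold bvec
          rw [← hgdef]
          rfl
      exact h3 Finset.univ
    rw [← h2, h1]
    rfl
  rw [Finset.sum_eq_single t (fun s _ hs => hval s hs)
    (fun h => absurd (Finset.mem_univ t) h), hb _ t rfl w hwL, if_pos hw1] at hsumw
  have hqn : q ^ inv n t.1.1 ∈ nonZeroDivisors R := pow_mem hq _
  exact htc ((mem_nonZeroDivisors_iff_right.1 hqn) _ hsumw)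

end Pool.Agent.James
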