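import Pool.Agent.James.Stmts

/-!
Invariants of the word modules (module JS_INV): `inv_lam : S_INV` and `zinv : S_ZINV`.
-/

set_option autoImplicit false

namespace Pool.Agent.James

theorem sameBlock_iff {ν : ℕ → ℕ} {j : ℕ} : SameBlock ν j (j + 1) ↔ InY ν j := by
  constructor
  · intro h r hr
    exact h r ⟨by omega, by omega⟩
  · intro h r hr
    exact h r (by omega)

theorem SameBlock.inY {ν : ℕ → ℕ} {k l j : ℕ} (h : SameBlock ν k l) (h1 : k ≤ j) (h2 : j < l) :
    InY ν j := by
  intro r hr
  exact h r ⟨by omega, by omega⟩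

theorem SameBlock.mono {ν : ℕ → ℕ} {k l k' l' : ℕ} (h : SameBlock ν k l) (h1 : k ≤ k')
    (h2 : l' ≤ l) : SameBlock ν k' l' := by
  intro r hr
  exact h r ⟨by omega, by omega⟩

/-- An exchange inside a block keeps the letters of each block distinct. -/
theorem BlockDistinct.sw {n : ℕ} {ν w : ℕ → ℕ} {j : ℕ} (hj : j + 1 < n) (hY : InY ν j)
    (h : BlockDistinct n ν w) : BlockDistinct n ν (sw j w) := by
  intro k l hkl hl hS
  have hk : k < n := by omega
  have hS' : SameBlock ν (Equiv.swap j (j + 1) k) (Equiv.swap j (j + 1) l) := by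
    intro r hr
    have h1 := hY r
    apply hS r
    simp only [Equiv.swap_apply_def] at hr
    split_ifs at hr <;> omega
  have hk' := swap_lt hj hk
  have hl' := swap_lt hj hl
  change w (Equiv.swap j (j + 1) k) ≠ w (Equiv.swap j (j + 1) l)
  rcases lt_trichotomy (Equiv.swap j (j + 1) k) (Equiv.swap j (j + 1) l) with h1 | h1 | h1
  · exact h _ _ h1 hl' hS'
  · exact absurd ((Equiv.swap j (j + 1)).injective h1) hkl.ne
  · have h2 : k = j ∧ l = j + 1 := by
      simp only [Equiv.swap_apply_def] at h1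
      split_ifs at h1 <;> omega
    rw [h2.1, h2.2, Equiv.swap_apply_left, Equiv.swap_apply_right]
    exact (h j (j + 1) (by omega) hj (sameBlock_iff.2 hY)).symm

theorem blockDistinct_sw_iff {n : ℕ} {ν w : ℕ → ℕ} {j : ℕ} (hj : j + 1 < n) (hY : InY ν j) :
    BlockDistinct n ν (sw j w) ↔ BlockDistinct n ν w := by
  constructor
  · intro h
    have h1 := BlockDistinct.sw hj hY h
    rw [sw_sw] at h1
    exact h1
  · exact BlockDistinct.sw hj hY

section
variable {R : Type*} [CommRing R] {q : R} {n : ℕ} {μ ν : ℕ → ℕ}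

/-- The values of `T_j f = q f`. -/
theorem IsInv.val {f : Lam R q n μ} (h : IsInv q n ν f) {j : ℕ} (hj : j + 1 < n) (hY : InY ν j)
    (w : Wd n μ) : lT q j f w = q * f w := by
  have h1 := h j hj hY
  rw [gT_smul hj] at h1
  exact congrFun h1 w

/-- An invariant is constant along exchanges inside the blocks. -/
theorem IsInv.sw_eq {f : Lam R q n μ} (h : IsInv q n ν f) (hq : q ∈ nonZeroDivisors R) {j : ℕ}
    (hj : j + 1 < n) (hY : InY ν j) (w : Wd n μ) : f (swW j w) = f w := by
  have key : ∀ w : Wd n μ, w.1 j < w.1 (j + 1) → f (swW j w) = f w := by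
    intro w hw
    have h1 := h.val hj hY w
    rw [lT_lt hw] at h1
    exact (mul_cancel_left_mem_nonZeroDivisors hq).1 h1
  rcases lt_trichotomy (w.1 j) (w.1 (j + 1)) with h1 | h1 | h1
  · exact key w h1
  · rw [swW_eq_self hj h1]
  · have h2 := key (swW j w) (by rw [swW_left hj, swW_right hj]; exact h1)
    rw [swW_swW] at h2
    exact h2.symm

/-- An invariant vanishes on the words with two equal neighbours in a block. -/
theorem IsInv.tie {f : Lam R q n μ} (h : IsInv q n ν f) (hq : (1 + q) ∈ nonZeroDivisors R) {j : ℕ}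
    (hj : j + 1 < n) (hY : InY ν j) {w : Wd n μ} (hw : w.1 j = w.1 (j + 1)) : f w = 0 := by
  have h1 := h.val hj hY w
  rw [lT_eq hw] at h1
  have h2 : (1 + q) * f w = 0 := by
    rw [add_mul, one_mul, ← h1]
    ring
  exact (mul_left_mem_nonZeroDivisors_eq_zero_iff hq).1 h2

/-- An invariant vanishes on the words with two equal letters in a block. -/
theorem IsInv.eq_zero {f : Lam R q n μ} (h : IsInv q n ν f) (hq : q ∈ nonZeroDivisors R)
    (hq1 : (1 + q) ∈ nonZeroDivisors R) (d : ℕ) : ∀ (k : ℕ) (w : Wd n μ), k + 1 + d < n →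
    SameBlock ν k (k + 1 + d) → w.1 k = w.1 (k + 1 + d) → f w = 0 := by
  induction d with
  | zero =>
    intro k w hk hS hw
    exact h.tie hq1 hk (hS.inY le_rfl (by omega)) hw
  | succ d ih =>
    intro k w hk hS hw
    have hY : InY ν k := hS.inY le_rfl (by omega)
    have hk1 : k + 1 < n := by omega
    rw [← h.sw_eq hq hk1 hY w]
    apply ih (k + 1) (swW k w) (by omega)
    · exact hS.mono (by omega) (by omega)
    · rw [swW_right hk1, swW_ne hk1 w (by omega) (by omega), hw,
        show k + 1 + (d + 1) = k + 1 + 1 + d by omega]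

theorem IsInv.eq_zero_of_not {f : Lam R q n μ} (h : IsInv q n ν f) (hq : q ∈ nonZeroDivisors R)
    (hq1 : (1 + q) ∈ nonZeroDivisors R) {w : Wd n μ} (hw : ¬ BlockDistinct n ν w.1) :
    f w = 0 := by
  unfold BlockDistinct at hw
  push Not at hw
  obtain ⟨k, l, hkl, hl, hS, he⟩ := hw
  have hd : l = k + 1 + (l - k - 1) := by omega
  rw [hd] at hl hS he
  exact h.eq_zero hq hq1 (l - k - 1) k w hl hS he

/-- A word with distinct letters in the blocks is strictly increasing in the blocks or has a
descent inside a block. -/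
theorem exists_descent {w : ℕ → ℕ} (hd : BlockDistinct n ν w) (hi : ¬ BlockIncr n ν w) :
    ∃ j, j + 1 < n ∧ InY ν j ∧ w (j + 1) < w j := by
  by_contra hcon
  push Not at hcon
  apply hi
  intro k l hkl hl hS
  have key : ∀ m, k + m ≤ l → w k ≤ w (k + m) := by
    intro m
    induction m with
    | zero =>
      intro _
      exact le_rfl
    | succ m ih =>
      intro hm
      exact (ih (by omega)).trans (hcon (k + m) (by omega) (hS.inY (by omega) (by omega)))
  have h1 := key (l - k) (by omega)
  rw [show k + (l - k) = l by omega] at h1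
  exact lt_of_le_of_ne h1 (hd k l hkl hl hS)

theorem IsInv.ext_zero {f : Lam R q n μ} (h : IsInv q n ν f) (hq : q ∈ nonZeroDivisors R)
    (hq1 : (1 + q) ∈ nonZeroDivisors R) (h0 : ∀ w : Wd n μ, BlockIncr n ν w.1 → f w = 0) :
    ∀ (m : ℕ) (w : Wd n μ), inv n w.1 ≤ m → f w = 0 := by
  intro m
  induction m with
  | zero =>
    intro w hw
    by_cases hd : BlockDistinct n ν w.1
    · by_cases hi : BlockIncr n ν w.1
      · exact h0 w hi
      · obtain ⟨j, hj, hY, hlt⟩ := exists_descent hd hi
        have := inv_sw' hj hlt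
        omega
    · exact h.eq_zero_of_not hq hq1 hd
  | succ m ih =>
    intro w hw
    by_cases hd : BlockDistinct n ν w.1
    · by_cases hi : BlockIncr n ν w.1
      · exact h0 w hi
      · obtain ⟨j, hj, hY, hlt⟩ := exists_descent hd hi
        rw [← h.sw_eq hq hj hY w]
        apply ih
        rw [swW_val hj]
        have := inv_sw' hj hlt
        omega
    · exact h.eq_zero_of_not hq hq1 hd

end

/-- Invariants of word modules. -/
theorem inv_lam : S_INV := by
  intro R _ q n μ ν f hq hq1 h
  refine ⟨fun w hw => h.eq_zero_of_not hq hq1 hw, fun h0 => ?_⟩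
  funext w
  exact h.ext_zero hq hq1 h0 _ w le_rfl

theorem zvec_sw {R : Type*} [CommRing R] {q : R} {n : ℕ} {μ : Ptn n} {j : ℕ} (hj : j + 1 < n)
    (hY : InY μ.part j) (w : Wd n μ.conj) : zvec R q μ (swW j w) = zvec R q μ w := by
  unfold zvec
  have h1 : BlockDistinct n μ.part (swW j w).1 ↔ BlockDistinct n μ.part w.1 := by
    rw [swW_val hj]
    exact blockDistinct_sw_iff hj hY
  by_cases h : BlockDistinct n μ.part w.1
  · rw [if_pos h, if_pos (h1.2 h)]
  · rw [if_neg h, if_neg (fun h' => h (h1.1 h'))]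

/-- `z_λ` is invariant. -/
theorem zinv : S_ZINV := by
  intro R _ q n μ j hj hY
  rw [gT_smul hj]
  funext w
  change lT q j (zvec R q μ) w = q * zvec R q μ w
  rcases lt_trichotomy (w.1 j) (w.1 (j + 1)) with h | h | h
  · rw [lT_lt h, zvec_sw hj hY]
  · have h0 : zvec R q μ w = 0 := by
      unfold zvec
      rw [if_neg]
      intro hd
      exact hd j (j + 1) (by omega) hj (sameBlock_iff.2 hY) h
    rw [lT_eq h, h0, neg_zero, mul_zero]
  · rw [lT_gt h, zvec_sw hj hY]
    ring

end Pool.Agent.James
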