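import Pool.Agent.James.Stmts

/-!
# Module JX: left invariant elements of the Hecke algebra are multiples of the symmetrizer
(problem MP_36c429_al; helper64)
-/

set_option autoImplicit false

namespace Pool.Agent.James

section Psi
variable {R : Type*} [CommRing R] {q : R} {n : ℕ} {ν : ℕ → ℕ}
  {V : Type*} [AddCommGroup V] [Module R V] [Module (Hecke R q n) V]
  [IsScalarTower R (Hecke R q n) V]

/-- The linear map from the word module given by a family of vectors. -/
noncomputable def psi (g : Wd n ν → V) (f : Lam R q n ν) : V := ∑ w : Wd n ν, f w • g w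

theorem psi_gT {g : Wd n ν → V} (hg : IsFam q (-1 : R) g) {j : ℕ} (hj : j + 1 < n)
    (f : Lam R q n ν) : psi g (gT R q n j • f) = gT R q n j • psi g f := by
  have hdesc : ∀ w : Wd n ν, w.1 (j + 1) < w.1 j →
      gT R q n j • g w = q • g (swW j w) + (q - 1) • g w := by
    intro w hw
    have h' : (swW j w).1 j < (swW j w).1 (j + 1) := by
      rw [swW_left hj, swW_right hj]
      exact hw
    have h1 := (hg (swW j w) j hj).1 h'
    rw [swW_swW] at h1
    rw [← h1, ← mul_smul, (gT_rel (R := R) (q := q) (n := n)).quad j hj, add_smul, smul_assoc,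
      smul_assoc, one_smul, h1]
    abel
  unfold psi
  rw [Finset.smul_sum, gT_smul hj, ← sub_eq_zero, ← Finset.sum_sub_distrib]
  apply Finset.sum_involution (fun w _ => swW j w)
  · intro w _
    rw [smul_comm (gT R q n j) (f w) (g w), smul_comm (gT R q n j) (f (swW j w)) (g (swW j w))]
    rcases lt_trichotomy (w.1 j) (w.1 (j + 1)) with h | h | h
    · have h' : (swW j w).1 (j + 1) < (swW j w).1 j := by
        rw [swW_left hj, swW_right hj]
        exact h
      rw [lT_lt h, lT_gt h', swW_swW, (hg w j hj).1 h, hdesc _ h', swW_swW]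
      module
    · rw [swW_eq_self hj h, lT_eq h, (hg w j hj).2 h]
      module
    · have h' : (swW j w).1 j < (swW j w).1 (j + 1) := by
        rw [swW_left hj, swW_right hj]
        exact h
      rw [lT_gt h, lT_lt h', swW_swW, hdesc w h, (hg (swW j w) j hj).1 h', swW_swW]
      module
  · intro w _ hne he
    apply hne
    have h : w.1 j = w.1 (j + 1) := by
      rw [← swW_right hj w, he]
    rw [lT_eq h, smul_comm (gT R q n j) (f w) (g w), (hg w j hj).2 h]
    module
  · intro w _
    exact Finset.mem_univ _
  · intro w _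
    exact swW_swW j w

theorem psi_smul {g : Wd n ν → V} (hg : IsFam q (-1 : R) g) (a : Hecke R q n)
    (f : Lam R q n ν) : psi g (a • f) = a • psi g f := by
  have hadd' : ∀ f f' : Lam R q n ν, psi g (f + f') = psi g f + psi g f' := by
    intro f f'
    unfold psi
    rw [← Finset.sum_add_distrib]
    refine Finset.sum_congr rfl fun w _ => ?_
    exact add_smul (f w) (f' w) (g w)
  have hsm : ∀ (r : R) (f : Lam R q n ν), psi g (r • f) = r • psi g f := by
    intro r f
    unfold psi
    rw [Finset.smul_sum]
    refine Finset.sum_congr rfl fun w _ => ?_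
    exact mul_smul r (f w) (g w)
  induction a using Hecke.induction generalizing f with
  | h0 r => rw [algebraMap_smul, algebraMap_smul, hsm]
  | hT j hj => exact psi_gT hg hj f
  | hadd a b ha hb => rw [add_smul, add_smul, hadd', ha, hb]
  | hmul a b ha hb => rw [mul_smul, mul_smul, ha, hb]

end Psi

/-- The content `1^n`. -/
def oneC (n : ℕ) : ℕ → ℕ := fun c => if c < n then 1 else 0

theorem ps_oneC {n r : ℕ} (h : r ≤ n) : ps (oneC n) r = r := by
  unfold ps oneC
  rw [Finset.sum_congr rfl (fun i hi => if_pos (lt_of_lt_of_le (Finset.mem_range.1 hi) h))]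
  simp

/-- Every left invariant element is in the right ideal generated by the symmetrizer. -/
theorem jx (hD : S_DIAM) (hI : S_INV) (hS : S_SRT) : S_JX := by
  classical
  intro R _ q n ν X h hq hq1 _ hX hh
  obtain ⟨w0, hw0, htie⟩ := (hS n (oneC n)).1 ⟨n, fun i hi => if_neg (by omega), ps_oneC le_rfl⟩
  obtain ⟨hg0, hg⟩ := hD R q (-1) n (oneC n) (Hecke R q n) w0 1 hw0 (by
    intro j hj hj'
    exact absurd (ps_oneC (n := n) (r := j + 1) (by omega)) ((htie j hj).1 hj' (j + 1)))
  set g : Wd n (oneC n) → Hecke R q n := fam q (oneC n) 1 with hgdef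
  set m : Lam R q n (oneC n) := h • wd R q w0 with hm
  have hminv : IsInv q n ν m := by
    intro j hj hjy
    rw [hm, ← mul_smul, hh j hj hjy, smul_assoc]
  let m1 : Lam R q n (oneC n) := fun w => if BlockIncr n ν w.1 then m w else 0
  have hXm : IsInv q n ν (X • m1) := by
    intro j hj hjy
    rw [← mul_smul, hX.left j hj hjy, smul_assoc]
  have hdiff : IsInv q n ν (m - X • m1) := by
    intro j hj hjy
    rw [smul_sub, hminv j hj hjy, hXm j hj hjy, smul_sub]
  have h0 := (hI R q n (oneC n) ν (m - X • m1) hq hq1 hdiff).2 (by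
    intro w hw
    have h1 := hX.supp (oneC n) m1 (fun w hw => if_neg hw) w hw
    have h2 : m1 w = m w := if_pos hw
    change m w - (X • m1) w = 0
    rw [h1, h2, sub_self])
  have hmX : m = X • m1 := sub_eq_zero.1 h0
  refine ⟨psi g m1, ?_⟩
  have h3 : psi g m = X • psi g m1 := by rw [hmX, psi_smul hg]
  have h4 : psi g m = h • psi g (wd R q w0) := by rw [hm, psi_smul hg]
  have h5 : psi g (wd R q w0) = 1 := by
    unfold psi wd
    rw [Finset.sum_eq_single w0]
    · rw [if_pos rfl, one_smul, hg0]
    · intro w _ hw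
      rw [if_neg hw, zero_smul]
    · intro hw
      exact absurd (Finset.mem_univ w0) hw
  rw [h5, smul_eq_mul, mul_one] at h4
  rw [← h4, h3, smul_eq_mul]

end Pool.Agent.James
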