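import Pool.Agent.James.Stmts

/-!
Module JS_MAX (helper18): the partition with `J_λ V ≠ 0` and `∑ (3 ^ λ_i - 1)` maximal.
-/

set_option autoImplicit false

namespace Pool.Agent.James

namespace Maxp

/-! ### Sorting a composition -/

theorem exists_sort (N : ℕ) (ν : ℕ → ℕ) (hN : ∀ i, N ≤ i → ν i = 0) :
    ∃ σ : Equiv.Perm ℕ, Antitone (fun i => ν (σ i)) ∧ (∀ i, N ≤ i → ν (σ i) = 0) ∧
      ∀ φ : ℕ → ℕ, ∑ i ∈ Finset.range N, φ (ν (σ i)) = ∑ i ∈ Finset.range N, φ (ν i) := by
  let f : Fin N → ℕᵒᵈ := fun i => OrderDual.toDual (ν i)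
  let τ := Tuple.sort f
  have hτ : Monotone (f ∘ τ) := Tuple.monotone_sort f
  let σ : Equiv.Perm ℕ := τ.extendDomain Fin.equivSubtype
  have h1 : ∀ i (hi : i < N), σ i = (τ ⟨i, hi⟩ : ℕ) := by
    intro i hi
    have := Equiv.Perm.extendDomain_apply_subtype τ Fin.equivSubtype (b := i) hi
    rw [show σ i = _ from this]
    rfl
  have h2 : ∀ i, N ≤ i → σ i = i := by
    intro i hi
    exact Equiv.Perm.extendDomain_apply_not_subtype τ Fin.equivSubtype (by omega)
  refine ⟨σ, ?_, ?_, ?_⟩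
  · intro i j hij
    change ν (σ j) ≤ ν (σ i)
    by_cases hj : j < N
    · have hi : i < N := lt_of_le_of_lt hij hj
      rw [h1 i hi, h1 j hj]
      exact hτ (show (⟨i, hi⟩ : Fin N) ≤ ⟨j, hj⟩ from hij)
    · rw [h2 j (by omega), hN j (by omega)]
      exact Nat.zero_le _
  · intro i hi
    rw [h2 i hi, hN i hi]
  · intro φ
    rw [Finset.sum_range, Finset.sum_range]
    have h3 : ∀ i : Fin N, φ (ν (σ i)) = φ (ν (τ i)) := by
      intro i
      rw [h1 i i.2]
    rw [Finset.sum_congr rfl (fun i _ => h3 i)]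
    exact Equiv.sum_comp τ (fun i : Fin N => φ (ν i))

/-- a sum over the support -/
theorem sum_eq_of_le {g : ℕ → ℕ} {N M : ℕ} (hNM : N ≤ M) (h : ∀ i, N ≤ i → g i = 0) :
    ∑ i ∈ Finset.range M, g i = ∑ i ∈ Finset.range N, g i := by
  obtain ⟨t, rfl⟩ := Nat.exists_eq_add_of_le hNM
  rw [Finset.sum_range_add]
  have : ∑ x ∈ Finset.range t, g (N + x) = 0 :=
    Finset.sum_eq_zero fun x _ => h _ (by omega)
  rw [this, add_zero]

/-- An antitone composition is a partition. -/
theorem exists_ptn {n N : ℕ} {ν : ℕ → ℕ} (ha : Antitone ν) (hN : ∀ i, N ≤ i → ν i = 0)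
    (hs : ∑ i ∈ Finset.range N, ν i = n) : ∃ μ : Ptn n, μ.part = ν := by
  have hz : ∀ i, n ≤ i → ν i = 0 := by
    intro i hi
    by_contra h0
    have hiN : i < N := by
      by_contra h
      exact h0 (hN i (by omega))
    have h1 : ∑ j ∈ Finset.range (i + 1), 1 ≤ ∑ j ∈ Finset.range (i + 1), ν j := by
      refine Finset.sum_le_sum fun j hj => ?_
      have := ha (show j ≤ i by rw [Finset.mem_range] at hj; omega)
      omega
    have h2 : ∑ j ∈ Finset.range (i + 1), ν j ≤ ∑ j ∈ Finset.range N, ν j :=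
      Finset.sum_le_sum_of_subset (Finset.range_subset_range.mpr hiN)
    rw [Finset.sum_const, Finset.card_range, smul_eq_mul, mul_one] at h1
    omega
  refine ⟨⟨ν, ha, hz, ?_⟩, rfl⟩
  rcases le_total n N with h | h
  · rw [← sum_eq_of_le h hz, hs]
  · rw [sum_eq_of_le h hN, hs]

/-! ### The Garnir composition -/

theorem gar_sum {n : ℕ} (μ : Ptn n) {r c : ℕ} (hc : c < μ.part (r + 1)) (φ : ℕ → ℕ) :
    ∑ i ∈ Finset.range (n + 1), φ (garComp μ.part r c i) + φ (μ.part r) + φ (μ.part (r + 1)) =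
      ∑ i ∈ Finset.range n, φ (μ.part i) + φ c + φ (μ.part r + 1) +
        φ (μ.part (r + 1) - c - 1) := by
  have hr : r + 1 < n := by
    by_contra h
    have := μ.zero (r + 1) (by omega)
    omega
  obtain ⟨t, ht⟩ := Nat.exists_eq_add_of_le (show r + 2 ≤ n by omega)
  have e1 : n + 1 = (r + 1 + 1 + 1) + t := by omega
  have e2 : n = (r + 1 + 1) + t := by omega
  have a1 : ∑ i ∈ Finset.range (n + 1), φ (garComp μ.part r c i) =
      ∑ i ∈ Finset.range r, φ (μ.part i) + φ c + φ (μ.part r + 1) +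
        φ (μ.part (r + 1) - c - 1) + ∑ i ∈ Finset.range t, φ (μ.part (r + 1 + 1 + i)) := by
    rw [e1, Finset.sum_range_add, Finset.sum_range_succ, Finset.sum_range_succ,
      Finset.sum_range_succ]
    have b0 : ∑ x ∈ Finset.range r, φ (garComp μ.part r c x) =
        ∑ i ∈ Finset.range r, φ (μ.part i) := by
      refine Finset.sum_congr rfl fun x hx => ?_
      rw [Finset.mem_range] at hx
      unfold garComp
      rw [if_pos hx]
    have b1 : garComp μ.part r c r = c := by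
      unfold garComp
      rw [if_neg (by omega), if_pos rfl]
    have b2 : garComp μ.part r c (r + 1) = μ.part r + 1 := by
      unfold garComp
      rw [if_neg (by omega), if_neg (by omega), if_pos rfl]
    have b3 : garComp μ.part r c (r + 1 + 1) = μ.part (r + 1) - c - 1 := by
      unfold garComp
      rw [if_neg (by omega), if_neg (by omega), if_neg (by omega), if_pos rfl]
    have b4 : ∑ x ∈ Finset.range t, φ (garComp μ.part r c (r + 1 + 1 + 1 + x)) =
        ∑ i ∈ Finset.range t, φ (μ.part (r + 1 + 1 + i)) := by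
      refine Finset.sum_congr rfl fun x _ => ?_
      unfold garComp
      rw [if_neg (by omega), if_neg (by omega), if_neg (by omega), if_neg (by omega)]
      congr 2
      omega
    rw [b0, b1, b2, b3, b4]
  have a2 : ∑ i ∈ Finset.range n, φ (μ.part i) =
      ∑ i ∈ Finset.range r, φ (μ.part i) + φ (μ.part r) + φ (μ.part (r + 1)) +
        ∑ i ∈ Finset.range t, φ (μ.part (r + 1 + 1 + i)) := by
    have e3 : Finset.range n = Finset.range ((r + 1 + 1) + t) := congrArg Finset.range e2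
    rw [e3, Finset.sum_range_add, Finset.sum_range_succ, Finset.sum_range_succ]
  rw [a1, a2]
  ring

theorem gar_zero {n : ℕ} (μ : Ptn n) {r c : ℕ} (hc : c < μ.part (r + 1)) (i : ℕ)
    (hi : n + 1 ≤ i) : garComp μ.part r c i = 0 := by
  have hr : r + 1 < n := by
    by_contra h
    have := μ.zero (r + 1) (by omega)
    omega
  unfold garComp
  rw [if_neg (by omega), if_neg (by omega), if_neg (by omega), if_neg (by omega)]
  exact μ.zero _ (by omega)

theorem gar_total {n : ℕ} (μ : Ptn n) {r c : ℕ} (hc : c < μ.part (r + 1)) :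
    ∑ i ∈ Finset.range (n + 1), garComp μ.part r c i = n := by
  have h := gar_sum μ hc (fun x => x)
  have h1 := μ.sum
  omega

/-- The potential. -/
def pot (N : ℕ) (ν : ℕ → ℕ) : ℕ := ∑ i ∈ Finset.range N, (3 ^ ν i - 1)

theorem gar_pot {n : ℕ} (μ : Ptn n) {r c : ℕ} (hc : c < μ.part (r + 1)) :
    pot n μ.part < pot (n + 1) (garComp μ.part r c) := by
  have h := gar_sum μ hc (fun x => 3 ^ x - 1)
  unfold pot
  have hab : μ.part (r + 1) ≤ μ.part r := μ.anti (Nat.le_succ r)
  have h1 : 3 ^ μ.part (r + 1) ≤ 3 ^ μ.part r := Nat.pow_le_pow_right (by norm_num) hab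
  have h2 : 3 ^ (μ.part r + 1) = 3 * 3 ^ μ.part r := by rw [pow_succ]; ring
  have h3 : 1 ≤ 3 ^ μ.part (r + 1) := Nat.one_le_pow _ _ (by norm_num)
  have h5 : 1 ≤ 3 ^ c := Nat.one_le_pow _ _ (by norm_num)
  have h6 : 1 ≤ 3 ^ (μ.part (r + 1) - c - 1) := Nat.one_le_pow _ _ (by norm_num)
  rw [h2] at h
  omega

theorem pot_le {n : ℕ} (μ : Ptn n) : pot n μ.part ≤ n * 3 ^ n := by
  unfold pot
  have h : ∀ i ∈ Finset.range n, 3 ^ μ.part i - 1 ≤ 3 ^ n := by
    intro i hi
    have h1 : μ.part i ≤ n := by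
      have := Finset.single_le_sum (f := μ.part) (fun _ _ => Nat.zero_le _) hi
      rw [μ.sum] at this
      exact this
    have h2 : 3 ^ μ.part i ≤ 3 ^ n := Nat.pow_le_pow_right (by norm_num) h1
    exact (Nat.sub_le _ _).trans h2
  refine (Finset.sum_le_sum h).trans ?_
  rw [Finset.sum_const, Finset.card_range, smul_eq_mul]

/-! ### Good compositions -/

section
variable {F : Type} [Field F] (q : F) (n : ℕ) (V : Type) [AddCommGroup V] [Module F V]
  [Module (Hecke F q n) V]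

/-- `J_ν V ≠ 0`. -/
def Good (ν : ℕ → ℕ) : Prop := ∃ (h : Hecke F q n) (v : V), LInv q n ν h ∧ h • v ≠ 0

end

section
variable {F : Type} [Field F] {q : F} {n : ℕ} {V : Type} [AddCommGroup V] [Module F V]
  [Module (Hecke F q n) V] [IsScalarTower F (Hecke F q n) V]

theorem gT_smul_ne {j : ℕ} (hj : j + 1 < n) (hq : q ≠ 0) {v : V} (hv : v ≠ 0) :
    gT F q n j • v ≠ 0 := by
  intro h
  have h1 : (gT F q n j * gT F q n j) • v = 0 := by rw [mul_smul, h, smul_zero]
  rw [gT_rel.quad j hj, add_smul, smul_assoc, smul_assoc, h, smul_zero, zero_add, one_smul] at h1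
  exact hv ((smul_eq_zero.mp h1).resolve_left hq)

theorem fam_ne (hS : S_SRT) (hq : q ≠ 0) {ν : ℕ → ℕ} {w0 : Wd n ν}
    (hw0 : Sorted n w0.1) {g : Wd n ν → Hecke F q n} (hg : IsFam q q g) {v : V}
    (hv : g w0 • v ≠ 0) : ∀ (k : ℕ) (w : Wd n ν), inv n w.1 = k → g w • v ≠ 0 := by
  intro k
  induction k using Nat.strong_induction_on with
  | _ k ih =>
    intro w hk
    by_cases hs : Sorted n w.1
    · rw [(hS n ν).2 w w0 hs hw0]
      exact hv
    · unfold Sorted at hs
      push Not at hs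
      obtain ⟨j, hj, hlt⟩ := hs
      have h1 : (swW j w).1 j < (swW j w).1 (j + 1) := by
        rw [swW_left hj, swW_right hj]
        exact hlt
      have h2 := (hg (swW j w) j hj).1 h1
      rw [swW_swW] at h2
      have h3 : inv n w.1 = inv n (swW j w).1 + 1 := by
        rw [swW_val hj]
        exact inv_sw' hj hlt
      have h4 : g (swW j w) • v ≠ 0 := ih _ (by omega) (swW j w) rfl
      rw [← h2, smul_eq_mul, mul_smul]
      exact gT_smul_ne hj hq h4

theorem Good.perm (hD : S_DIAM) (hS : S_SRT) (hq : q ≠ 0) {ν : ℕ → ℕ} (hν : IsComp n ν)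
    (σ : Equiv.Perm ℕ) (hσ : IsComp n (fun i => ν (σ i))) (hg : Good q n V ν) :
    Good q n V (fun i => ν (σ i)) := by
  obtain ⟨h, v, hh, hv⟩ := hg
  obtain ⟨w0, hw0, ht0⟩ := (hS n ν).1 hν
  obtain ⟨w1, hw1, ht1⟩ := (hS n (fun i => ν (σ i))).1 hσ
  have hties : ∀ j, j + 1 < n → w0.1 j = w0.1 (j + 1) → gT F q n j • h = q • h := by
    intro j hj he
    rw [smul_eq_mul]
    exact hh j hj ((ht0 j hj).mp he)
  obtain ⟨hf0, hfam⟩ := hD F q q n ν (Hecke F q n) w0 h hw0 hties
  -- the word with the blocks permuted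
  have hw : IsWord n ν (fun k => if k < n then σ (w1.1 k) else 0) := by
    refine ⟨fun k hk => if_neg (by omega), fun c => ?_⟩
    have h1 : cnt (fun k => if k < n then σ (w1.1 k) else 0) c n = cnt w1.1 (σ.symm c) n := by
      unfold cnt
      congr 1
      refine Finset.filter_congr fun k hk => ?_
      rw [Finset.mem_range] at hk
      change (if k < n then σ (w1.1 k) else 0) = c ↔ _
      rw [if_pos hk, Equiv.eq_symm_apply]
    rw [h1, w1.2.2]
    simp only [Equiv.apply_symm_apply]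
  refine ⟨fam q ν h ⟨_, hw⟩, v, ?_, ?_⟩
  · intro j hj hY
    have h1 : w1.1 j = w1.1 (j + 1) := (ht1 j hj).mpr hY
    have h2 := (hfam ⟨_, hw⟩ j hj).2 (by
      simp only
      rw [if_pos (by omega : j < n), if_pos hj, h1])
    rw [smul_eq_mul] at h2
    exact h2
  · exact fam_ne hS hq hw0 hfam (by rw [hf0]; exact hv) _ _ rfl

theorem Good.sort (hD : S_DIAM) (hS : S_SRT) (hq : q ≠ 0) {ν : ℕ → ℕ} {N : ℕ} (hnN : n ≤ N)
    (hN : ∀ i, N ≤ i → ν i = 0) (hs : ∑ i ∈ Finset.range N, ν i = n) (hg : Good q n V ν) :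
    ∃ μ : Ptn n, Good q n V μ.part ∧ pot n μ.part = pot N ν := by
  obtain ⟨σ, ha, hz, hsum⟩ := exists_sort N ν hN
  have hs' : ∑ i ∈ Finset.range N, ν (σ i) = n := by
    rw [hsum (fun x => x), hs]
  obtain ⟨μ, hμ⟩ := exists_ptn ha hz hs'
  refine ⟨μ, ?_, ?_⟩
  · rw [hμ]
    exact hg.perm hD hS hq ⟨N, hN, hs⟩ σ ⟨N, hz, hs'⟩
  · unfold pot
    rw [← sum_eq_of_le (g := fun i => 3 ^ μ.part i - 1) hnN (fun i hi => by
      simp only [μ.zero i hi, pow_zero, Nat.sub_self]), hμ]
    exact hsum (fun x => 3 ^ x - 1)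

end

end Maxp

open Maxp in
theorem maxp (hD : S_DIAM) (hS : S_SRT) : S_MAX := by
  intro F _ q n V _ _ _ _ _ hq
  -- the partition (1^n) is good
  have h0 : ∃ μ : Ptn n, Good q n V μ.part := by
    let ν : ℕ → ℕ := fun i => if i < n then 1 else 0
    have ha : Antitone ν := by
      intro i j hij
      change (if j < n then 1 else 0) ≤ (if i < n then 1 else 0)
      split_ifs <;> omega
    have hz : ∀ i, n ≤ i → ν i = 0 := fun i hi => if_neg (by omega)
    have hs : ∀ m, m ≤ n → ∑ i ∈ Finset.range m, ν i = m := by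
      intro m hm
      rw [Finset.sum_congr rfl (g := fun _ => 1) (fun i hi => by
        rw [Finset.mem_range] at hi
        exact if_pos (by omega))]
      simp
    obtain ⟨μ, hμ⟩ := exists_ptn ha hz (hs n le_rfl)
    obtain ⟨v, hv⟩ := exists_ne (0 : V)
    refine ⟨μ, 1, v, ?_, by rw [one_smul]; exact hv⟩
    intro j hj hY
    exfalso
    refine hY (j + 1) ?_
    unfold ps
    rw [hμ]
    exact hs (j + 1) (by omega)
  -- the maximum
  let S : Set ℕ := {x | ∃ μ : Ptn n, Good q n V μ.part ∧ pot n μ.part = x}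
  have hS1 : S.Nonempty := by
    obtain ⟨μ, hμ⟩ := h0
    exact ⟨_, μ, hμ, rfl⟩
  have hS2 : BddAbove S := by
    refine ⟨n * 3 ^ n, ?_⟩
    rintro x ⟨μ, _, rfl⟩
    exact pot_le μ
  obtain ⟨μ, hμ, hmax⟩ := Nat.sSup_mem hS1 hS2
  refine ⟨μ, hμ, ?_⟩
  intro r c hc h hh v
  by_contra hv
  have hg : Good q n V (garComp μ.part r c) := ⟨h, v, hh, hv⟩
  obtain ⟨μ', hμ', hp⟩ := hg.sort hD hS hq (Nat.le_succ n) (gar_zero μ hc) (gar_total μ hc)
  have h1 := gar_pot μ hc
  have h2 : pot n μ'.part ≤ sSup S := le_csSup hS2 ⟨μ', hμ', rfl⟩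
  rw [← hmax, hp] at h2
  exact absurd h1 (not_lt.mpr h2)

end Pool.Agent.James
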