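import Pool.Agent.James.Stmts

/-!
Module JS_NONISO (helper28): the modules `D^μ` are pairwise non isomorphic.
-/

set_option autoImplicit false

namespace Pool.Agent.James

theorem noniso_isComp {n : ℕ} (μ : Ptn n) : IsComp n μ.part := ⟨n, μ.zero, μ.sum⟩

theorem noniso_ps {n : ℕ} {μ ν : Ptn n} (h : ∀ k, ps μ.part k = ps ν.part k) : μ = ν := by
  apply Ptn.ext'
  intro i
  have h1 := h i
  have h2 := h (i + 1)
  unfold ps at h1 h2
  rw [Finset.sum_range_succ, Finset.sum_range_succ] at h2
  omega

/-- One half of the statement: `D^μ ≅ D^ν ≠ 0` implies that `ν` dominates `μ`. -/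
theorem noniso_dom (hsym : S_SYM) (hzx : S_ZX) (hinv : S_INV) (hdom : S_DOM) (hrow : S_ROW)
    (hzinv : S_ZINV) (F : Type) [Field F] (q : F) (n : ℕ) (μ ν : Ptn n) (hq : q ≠ 0)
    (hq1 : 1 + q ≠ 0) (hnt : Nontrivial (Dmod F q μ))
    (e : Dmod F q μ ≃ₗ[Hecke F q n] Dmod F q ν) : ∀ k, ps μ.part k ≤ ps ν.part k := by
  classical
  have hqn : q ∈ nonZeroDivisors F := mem_nonZeroDivisors_of_ne_zero hq
  have hqn1 : 1 + q ∈ nonZeroDivisors F := mem_nonZeroDivisors_of_ne_zero hq1
  obtain ⟨X, hX⟩ := hsym F q n μ.part (noniso_isComp μ)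
  obtain ⟨wr, hwr, hwr'⟩ := hrow n μ
  have huniq : ∀ w : Wd n μ.conj, BlockIncr n μ.part w.1 → w = wr := by
    intro w hw
    have hbd : BlockDistinct n μ.part w.1 := fun k l hkl hl hs => (hw k l hkl hl hs).ne
    exact (hwr' w hbd).2.2 hw
  obtain ⟨hz, -⟩ := hzx F q n μ X wr hqn hqn1 hX hwr huniq
  -- some vector of the Specht module is not orthogonal to `z`
  have h1 : ∃ s : Specht F q μ, bform (zvec F q μ) s.1 ≠ 0 := by
    by_contra hcon
    push Not at hcon
    have hzm : zvec F q μ ∈ Specht F q μ := Submodule.subset_span rfl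
    have h2 : (⟨zvec F q μ, hzm⟩ : Specht F q μ) ∈ spechtRad F q μ := fun y => hcon y
    have h3 : spechtRad F q μ = ⊤ := by
      rw [eq_top_iff]
      rintro ⟨x, hx⟩ -
      have hx' : x ∈ Submodule.span (Hecke F q n) {zvec F q μ} := hx
      obtain ⟨a, rfl⟩ := Submodule.mem_span_singleton.1 hx'
      exact (spechtRad F q μ).smul_mem a h2
    have h4 : Subsingleton (Dmod F q μ) := Submodule.Quotient.subsingleton_iff.2 h3
    exact not_subsingleton _ h4
  obtain ⟨s, hs⟩ := h1
  -- `X s` is a nonzero multiple of `z`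
  let c : F := (X • s.1) wr
  have hXs : X • s.1 = c • zvec F q μ := by
    rw [← sub_eq_zero]
    refine (hinv F q n μ.conj μ.part (X • s.1 - c • zvec F q μ) hqn hqn1 ?_).2 ?_
    · intro j hj hy
      have e1 : gT F q n j • (X • s.1) = q • (X • s.1) := by
        rw [← mul_smul, hX.left j hj hy, smul_assoc]
      have e2 : gT F q n j • zvec F q μ = q • zvec F q μ := hzinv F q n μ j hj hy
      have e3 : gT F q n j • (c • zvec F q μ) = c • (gT F q n j • zvec F q μ) := by
        rw [← algebraMap_smul (Hecke F q n) c (zvec F q μ),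
          ← algebraMap_smul (Hecke F q n) c (gT F q n j • zvec F q μ), ← mul_smul, ← mul_smul,
          Algebra.commutes]
      rw [smul_sub, e1, e3, e2, smul_sub q, smul_comm c q (zvec F q μ)]
    · intro w hw
      rw [huniq w hw]
      change (X • s.1) wr - c * zvec F q μ wr = 0
      have hbd : BlockDistinct n μ.part wr.1 := fun k l hkl hl hs => (hwr k l hkl hl hs).ne
      have e4 : zvec F q μ wr = 1 := by
        unfold zvec
        rw [if_pos hbd]
      rw [e4, mul_one, sub_self]
  have hc : c ≠ 0 := by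
    intro h0
    apply hs
    rw [h0, zero_smul] at hXs
    rw [hz, hX.adj, hXs]
    have := bform_smul_right (0 : F) (wd F q wr) (0 : Lam F q n μ.conj)
    rw [zero_smul, zero_mul] at this
    exact this
  -- the class of `X s` in `D^μ` is nonzero
  have hne : X • (Submodule.Quotient.mk s : Dmod F q μ) ≠ 0 := by
    intro h0
    have h2 : (Submodule.Quotient.mk (X • s) : Dmod F q μ) = 0 := h0
    rw [Submodule.Quotient.mk_eq_zero] at h2
    have h3 := h2 s
    change bform (X • s.1) s.1 = 0 at h3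
    rw [hXs, bform_smul_left] at h3
    exact (mul_ne_zero hc hs) h3
  -- transport
  have hne' : X • e (Submodule.Quotient.mk s) ≠ 0 := by
    intro h0
    apply hne
    rw [← map_smul] at h0
    exact (LinearEquiv.map_eq_zero_iff e).1 h0
  obtain ⟨t, ht⟩ := Submodule.Quotient.mk_surjective _ (e (Submodule.Quotient.mk s))
  rw [← ht] at hne'
  have hXt : X • t.1 ≠ 0 := by
    intro h0
    apply hne'
    have h2 : X • t = 0 := Subtype.ext h0
    have h3 : X • (Submodule.Quotient.mk t : Dmod F q ν) = Submodule.Quotient.mk (X • t) := rfl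
    rw [h3, h2]
    rfl
  -- a word in the support of the invariant `X t`
  have h5 : ∃ w : Wd n ν.conj, (X • t.1) w ≠ 0 := by
    by_contra hcon
    push Not at hcon
    exact hXt (funext hcon)
  obtain ⟨w, hw⟩ := h5
  have hinv2 : IsInv q n μ.part (X • t.1) := by
    intro j hj hy
    rw [← mul_smul, hX.left j hj hy, smul_assoc]
  have hbd : BlockDistinct n μ.part w.1 := by
    by_contra hcon
    exact hw ((hinv F q n ν.conj μ.part (X • t.1) hqn hqn1 hinv2).1 w hcon)
  exact hdom n ν μ w hbd

/-- The modules `D^μ` are pairwise non isomorphic. -/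
theorem noniso (hsym : S_SYM) (hzx : S_ZX) (hinv : S_INV) (hdom : S_DOM) (hrow : S_ROW)
    (hzinv : S_ZINV) : S_NONISO := by
  intro F _ q n μ ν hq hq1 hnt he
  obtain ⟨e⟩ := he
  have hnt' : Nontrivial (Dmod F q ν) := e.symm.toEquiv.nontrivial
  apply noniso_ps
  intro k
  exact le_antisymm (noniso_dom hsym hzx hinv hdom hrow hzinv F q n μ ν hq hq1 hnt e k)
    (noniso_dom hsym hzx hinv hdom hrow hzinv F q n ν μ hq hq1 hnt' e.symm k)

end Pool.Agent.James
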