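import Pool.Agent.James.Stmts

/-!
The Specht module for generic `q` is the seminormal module (S_SEMI).
-/

set_option autoImplicit false

namespace Pool.Agent.James

namespace Semi2

/-- Families in modules given by operators. -/
theorem fam_exists (hD : S_DIAM) {K : Type} [Field K] {q ε : K} {n : ℕ} {ν : ℕ → ℕ} {V : Type}
    [AddCommGroup V] [Module K V] (T : ℕ → Module.End K V) (hT : HeckeRel q n T) (w0 : Wd n ν)
    (u : V) (hs : Sorted n w0.1)
    (hu : ∀ j, j + 1 < n → w0.1 j = w0.1 (j + 1) → T j u = ε • u) :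
    ∃ g : Wd n ν → V, g w0 = u ∧ ∀ (w : Wd n ν) (j : ℕ), j + 1 < n →
      (w.1 j < w.1 (j + 1) → T j (g w) = g (swW j w)) ∧
      (w.1 j = w.1 (j + 1) → T j (g w) = ε • g w) := by
  let _ : Module (Hecke K q n) V := Module.compHom V (Hecke.lift T hT).toRingHom
  have hsm : ∀ j, j + 1 < n → ∀ v : V, gT K q n j • v = T j v := by
    intro j hj v
    change Hecke.lift T hT (gT K q n j) v = _
    rw [Hecke.lift_gT _ hj]
  have _ : IsScalarTower K (Hecke K q n) V := ⟨by
    intro r a f
    change Hecke.lift T hT (r • a) f = r • (Hecke.lift T hT a f)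
    rw [map_smul]
    rfl⟩
  obtain ⟨h1, h2⟩ := hD K q ε n ν V w0 u hs (fun j hj he => by rw [hsm j hj]; exact hu j hj he)
  refine ⟨fam q ν u, h1, fun w j hj => ?_⟩
  obtain ⟨h3, h4⟩ := h2 w j hj
  exact ⟨fun h => by rw [← hsm j hj]; exact h3 h, fun h => by rw [← hsm j hj]; exact h4 h⟩

/-! ### Combinatorics of content sequences -/

theorem cnt_succ (w : ℕ → ℕ) (c m : ℕ) : cnt w c (m + 1) = cnt w c m + if w m = c then 1 else 0 := by
  unfold cnt
  rw [Finset.range_add_one, Finset.filter_insert]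
  split_ifs with h
  · rw [Finset.card_insert_of_notMem]
    rw [Finset.mem_filter, Finset.mem_range]
    omega
  · rfl

section comb
variable {n : ℕ} {μ : Ptn n}

theorem ctn_lt {w : ℕ → ℕ} {k : ℕ} (hk : k < n) : ctn n w k = (colw n w k : ℤ) - w k := by
  unfold ctn
  rw [if_pos hk]

theorem colw_lt {w : ℕ → ℕ} {k : ℕ} (hk : k < n) : colw n w k = cnt w (w k) k := by
  unfold colw
  rw [if_pos hk]

theorem colw_tie {w : ℕ → ℕ} {j : ℕ} (hj : j + 1 < n) (h : w j = w (j + 1)) :
    colw n w (j + 1) = colw n w j + 1 := by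
  rw [colw_lt hj, colw_lt (by omega : j < n), cnt_succ, ← h, if_pos rfl]

theorem ctn_tie {w : ℕ → ℕ} {j : ℕ} (hj : j + 1 < n) (h : w j = w (j + 1)) :
    ctn n w (j + 1) = ctn n w j + 1 := by
  rw [ctn_lt hj, ctn_lt (by omega : j < n), colw_tie hj h, ← h]
  push_cast
  ring

/-- not adjacent -/
def NA (α : ℕ → ℤ) (j : ℕ) : Prop := ¬ (α j - α (j + 1) = 1 ∨ α j - α (j + 1) = -1)

/-- exchange of lattice words -/
structure Adj (t t' : Lat μ) (j : ℕ) : Prop where
  hj : j + 1 < n
  hsw : t'.1.1 = sw j t.1.1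
  hcol : colw n t'.1.1 = sw j (colw n t.1.1)
  hctn : ctn n t'.1.1 = sw j (ctn n t.1.1)

theorem Adj.symm {t t' : Lat μ} {j : ℕ} (h : Adj t t' j) : Adj t' t j := by
  refine ⟨h.hj, ?_, ?_, ?_⟩
  · rw [h.hsw, sw_sw]
  · rw [h.hcol, sw_sw]
  · rw [h.hctn, sw_sw]

theorem NA_sw {α : ℕ → ℤ} {j : ℕ} (h : NA α j) : NA (sw j α) j := by
  unfold NA at *
  rw [sw_left, sw_right]
  omega

theorem lat_anti {w : ℕ → ℕ} (h : IsLat n w) {r m : ℕ} (hm : m ≤ n) (d : ℕ) :
    cnt w (r + d) m ≤ cnt w r m := by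
  induction d with
  | zero => exact le_rfl
  | succ d ih => exact (h (r + d) m hm).trans ih

/-- an ascent of the row word which is not a descent of the column word is adjacent -/
theorem lat_adj {w : ℕ → ℕ} (h : IsLat n w) {j : ℕ} (hj : j + 1 < n) (hw : w j < w (j + 1))
    (hc : colw n w j ≤ colw n w (j + 1)) : ctn n w j - ctn n w (j + 1) = 1 := by
  rw [ctn_lt hj, ctn_lt (by omega : j < n)]
  rw [colw_lt hj, colw_lt (by omega : j < n)] at hc ⊢
  have e1 : cnt w (w (j + 1)) (j + 1) = cnt w (w (j + 1)) j := by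
    rw [cnt_succ, if_neg (by omega), add_zero]
  rw [e1] at hc ⊢
  have e2 : cnt w (w (j + 1)) (j + 2) = cnt w (w (j + 1)) j + 1 := by
    rw [cnt_succ, if_pos rfl, e1]
  have e3 : cnt w (w j) (j + 2) = cnt w (w j) j + 1 := by
    rw [cnt_succ, if_neg (by omega), cnt_succ, if_pos rfl]
  have e4 := lat_anti h (r := w j) (m := j + 2) (by omega) (w (j + 1) - w j)
  rw [show w j + (w (j + 1) - w j) = w (j + 1) by omega, e2, e3] at e4
  have e5 : w (j + 1) = w j + 1 := by
    by_contra hne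
    have e6 : cnt w (w j + 1) (j + 2) = cnt w (w j + 1) j := by
      rw [cnt_succ, if_neg (by omega), cnt_succ, if_neg (by omega), add_zero, add_zero]
    have e7 := lat_anti h (r := w j + 1) (m := j + 2) (by omega) (w (j + 1) - (w j + 1))
    rw [show w j + 1 + (w (j + 1) - (w j + 1)) = w (j + 1) by omega, e2, e6] at e7
    have e8 := h (w j) j (by omega)
    omega
  have e9 : cnt w (w (j + 1)) j = cnt w (w j) j := by omega
  rw [e9, e5]
  push_cast
  ring

theorem exists_adj (hC : S_COLW) (t : Lat μ) {j : ℕ} (hj : j + 1 < n)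
    (hna : NA (ctn n t.1.1) j) : ∃ t' : Lat μ, Adj t t' j := by
  obtain ⟨-, -, h3, h4, h5, h6, h7⟩ := hC n μ t
  have hne : t.1.1 j ≠ t.1.1 (j + 1) := by
    intro h
    apply hna
    right
    rw [ctn_tie hj h]
    ring
  have hlat : IsLat n (sw j t.1.1) := by
    rcases lt_or_gt_of_ne hne with h | h
    · by_cases h8 : colw n t.1.1 (j + 1) < colw n t.1.1 j
      · exact h6 j hj h8
      · exact absurd (Or.inl (lat_adj t.2 hj h (not_lt.mp h8))) hna
    · exact h5 j hj h
  refine ⟨⟨⟨sw j t.1.1, isWord_sw t.1.2 hj⟩, hlat⟩, hj, rfl, h7 j hj hne, ?_⟩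
  funext k
  by_cases hk : k < n
  · have hk' : Equiv.swap j (j + 1) k < n := swap_lt hj hk
    change ctn n (sw j t.1.1) k = ctn n t.1.1 (Equiv.swap j (j + 1) k)
    rw [ctn_lt hk, ctn_lt hk', h7 j hj hne]
    rfl
  · have h8 : sw j (ctn n t.1.1) k = ctn n t.1.1 k := sw_ne _ (by omega) (by omega)
    rw [h8]
    unfold ctn
    rw [if_neg hk, if_neg hk]

theorem desc_NA (hC : S_COLW) (t : Lat μ) {j : ℕ} (hj : j + 1 < n)
    (hd : colw n t.1.1 (j + 1) < colw n t.1.1 j) : NA (ctn n t.1.1) j := by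
  obtain ⟨-, -, h3, h4, -⟩ := hC n μ t
  have := h4 j hj hd
  unfold NA
  rw [ctn_lt hj, ctn_lt (by omega : j < n)]
  omega

/-- a path step is a descent of the column word -/
theorem step_desc (hC : S_COLW) (t : Lat μ) {j : ℕ} (hj : j + 1 < n)
    (h : ctn n t.1.1 (j + 1) + 2 ≤ ctn n t.1.1 j) : colw n t.1.1 (j + 1) < colw n t.1.1 j := by
  obtain ⟨-, -, h3, h4, -⟩ := hC n μ t
  by_contra hc
  rw [not_lt] at hc
  rcases lt_trichotomy (t.1.1 j) (t.1.1 (j + 1)) with h5 | h5 | h5
  · have := lat_adj t.2 hj h5 hc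
    omega
  · have := ctn_tie hj h5
    omega
  · have h6 := h3 j hj h5
    rw [ctn_lt hj, ctn_lt (by omega : j < n)] at h
    omega

theorem conn (hC : S_COLW) (hS : S_SRT) (w1 : Wd n μ.conj) (hw1 : Sorted n w1.1)
    (P : Lat μ → Prop)
    (hP : ∀ (t t' : Lat μ) (j : ℕ), Adj t t' j → NA (ctn n t.1.1) j → P t → P t') :
    ∀ (m : ℕ) (t : Lat μ), inv n (colw n t.1.1) = m →
      ∃ t1 : Lat μ, colw n t1.1.1 = w1.1 ∧ (P t ↔ P t1) := by
  intro m
  induction m with
  | zero =>
    intro t ht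
    refine ⟨t, ?_, Iff.rfl⟩
    have hs : Sorted n (colw n t.1.1) := by
      intro j hj
      by_contra hc
      rw [not_le] at hc
      have := inv_sw' hj hc
      omega
    have := (hS n μ.conj).2 ⟨colw n t.1.1, (hC n μ t).1⟩ w1 hs hw1
    exact congrArg Subtype.val this
  | succ m ih =>
    intro t ht
    by_cases hs : Sorted n (colw n t.1.1)
    · refine ⟨t, ?_, Iff.rfl⟩
      have := (hS n μ.conj).2 ⟨colw n t.1.1, (hC n μ t).1⟩ w1 hs hw1
      exact congrArg Subtype.val this
    · unfold Sorted at hs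
      push Not at hs
      obtain ⟨j, hj, hd⟩ := hs
      have hna := desc_NA hC t hj hd
      obtain ⟨t', ht'⟩ := exists_adj hC t hj hna
      have h1 : inv n (colw n t'.1.1) = m := by
        have := inv_sw' hj hd
        rw [ht'.hcol]
        omega
      obtain ⟨t1, h2, h3⟩ := ih t' h1
      refine ⟨t1, h2, Iff.trans ⟨hP t t' j ht' hna, ?_⟩ h3⟩
      apply hP t' t j ht'.symm
      rw [ht'.hctn]
      exact NA_sw hna

end comb

/-! ### The seminormal module and its dual -/

section semi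
variable {K : Type} [Field K] {q : K} {n : ℕ} {μ : Ptn n}

theorem cB_ne (hq : ∀ h : ℤ, h ≠ 0 → q ^ h ≠ 1) {a b : ℤ}
    (h : ¬ (a - b = 1 ∨ a - b = -1)) (hab : a ≠ b) : JamesSemi.cB q a b ≠ 0 := by
  unfold JamesSemi.cB
  rw [if_neg h]
  apply div_ne_zero
  · intro h1
    exact hq (a - b + 1) (by omega) (sub_eq_zero.1 h1).symm
  · intro h1
    exact hq (a - b) (by omega) (sub_eq_zero.1 h1).symm

/-- the content sequence of a lattice word -/
def cs (t : Lat μ) : CSet μ := ⟨ctn n t.1.1, t, rfl⟩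

theorem exists_cs (α : CSet μ) : ∃ t : Lat μ, cs t = α := by
  obtain ⟨α, t, ht⟩ := α
  exact ⟨t, Subtype.ext ht⟩

theorem cs_inj (hG : S_GOOD) {t t' : Lat μ} (h : cs t = cs t') : t = t' :=
  (hG n μ).2 (congrArg Subtype.val h)

theorem dl_self {C : Set (ℕ → ℤ)} (α : C) : dl (K := K) α α = 1 := by
  unfold dl
  rw [if_pos rfl]

theorem dl_ne {C : Set (ℕ → ℤ)} {α β : C} (h : β ≠ α) : dl (K := K) α β = 0 := by
  unfold dl
  rw [if_neg h]

/-- the action on a basis vector, adjacent case -/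
theorem sT_dl_adj {C : Set (ℕ → ℤ)} (α : C) {j : ℕ} (h : ¬ NA α.1 j) :
    JamesSemi.sT q C j (dl α) = JamesSemi.cA q (α.1 j) (α.1 (j + 1)) • dl α := by
  funext β
  unfold JamesSemi.sT
  simp only [LinearMap.coe_mk, AddHom.coe_mk, Pi.smul_apply, smul_eq_mul]
  have h7 : JamesSemi.cA q (β.1 j) (β.1 (j + 1)) * dl (K := K) α β =
      JamesSemi.cA q (α.1 j) (α.1 (j + 1)) * dl α β := by
    by_cases h7 : β = α
    · rw [h7]
    · rw [dl_ne h7, mul_zero, mul_zero]
  rw [h7]
  by_cases h3 : JamesSemi.sw j β.1 ∈ C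
  · rw [dif_pos h3]
    by_cases h4 : (⟨JamesSemi.sw j β.1, h3⟩ : C) = α
    · have h5 : β.1 = sw j α.1 := by
        rw [← h4]
        exact (JamesSemi.sw_sw j β.1).symm
      have h6 : JamesSemi.cB q (β.1 j) (β.1 (j + 1)) = 0 := by
        unfold JamesSemi.cB
        unfold NA at h
        rw [h5, sw_left, sw_right, if_pos (by omega)]
      rw [h6, zero_mul, add_zero]
    · rw [dl_ne h4, mul_zero, add_zero]
  · rw [dif_neg h3, add_zero]

/-- the action on a basis vector -/
theorem sT_dl {C : Set (ℕ → ℤ)} (α α' : C) {j : ℕ} (h : α'.1 = sw j α.1) :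
    JamesSemi.sT q C j (dl α) = JamesSemi.cA q (α.1 j) (α.1 (j + 1)) • dl α +
      JamesSemi.cB q (α.1 (j + 1)) (α.1 j) • dl α' := by
  funext β
  unfold JamesSemi.sT
  simp only [LinearMap.coe_mk, AddHom.coe_mk, Pi.add_apply, Pi.smul_apply, smul_eq_mul]
  congr 1
  · by_cases h7 : β = α
    · rw [h7]
    · rw [dl_ne h7, mul_zero, mul_zero]
  · by_cases h8 : β = α'
    · have e1 : JamesSemi.sw j β.1 = α.1 := by
        rw [h8, h]
        exact sw_sw j α.1
      have e2 : JamesSemi.sw j β.1 ∈ C := by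
        rw [e1]
        exact α.2
      rw [dif_pos e2]
      have e3 : (⟨JamesSemi.sw j β.1, e2⟩ : C) = α := Subtype.ext e1
      rw [e3, dl_self, h8, dl_self, h, sw_left, sw_right]
    · rw [dl_ne h8, mul_zero]
      split_ifs with h3
      · have e3 : (⟨JamesSemi.sw j β.1, h3⟩ : C) ≠ α := by
          intro e4
          apply h8
          apply Subtype.ext
          rw [h, ← e4]
          exact (sw_sw j β.1).symm
        rw [dl_ne e3, mul_zero]
      · rfl

theorem cs_ne (hG : S_GOOD) (t : Lat μ) {j : ℕ} (hj : j + 1 < n) :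
    ctn n t.1.1 j ≠ ctn n t.1.1 (j + 1) := (hG n μ).1.ne1 _ (cs t).2 j hj

theorem sT_ee {t t' : Lat μ} {j : ℕ} (h : Adj t t' j) :
    JamesSemi.sT q (CSet μ) j (dl (cs t)) =
      JamesSemi.cA q (ctn n t.1.1 j) (ctn n t.1.1 (j + 1)) • dl (cs t) +
      JamesSemi.cB q (ctn n t.1.1 (j + 1)) (ctn n t.1.1 j) • dl (cs t') :=
  sT_dl (cs t) (cs t') h.hctn

/-- a stable subspace containing one basis vector is everything -/
theorem stable_top (hC : S_COLW) (hS : S_SRT) (hG : S_GOOD)
    (hq : ∀ h : ℤ, h ≠ 0 → q ^ h ≠ 1) (w1 : Wd n μ.conj) (hw1 : Sorted n w1.1)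
    (N : Submodule K (CSet μ → K))
    (hN : ∀ j, j + 1 < n → ∀ v ∈ N, JamesSemi.sT q (CSet μ) j v ∈ N) (t0 : Lat μ)
    (h0 : dl (cs t0) ∈ N) : ∀ α : CSet μ, dl α ∈ N := by
  have hP : ∀ (t t' : Lat μ) (j : ℕ), Adj t t' j → NA (ctn n t.1.1) j →
      dl (K := K) (cs t) ∈ N → dl (cs t') ∈ N := by
    intro t t' j h hna hm
    have h1 := hN j h.hj _ hm
    rw [sT_ee h] at h1
    have h2 := (N.add_mem_iff_right (N.smul_mem _ hm)).mp h1
    have h3 : JamesSemi.cB q (ctn n t.1.1 (j + 1)) (ctn n t.1.1 j) ≠ 0 := by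
      apply cB_ne hq
      · unfold NA at hna
        omega
      · exact (cs_ne hG t h.hj).symm
    exact (N.smul_mem_iff h3).mp h2
  have key := conn hC hS w1 hw1 (fun t => dl (K := K) (cs t) ∈ N) hP
  intro α
  obtain ⟨t, rfl⟩ := exists_cs α
  obtain ⟨t1, h1, h2⟩ := key _ t rfl
  obtain ⟨t2, h3, h4⟩ := key _ t0 rfl
  have h5 : t1 = t2 := by
    apply Subtype.ext
    apply Subtype.ext
    have h6 := (hC n μ t1).2.1
    have h7 := (hC n μ t2).2.1
    rw [← h6, ← h7, h1, h3]
  rw [h2, h5, ← h4]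
  exact h0

theorem top_of_dl {C : Set (ℕ → ℤ)} [Fintype C] (N : Submodule K (C → K))
    (h : ∀ α : C, dl α ∈ N) (v : C → K) : v ∈ N := by
  have h1 : v = ∑ α : C, v α • dl α := by
    funext β
    rw [Finset.sum_apply, Finset.sum_eq_single β]
    · rw [Pi.smul_apply, dl_self, smul_eq_mul, mul_one]
    · intro γ _ h2
      rw [Pi.smul_apply, dl_ne h2.symm, smul_eq_mul, mul_zero]
    · intro h2
      exact absurd (Finset.mem_univ β) h2
  rw [h1]
  exact N.sum_mem (fun α _ => N.smul_mem _ (h α))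

/-- The relations for the dual operators. -/
theorem dual_rel {V : Type} [AddCommGroup V] [Module K V] {T : ℕ → Module.End K V}
    (hT : JamesSemi.HeckeRel q n T) :
    HeckeRel q n (fun j => ((T j).dualMap : Module.End K (Module.Dual K V))) := by
  constructor
  · intro j hj
    ext φ v
    have h1 := congrArg (fun A : Module.End K V => φ (A v)) (hT.quad j hj)
    simp only [Module.End.mul_apply, LinearMap.add_apply, LinearMap.smul_apply,
      Module.End.one_apply, map_add, map_smul] at h1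
    simp only [Module.End.mul_apply, LinearMap.add_apply, LinearMap.smul_apply,
      Module.End.one_apply, LinearMap.dualMap_apply]
    exact h1
  · intro j hj
    ext φ v
    have h1 := congrArg (fun A : Module.End K V => φ (A v)) (hT.braid j hj)
    simp only [Module.End.mul_apply] at h1
    simp only [Module.End.mul_apply, LinearMap.dualMap_apply]
    exact h1
  · intro j k hjk hk
    ext φ v
    have h1 := congrArg (fun A : Module.End K V => φ (A v)) (hT.comm j k hjk hk)
    simp only [Module.End.mul_apply] at h1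
    simp only [Module.End.mul_apply, LinearMap.dualMap_apply]
    exact h1.symm

theorem sum_dl {C : Set (ℕ → ℤ)} [Fintype C] (v : C → K) : v = ∑ α : C, v α • dl α := by
  funext β
  rw [Finset.sum_apply, Finset.sum_eq_single β]
  · rw [Pi.smul_apply, dl_self, smul_eq_mul, mul_one]
  · intro γ _ h2
    rw [Pi.smul_apply, dl_ne h2.symm, smul_eq_mul, mul_zero]
  · intro h2
    exact absurd (Finset.mem_univ β) h2

/-- an invariant form is diagonal -/
theorem form_diag {C : Set (ℕ → ℤ)} [Fintype C] (hG : JamesSemi.GoodSet n C)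
    (h0 : ∀ α ∈ C, α 0 = 0) (hn : ∀ α ∈ C, ∀ k, n ≤ k → α k = 0) (hq0 : q ≠ 0)
    (hq : ∀ h : ℤ, h ≠ 0 → q ^ h ≠ 1) (B : (C → K) →ₗ[K] (C → K) →ₗ[K] K)
    (hB : ∀ j, j + 1 < n → ∀ f g, B (JamesSemi.sT q C j f) g = B f (JamesSemi.sT q C j g)) :
    JamesSemi.IsWt q n C (fun α => B (dl α) (dl α)) ∧
      ∀ f g, B f g = JamesSemi.sF (fun α => B (dl α) (dl α)) f g := by
  have hgen : JamesSemi.Gen q n := ⟨hq0, fun h h1 _ => hq h h1⟩
  have hL : ∀ k, k < n → ∀ f g, B (JamesSemi.sL q C k f) g = B f (JamesSemi.sL q C k g) := by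
    intro k
    induction k with
    | zero =>
      intro _ f g
      have h1 : ∀ f : C → K, JamesSemi.sL q C 0 f = f := by
        intro f
        funext α
        rw [JamesSemi.sL_apply, h0 _ α.2, zpow_zero, one_mul]
      rw [h1, h1]
    | succ k ih =>
      intro hk f g
      have h1 := JamesSemi.sT_sL_sT hgen hG hk
      have h2 : ∀ f, q • JamesSemi.sL q C (k + 1) f =
          JamesSemi.sT q C k (JamesSemi.sL q C k (JamesSemi.sT q C k f)) := by
        intro f
        have := congrArg (fun A : Module.End K (C → K) => A f) h1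
        simp only [Module.End.mul_apply, LinearMap.smul_apply] at this
        exact this.symm
      have h3 : q * B (JamesSemi.sL q C (k + 1) f) g = q * B f (JamesSemi.sL q C (k + 1) g) := by
        have e1 : q * B (JamesSemi.sL q C (k + 1) f) g = B (q • JamesSemi.sL q C (k + 1) f) g := by
          rw [map_smul B, LinearMap.smul_apply, smul_eq_mul]
        have e2 : q * B f (JamesSemi.sL q C (k + 1) g) = B f (q • JamesSemi.sL q C (k + 1) g) := by
          rw [map_smul (B f), smul_eq_mul]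
        rw [e1, e2, h2, h2, hB k hk, ih (by omega), hB k hk]
      exact mul_left_cancel₀ hq0 h3
  have hLd : ∀ (k : ℕ) (α : C), JamesSemi.sL q C k (dl α) = q ^ (α.1 k) • dl α := by
    intro k α
    funext β
    rw [JamesSemi.sL_apply, Pi.smul_apply, smul_eq_mul]
    by_cases h : β = α
    · rw [h]
    · rw [dl_ne h, mul_zero, mul_zero]
  have hoff : ∀ α β : C, α ≠ β → B (dl α) (dl β) = 0 := by
    intro α β hab
    have h1 : ∃ k, α.1 k ≠ β.1 k := by
      by_contra hc
      push Not at hc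
      exact hab (Subtype.ext (funext hc))
    obtain ⟨k, hk⟩ := h1
    have hkn : k < n := by
      by_contra hc
      apply hk
      rw [hn _ α.2 k (by omega), hn _ β.2 k (by omega)]
    have h2 := hL k hkn (dl α) (dl β)
    rw [hLd, hLd, map_smul, map_smul, LinearMap.smul_apply, smul_eq_mul, smul_eq_mul] at h2
    have h3 : q ^ (α.1 k) ≠ q ^ (β.1 k) := by
      intro h4
      apply hq (α.1 k - β.1 k) (sub_ne_zero.2 hk)
      rw [zpow_sub₀ hq0, h4]
      exact div_self (zpow_ne_zero _ hq0)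
    have h5 : (q ^ (α.1 k) - q ^ (β.1 k)) * B (dl α) (dl β) = 0 := by
      rw [sub_mul, h2, sub_self]
    exact (mul_eq_zero.1 h5).resolve_left (sub_ne_zero.2 h3)
  refine ⟨⟨?_⟩, ?_⟩
  · intro α j hj h
    have hne := hG.ne1 α.1 α.2 j hj
    have h1 : α ≠ ⟨JamesSemi.sw j α.1, h⟩ := by
      intro h2
      apply hne
      have h3 := congrFun (congrArg Subtype.val h2) j
      rw [h3]
      exact JamesSemi.sw_left j α.1
    have h2 := hB j hj (dl α) (dl ⟨JamesSemi.sw j α.1, h⟩)
    have h3 : sw j (JamesSemi.sw j α.1) = α.1 := sw_sw j α.1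
    rw [sT_dl α ⟨JamesSemi.sw j α.1, h⟩ rfl, sT_dl ⟨JamesSemi.sw j α.1, h⟩ α h3.symm] at h2
    rw [map_add, map_add, map_smul, map_smul, map_smul, map_smul, LinearMap.add_apply,
      LinearMap.smul_apply, LinearMap.smul_apply, hoff _ _ h1] at h2
    have h4 : JamesSemi.sw j α.1 (j + 1) = α.1 j := JamesSemi.sw_right j α.1
    have h5 : JamesSemi.sw j α.1 j = α.1 (j + 1) := JamesSemi.sw_left j α.1
    simp only [h4, h5, smul_eq_mul, mul_zero, zero_add] at h2
    rw [mul_comm, ← h2, mul_comm]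
  · intro f g
    conv_lhs => rw [sum_dl f, sum_dl g]
    rw [map_sum B, LinearMap.sum_apply]
    unfold JamesSemi.sF
    apply Finset.sum_congr rfl
    intro α _
    rw [map_smul, LinearMap.smul_apply, map_sum, Finset.sum_eq_single α]
    · rw [map_smul, smul_eq_mul, smul_eq_mul]
      ring
    · intro β _ h2
      rw [map_smul, hoff _ _ h2.symm, smul_zero]
    · intro h2
      exact absurd (Finset.mem_univ α) h2

/-! ### The map to the word module -/

variable {V : Type} [AddCommGroup V] [Module K V] {ν : ℕ → ℕ}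

/-- the adjoint of the map from the word module, as functions -/
noncomputable def Th0 (q : K) (g : Wd n ν → Module.Dual K V) : V →ₗ[K] (Wd n ν → K) where
  toFun v := fun w => (q ^ inv n w.1)⁻¹ * g w v
  map_add' v v' := by
    funext w
    rw [Pi.add_apply, map_add, mul_add]
  map_smul' c v := by
    funext w
    rw [Pi.smul_apply, map_smul, smul_eq_mul, smul_eq_mul, RingHom.id_apply]
    ring

theorem Th0_apply (g : Wd n ν → Module.Dual K V) (v : V) (w : Wd n ν) :
    Th0 q g v w = (q ^ inv n w.1)⁻¹ * g w v := rfl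

theorem Th0_lT (hq0 : q ≠ 0) {T : ℕ → Module.End K V} (hT : JamesSemi.HeckeRel q n T)
    {g : Wd n ν → Module.Dual K V}
    (hg1 : ∀ (w : Wd n ν) (j : ℕ), j + 1 < n → w.1 j < w.1 (j + 1) → ∀ v,
      g w (T j v) = g (swW j w) v)
    (hg2 : ∀ (w : Wd n ν) (j : ℕ), j + 1 < n → w.1 j = w.1 (j + 1) → ∀ v,
      g w (T j v) = - g w v) {j : ℕ} (hj : j + 1 < n) (v : V) :
    Th0 q g (T j v) = lT q j (Th0 q g v) := by
  funext w
  rw [Th0_apply]
  rcases lt_trichotomy (w.1 j) (w.1 (j + 1)) with h | h | h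
  · rw [lT_lt h, Th0_apply, hg1 w j hj h, swW_val hj, inv_sw hj h, pow_succ]
    field_simp
  · rw [lT_eq h, Th0_apply, hg2 w j hj h]
    ring
  · rw [lT_gt h, Th0_apply, Th0_apply]
    have h' : (swW j w).1 j < (swW j w).1 (j + 1) := by
      rw [swW_left hj, swW_right hj]
      exact h
    have h1 : ∀ v, g (swW j w) (T j v) = g w v := by
      intro v
      rw [hg1 _ j hj h', swW_swW]
    have h2 : g w (T j v) = (q - 1) * g w v + q * g (swW j w) v := by
      rw [← h1 (T j v)]
      have h3 := congrArg (fun A : Module.End K V => g (swW j w) (A v)) (hT.quad j hj)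
      simp only [Module.End.mul_apply, LinearMap.add_apply, LinearMap.smul_apply,
        Module.End.one_apply, map_add, map_smul, smul_eq_mul] at h3
      rw [h3, h1]
    rw [h2, swW_val hj, inv_sw' hj h, pow_succ]
    have h4 : q ^ inv n (sw j w.1) ≠ 0 := pow_ne_zero _ hq0
    field_simp
    ring

/-- the adjoint of the map from the word module -/
noncomputable def Th (q : K) (g : Wd n ν → Module.Dual K V) : V →ₗ[K] Lam K q n ν := Th0 q g

theorem Th_gT (hq0 : q ≠ 0) {T : ℕ → Module.End K V} (hT : JamesSemi.HeckeRel q n T)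
    {g : Wd n ν → Module.Dual K V}
    (hg1 : ∀ (w : Wd n ν) (j : ℕ), j + 1 < n → w.1 j < w.1 (j + 1) → ∀ v,
      g w (T j v) = g (swW j w) v)
    (hg2 : ∀ (w : Wd n ν) (j : ℕ), j + 1 < n → w.1 j = w.1 (j + 1) → ∀ v,
      g w (T j v) = - g w v) {j : ℕ} (hj : j + 1 < n) (v : V) :
    Th q g (T j v) = gT K q n j • Th q g v := by
  rw [gT_smul hj]
  exact Th0_lT hq0 hT hg1 hg2 hj v

end semi

/-! ### Triangularity -/

section tri
variable {K : Type} [Field K] {q : K} {n : ℕ} {μ : Ptn n}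

/-- the dual family -/
structure DF (q : K) (μ : Ptn n) (w1 : Wd n μ.conj) (αc : CSet μ)
    (g : Wd n μ.conj → Module.Dual K (CSet μ → K)) : Prop where
  top : ∀ v, g w1 v = v αc
  asc : ∀ (w : Wd n μ.conj) (j : ℕ), j + 1 < n → w.1 j < w.1 (j + 1) → ∀ v,
    g w (JamesSemi.sT q (CSet μ) j v) = g (swW j w) v
  tie : ∀ (w : Wd n μ.conj) (j : ℕ), j + 1 < n → w.1 j = w.1 (j + 1) → ∀ v,
    g w (JamesSemi.sT q (CSet μ) j v) = - g w v

theorem inv_le_sw {j : ℕ} (hj : j + 1 < n) (w : ℕ → ℕ) : inv n w ≤ inv n (sw j w) + 1 := by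
  rcases lt_trichotomy (w j) (w (j + 1)) with h | h | h
  · have := inv_sw hj h
    omega
  · rw [sw_eq_self h]
    omega
  · have := inv_sw' hj h
    omega

theorem tri (hC : S_COLW) (hS : S_SRT) (hG : S_GOOD) {w1 : Wd n μ.conj} (hw1 : Sorted n w1.1)
    {t1 : Lat μ} (ht1 : colw n t1.1.1 = w1.1) {g : Wd n μ.conj → Module.Dual K (CSet μ → K)}
    (hg : DF q μ w1 (cs t1) g) :
    ∀ (m : ℕ) (c : Wd n μ.conj), inv n c.1 = m → ∀ t : Lat μ, m < inv n (colw n t.1.1) →
      g c (dl (cs t)) = 0 := by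
  intro m
  induction m using Nat.strong_induction_on with
  | _ m ih =>
    intro c hc t ht
    by_cases hs : Sorted n c.1
    · have h1 : c = w1 := (hS n μ.conj).2 c w1 hs hw1
      rw [h1, hg.top]
      apply dl_ne
      intro h2
      have h3 := cs_inj hG h2
      rw [← h3, ht1, ← h1, hc] at ht
      exact lt_irrefl _ ht
    · unfold Sorted at hs
      push Not at hs
      obtain ⟨j, hj, hd⟩ := hs
      have h' : (swW j c).1 j < (swW j c).1 (j + 1) := by
        rw [swW_left hj, swW_right hj]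
        exact hd
      have h1 : g c (dl (cs t)) = g (swW j c) (JamesSemi.sT q (CSet μ) j (dl (cs t))) := by
        rw [hg.asc _ j hj h', swW_swW]
      have h2 : inv n (swW j c).1 + 1 = m := by
        rw [swW_val hj, ← hc]
        exact (inv_sw' hj hd).symm
      rw [h1]
      by_cases hna : NA (ctn n t.1.1) j
      · obtain ⟨t', ht'⟩ := exists_adj hC t hj hna
        rw [sT_ee ht', map_add, map_smul, map_smul]
        have h3 : inv n (colw n t.1.1) ≤ inv n (colw n t'.1.1) + 1 := by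
          rw [ht'.hcol]
          exact inv_le_sw hj _
        rw [ih _ (by omega) (swW j c) rfl t (by omega), ih _ (by omega) (swW j c) rfl t' (by omega),
          smul_zero, smul_zero, add_zero]
      · rw [sT_dl_adj (cs t) hna, map_smul, ih _ (by omega) (swW j c) rfl t (by omega), smul_zero]

/-- the column word -/
def cw (hC : S_COLW) (t : Lat μ) : Wd n μ.conj := ⟨colw n t.1.1, (hC n μ t).1⟩

theorem asc_step (hC : S_COLW) {w1 : Wd n μ.conj} {t1 : Lat μ}
    {g : Wd n μ.conj → Module.Dual K (CSet μ → K)}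
    (hg : DF q μ w1 (cs t1) g) {t t' : Lat μ} {j : ℕ} (h : Adj t t' j)
    (hd : colw n t.1.1 (j + 1) < colw n t.1.1 j) (v : CSet μ → K) :
    g (cw hC t) v = g (cw hC t') (JamesSemi.sT q (CSet μ) j v) := by
  have h1 : (cw hC t').1 j < (cw hC t').1 (j + 1) := by
    change colw n t'.1.1 j < colw n t'.1.1 (j + 1)
    rw [h.hcol, sw_left, sw_right]
    exact hd
  rw [hg.asc _ j h.hj h1]
  congr 2
  apply Subtype.ext
  rw [swW_val h.hj]
  exact h.symm.hcol

theorem path_coef (hC : S_COLW) (hS : S_SRT) (hG : S_GOOD) {w1 : Wd n μ.conj}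
    (hw1 : Sorted n w1.1) {t1 : Lat μ} (ht1 : colw n t1.1.1 = w1.1)
    {g : Wd n μ.conj → Module.Dual K (CSet μ → K)} (hg : DF q μ w1 (cs t1) g) :
    ∀ (p : List ℕ) (t : Lat μ), IsPath n p (ctn n t.1.1) (ctn n t1.1.1) →
      g (cw hC t) (dl (cs t)) = pathProd q p (ctn n t.1.1) := by
  intro p
  induction p with
  | nil =>
    intro t hp
    have h1 : t = t1 := (hG n μ).2 hp
    have h2 : cw hC t = w1 := by
      apply Subtype.ext
      rw [← ht1, ← h1]
      rfl
    rw [h2, hg.top, h1, dl_self]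
    rfl
  | cons j p ih =>
    intro t hp
    obtain ⟨hj, h2, h3⟩ := hp
    have hd := step_desc hC t hj h2
    have hna := desc_NA hC t hj hd
    obtain ⟨t', ht'⟩ := exists_adj hC t hj hna
    have h4 := ih t' (by rw [ht'.hctn]; exact h3)
    rw [asc_step hC hg ht' hd, sT_ee ht', map_add, map_smul, map_smul, h4]
    have h5 : g (cw hC t') (dl (cs t)) = 0 := by
      apply tri hC hS hG hw1 ht1 hg _ (cw hC t') rfl t
      change inv n (colw n t'.1.1) < inv n (colw n t.1.1)
      rw [ht'.hcol, inv_sw' hj hd]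
      omega
    rw [h5, smul_zero, zero_add, smul_eq_mul, ht'.hctn]
    rfl

end tri

end Semi2

open Semi2 in
/-- THE SEMINORMAL FORM OF THE SPECHT MODULE -/
theorem semi (hD : S_DIAM) (hS : S_SRT) (hC : S_COLW) (hG : S_GOOD) (hZI : S_ZINV) (hI : S_INV)
    (hR : S_ROW) (hSy : S_SYM) (hZX : S_ZX) : S_SEMI := by
  intro K _ q n μ hq0 hq w0 w1 t1 hw0 hw1 ht1 αr αc hαr hαc _
  have hgen : JamesSemi.Gen q n := ⟨hq0, fun h h1 _ => hq h h1⟩
  have hrel := JamesSemi.semiRel hgen (hG n μ).1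
  have hq1 : q ≠ 1 := by
    intro h
    apply hq 1 one_ne_zero
    rw [zpow_one, h]
  have hq2 : 1 + q ≠ 0 := by
    intro h
    apply hq 2 two_ne_zero
    have h1 : q = -1 := by linear_combination h
    rw [h1]
    norm_num
  have eαr : αr = cs w0 := Subtype.ext hαr
  have eαc : αc = cs t1 := Subtype.ext hαc
  -- the column word of t1
  have hcol1 : colw n t1.1.1 = w1.1 := by
    obtain ⟨t, h1, -⟩ := conn hC hS w1 hw1 (fun _ => True) (fun _ _ _ _ _ _ => trivial) _ w0 rfl
    have h2 : t = t1 := by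
      apply Subtype.ext
      apply Subtype.ext
      rw [ht1, ← h1, (hC n μ t).2.1]
    rw [← h2]
    exact h1
  -- the dual family
  have hu : ∀ j, j + 1 < n → w1.1 j = w1.1 (j + 1) →
      ((JamesSemi.sT q (CSet μ) j).dualMap : Module.End K (Module.Dual K (CSet μ → K)))
        (LinearMap.proj αc) = (-1 : K) • (LinearMap.proj αc : Module.Dual K (CSet μ → K)) := by
    intro j hj htie
    have h1 : αc.1 j - αc.1 (j + 1) = 1 := by
      rw [hαc, ctn_lt hj, ctn_lt (by omega : j < n), hcol1, ht1, colw_tie hj htie, htie]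
      push_cast
      ring
    apply LinearMap.ext
    intro v
    rw [LinearMap.dualMap_apply, LinearMap.smul_apply, LinearMap.proj_apply, LinearMap.proj_apply]
    unfold JamesSemi.sT
    simp only [LinearMap.coe_mk, AddHom.coe_mk]
    have h2 : JamesSemi.cB q (αc.1 j) (αc.1 (j + 1)) = 0 := by
      unfold JamesSemi.cB
      rw [if_pos (Or.inl h1)]
    have h3 : JamesSemi.cA q (αc.1 j) (αc.1 (j + 1)) = -1 := by
      unfold JamesSemi.cA
      rw [h1, zpow_one]
      have h4 : 1 - q ≠ 0 := sub_ne_zero.2 hq1.symm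
      field_simp
      ring
    rw [h2, h3]
    split_ifs <;> simp
  obtain ⟨g, hg1, hg2⟩ := fam_exists hD _ (dual_rel hrel) w1
    (LinearMap.proj αc : Module.Dual K (CSet μ → K)) hw1 hu
  have hg : DF q μ w1 αc g := by
    refine ⟨fun v => by rw [hg1]; rfl, fun w j hj h v => ?_, fun w j hj h v => ?_⟩
    · rw [← (hg2 w j hj).1 h]
      rfl
    · have h1 := (hg2 w j hj).2 h
      have h2 := congrArg (fun φ : Module.Dual K (CSet μ → K) => φ v) h1
      simp only [LinearMap.smul_apply, LinearMap.dualMap_apply, smul_eq_mul, neg_mul, one_mul] at h2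
      exact h2
  rw [eαc] at hg
  set Θ : (CSet μ → K) →ₗ[K] Lam K q n μ.conj := Th q g with hΘ
  have hΘT : ∀ j, j + 1 < n → ∀ v, Θ (JamesSemi.sT q (CSet μ) j v) = gT K q n j • Θ v :=
    fun j hj v => Th_gT hq0 hrel hg.asc hg.tie hj v
  -- injectivity
  have hker : ∀ v, Θ v = 0 → v = 0 := by
    have hP : ∀ (t t' : Lat μ) (j : ℕ), Adj t t' j → NA (ctn n t.1.1) j →
        (∀ v, Θ v = 0 → v (cs t) = 0) → (∀ v, Θ v = 0 → v (cs t') = 0) := by
      intro t t' j h hna hm v hv
      have h1 : Θ (JamesSemi.sT q (CSet μ) j v) = 0 := by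
        rw [hΘT j h.hj, hv, smul_zero]
      have h2 := hm _ h1
      have h3 := hm _ hv
      have h4 : JamesSemi.sw j (cs t).1 = (cs t').1 := h.hctn.symm
      have h5 : JamesSemi.sw j (cs t).1 ∈ CSet μ := by
        rw [h4]
        exact (cs t').2
      have h6 : (⟨JamesSemi.sw j (cs t).1, h5⟩ : CSet μ) = cs t' := Subtype.ext h4
      unfold JamesSemi.sT at h2
      simp only [LinearMap.coe_mk, AddHom.coe_mk] at h2
      rw [dif_pos h5, h6, h3, mul_zero, zero_add] at h2
      exact (mul_eq_zero.1 h2).resolve_left (cB_ne hq hna (cs_ne hG t h.hj))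
    have key := conn hC hS w1 hw1 (fun t => ∀ v, Θ v = 0 → v (cs t) = 0) hP
    have h1 : ∀ v, Θ v = 0 → v (cs t1) = 0 := by
      intro v hv
      rw [← hg.top v]
      have h2 : (Θ v : Wd n μ.conj → K) w1 = 0 := by
        rw [hv]
        rfl
      have h3 : (q ^ inv n w1.1)⁻¹ * g w1 v = 0 := h2
      exact (mul_eq_zero.1 h3).resolve_left (inv_ne_zero (pow_ne_zero _ hq0))
    intro v hv
    funext α
    obtain ⟨t, rfl⟩ := exists_cs α
    obtain ⟨t2, h2, h3⟩ := key _ t rfl
    have h4 : t2 = t1 := by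
      apply Subtype.ext
      apply Subtype.ext
      rw [← (hC n μ t2).2.1, h2, ht1]
    exact h3.mpr (by rw [h4]; exact h1) v hv
  -- the row word
  have hcomp : IsComp n μ.part := ⟨n, μ.zero, μ.sum⟩
  have htie0 : ∀ j, j + 1 < n → InY μ.part j → w0.1.1 j = w0.1.1 (j + 1) := by
    obtain ⟨w, h1, h2⟩ := (hS n μ.part).1 hcomp
    have h3 : w = w0.1 := (hS n μ.part).2 w w0.1 h1 hw0
    intro j hj hy
    rw [← h3]
    exact (h2 j hj).mpr hy
  set wr : Wd n μ.conj := cw hC w0 with hwr
  have hbi : BlockIncr n μ.part wr.1 := by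
    intro k l hkl hl hsb
    change colw n w0.1.1 k < colw n w0.1.1 l
    have h1 : ∀ d, k + d ≤ l → colw n w0.1.1 (k + d) = colw n w0.1.1 k + d := by
      intro d
      induction d with
      | zero => intro _; rfl
      | succ d ih =>
        intro hd
        have h2 : InY μ.part (k + d) := by
          intro r hr
          exact hsb r ⟨by omega, by omega⟩
        have h3 := colw_tie (show k + d + 1 < n by omega) (htie0 (k + d) (by omega) h2)
        rw [← add_assoc, h3, ih (by omega)]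
        ring
    have h4 := h1 (l - k) (by omega)
    rw [show k + (l - k) = l by omega] at h4
    omega
  have hbu : ∀ w : Wd n μ.conj, BlockIncr n μ.part w.1 → w = wr := by
    obtain ⟨wr0, h1, h2⟩ := hR n μ
    have h3 : ∀ w : Wd n μ.conj, BlockIncr n μ.part w.1 → w = wr0 := fun w hw =>
      (h2 w (fun k l a b c => (hw k l a b c).ne)).2.2 hw
    intro w hw
    rw [h3 w hw, h3 wr hbi]
  have hzwr : (zvec K q μ : Wd n μ.conj → K) wr = 1 := by
    unfold zvec
    rw [if_pos]
    exact fun k l a b c => (hbi k l a b c).ne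
  have hqn : q ∈ nonZeroDivisors K := mem_nonZeroDivisors_of_ne_zero hq0
  have hq1n : 1 + q ∈ nonZeroDivisors K := mem_nonZeroDivisors_of_ne_zero hq2
  -- the image of the row vector
  have hrow : ∀ j, j + 1 < n → InY μ.part j → JamesSemi.sT q (CSet μ) j (dl αr) = q • dl αr := by
    intro j hj hy
    have h1 := ctn_tie hj (htie0 j hj hy)
    have h2 : αr.1 j - αr.1 (j + 1) = -1 := by
      rw [hαr, h1]
      ring
    rw [sT_dl_adj αr (fun h => h (Or.inr h2))]
    congr 1
    unfold JamesSemi.cA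
    rw [h2, zpow_neg, zpow_one]
    have h3 : q - 1 ≠ 0 := sub_ne_zero.2 hq1
    have h4 : (1 : K) - q⁻¹ = (q - 1) / q := by field_simp
    rw [h4]
    field_simp
  set c : K := (Θ (dl αr) : Wd n μ.conj → K) wr with hc
  have hinv : IsInv q n μ.part (Θ (dl αr)) := by
    intro j hj hy
    rw [← hΘT j hj, hrow j hj hy, map_smul]
  have hz : Θ (dl αr) = c • zvec K q μ := by
    rw [← sub_eq_zero]
    apply (hI K q n μ.conj μ.part (Θ (dl αr) - c • zvec K q μ) hqn hq1n _).2
    · intro w hw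
      rw [hbu w hw]
      change (Θ (dl αr) : Wd n μ.conj → K) wr - c * (zvec K q μ : Wd n μ.conj → K) wr = 0
      rw [hzwr, mul_one, ← hc, sub_self]
    · intro j hj hy
      have h1 := hinv j hj hy
      have h2 := hZI K q n μ j hj hy
      have h3 : gT K q n j • (c • zvec K q μ) = c • (gT K q n j • zvec K q μ) := by
        rw [gT_smul hj, gT_smul hj]
        exact map_smul (lT q j) c (zvec K q μ)
      rw [smul_sub, h1, h3, h2, smul_sub, smul_comm c q]
  have hc0 : c ≠ 0 := by
    intro h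
    rw [h, zero_smul] at hz
    have h1 := congrFun (hker _ hz) αr
    rw [dl_self] at h1
    exact one_ne_zero h1
  set Ψ : (CSet μ → K) →ₗ[K] Lam K q n μ.conj := c⁻¹ • Θ with hΨ
  have hΨT : ∀ j, j + 1 < n → ∀ v, Ψ (JamesSemi.sT q (CSet μ) j v) = gT K q n j • Ψ v := by
    intro j hj v
    rw [hΨ, LinearMap.smul_apply, LinearMap.smul_apply, hΘT j hj, gT_smul hj, gT_smul hj]
    exact (map_smul (lT q j) c⁻¹ (Θ v)).symm
  have hΨz : Ψ (dl αr) = zvec K q μ := by
    rw [hΨ, LinearMap.smul_apply, hz, smul_smul, inv_mul_cancel₀ hc0, one_smul]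
  have hΨi : Function.Injective Ψ := by
    rw [injective_iff_map_eq_zero]
    intro v hv
    apply hker
    rw [hΨ, LinearMap.smul_apply] at hv
    exact (smul_eq_zero.1 hv).resolve_left (inv_ne_zero hc0)
  -- the form
  let B : (CSet μ → K) →ₗ[K] (CSet μ → K) →ₗ[K] K :=
    LinearMap.mk₂ K (fun f g => bform (Ψ f) (Ψ g))
      (fun f f' g => by rw [map_add, bform_add_left])
      (fun c f g => by rw [map_smul, bform_smul_left, smul_eq_mul])
      (fun f g g' => by rw [map_add, bform_add_right])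
      (fun c f g => by rw [map_smul, bform_smul_right, smul_eq_mul])
  have hBa : ∀ f g, B f g = bform (Ψ f) (Ψ g) := fun f g => rfl
  have hB : ∀ j, j + 1 < n → ∀ f g, B (JamesSemi.sT q (CSet μ) j f) g =
      B f (JamesSemi.sT q (CSet μ) j g) := by
    intro j hj f g
    rw [hBa, hBa, hΨT j hj, hΨT j hj, bform_gT hj]
  have h0 : ∀ α ∈ CSet μ, α 0 = 0 := by
    rintro α ⟨t, rfl⟩
    change ctn n t.1.1 0 = 0
    by_cases hn : 0 < n
    · rw [ctn_lt hn, colw_lt hn]
      have h1 : ∀ c, cnt t.1.1 c 0 = 0 := fun c => rfl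
      have h2 : t.1.1 0 = 0 := by
        by_contra h3
        have h4 := t.2 (t.1.1 0 - 1) 1 (by omega)
        rw [show t.1.1 0 - 1 + 1 = t.1.1 0 by omega] at h4
        have h5 : cnt t.1.1 (t.1.1 0) 1 = 1 := by
          rw [cnt_succ, h1, if_pos rfl]
        have h6 : cnt t.1.1 (t.1.1 0 - 1) 1 = 0 := by
          rw [cnt_succ, h1, if_neg (by omega)]
        omega
      rw [h1, h2]
      rfl
    · unfold ctn
      rw [if_neg hn]
  have hn0 : ∀ α ∈ CSet μ, ∀ k, n ≤ k → α k = 0 := by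
    rintro α ⟨t, rfl⟩ k hk
    change ctn n t.1.1 k = 0
    unfold ctn
    rw [if_neg (by omega)]
  obtain ⟨hwt, hBF⟩ := form_diag (hG n μ).1 h0 hn0 hq0 hq B hB
  refine ⟨Ψ, fun α => B (dl α) (dl α), c⁻¹, hΨi, hΨT, hΨz, ?_, hwt, ?_, ?_, inv n wr.1, ?_, ?_⟩
  · -- range
    apply le_antisymm
    · rintro x ⟨v, rfl⟩
      have h1 : v ∈ ((Specht K q μ).restrictScalars K).comap Ψ := by
        apply top_of_dl
        apply stable_top hC hS hG hq w1 hw1 _ _ w0
        · rw [Submodule.mem_comap, Submodule.restrictScalars_mem, ← eαr, hΨz]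
          exact Submodule.mem_span_singleton_self _
        · intro j hj v hv
          rw [Submodule.mem_comap, Submodule.restrictScalars_mem] at hv ⊢
          rw [hΨT j hj]
          exact Submodule.smul_mem _ _ hv
      exact h1
    · intro x hx
      rw [Submodule.restrictScalars_mem] at hx
      obtain ⟨a, rfl⟩ := Submodule.mem_span_singleton.mp hx
      apply smul_mem_of_gT
      · rintro j hj x ⟨v, rfl⟩
        exact ⟨JamesSemi.sT q (CSet μ) j v, hΨT j hj v⟩
      · exact ⟨dl αr, hΨz⟩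
  · intro f g
    rw [← hBa]
    exact hBF f g
  · intro f
    have h1 : bform (Ψ f) (wd K q w1) = q ^ inv n w1.1 * (Ψ f : Wd n μ.conj → K) w1 := by
      unfold bform
      rw [Finset.sum_eq_single w1]
      · unfold wd
        rw [if_pos rfl, mul_one]
      · intro w _ hw
        unfold wd
        rw [if_neg hw, mul_zero]
      · intro hw
        exact absurd (Finset.mem_univ w1) hw
    have h2 : (Ψ f : Wd n μ.conj → K) w1 = c⁻¹ * ((q ^ inv n w1.1)⁻¹ * g w1 f) := rfl
    rw [h1, h2, hg.top, eαc]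
    have h3 : q ^ inv n w1.1 ≠ 0 := pow_ne_zero _ hq0
    field_simp
  · obtain ⟨X, hX⟩ := hSy K q n μ.part hcomp
    have h1 := (hZX K q n μ X wr hqn hq1n hX hbi hbu).2
    change B (dl αr) (dl αr) = _
    rw [hBa, hΨz, h1]
  · intro p hp
    rw [eαr, eαc] at hp
    have h1 := path_coef hC hS hG hw1 hcol1 hg p w0 hp
    have h2 : pathProd q p αr.1 = pathProd q p (ctn n w0.1.1) := by rw [hαr]
    rw [h2, ← h1]
    have h3 : c = (q ^ inv n wr.1)⁻¹ * g wr (dl αr) := rfl
    have h4 : q ^ inv n wr.1 ≠ 0 := pow_ne_zero _ hq0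
    have h5 : g wr (dl αr) = q ^ inv n wr.1 * c := by
      rw [h3]
      field_simp
    rw [eαr] at h5
    rw [← hwr, h5]
    field_simp

end Pool.Agent.James
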