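import Pool.Agent.James.Count

/-!
The belt relations and the straightening (helper53).
-/

set_option autoImplicit false

namespace Pool.Agent.James

namespace Sp

open Cn

variable {n : ℕ}

/-- The number of positions `< m` with a letter `< x`. -/
def lw (w : ℕ → ℕ) (x m : ℕ) : ℕ := ((Finset.range m).filter (fun l => w l < x)).card

theorem lw_zero (w : ℕ → ℕ) (m : ℕ) : lw w 0 m = 0 := by
  unfold lw
  simp

theorem lw_succ (w : ℕ → ℕ) (x m : ℕ) : lw w (x + 1) m = lw w x m + cnt w x m := by
  unfold lw cnt
  rw [Finset.card_filter, Finset.card_filter, Finset.card_filter, ← Finset.sum_add_distrib]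
  apply Finset.sum_congr rfl
  intro l _
  split_ifs <;> omega

theorem lw_le (w : ℕ → ℕ) (x m : ℕ) : lw w x m ≤ m := by
  unfold lw
  refine (Finset.card_filter_le _ _).trans ?_
  rw [Finset.card_range]

theorem lw_top {ν : ℕ → ℕ} (w : Wd n ν) (x : ℕ) : lw w.1 x n = ps ν x := by
  induction x with
  | zero =>
    rw [lw_zero]
    unfold ps
    simp
  | succ x ih => rw [lw_succ, ih, w.2.2 x, ps_succ]

theorem seg {w : ℕ → ℕ} {a b : ℕ} (hw : ∀ k l, a ≤ k → k ≤ l → l < b → w k ≤ w l) {k : ℕ}
    (h1 : a ≤ k) (h2 : k < b) (x : ℕ) :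
    w k < x ↔ k < a + ((Finset.Ico a b).filter (fun l => w l < x)).card := by
  constructor
  · intro h
    have h3 : Finset.Ico a (k + 1) ⊆ (Finset.Ico a b).filter (fun l => w l < x) := by
      intro l hl
      rw [Finset.mem_Ico] at hl
      rw [Finset.mem_filter, Finset.mem_Ico]
      have := hw l k hl.1 (by omega) h2
      exact ⟨⟨hl.1, by omega⟩, by omega⟩
    have h4 := Finset.card_le_card h3
    rw [Nat.card_Ico] at h4
    omega
  · intro h
    by_contra hcon
    have h3 : (Finset.Ico a b).filter (fun l => w l < x) ⊆ Finset.Ico a k := by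
      intro l hl
      rw [Finset.mem_filter, Finset.mem_Ico] at hl
      rw [Finset.mem_Ico]
      refine ⟨hl.1.1, ?_⟩
      by_contra hkl
      have := hw k l h1 (by omega) hl.1.2
      omega
    have h4 := Finset.card_le_card h3
    rw [Nat.card_Ico] at h4
    omega

theorem mono_of_local {w : ℕ → ℕ} {a b : ℕ} (h : ∀ j, a ≤ j → j + 1 < b → w j ≤ w (j + 1)) :
    ∀ k l, a ≤ k → k ≤ l → l < b → w k ≤ w l := by
  intro k l hk hkl
  induction l, hkl using Nat.le_induction with
  | base =>
    intro _
    exact le_refl _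
  | succ l hl ih =>
    intro h2
    exact (ih (by omega)).trans (h l (by omega) h2)

theorem srt {ν : ℕ → ℕ} {w : Wd n ν} (hw : Sorted n w.1) {k : ℕ} (hk : k < n) (x : ℕ) :
    w.1 k < x ↔ k < ps ν x := by
  rw [seg (a := 0) (b := n) (mono_of_local (fun j _ h => hw j h)) (Nat.zero_le k) hk x,
    ← lw_top w x]
  unfold lw
  rw [Finset.range_eq_Ico, zero_add]

theorem eq_of_lt {a b : ℕ} (h : ∀ x, a < x ↔ b < x) : a = b := by
  have h1 := h (a + 1)
  have h2 := h (b + 1)
  omega

section Fam
variable {R : Type*} [CommRing R] {q : R} {ν : ℕ → ℕ}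
  {V : Type*} [AddCommGroup V] [Module R V] [Module (Hecke R q n) V]
  [IsScalarTower R (Hecke R q n) V] {g : Wd n ν → V} {ε : R}

theorem fam_desc (hg : IsFam q ε g) {w : Wd n ν} {j : ℕ} (hj : j + 1 < n)
    (h : w.1 (j + 1) < w.1 j) :
    gT R q n j • g w = (q - 1) • g w + q • g (swW j w) := by
  have h1 : (swW j w).1 j < (swW j w).1 (j + 1) := by
    rw [swW_left hj, swW_right hj]
    exact h
  have h2 := (hg (swW j w) j hj).1 h1
  rw [swW_swW] at h2
  have h3 : gT R q n j • g w = (gT R q n j * gT R q n j) • g (swW j w) := by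
    rw [mul_smul, h2]
  rw [h3, gT_rel.quad j hj, add_smul, smul_assoc, smul_assoc, one_smul, h2]

theorem pair_zero (hg : IsFam q ε g) {w : Wd n ν} {j : ℕ} (hj : j + 1 < n)
    (h : w.1 j < w.1 (j + 1)) :
    gT R q n j • g w - q • g w + (gT R q n j • g (swW j w) - q • g (swW j w)) = 0 := by
  have h1 : (swW j w).1 (j + 1) < (swW j w).1 j := by
    rw [swW_left hj, swW_right hj]
    exact h
  rw [fam_desc hg hj h1, (hg w j hj).1 h, swW_swW, sub_smul, one_smul]
  abel

end Fam

theorem belt_sw {μ w0 : ℕ → ℕ} {r c j : ℕ} (h1 : ps μ r + c ≤ j)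
    (h2 : j + 1 < ps μ (r + 1) + c + 1) {w : ℕ → ℕ} (hw : InBelt μ r c w0 w) :
    InBelt μ r c w0 (sw j w) := by
  intro k hk
  rw [sw_ne w (by omega) (by omega)]
  exact hw k hk

end Sp

open Cn Sp

theorem belt : S_BELT := by
  intro R _ q n μ V _ _ _ _ g w0 hw0 hg r c hc j hj hY
  classical
  rw [Finset.smul_sum, Finset.smul_sum, ← sub_eq_zero, ← Finset.sum_sub_distrib]
  by_cases hin : ps μ.part r + c ≤ j ∧ j + 1 < ps μ.part (r + 1) + c + 1
  · apply Finset.sum_involution (fun w _ => swW j w)
    · intro w _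
      rcases lt_trichotomy (w.1 j) (w.1 (j + 1)) with h | h | h
      · exact pair_zero hg hj h
      · rw [swW_eq_self hj h, (hg w j hj).2 h, sub_self, add_zero]
      · have h1 : (swW j w).1 j < (swW j w).1 (j + 1) := by
          rw [swW_left hj, swW_right hj]
          exact h
        have h2 := pair_zero hg hj h1
        rw [swW_swW] at h2
        rw [add_comm]
        exact h2
    · intro w _ hne he
      apply hne
      have h : w.1 j = w.1 (j + 1) := by
        rw [← swW_right hj w, he]
      rw [(hg w j hj).2 h, sub_self]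
    · intro w hw
      rw [Finset.mem_filter] at hw ⊢
      refine ⟨Finset.mem_univ _, ?_⟩
      rw [swW_val hj]
      exact belt_sw hin.1 hin.2 hw.2
    · intro w _
      exact swW_swW j w
  · apply Finset.sum_eq_zero
    intro w hw
    rw [Finset.mem_filter] at hw
    have hw := hw.2
    have e1 := gar_one μ.part r c
    have e2 := gar_two μ.part r c
    have e3 := ps_succ μ.part r
    have e6 := μ.anti (Nat.le_succ r)
    have e7 : μ.part (r + 1) ≤ μ.part r := e6
    have y1 := hY (r + 1)
    have y2 := hY (r + 2)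
    have ha : w.1 j = w0.1 j := hw j (by omega)
    have hb : w.1 (j + 1) = w0.1 (j + 1) := hw (j + 1) (by omega)
    have hps : ∀ s, ps μ.part s ≠ j + 1 := by
      intro s
      rcases Nat.lt_or_ge r s with h | h
      · rcases Nat.lt_or_ge (r + 1) s with h' | h'
        · have := hY (s + 1)
          rw [gar_high μ.part r c hc (by omega)] at this
          exact this
        · have h2 : s = r + 1 := by omega
          rw [h2]
          omega
      · have := hY s
        rw [gar_low μ.part r c h] at this
        exact this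
    have h0 : w0.1 j = w0.1 (j + 1) := by
      apply eq_of_lt
      intro x
      rw [srt hw0 (by omega), srt hw0 hj]
      have := hps x
      omega
    rw [(hg w j hj).2 (by rw [ha, hb, h0]), sub_self]

namespace Sp

variable {n : ℕ}

/-- Two words of the same content that agree outside an interval and are weakly decreasing in it
are equal. -/
theorem dec_unique {ν : ℕ → ℕ} (w w' : Wd n ν) {a b : ℕ} (hb : b ≤ n)
    (h1 : ∀ k, (k < a ∨ b ≤ k) → w.1 k = w'.1 k)
    (h2 : ∀ k l, a ≤ k → k ≤ l → l < b → w.1 l ≤ w.1 k)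
    (h3 : ∀ k l, a ≤ k → k ≤ l → l < b → w'.1 l ≤ w'.1 k) : w = w' := by
  by_contra hne
  have hex : ∃ k, w.1 k ≠ w'.1 k := by
    by_contra hcon
    push Not at hcon
    exact hne (Subtype.ext (funext hcon))
  classical
  set k := Nat.find hex with hk
  have hk1 : w.1 k ≠ w'.1 k := Nat.find_spec hex
  have hk2 : ∀ l, l < k → w.1 l = w'.1 l := by
    intro l hl
    by_contra h
    exact Nat.find_min hex hl h
  have hk3 : a ≤ k ∧ k < b := by
    by_contra h
    exact hk1 (h1 k (by omega))
  have aux : ∀ u u' : Wd n ν, (∀ l, (l < a ∨ b ≤ l) → u.1 l = u'.1 l) →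
      (∀ l, l < k → u.1 l = u'.1 l) → (∀ k l, a ≤ k → k ≤ l → l < b → u.1 l ≤ u.1 k) →
      ¬ u.1 k < u'.1 k := by
    intro u u' c1 c2 c3 hlt
    have e1 := lw_top u (u'.1 k)
    have e2 := lw_top u' (u'.1 k)
    have e3 : lw u'.1 (u'.1 k) n < lw u.1 (u'.1 k) n := by
      unfold lw
      apply Finset.card_lt_card
      rw [Finset.ssubset_iff_of_subset]
      · refine ⟨k, ?_, ?_⟩
        · rw [Finset.mem_filter, Finset.mem_range]
          exact ⟨by omega, hlt⟩
        · rw [Finset.mem_filter]
          rintro ⟨_, h⟩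
          omega
      · intro l hl
        rw [Finset.mem_filter] at hl ⊢
        refine ⟨hl.1, ?_⟩
        rcases Nat.lt_or_ge l k with h | h
        · rw [c2 l h]
          exact hl.2
        · rcases Nat.lt_or_ge l b with h' | h'
          · have := c3 k l hk3.1 h h'
            omega
          · rw [c1 l (Or.inr h')]
            exact hl.2
    omega
  have f1 := aux w w' h1 hk2 h2
  have f2 := aux w' w (fun l hl => (h1 l hl).symm) (fun l hl => (hk2 l hl).symm) h3
  omega

theorem inv_le (n : ℕ) (w : ℕ → ℕ) : inv n w ≤ n * n := by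
  unfold inv
  refine (Finset.card_filter_le _ _).trans ?_
  rw [Finset.card_product, Finset.card_range]

/-- The word that is weakly decreasing in the belt has the most inversions. -/
theorem belt_max (μ : Ptn n) (w0 : ℕ → ℕ) {r c : ℕ} (hc : c < μ.part (r + 1))
    (w : Wd n μ.part) (hw : InBelt μ.part r c w0 w.1)
    (hdec : ∀ k l, ps μ.part r + c ≤ k → k ≤ l → l < ps μ.part (r + 1) + c + 1 →
      w.1 l ≤ w.1 k) : ∀ w' : Wd n μ.part, InBelt μ.part r c w0 w'.1 → w' ≠ w →
      inv n w'.1 < inv n w.1 := by
  have hb : ps μ.part (r + 1) + c + 1 ≤ n := by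
    have h1 := ps_le μ (r + 1 + 1)
    have h2 := ps_succ μ.part (r + 1)
    omega
  have key : ∀ d : ℕ, ∀ w' : Wd n μ.part, InBelt μ.part r c w0 w'.1 → n * n - inv n w'.1 = d →
      w' ≠ w → inv n w'.1 < inv n w.1 := by
    intro d
    induction d using Nat.strong_induction_on with
    | _ d ih =>
      intro w' hw' hd hne
      by_cases hex : ∃ j, ps μ.part r + c ≤ j ∧ j + 1 < ps μ.part (r + 1) + c + 1 ∧
          w'.1 j < w'.1 (j + 1)
      · obtain ⟨j, hj1, hj2, hlt⟩ := hex
        have hj : j + 1 < n := by omega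
        have h1 := inv_sw hj hlt
        have h2 : InBelt μ.part r c w0 (swW j w').1 := by
          rw [swW_val hj]
          exact belt_sw hj1 hj2 hw'
        have h3 := inv_le n (sw j w'.1)
        by_cases he : swW j w' = w
        · rw [← he, swW_val hj]
          omega
        · have h4 := ih (n * n - inv n (swW j w').1) (by rw [swW_val hj]; omega) (swW j w') h2 rfl
            he
          rw [swW_val hj] at h4
          omega
      · push Not at hex
        exfalso
        apply hne
        apply dec_unique w' w hb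
        · intro k hk
          rw [hw' k hk, hw k hk]
        · intro k l hk hkl
          induction l, hkl using Nat.le_induction with
          | base =>
            intro _
            exact le_refl _
          | succ l hl ih2 =>
            intro h2
            exact (hex l (by omega) h2).trans (ih2 (by omega))
        · exact hdec
  intro w' hw' hne
  exact key _ w' hw' rfl hne

/-- A prefix of `w` violates the lattice condition at `(r, c)`. -/
def Viol (n r c : ℕ) (w : ℕ → ℕ) : Prop := ∃ m ≤ n, c < cnt w (r + 1) m ∧ cnt w r m ≤ c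

theorem cnt_sw_ne (w : ℕ → ℕ) (x : ℕ) {i m : ℕ} (h : m ≠ i + 1) :
    cnt (sw i w) x m = cnt w x m := by
  rcases Nat.lt_or_ge (i + 1) m with h1 | h1
  · exact cnt_sw h1 w x
  · unfold cnt
    congr 1
    apply Finset.filter_congr
    intro l hl
    rw [Finset.mem_range] at hl
    rw [sw_ne w (by omega) (by omega)]

theorem cnt_succ (w : ℕ → ℕ) (x m : ℕ) : cnt w x (m + 1) = cnt w x m + if w m = x then 1 else 0 := by
  unfold cnt
  rw [Finset.card_filter, Finset.card_filter, Finset.sum_range_succ]

theorem cnt_mono (w : ℕ → ℕ) (x : ℕ) : Monotone (cnt w x) := by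
  apply monotone_nat_of_le_succ
  intro m
  rw [cnt_succ]
  exact Nat.le_add_right _ _

/-- The analysis of the words such that no descent can be removed. -/
theorem special (μ : Ptn n) {w0 : Wd n μ.part} (hw0 : Sorted n w0.1) {r c : ℕ}
    (hc : c < μ.part (r + 1)) (w : Wd n μ.part) (hv : Viol n r c w.1)
    (hno : ∀ i, i + 1 < n → w.1 (i + 1) < w.1 i → ¬ Viol n r c (sw i w.1)) :
    InBelt μ.part r c w0.1 w.1 ∧
    ∀ k l, ps μ.part r + c ≤ k → k ≤ l → l < ps μ.part (r + 1) + c + 1 → w.1 l ≤ w.1 k := by
  have e3 := ps_succ μ.part r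
  have e4 := ps_succ μ.part (r + 1)
  have e5 := ps_le μ (r + 1 + 1)
  have e7 : μ.part (r + 1) ≤ μ.part r := μ.anti (Nat.le_succ r)
  -- every witness is next to every descent
  have hwit : ∀ m, m ≤ n → c < cnt w.1 (r + 1) m → cnt w.1 r m ≤ c →
      ∀ i, i + 1 < n → w.1 (i + 1) < w.1 i → m = i + 1 := by
    intro m hm h1 h2 i hi hlt
    by_contra hne
    apply hno i hi hlt
    refine ⟨m, hm, ?_, ?_⟩
    · rw [cnt_sw_ne _ _ hne]
      exact h1
    · rw [cnt_sw_ne _ _ hne]
      exact h2
  obtain ⟨m, hm, hv1, hv2⟩ := hv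
  -- there is a descent
  have hdes : ∃ i, i + 1 < n ∧ w.1 (i + 1) < w.1 i := by
    by_contra hcon
    push Not at hcon
    have hs : Sorted n w.1 := fun j hj => hcon j hj
    have h1 : ∃ k, k < m ∧ w.1 k = r + 1 := by
      have h2 : 0 < cnt w.1 (r + 1) m := by omega
      unfold cnt at h2
      rw [Finset.card_pos] at h2
      obtain ⟨k, hk⟩ := h2
      rw [Finset.mem_filter, Finset.mem_range] at hk
      exact ⟨k, hk⟩
    obtain ⟨k, hk1, hk2⟩ := h1
    have h3 := (srt hs (show k < n by omega) (r + 1))
    have h4 : ps μ.part (r + 1) ≤ m := by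
      have : ¬ w.1 k < r + 1 := by omega
      rw [h3] at this
      omega
    -- the letters r
    have h5 : lw w.1 (r + 1) m = ps μ.part (r + 1) := by
      apply le_antisymm
      · rw [← lw_top w (r + 1)]
        unfold lw
        apply Finset.card_le_card
        apply Finset.filter_subset_filter
        exact Finset.range_mono hm
      · have h6 : Finset.range (ps μ.part (r + 1)) ⊆
            (Finset.range m).filter (fun l => w.1 l < r + 1) := by
          intro l hl
          rw [Finset.mem_range] at hl
          rw [Finset.mem_filter, Finset.mem_range]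
          exact ⟨by omega, (srt hs (by omega) (r + 1)).2 hl⟩
        have h7 := Finset.card_le_card h6
        rw [Finset.card_range] at h7
        exact h7
    have h8 : lw w.1 r m ≤ ps μ.part r := by
      rw [← lw_top w r]
      unfold lw
      apply Finset.card_le_card
      apply Finset.filter_subset_filter
      exact Finset.range_mono hm
    have h9 := lw_succ w.1 r m
    omega
  obtain ⟨i, hi, hid⟩ := hdes
  have hmi : m = i + 1 := hwit m hm hv1 hv2 i hi hid
  have honly : ∀ j, j + 1 < n → j ≠ i → w.1 j ≤ w.1 (j + 1) := by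
    intro j hj hne
    by_contra hcon
    have := hwit m hm hv1 hv2 j hj (by omega)
    omega
  rw [hmi] at hv1 hv2
  -- the letters at i + 1 and i
  have f1 := cnt_succ w.1 r (i + 1)
  have f2 := cnt_succ w.1 (r + 1) (i + 1)
  have f3 := cnt_succ w.1 r i
  have f4 := cnt_succ w.1 (r + 1) i
  have hA : w.1 (i + 1) = r ∧ cnt w.1 r (i + 1) = c := by
    have h1 := hwit (i + 1 + 1) (by omega)
    by_cases h2 : w.1 (i + 1) = r
    · rw [if_pos h2] at f1
      refine ⟨h2, ?_⟩
      by_contra hcon
      have := h1 (by split_ifs at f2 <;> omega) (by omega) i hi hid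
      omega
    · rw [if_neg h2] at f1
      have := h1 (by split_ifs at f2 <;> omega) (by omega) i hi hid
      omega
  have hB : w.1 i = r + 1 ∧ cnt w.1 (r + 1) (i + 1) = c + 1 := by
    have h1 := hwit i (by omega)
    by_cases h2 : w.1 i = r + 1
    · rw [if_pos h2] at f4
      refine ⟨h2, ?_⟩
      by_contra hcon
      have := h1 (by omega) (by split_ifs at f3 <;> omega) i hi hid
      omega
    · rw [if_neg h2] at f4
      have := h1 (by omega) (by split_ifs at f3 <;> omega) i hi hid
      omega
  obtain ⟨hA1, hA2⟩ := hA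
  obtain ⟨hB1, hB2⟩ := hB
  -- the two segments
  have s1 : ∀ k x, k < i + 1 → (w.1 k < x ↔ k < lw w.1 x (i + 1)) := by
    intro k x hk
    rw [seg (a := 0) (b := i + 1) (mono_of_local (fun j _ h => honly j (by omega) (by omega)))
      (Nat.zero_le k) hk x]
    unfold lw
    rw [Finset.range_eq_Ico, zero_add]
  let B : ℕ → ℕ := fun x => ((Finset.Ico (i + 1) n).filter (fun l => w.1 l < x)).card
  have s2 : ∀ k x, i + 1 ≤ k → k < n → (w.1 k < x ↔ k < i + 1 + B x) := by
    intro k x hk hk'
    exact seg (a := i + 1) (b := n) (mono_of_local (fun j hj h => honly j h (by omega)))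
      hk hk' x
  have s3 : ∀ x, lw w.1 x (i + 1) + B x = ps μ.part x := by
    intro x
    rw [← lw_top w x]
    unfold lw
    simp only [B]
    rw [Finset.card_filter, Finset.card_filter, Finset.card_filter,
      Finset.sum_range_add_sum_Ico _ (by omega)]
  have s0 : ∀ k x, k < n → (w0.1 k < x ↔ k < ps μ.part x) := fun k x hk => srt hw0 hk x
  have t1 : ∀ x, x ≤ r → B x = 0 := by
    intro x hx
    have := s2 (i + 1) x (le_refl _) hi
    omega
  have t2 : ∀ x, r + 2 ≤ x → lw w.1 x (i + 1) = i + 1 := by
    intro x hx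
    have h1 := s1 i x (Nat.lt_succ_self i)
    have h2 := lw_le w.1 x (i + 1)
    omega
  have t3 := lw_succ w.1 r (i + 1)
  have t4 := lw_succ w.1 (r + 1) (i + 1)
  have t5 := t1 r (le_refl r)
  have t6 := s3 r
  have t7 := t2 (r + 2) (le_refl _)
  have t8 : lw w.1 (r + 1 + 1) (i + 1) = lw w.1 (r + 2) (i + 1) := rfl
  have t9 := s3 (r + 1)
  have u1 : ∀ k, ps μ.part r + c ≤ k → k < i + 1 → w.1 k = r + 1 := by
    intro k hk hk'
    have h1 := s1 k (r + 1) hk'
    have h2 := s1 k (r + 2) hk'
    omega
  have u2 : ∀ k, i + 1 ≤ k → k < ps μ.part (r + 1) + c + 1 → w.1 k = r := by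
    intro k hk hk'
    have h1 := s2 k (r + 1) hk (by omega)
    have h2 := s2 k r hk (by omega)
    omega
  constructor
  · intro k hk
    rcases Nat.lt_or_ge k n with hkn | hkn
    · apply eq_of_lt
      intro x
      have h0 := s0 k x hkn
      have p1 : x ≤ r → ps μ.part x ≤ ps μ.part r := fun h => ps_mono μ.part h
      have p2 : r + 1 ≤ x → ps μ.part (r + 1) ≤ ps μ.part x := fun h => ps_mono μ.part h
      have h3 := s3 x
      have h1 := t1 x
      have h2 := t2 x
      have hx : x ≤ r ∨ x = r + 1 ∨ r + 2 ≤ x := by omega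
      rcases hk with hk | hk
      · have hs := s1 k x (by omega)
        have hs' := s1 k (r + 1) (by omega)
        rcases hx with hx | hx | hx
        · have := h1 hx
          rw [h0, hs]
          omega
        · rw [hx] at hs h0 h3 ⊢
          omega
        · have q2 := p2 (by omega)
          have q3 := h2 hx
          rw [h0, hs]
          omega
      · have hs := s2 k x (by omega) hkn
        rcases hx with hx | hx | hx
        · have q1 := h1 hx
          have q2 := p1 hx
          rw [h0, hs]
          omega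
        · rw [hx] at hs h0 h3 ⊢
          omega
        · have q3 := h2 hx
          rw [h0, hs]
          omega
    · rw [w.2.1 k hkn, w0.2.1 k hkn]
  · intro k l hk hkl hl
    rcases Nat.lt_or_ge k (i + 1) with h1 | h1
    · rw [u1 k hk h1]
      rcases Nat.lt_or_ge l (i + 1) with h2 | h2
      · rw [u1 l (by omega) h2]
      · rw [u2 l h2 hl]
        omega
    · rw [u2 k h1 (by omega), u2 l (by omega) hl]

section Fam
variable {R : Type*} [CommRing R] {q : R} {ν : ℕ → ℕ}
  {V : Type*} [AddCommGroup V] [Module R V] [Module (Hecke R q n) V]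
  [IsScalarTower R (Hecke R q n) V] {g : Wd n ν → V} {ε : R}

/-- The span of the vectors with fewer than `k` inversions. -/
def W (R : Type*) [CommRing R] {ν : ℕ → ℕ} {V : Type*} [AddCommGroup V] [Module R V]
    (g : Wd n ν → V) (k : ℕ) : Submodule R V :=
  Submodule.span R (g '' {w | inv n w.1 < k})

theorem mem_W {k : ℕ} {w : Wd n ν} (h : inv n w.1 < k) : g w ∈ W R g k :=
  Submodule.subset_span ⟨w, h, rfl⟩

theorem smul_W (hg : IsFam q ε g) {j k : ℕ} (hj : j + 1 < n) {x : V} (hx : x ∈ W R g k) :
    gT R q n j • x ∈ W R g (k + 1) := by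
  unfold W at hx
  induction hx using Submodule.span_induction with
  | mem x hx =>
    obtain ⟨w, hw, rfl⟩ := hx
    have hw : inv n w.1 < k := hw
    rcases lt_trichotomy (w.1 j) (w.1 (j + 1)) with h | h | h
    · rw [(hg w j hj).1 h]
      apply mem_W
      rw [swW_val hj, inv_sw hj h]
      omega
    · rw [(hg w j hj).2 h]
      exact Submodule.smul_mem _ _ (mem_W (by omega))
    · rw [fam_desc hg hj h]
      apply Submodule.add_mem
      · exact Submodule.smul_mem _ _ (mem_W (by omega))
      · apply Submodule.smul_mem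
        apply mem_W
        have := inv_sw' hj h
        rw [swW_val hj]
        omega
  | zero =>
    rw [smul_zero]
    exact Submodule.zero_mem _
  | add x y _ _ hx hy =>
    rw [smul_add]
    exact Submodule.add_mem _ hx hy
  | smul a x _ hx =>
    rw [smul_comm]
    exact Submodule.smul_mem _ _ hx

end Fam

end Sp

open scoped Classical in
theorem Sp.claim {R : Type} [CommRing R] {q : R} {n : ℕ} (μ : Ptn n)
    {V : Type} [AddCommGroup V] [Module R V] [Module (Hecke R q n) V]
    [IsScalarTower R (Hecke R q n) V] {g : Wd n μ.part → V} {w0 : Wd n μ.part}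
    (hw0 : Sorted n w0.1) (hg : IsFam q q g) {r c : ℕ} (hc : c < μ.part (r + 1))
    (hb : ∑ w ∈ Finset.univ.filter (fun w => InBelt μ.part r c w0.1 w.1), g w = 0) :
    ∀ N : ℕ, ∀ w : Wd n μ.part, inv n w.1 = N → Viol n r c w.1 → g w ∈ W R g N := by
  intro N
  induction N with
  | zero =>
    intro w hN hv
    by_cases hex : ∃ i, i + 1 < n ∧ w.1 (i + 1) < w.1 i ∧ Viol n r c (sw i w.1)
    · obtain ⟨i, hi, hlt, hv'⟩ := hex
      have := inv_sw' hi hlt
      omega
    · push Not at hex
      obtain ⟨h1, h2⟩ := special μ hw0 hc w hv hex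
      have h3 := belt_max μ w0.1 hc w h1 h2
      rw [← Finset.add_sum_erase _ _ (show w ∈ Finset.univ.filter
        (fun w => InBelt μ.part r c w0.1 w.1) from Finset.mem_filter.2 ⟨Finset.mem_univ _, h1⟩)] at hb
      rw [eq_neg_of_add_eq_zero_left hb]
      apply Submodule.neg_mem
      apply Submodule.sum_mem
      intro w' hw'
      rw [Finset.mem_erase, Finset.mem_filter] at hw'
      have := h3 w' hw'.2.2 hw'.1
      omega
  | succ N ih =>
    intro w hN hv
    by_cases hex : ∃ i, i + 1 < n ∧ w.1 (i + 1) < w.1 i ∧ Viol n r c (sw i w.1)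
    · obtain ⟨i, hi, hlt, hv'⟩ := hex
      have h0 := inv_sw' hi hlt
      have h1 := ih (swW i w) (by rw [swW_val hi]; omega) (by rw [swW_val hi]; exact hv')
      have h2 := smul_W hg hi h1
      have h3 : (swW i w).1 i < (swW i w).1 (i + 1) := by
        rw [swW_left hi, swW_right hi]
        exact hlt
      rw [(hg (swW i w) i hi).1 h3, swW_swW] at h2
      exact h2
    · push Not at hex
      obtain ⟨h1, h2⟩ := special μ hw0 hc w hv hex
      have h3 := belt_max μ w0.1 hc w h1 h2
      rw [← Finset.add_sum_erase _ _ (show w ∈ Finset.univ.filter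
        (fun w => InBelt μ.part r c w0.1 w.1) from Finset.mem_filter.2 ⟨Finset.mem_univ _, h1⟩)] at hb
      rw [eq_neg_of_add_eq_zero_left hb]
      apply Submodule.neg_mem
      apply Submodule.sum_mem
      intro w' hw'
      rw [Finset.mem_erase, Finset.mem_filter] at hw'
      have := h3 w' hw'.2.2 hw'.1
      exact mem_W (by omega)

theorem span : S_SPAN := by
  intro R _ q n μ V _ _ _ _ g w0 hw0 hg hb w
  have key : ∀ N : ℕ, ∀ w : Wd n μ.part, inv n w.1 = N →
      g w ∈ Submodule.span R (Set.range (fun t : Lat μ => g t.1)) := by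
    intro N
    induction N using Nat.strong_induction_on with
    | _ N ih =>
      intro w hN
      by_cases hlat : IsLat n w.1
      · exact Submodule.subset_span ⟨⟨w, hlat⟩, rfl⟩
      · unfold IsLat at hlat
        push Not at hlat
        obtain ⟨r, m, hm, hlt⟩ := hlat
        have h1 : cnt w.1 r m < μ.part (r + 1) := by
          have := cnt_mono w.1 (r + 1) hm
          rw [w.2.2 (r + 1)] at this
          omega
        have h2 := Sp.claim μ hw0 hg h1 (hb r _ h1) N w hN ⟨m, hm, hlt, le_refl _⟩
        have h3 : W R g N ≤ Submodule.span R (Set.range (fun t : Lat μ => g t.1)) := by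
          unfold W
          rw [Submodule.span_le]
          rintro x ⟨w', hw', rfl⟩
          exact ih (inv n w'.1) hw' w' rfl
        exact h3 h2
  exact key _ w rfl

end Pool.Agent.James
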