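import Pool.Agent.James.Stmts

/-!
The sorted word of a composition; uniqueness of families (helper76).
-/

set_option autoImplicit false

namespace Pool.Agent.James

namespace Srt

theorem ps_zero (ν : ℕ → ℕ) : ps ν 0 = 0 := by simp [ps]

theorem ps_succ (ν : ℕ → ℕ) (r : ℕ) : ps ν (r + 1) = ps ν r + ν r := by
  simp [ps, Finset.sum_range_succ]

theorem ps_mono (ν : ℕ → ℕ) : Monotone (ps ν) :=
  monotone_nat_of_le_succ fun r => by rw [ps_succ]; omega

theorem ps_le {n : ℕ} {ν : ℕ → ℕ} (h : IsComp n ν) (r : ℕ) : ps ν r ≤ n := by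
  obtain ⟨N, h0, hN⟩ := h
  rcases le_total r N with hr | hr
  · rw [← hN]
    exact ps_mono ν hr
  · have : ps ν r = ps ν N := by
      induction r, hr using Nat.le_induction with
      | base => rfl
      | succ m hm ih => rw [ps_succ, ih, h0 m hm, add_zero]
    rw [this, hN]

/-- Counting the letters `≤ c`. -/
theorem card_le_eq_ps {n : ℕ} {ν : ℕ → ℕ} (w : Wd n ν) (c : ℕ) :
    ((Finset.range n).filter (fun k => w.1 k < c)).card = ps ν c := by
  induction c with
  | zero => simp [ps_zero]
  | succ c ih =>
    have h1 : (Finset.range n).filter (fun k => w.1 k < c + 1) =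
        (Finset.range n).filter (fun k => w.1 k < c) ∪
          (Finset.range n).filter (fun k => w.1 k = c) := by
      ext k
      simp only [Finset.mem_filter, Finset.mem_union, Finset.mem_range]
      omega
    have h2 : Disjoint ((Finset.range n).filter (fun k => w.1 k < c))
        ((Finset.range n).filter (fun k => w.1 k = c)) := by
      rw [Finset.disjoint_left]
      intro k hk hk'
      rw [Finset.mem_filter] at hk hk'
      omega
    rw [h1, Finset.card_union_of_disjoint h2, ih, ps_succ]
    congr 1
    exact w.2.2 c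

theorem sorted_mono {n : ℕ} {w : ℕ → ℕ} (h : Sorted n w) {k l : ℕ} (hkl : k ≤ l) (hl : l < n) :
    w k ≤ w l := by
  induction l, hkl using Nat.le_induction with
  | base => exact le_rfl
  | succ m hm ih => exact (ih (by omega)).trans (h m hl)

/-- The letters of a sorted word. -/
theorem sorted_lt_iff {n : ℕ} {ν : ℕ → ℕ} {w : Wd n ν} (h : Sorted n w.1) {k : ℕ} (hk : k < n)
    (c : ℕ) : w.1 k < c ↔ k < ps ν c := by
  rw [← card_le_eq_ps w c]
  constructor
  · intro hc
    have h1 : Finset.range (k + 1) ⊆ (Finset.range n).filter (fun k => w.1 k < c) := by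
      intro l hl
      rw [Finset.mem_range] at hl
      rw [Finset.mem_filter, Finset.mem_range]
      exact ⟨by omega, (sorted_mono h (by omega : l ≤ k) hk).trans_lt hc⟩
    have := Finset.card_le_card h1
    rw [Finset.card_range] at this
    omega
  · intro hc
    by_contra hcon
    have h1 : (Finset.range n).filter (fun k => w.1 k < c) ⊆ Finset.range k := by
      intro l hl
      rw [Finset.mem_filter, Finset.mem_range] at hl
      rw [Finset.mem_range]
      by_contra hlk
      have := sorted_mono h (by omega : k ≤ l) hl.1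
      omega
    have := Finset.card_le_card h1
    rw [Finset.card_range] at this
    omega

theorem sorted_unique {n : ℕ} {ν : ℕ → ℕ} {w w' : Wd n ν} (h : Sorted n w.1)
    (h' : Sorted n w'.1) : w = w' := by
  apply Subtype.ext
  funext k
  by_cases hk : k < n
  · apply le_antisymm
    · rw [← Nat.lt_succ_iff, sorted_lt_iff h hk, ← sorted_lt_iff h' hk]
      exact Nat.lt_succ_self _
    · rw [← Nat.lt_succ_iff, sorted_lt_iff h' hk, ← sorted_lt_iff h hk]
      exact Nat.lt_succ_self _
  · rw [w.2.1 k (by omega), w'.2.1 k (by omega)]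

theorem exists_sorted {n : ℕ} {ν : ℕ → ℕ} (h : IsComp n ν) : ∃ w0 : Wd n ν, Sorted n w0.1 ∧
    ∀ j, j + 1 < n → (w0.1 j = w0.1 (j + 1) ↔ InY ν j) := by
  classical
  have hex : ∀ k, k < n → ∃ r, k < ps ν (r + 1) := by
    obtain ⟨N, h0, hN⟩ := h
    intro k hk
    refine ⟨N, ?_⟩
    have := ps_mono ν (Nat.le_succ N)
    rw [← hN] at hk
    exact hk.trans_le this
  let w : ℕ → ℕ := fun k => if hk : k < n then Nat.find (hex k hk) else 0
  have hw : ∀ k, k < n → ∀ c, w k = c ↔ ps ν c ≤ k ∧ k < ps ν (c + 1) := by
    intro k hk c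
    have e1 : w k = Nat.find (hex k hk) := dif_pos hk
    rw [e1]
    have h1 := Nat.find_spec (hex k hk)
    have h2 := fun m => Nat.find_min (hex k hk) (m := m)
    constructor
    · intro hc
      rw [hc] at h1 h2
      refine ⟨?_, h1⟩
      rcases Nat.eq_zero_or_pos c with h0 | h0
      · rw [h0, ps_zero]
        exact Nat.zero_le _
      · obtain ⟨c', rfl⟩ : ∃ c', c = c' + 1 := ⟨c - 1, by omega⟩
        have := h2 c' (by omega)
        omega
    · rintro ⟨h3, h4⟩
      apply le_antisymm
      · exact Nat.find_min' _ h4
      · by_contra hcon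
        have : ps ν (Nat.find (hex k hk) + 1) ≤ ps ν c := ps_mono ν (by omega)
        omega
  have hword : IsWord n ν w := by
    refine ⟨fun k hk => dif_neg (by omega), fun c => ?_⟩
    unfold cnt
    have h1 : (Finset.range n).filter (fun k => w k = c) = Finset.Ico (ps ν c) (ps ν (c + 1)) := by
      ext k
      rw [Finset.mem_filter, Finset.mem_range, Finset.mem_Ico]
      constructor
      · rintro ⟨h1, h2⟩
        exact (hw k h1 c).1 h2
      · rintro h1
        have h2 : k < n := h1.2.trans_le (ps_le h _)
        exact ⟨h2, (hw k h2 c).2 h1⟩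
    rw [h1, Nat.card_Ico, ps_succ]
    omega
  refine ⟨⟨w, hword⟩, ?_, ?_⟩
  · intro j hj
    change w j ≤ w (j + 1)
    have h1 := (hw j (by omega) (w j)).1 rfl
    have h2 := (hw (j + 1) hj (w (j + 1))).1 rfl
    by_contra hcon
    have : ps ν (w (j + 1) + 1) ≤ ps ν (w j) := ps_mono ν (by omega)
    omega
  · intro j hj
    change w j = w (j + 1) ↔ _
    have h1 := (hw j (by omega) (w j)).1 rfl
    constructor
    · intro he r hr
      have h2 := (hw (j + 1) hj (w j)).1 he.symm
      by_cases hrc : r ≤ w j
      · have := ps_mono ν hrc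
        omega
      · have : ps ν (w j + 1) ≤ ps ν r := ps_mono ν (by omega)
        omega
    · intro hY
      have := hY (w j + 1)
      exact ((hw (j + 1) hj (w j)).2 ⟨by omega, by omega⟩).symm

end Srt

theorem srt : S_SRT := fun _ _ =>
  ⟨Srt.exists_sorted, fun _ _ h h' => Srt.sorted_unique h h'⟩

theorem uniq : S_UNIQ := by
  intro R _ q ε n ν V _ _ _ g g' w0 h0 hg hg' he
  have key : ∀ m, ∀ w : Wd n ν, inv n w.1 = m → g w = g' w := by
    intro m
    induction m with
    | zero =>
      intro w hw
      have hs : Sorted n w.1 := by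
        intro j hj
        by_contra hcon
        have := inv_sw' (w := w.1) hj (by omega)
        omega
      rw [Srt.sorted_unique hs h0, he]
    | succ m ih =>
      intro w hw
      by_cases hs : Sorted n w.1
      · rw [Srt.sorted_unique hs h0, he]
      · unfold Sorted at hs
        push Not at hs
        obtain ⟨j, hj, hlt⟩ := hs
        have h1 := inv_sw' (w := w.1) hj hlt
        have h2 : inv n (swW j w).1 = m := by
          rw [swW_val hj]
          omega
        have h3 : (swW j w).1 j < (swW j w).1 (j + 1) := by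
          rw [swW_left hj, swW_right hj]
          exact hlt
        have h4 := (hg (swW j w) j hj).1 h3
        have h5 := (hg' (swW j w) j hj).1 h3
        rw [swW_swW] at h4 h5
        rw [← h4, ← h5, ih _ h2]
  funext w
  exact key _ w rfl

end Pool.Agent.James
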