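import Pool.Agent.James.Stmts

/-!
The submodule theorem for the Specht modules (module JS_SUBT, helper25).
-/

set_option autoImplicit false

namespace Pool.Agent.James

theorem subt_bform_wd {R : Type*} [CommRing R] (q : R) {n : ℕ} {ν : ℕ → ℕ} (f : Lam R q n ν)
    (w : Wd n ν) : bform f (wd R q w) = q ^ inv n w.1 * f w := by
  classical
  unfold bform wd
  rw [Finset.sum_eq_single w]
  · rw [if_pos rfl, mul_one]
  · intro b _ hb
    rw [if_neg hb, mul_zero]
  · intro h
    exact absurd (Finset.mem_univ _) h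

theorem subt (hSYM : S_SYM) (hZX : S_ZX) (hINV : S_INV) (hZINV : S_ZINV) (hROW : S_ROW)
    (hJX : S_JX) : S_SUBT := by
  intro F _ q n μ hq hq1
  classical
  have hqn : q ∈ nonZeroDivisors F := mem_nonZeroDivisors_of_ne_zero hq
  have hq1n : (1 + q) ∈ nonZeroDivisors F := mem_nonZeroDivisors_of_ne_zero hq1
  have hcomp : IsComp n μ.part := ⟨n, μ.zero, μ.sum⟩
  obtain ⟨X, hX⟩ := hSYM F q n μ.part hcomp
  obtain ⟨wr, hwr1, hwr2⟩ := hROW n μ
  have hdist : ∀ w : Wd n μ.conj, BlockIncr n μ.part w.1 → BlockDistinct n μ.part w.1 :=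
    fun w hw k l hkl hl hb => (hw k l hkl hl hb).ne
  have hwr3 : ∀ w : Wd n μ.conj, BlockIncr n μ.part w.1 → w = wr := fun w hw =>
    (hwr2 w (hdist w hw)).2.2 hw
  obtain ⟨hz, -⟩ := hZX F q n μ X wr hqn hq1n hX hwr1 hwr3
  have hzwr : zvec F q μ wr = 1 := by
    unfold zvec
    rw [if_pos (hdist wr hwr1)]
  have hzS : zvec F q μ ∈ Specht F q μ := Submodule.mem_span_singleton_self _
  -- invariants are multiples of `z`
  have key : ∀ f : Lam F q n μ.conj, IsInv q n μ.part f → f = f wr • zvec F q μ := by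
    intro f hf
    have h1 : IsInv q n μ.part (f - f wr • zvec F q μ) := by
      intro j hj hY
      rw [smul_sub, hf j hj hY, smul_comm (gT F q n j) (f wr), hZINV F q n μ j hj hY, smul_sub,
        smul_comm q (f wr)]
    have h2 := (hINV F q n μ.conj μ.part (f - f wr • zvec F q μ) hqn hq1n h1).2 (by
      intro w hw
      rw [hwr3 w hw]
      change f wr - f wr * zvec F q μ wr = 0
      rw [hzwr, mul_one, sub_self])
    exact sub_eq_zero.1 h2
  -- a submodule containing `z` is everything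
  have htop : ∀ N : Submodule (Hecke F q n) (Specht F q μ),
      (⟨zvec F q μ, hzS⟩ : Specht F q μ) ∈ N → N = ⊤ := by
    intro N hN
    rw [eq_top_iff]
    rintro ⟨y, hy⟩ -
    obtain ⟨a, ha⟩ := Submodule.mem_span_singleton.1 hy
    have h1 : (⟨y, hy⟩ : Specht F q μ) = a • ⟨zvec F q μ, hzS⟩ := Subtype.ext ha.symm
    rw [h1]
    exact N.smul_mem a hN
  have hXinv : ∀ f : Lam F q n μ.conj, IsInv q n μ.part (X • f) := by
    intro f j hj hY
    rw [← mul_smul, hX.left j hj hY, smul_assoc]
  have h1 : ∀ N : Submodule (Hecke F q n) (Specht F q μ), N = ⊤ ∨ N ≤ spechtRad F q μ := by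
    intro N
    by_cases hN : ∀ x ∈ N, bform x.1 (zvec F q μ) = 0
    · right
      intro x hx y
      obtain ⟨a, ha⟩ := Submodule.mem_span_singleton.1 y.2
      let N' : Submodule (Hecke F q n) (Lam F q n μ.conj) := N.map (Specht F q μ).subtype
      have h2 : ∀ y' ∈ N', bform (zvec F q μ) y' = 0 := by
        rintro y' ⟨x', hx', rfl⟩
        rw [bform_comm]
        exact hN x' hx'
      have h3 := bform_smul_mem (N := N') h2 a x.1 ⟨x, hx, rfl⟩
      rw [ha, bform_comm] at h3
      exact h3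
    · left
      push Not at hN
      obtain ⟨x, hx, hxz⟩ := hN
      rw [hz, ← hX.adj, subt_bform_wd] at hxz
      have hc : (X • x.1 : Lam F q n μ.conj) wr ≠ 0 := right_ne_zero_of_mul hxz
      obtain ⟨c, hc0, h2⟩ : ∃ c : F, c ≠ 0 ∧ X • x.1 = c • zvec F q μ :=
        ⟨_, hc, key (X • x.1) (hXinv x.1)⟩
      apply htop
      have h3 : (⟨zvec F q μ, hzS⟩ : Specht F q μ) =
          (algebraMap F (Hecke F q n) c⁻¹ * X) • x := by
        apply Subtype.ext
        change zvec F q μ = (algebraMap F (Hecke F q n) c⁻¹ * X) • x.1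
        rw [mul_smul, algebraMap_smul, h2, smul_smul, inv_mul_cancel₀ hc0, one_smul]
      rw [h3]
      exact N.smul_mem _ hx
  refine ⟨h1, ?_, ?_⟩
  · intro hnt
    rw [isSimpleModule_iff_isCoatom]
    refine ⟨Submodule.Quotient.nontrivial_iff.1 hnt, ?_⟩
    intro b hb
    rcases h1 b with h | h
    · exact h
    · exact absurd h (not_le_of_gt hb)
  · intro h s hh hs hne
    rw [Submodule.Quotient.nontrivial_iff]
    intro htop'
    have hinv : IsInv q n μ.part (h • s) := by
      intro j hj hY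
      rw [← mul_smul, hh j hj hY, smul_assoc]
    obtain ⟨h', rfl⟩ := hJX F q n μ.part X h hqn hq1n hcomp hX hh
    have h2 := key _ hinv
    have hc : ((X * h') • s : Lam F q n μ.conj) wr ≠ 0 := by
      intro h0
      rw [h0, zero_smul] at h2
      exact hne h2
    have h3 : (⟨h' • s, (Specht F q μ).smul_mem _ hs⟩ : Specht F q μ) ∈ spechtRad F q μ := by
      rw [htop']
      exact Submodule.mem_top
    have h4 : bform (h' • s) (zvec F q μ) = 0 := h3 ⟨zvec F q μ, hzS⟩
    rw [hz, ← hX.adj, ← mul_smul, subt_bform_wd] at h4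
    exact hc ((mul_eq_zero.1 h4).resolve_left (pow_ne_zero _ hq))

end Pool.Agent.James
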