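import Pool.Agent.James.Stmts

/-!
Symmetrizers of parabolic subalgebras (module JS_SYM).
-/

set_option autoImplicit false

namespace Pool.Agent.James

namespace SYM

section alg
variable {R A : Type*} [CommRing R] [Ring A] [Algebra R A]

/-- `ρ_m = 1 + T_m ρ_{m-1}` -/
def rho (T : ℕ → A) (o : ℕ) : ℕ → A
  | 0 => 1
  | m + 1 => 1 + T (o + m) * rho T o m

/-- `ρ'_m = 1 + ρ'_{m-1} T_m` -/
def rho' (T : ℕ → A) (o : ℕ) : ℕ → A
  | 0 => 1
  | m + 1 => 1 + rho' T o m * T (o + m)

/-- symmetrizer of the block of length `m` starting at `o` -/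
def sig (T : ℕ → A) (o : ℕ) : ℕ → A
  | 0 => 1
  | m + 1 => sig T o m * rho T o m

/-- product of the block symmetrizers -/
def Xp (T : ℕ → A) (ν : ℕ → ℕ) : ℕ → A
  | 0 => 1
  | N + 1 => Xp T ν N * sig T (ps ν N) (ν N)

variable {q : R} {n : ℕ} {T : ℕ → A}

theorem rho_comm (h : HeckeRel q n T) {o m j : ℕ} (h1 : o + m < j) (h2 : j + 1 < n) :
    T j * rho T o m = rho T o m * T j := by
  induction m with
  | zero => simp [rho]
  | succ m ih =>
    have ih' := ih (by omega)
    have hc := h.comm (o + m) j (by omega) h2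
    rw [rho, mul_add, add_mul, mul_one, one_mul, ← mul_assoc, ← hc, mul_assoc, ih', ← mul_assoc]

theorem sig_comm (h : HeckeRel q n T) {o m j : ℕ} (h1 : o + m ≤ j) (h2 : j + 1 < n) :
    T j * sig T o m = sig T o m * T j := by
  induction m with
  | zero => simp [sig]
  | succ m ih =>
    rw [sig, ← mul_assoc, ih (by omega), mul_assoc, rho_comm h (by omega) h2, ← mul_assoc]

theorem rho_comm' (h : HeckeRel q n T) {o m j : ℕ} (h1 : j + 1 < o) (h2 : o + m < n) :
    T j * rho T o m = rho T o m * T j := by
  induction m with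
  | zero => simp [rho]
  | succ m ih =>
    have ih' := ih (by omega)
    have hc := h.comm j (o + m) (by omega) (by omega)
    rw [rho, mul_add, add_mul, mul_one, one_mul, ← mul_assoc, hc, mul_assoc, ih', ← mul_assoc]

theorem sig_comm' (h : HeckeRel q n T) {o m j : ℕ} (h1 : j + 1 < o) (h2 : o + m ≤ n) :
    T j * sig T o m = sig T o m * T j := by
  induction m with
  | zero => simp [sig]
  | succ m ih =>
    rw [sig, ← mul_assoc, ih (by omega), mul_assoc, rho_comm' h h1 (by omega), ← mul_assoc]

theorem rho_key (h : HeckeRel q n T) {o m : ℕ} (h1 : o + m + 1 < n) :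
    T (o + m) * (rho T o m * rho T o (m + 1)) = q • (rho T o m * rho T o (m + 1)) := by
  induction m with
  | zero =>
    have hq := h.quad (o + 0) (by omega)
    simp only [rho, one_mul, mul_one]
    rw [mul_add, mul_one, hq, smul_add, sub_smul, one_smul]
    abel
  | succ m ih =>
    have ih' := ih (by omega)
    have hq := h.quad (o + (m + 1)) (by omega)
    have hb := h.braid (o + m) (by omega)
    have hc := rho_comm h (o := o) (m := m) (j := o + (m + 1)) (by omega) (by omega)
    have e : o + m + 1 = o + (m + 1) := by ring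
    rw [e] at hb
    set a := T (o + m) with ha
    set b := T (o + (m + 1)) with hbd
    set r := rho T o m with hr
    have e1 : rho T o (m + 1) = 1 + a * r := rfl
    have e2 : rho T o (m + 1 + 1) = 1 + b * (1 + a * r) := rfl
    rw [e1] at ih'
    rw [e2, e1]
    -- `b (1 + a r) b (1 + a r)`
    have k1 : b * ((1 + a * r) * (1 + b * (1 + a * r))) =
        b * (1 + a * r) + (b * b) * (1 + a * r) + b * a * (r * b) * (1 + a * r) := by
      noncomm_ring
    have k2 : b * a * (r * b) * (1 + a * r) = a * b * (a * (r * (1 + a * r))) := by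
      rw [← hc]
      have : b * a * (b * r) * (1 + a * r) = (b * a * b) * (r * (1 + a * r)) := by noncomm_ring
      rw [this, ← hb]
      noncomm_ring
    rw [k1, k2, ih', hq, mul_smul_comm]
    have k3 : a * b * (r * (1 + a * r)) = a * r * b * (1 + a * r) := by
      have : a * b * (r * (1 + a * r)) = a * (b * r) * (1 + a * r) := by noncomm_ring
      rw [this, hc]
      noncomm_ring
    rw [k3, add_mul, smul_mul_assoc, smul_mul_assoc, one_mul, sub_smul, one_smul]
    have k4 : (1 + a * r) * (1 + b * (1 + a * r)) =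
        (1 + a * r) + b * (1 + a * r) + a * r * b * (1 + a * r) := by
      noncomm_ring
    rw [k4]
    simp only [smul_add]
    abel

theorem sig_left (h : HeckeRel q n T) {o m : ℕ} (h1 : o + m ≤ n) :
    ∀ i, i + 1 < m → T (o + i) * sig T o m = q • sig T o m := by
  induction m with
  | zero => intro i hi; omega
  | succ m ih =>
    intro i hi
    by_cases h2 : i + 1 < m
    · rw [sig, ← mul_assoc, ih (by omega) i h2, smul_mul_assoc]
    · have h3 : m = i + 1 := by omega
      subst h3
      rw [sig, sig, ← mul_assoc, ← mul_assoc, sig_comm h (by omega) (by omega), mul_assoc, mul_assoc,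
        mul_assoc, rho_key h (by omega), mul_smul_comm]

theorem sig_rho' (h : HeckeRel q n T) {o m : ℕ} (h1 : o + m < n) :
    sig T o m * rho T o m = rho' T o m * sig T o m := by
  induction m with
  | zero => simp [sig, rho, rho']
  | succ m ih =>
    have ih' := ih (by omega)
    have hc := sig_comm h (o := o) (m := m) (j := o + m) (by omega) (by omega)
    have e1 : sig T o (m + 1) * rho T o (m + 1) =
        sig T o (m + 1) + (sig T o m * rho T o m) * T (o + m) * rho T o m := by
      rw [rho, mul_add, mul_one, ← mul_assoc]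
      rfl
    rw [e1, ih']
    have e2 : rho' T o m * sig T o m * T (o + m) * rho T o m =
        rho' T o m * (T (o + m) * (sig T o m * rho T o m)) := by
      rw [mul_assoc (rho' T o m), ← hc]
      simp only [mul_assoc]
    rw [e2, rho', add_mul, one_mul]
    simp only [mul_assoc]
    rfl

theorem rho_op (o m : ℕ) : rho (fun j => MulOpposite.op (T j)) o m = MulOpposite.op (rho' T o m) := by
  induction m with
  | zero => rfl
  | succ m ih =>
    rw [rho, ih, rho', MulOpposite.op_add, MulOpposite.op_mul, MulOpposite.op_one]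

theorem sig_op (h : HeckeRel q n T) (o m : ℕ) (h1 : o + m ≤ n) :
    sig (fun j => MulOpposite.op (T j)) o m = MulOpposite.op (sig T o m) := by
  induction m with
  | zero => rfl
  | succ m ih =>
    rw [sig, ih (by omega), rho_op, ← MulOpposite.op_mul, ← sig_rho' h (by omega)]
    rfl

theorem rel_op (h : HeckeRel q n T) : HeckeRel q n (fun j => MulOpposite.op (T j)) := by
  constructor
  · intro j hj
    rw [← MulOpposite.op_mul, h.quad j hj]
    rfl
  · intro j hj
    rw [← MulOpposite.op_mul, ← MulOpposite.op_mul, ← MulOpposite.op_mul, ← MulOpposite.op_mul,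
      ← mul_assoc, ← mul_assoc, h.braid j hj]
  · intro j k hjk hk
    rw [← MulOpposite.op_mul, ← MulOpposite.op_mul, h.comm j k hjk hk]

theorem sig_right (h : HeckeRel q n T) {o m : ℕ} (h1 : o + m ≤ n) :
    ∀ i, i + 1 < m → sig T o m * T (o + i) = q • sig T o m := by
  intro i hi
  have := sig_left (rel_op h) h1 i hi
  rw [sig_op h o m h1, ← MulOpposite.op_mul] at this
  exact MulOpposite.op_injective this

theorem ps_succ (ν : ℕ → ℕ) (r : ℕ) : ps ν (r + 1) = ps ν r + ν r := by
  unfold ps
  rw [Finset.sum_range_succ]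

theorem ps_mono (ν : ℕ → ℕ) {r s : ℕ} (h : r ≤ s) : ps ν r ≤ ps ν s := by
  unfold ps
  exact Finset.sum_le_sum_of_subset (by
    intro x hx
    rw [Finset.mem_range] at hx ⊢
    omega)

theorem Xp_comm (h : HeckeRel q n T) {ν : ℕ → ℕ} {N j : ℕ} (h1 : ps ν N ≤ j) (h2 : j + 1 < n) :
    T j * Xp T ν N = Xp T ν N * T j := by
  induction N with
  | zero => simp [Xp]
  | succ N ih =>
    have h3 : ps ν N ≤ ps ν (N + 1) := ps_mono ν (by omega)
    rw [Xp, ← mul_assoc, ih (by omega), mul_assoc, sig_comm h (by rw [← ps_succ]; exact h1) h2,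
      ← mul_assoc]

theorem Xp_left (h : HeckeRel q n T) {ν : ℕ → ℕ} {N : ℕ} (hn : ps ν N ≤ n) :
    ∀ j, j + 1 < ps ν N → InY ν j → T j * Xp T ν N = q • Xp T ν N := by
  induction N with
  | zero =>
    intro j hj
    simp [ps] at hj
  | succ N ih =>
    intro j hj hY
    have h3 : ps ν N ≤ ps ν (N + 1) := ps_mono ν (by omega)
    rw [Xp]
    by_cases h4 : j + 1 < ps ν N
    · rw [← mul_assoc, ih (by omega) j h4 hY, smul_mul_assoc]
    · have h5 : ps ν N ≠ j + 1 := hY N
      obtain ⟨i, rfl⟩ : ∃ i, j = ps ν N + i := ⟨j - ps ν N, by omega⟩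
      rw [ps_succ] at hj
      rw [← mul_assoc, Xp_comm h (by omega) (by rw [ps_succ] at hn; omega), mul_assoc,
        sig_left h (by rw [← ps_succ]; exact hn) i (by omega), mul_smul_comm]

theorem Xp_right (h : HeckeRel q n T) {ν : ℕ → ℕ} {N : ℕ} (hn : ps ν N ≤ n) :
    ∀ j, j + 1 < ps ν N → InY ν j → Xp T ν N * T j = q • Xp T ν N := by
  induction N with
  | zero =>
    intro j hj
    simp [ps] at hj
  | succ N ih =>
    intro j hj hY
    have h3 : ps ν N ≤ ps ν (N + 1) := ps_mono ν (by omega)
    rw [Xp]
    by_cases h4 : j + 1 < ps ν N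
    · rw [mul_assoc, ← sig_comm' h h4 (by rw [← ps_succ]; exact hn), ← mul_assoc,
        ih (by omega) j h4 hY, smul_mul_assoc]
    · have h5 : ps ν N ≠ j + 1 := hY N
      obtain ⟨i, rfl⟩ : ∃ i, j = ps ν N + i := ⟨j - ps ν N, by omega⟩
      rw [ps_succ] at hj
      rw [mul_assoc, sig_right h (by rw [← ps_succ]; exact hn) i (by omega), mul_smul_comm]

/-- elements commuting with the generators of an interval commute with `sig` -/
theorem sig_commute {x : A} {o m : ℕ} (hx : ∀ i, i + 1 < m → Commute x (T (o + i))) :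
    Commute x (sig T o m) := by
  have hr : ∀ k, (∀ i, i < k → Commute x (T (o + i))) → Commute x (rho T o k) := by
    intro k
    induction k with
    | zero => intro _; exact Commute.one_right x
    | succ k ih =>
      intro hk
      rw [rho]
      exact (Commute.one_right x).add_right ((hk k (by omega)).mul_right
        (ih (fun i hi => hk i (by omega))))
  induction m with
  | zero => exact Commute.one_right x
  | succ m ih =>
    rw [sig]
    exact (ih (fun i hi => hx i (by omega))).mul_right (hr m (fun i hi => hx i (by omega)))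

theorem Xp_sig (h : HeckeRel q n T) {ν : ℕ → ℕ} {N : ℕ} (hn : ps ν (N + 1) ≤ n) :
    Xp T ν N * sig T (ps ν N) (ν N) = sig T (ps ν N) (ν N) * Xp T ν N := by
  apply sig_commute
  intro i hi
  rw [ps_succ] at hn
  exact (Xp_comm h (by omega) (by omega)).symm

end alg

section eig
variable {R : Type} [CommRing R] {q : R} {n : ℕ} {V : Type} [AddCommGroup V] [Module R V]
  [Module (Hecke R q n) V] [IsScalarTower R (Hecke R q n) V]

theorem rho_eig (v : V) (o m : ℕ) (hv : ∀ i, i < m → gT R q n (o + i) • v = q • v) :
    rho (gT R q n) o m • v = (∑ k ∈ Finset.range (m + 1), q ^ k) • v := by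
  have : SMulCommClass R (Hecke R q n) V := IsScalarTower.to_smulCommClass
  induction m with
  | zero => simp [rho]
  | succ m ih =>
    rw [rho, add_smul, one_smul, mul_smul, ih (fun i hi => hv i (by omega)), smul_comm,
      hv m (by omega), smul_smul]
    conv_lhs => rw [← one_smul R v]
    rw [smul_smul, mul_one, ← add_smul]
    congr 1
    rw [Finset.sum_range_succ' _ (m + 1), pow_zero, Finset.sum_mul, add_comm]
    simp only [pow_succ]

theorem sig_eig (v : V) (o m : ℕ) (hv : ∀ i, i + 1 < m → gT R q n (o + i) • v = q • v) :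
    sig (gT R q n) o m • v = qfac q m • v := by
  have : SMulCommClass R (Hecke R q n) V := IsScalarTower.to_smulCommClass
  induction m with
  | zero => simp [sig, qfac]
  | succ m ih =>
    rw [sig, mul_smul, rho_eig v o m (fun i hi => hv i (by omega)), smul_comm,
      ih (fun i hi => hv i (by omega)), smul_smul]
    congr 1
    unfold qfac
    rw [Finset.prod_range_succ, mul_comm]

theorem inY_of_block {ν : ℕ → ℕ} {N j : ℕ} (h1 : ps ν N ≤ j) (h2 : j + 1 < ps ν (N + 1)) :
    InY ν j := by
  intro r hr
  rcases Nat.lt_or_ge N r with h | h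
  · have := ps_mono ν (show N + 1 ≤ r from h)
    omega
  · have := ps_mono ν h
    omega

theorem Xp_eig (v : V) (ν : ℕ → ℕ) (N : ℕ) (hn : ps ν N ≤ n) (hv : IsInv q n ν v) :
    Xp (gT R q n) ν N • v = (∏ r ∈ Finset.range N, qfac q (ν r)) • v := by
  have : SMulCommClass R (Hecke R q n) V := IsScalarTower.to_smulCommClass
  induction N with
  | zero => simp [Xp]
  | succ N ih =>
    have h3 : ps ν N ≤ ps ν (N + 1) := ps_mono ν (by omega)
    rw [Xp, mul_smul, sig_eig v, smul_comm, ih (by omega), smul_smul, Finset.prod_range_succ,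
      mul_comm]
    intro i hi
    have h4 := ps_succ ν N
    exact hv _ (by omega) (inY_of_block (N := N) (by omega) (by omega))

end eig

section adj
variable {R : Type} [CommRing R] {q : R} {n : ℕ}

/-- adjoint pairs -/
def Adj (a b : Hecke R q n) : Prop :=
  ∀ (μ : ℕ → ℕ) (f g : Lam R q n μ), bform (a • f) g = bform f (b • g)

theorem Adj.one : Adj (1 : Hecke R q n) 1 := by
  intro μ f g
  rw [one_smul, one_smul]

theorem Adj.add {a b a' b' : Hecke R q n} (h : Adj a b) (h' : Adj a' b') :
    Adj (a + a') (b + b') := by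
  intro μ f g
  rw [add_smul, add_smul, bform_add_left, bform_add_right, h, h']

theorem Adj.mul {a b a' b' : Hecke R q n} (h : Adj a b) (h' : Adj a' b') :
    Adj (a * a') (b' * b) := by
  intro μ f g
  rw [mul_smul, mul_smul, h, h']

theorem Adj.T {j : ℕ} (hj : j + 1 < n) : Adj (gT R q n j) (gT R q n j) :=
  fun _ f g => bform_gT hj f g

theorem rho_adj (o m : ℕ) (h : o + m < n) :
    Adj (rho (gT R q n) o m) (rho' (gT R q n) o m) := by
  induction m with
  | zero => exact Adj.one
  | succ m ih =>
    exact Adj.one.add ((Adj.T (by omega)).mul (ih (by omega)))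

theorem sig_adj (o m : ℕ) (h : o + m ≤ n) :
    Adj (sig (gT R q n) o m) (sig (gT R q n) o m) := by
  induction m with
  | zero => exact Adj.one
  | succ m ih =>
    have := (ih (by omega)).mul (rho_adj (R := R) (q := q) o m (by omega))
    rw [← sig_rho' gT_rel (by omega)] at this
    exact this

theorem Xp_adj (ν : ℕ → ℕ) (N : ℕ) (h : ps ν N ≤ n) :
    Adj (Xp (gT R q n) ν N) (Xp (gT R q n) ν N) := by
  induction N with
  | zero => exact Adj.one
  | succ N ih =>
    have h3 : ps ν N ≤ ps ν (N + 1) := ps_mono ν (by omega)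
    have := (ih (by omega)).mul (sig_adj (R := R) (q := q) (ps ν N) (ν N) (by rw [← ps_succ]; exact h))
    rw [← Xp_sig gT_rel h] at this
    exact this

end adj

section supp
variable {R : Type} [CommRing R] {q : R} {n : ℕ} {μ : ℕ → ℕ}

/-- `w'` is `w` with positions permuted by `π` -/
theorem rho_supp (w : Wd n μ) (o m : ℕ) (hn : o + m < n)
    (hw : ∀ k l, o ≤ k → k < l → l ≤ o + m → w.1 k < w.1 l) (f : Lam R q n μ)
    (hf : ∀ (w' : Wd n μ) (π : Equiv.Perm ℕ), (∀ k, (k < o ∨ o + m < k) → π k = k) →
      w'.1 = w.1 ∘ π → w' ≠ w → f w' = 0) :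
    ∀ k, k ≤ m → ∀ (w' : Wd n μ) (π : Equiv.Perm ℕ), (∀ k, (k < o ∨ o + m < k) → π k = k) →
      w'.1 = w.1 ∘ π → π (o + k) = o + m → (rho (gT R q n) o k • f : Lam R q n μ) w' = f w' := by
  intro k
  induction k with
  | zero =>
    intro _ w' π _ _ _
    rw [rho, one_smul]
  | succ k ih =>
    intro hk w' π hπ hw' hπk
    have hj : o + k + 1 < n := by omega
    have hstab : ∀ a, o ≤ a → a ≤ o + m → o ≤ π a ∧ π a ≤ o + m := by
      intro a ha1 ha2
      by_contra hcon
      have h1 : π a < o ∨ o + m < π a := by omega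
      have h2 := hπ (π a) h1
      have h3 := π.injective h2
      omega
    have hlt : w'.1 (o + k) < w'.1 (o + k + 1) := by
      rw [hw']
      simp only [Function.comp]
      have h1 := hstab (o + k) (by omega) (by omega)
      have h2 : π (o + k) ≠ o + m := by
        intro h2
        rw [← hπk] at h2
        have := π.injective h2
        omega
      have h3 : π (o + k + 1) = o + m := hπk
      rw [h3]
      exact hw _ _ h1.1 (by omega) (by omega)
    rw [rho, add_smul, one_smul, mul_smul]
    change f w' + (gT R q n (o + k) • (rho (gT R q n) o k • f) : Lam R q n μ) w' = f w'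
    rw [gT_smul hj, lT_lt hlt]
    set π' : Equiv.Perm ℕ := (Equiv.swap (o + k) (o + k + 1)).trans π with hπ'
    have hπ'a : ∀ a, π' a = π (Equiv.swap (o + k) (o + k + 1) a) := fun a => rfl
    have e1 : (swW (o + k) w').1 = w.1 ∘ π' := by
      rw [swW_val hj, hw']
      rfl
    have e2 : ∀ a, (a < o ∨ o + m < a) → π' a = a := by
      intro a ha
      rw [hπ'a, Equiv.swap_apply_of_ne_of_ne (by omega) (by omega)]
      exact hπ a ha
    have e3 : π' (o + k) = o + m := by
      rw [hπ'a, Equiv.swap_apply_left]
      exact hπk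
    have e4 := ih (by omega) (swW (o + k) w') π' e2 e1 e3
    have e5 : f (swW (o + k) w') = 0 := by
      apply hf _ π' e2 e1
      intro hcon
      have h1 : (swW (o + k) w').1 (o + k) = w.1 (o + m) := by
        rw [e1]
        simp only [Function.comp]
        rw [e3]
      rw [hcon] at h1
      have h2 := hw (o + k) (o + m) (by omega) (by omega) (by omega)
      omega
    rw [e4, e5]
    ring

theorem sig_supp (o m : ℕ) (hn : o + m ≤ n) : ∀ (w : Wd n μ)
    (_ : ∀ k l, o ≤ k → k < l → l < o + m → w.1 k < w.1 l) (f : Lam R q n μ)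
    (_ : ∀ (w' : Wd n μ) (π : Equiv.Perm ℕ), (∀ k, (k < o ∨ o + m ≤ k) → π k = k) →
      w'.1 = w.1 ∘ π → w' ≠ w → f w' = 0),
      (sig (gT R q n) o m • f : Lam R q n μ) w = f w := by
  induction m with
  | zero =>
    intro w _ f _
    rw [sig, one_smul]
  | succ m ih =>
    intro w hw f hf
    have hr := rho_supp w o m (by omega) (fun k l h1 h2 h3 => hw k l h1 h2 (by omega)) f
      (fun w' π h1 h2 h3 => hf w' π (fun k hk => h1 k (by omega)) h2 h3) m le_rfl
    rw [sig, mul_smul]
    have hg : ∀ (w' : Wd n μ) (π : Equiv.Perm ℕ), (∀ k, (k < o ∨ o + m ≤ k) → π k = k) →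
        w'.1 = w.1 ∘ π → (rho (gT R q n) o m • f : Lam R q n μ) w' = f w' := by
      intro w' π h1 h2
      exact hr w' π (fun k hk => h1 k (by omega)) h2 (h1 _ (Or.inr le_rfl))
    rw [ih (by omega) w (fun k l h1 h2 h3 => hw k l h1 h2 (by omega))]
    · exact hg w 1 (fun _ _ => rfl) rfl
    · intro w' π h1 h2 h3
      rw [hg w' π h1 h2]
      exact hf w' π (fun k hk => h1 k (by omega)) h2 h3

/-- `π` preserves the blocks `r < N` and fixes the rest -/
def BP (ν : ℕ → ℕ) (N : ℕ) (π : Equiv.Perm ℕ) : Prop :=
  (∀ k, ps ν N ≤ k → π k = k) ∧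
    ∀ r, r < N → ∀ k, ps ν r ≤ k → k < ps ν (r + 1) → ps ν r ≤ π k ∧ π k < ps ν (r + 1)

theorem block_cases (ν : ℕ → ℕ) (N k : ℕ) (hk : k < ps ν N) :
    ∃ r, r < N ∧ ps ν r ≤ k ∧ k < ps ν (r + 1) := by
  induction N with
  | zero => simp [ps] at hk
  | succ N ih =>
    by_cases h : k < ps ν N
    · obtain ⟨r, h1, h2⟩ := ih h
      exact ⟨r, by omega, h2⟩
    · exact ⟨N, by omega, by omega, hk⟩

theorem Xp_supp (ν : ℕ → ℕ) (N : ℕ) (hn : ps ν N ≤ n) : ∀ (w : Wd n μ)
    (_ : ∀ r, r < N → ∀ k l, ps ν r ≤ k → k < l → l < ps ν (r + 1) → w.1 k < w.1 l)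
    (f : Lam R q n μ)
    (_ : ∀ (w' : Wd n μ) (π : Equiv.Perm ℕ), BP ν N π → w'.1 = w.1 ∘ π → w' ≠ w → f w' = 0),
      (Xp (gT R q n) ν N • f : Lam R q n μ) w = f w := by
  induction N with
  | zero =>
    intro w _ f _
    rw [Xp, one_smul]
  | succ N ih =>
    intro w hw f hf
    have h3 : ps ν N ≤ ps ν (N + 1) := ps_mono ν (by omega)
    have hps := ps_succ ν N
    rw [Xp, mul_smul]
    have hg : ∀ (w' : Wd n μ) (π : Equiv.Perm ℕ), BP ν N π → w'.1 = w.1 ∘ π →
        (sig (gT R q n) (ps ν N) (ν N) • f : Lam R q n μ) w' = f w' := by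
      intro w' π hπ hw'
      have hsame : ∀ k, ps ν N ≤ k → w'.1 k = w.1 k := by
        intro k hk
        rw [hw']
        simp only [Function.comp]
        rw [hπ.1 k hk]
      apply sig_supp (ps ν N) (ν N) (by omega) w'
      · intro k l h1 h2 h4
        rw [hsame k h1, hsame l (by omega)]
        exact hw N (by omega) k l h1 h2 (by omega)
      · intro w'' ρ h1 h2 h4
        have hρ : ∀ k, ps ν N ≤ k → k < ps ν (N + 1) → ps ν N ≤ ρ k ∧ ρ k < ps ν (N + 1) := by
          intro k hk1 hk2
          by_contra hcon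
          have a1 : ρ k < ps ν N ∨ ps ν N + ν N ≤ ρ k := by omega
          have a2 := h1 (ρ k) a1
          have a3 := ρ.injective a2
          omega
        apply hf w'' (ρ.trans π)
        · constructor
          · intro k hk
            have : (ρ.trans π) k = π (ρ k) := rfl
            rw [this, h1 k (by omega), hπ.1 k (by omega)]
          · intro r hr k hk1 hk2
            have e : (ρ.trans π) k = π (ρ k) := rfl
            rw [e]
            rcases Nat.lt_or_ge r N with hrN | hrN
            · have a1 := ps_mono ν (show r + 1 ≤ N from hrN)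
              rw [h1 k (by omega)]
              exact hπ.2 r hrN k hk1 hk2
            · have : r = N := by omega
              subst this
              have a2 := hρ k hk1 hk2
              rw [hπ.1 (ρ k) a2.1]
              exact a2
        · rw [h2, hw']
          rfl
        · intro hcon
          apply h4
          apply Subtype.ext
          funext k
          by_cases hk : k < ps ν N ∨ ps ν N + ν N ≤ k
          · rw [h2]
            simp only [Function.comp]
            rw [h1 k hk]
          · rw [hsame k (by omega), hcon]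
    rw [ih (by omega) w (fun r hr => hw r (by omega))]
    · exact hg w 1 ⟨fun _ _ => rfl, fun r _ k h1 h2 => ⟨h1, h2⟩⟩ rfl
    · intro w' π hπ h2 h4
      rw [hg w' π hπ h2]
      apply hf w' π _ h2 h4
      refine ⟨fun k hk => hπ.1 k (by omega), ?_⟩
      intro r hr k hk1 hk2
      rcases Nat.lt_or_ge r N with hrN | hrN
      · exact hπ.2 r hrN k hk1 hk2
      · have : r = N := by omega
        subst this
        rw [hπ.1 k hk1]
        exact ⟨hk1, hk2⟩

/-- a permutation of an interval which is increasing is the identity -/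
theorem perm_incr (o L : ℕ) (π : Equiv.Perm ℕ) (h1 : ∀ k, o ≤ k → k < L → o ≤ π k ∧ π k < L)
    (h2 : ∀ k l, o ≤ k → k < l → l < L → π k < π l) : ∀ k, o ≤ k → k < L → π k = k := by
  have up : ∀ d, o + d < L → o + d ≤ π (o + d) := by
    intro d
    induction d with
    | zero => intro hd; exact (h1 o le_rfl (by omega)).1
    | succ d ih =>
      intro hd
      have a1 := ih (by omega)
      have a2 := h2 (o + d) (o + (d + 1)) (by omega) (by omega) hd
      omega
  have dn : ∀ d, ∀ k, o ≤ k → k + d + 1 = L → π k ≤ k := by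
    intro d
    induction d with
    | zero =>
      intro k hk hd
      have := (h1 k hk (by omega)).2
      omega
    | succ d ih =>
      intro k hk hd
      have a1 := ih (k + 1) (by omega) (by omega)
      have a2 := h2 k (k + 1) hk (by omega) (by omega)
      omega
  intro k hk1 hk2
  have a1 := up (k - o) (by omega)
  have a2 := dn (L - k - 1) k hk1 (by omega)
  have e : o + (k - o) = k := by omega
  rw [e] at a1
  omega

theorem sameBlock_of (ν : ℕ → ℕ) {r k l : ℕ} (h1 : ps ν r ≤ k) (h2 : l < ps ν (r + 1)) :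
    SameBlock ν k l := by
  intro r' hr'
  rcases Nat.lt_or_ge r r' with h | h
  · have := ps_mono ν (show r + 1 ≤ r' from h)
    omega
  · have := ps_mono ν h
    omega

end supp

end SYM

open SYM in
theorem sym : S_SYM := by
  intro R _ q n ν hν
  obtain ⟨N, hN1, hN2⟩ := hν
  refine ⟨Xp (gT R q n) ν N, ?_, ?_, ?_, ?_, ?_⟩
  · intro j hj hY
    exact Xp_left gT_rel hN2.le j (by omega) hY
  · intro j hj hY
    exact Xp_right gT_rel hN2.le j (by omega) hY
  · intro V _ _ _ _ v hv N' hN'
    rw [Xp_eig v ν N hN2.le hv]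
    congr 1
    have key : ∀ a b : ℕ, a ≤ b → (∀ i, a ≤ i → ν i = 0) →
        ∏ r ∈ Finset.range b, qfac q (ν r) = ∏ r ∈ Finset.range a, qfac q (ν r) := by
      intro a b hab ha
      symm
      apply Finset.prod_subset
      · intro x hx
        rw [Finset.mem_range] at hx ⊢
        omega
      · intro x _ hx
        rw [Finset.mem_range, not_lt] at hx
        rw [ha x hx]
        simp [qfac]
    rcases le_total N N' with h | h
    · exact (key N N' h hN1).symm
    · exact key N' N h hN'
  · exact Xp_adj ν N hN2.le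
  · intro μ f hf w hw
    apply Xp_supp ν N hN2.le w
    · intro r hr k l h1 h2 h3
      have := ps_mono ν (show r + 1 ≤ N from hr)
      exact hw k l h2 (by omega) (sameBlock_of ν h1 h3)
    · intro w' π hπ h2 h4
      apply hf
      intro hcon
      apply h4
      apply Subtype.ext
      funext k
      by_cases hk : k < ps ν N
      · obtain ⟨r, hr, h5, h6⟩ := block_cases ν N k hk
        have h7 := ps_mono ν (show r + 1 ≤ N from hr)
        have hid : ∀ k, ps ν r ≤ k → k < ps ν (r + 1) → π k = k := by
          apply perm_incr (ps ν r) (ps ν (r + 1)) π (hπ.2 r hr)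
          intro a b ha hab hb
          by_contra hcon2
          have b1 := hcon a b hab (by omega) (sameBlock_of ν ha hb)
          rw [h2] at b1
          simp only [Function.comp] at b1
          rcases Nat.lt_or_ge (π b) (π a) with h8 | h8
          · have b2 := hw (π b) (π a) h8 (by
              have := (hπ.2 r hr a ha (by omega)).2
              omega) (sameBlock_of ν (hπ.2 r hr b (by omega) hb).1
                (hπ.2 r hr a ha (by omega)).2)
            omega
          · have : π a = π b := by omega
            have := π.injective this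
            omega
        rw [h2]
        simp only [Function.comp]
        rw [hid k h5 h6]
      · rw [h2]
        simp only [Function.comp]
        rw [hπ.1 k (by omega)]

end Pool.Agent.James
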