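import Pool.Agent.James.Stmts

/-!
Module JS_ZX (helper18): the generator of the Specht module is `X δ_row`, and its norm.
-/

set_option autoImplicit false

namespace Pool.Agent.James

theorem BlockIncr.blockDistinct {n : ℕ} {ν w : ℕ → ℕ} (h : BlockIncr n ν w) :
    BlockDistinct n ν w := fun k l hkl hl hs => (h k l hkl hl hs).ne

theorem zx (hI : S_INV) (hZ : S_ZINV) : S_ZX := by
  intro R _ q n μ X wr hq hq1 hX hwr huniq
  have hz1 : zvec R q μ wr = 1 := by
    unfold zvec
    rw [if_pos hwr.blockDistinct]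
  have hsupp : ∀ w : Wd n μ.conj, ¬ BlockIncr n μ.part w.1 → wd R q wr w = 0 := by
    intro w hw
    unfold wd
    rw [if_neg]
    rintro rfl
    exact hw hwr
  have hXwr : (X • wd R q wr) wr = 1 := by
    rw [hX.supp μ.conj (wd R q wr) hsupp wr hwr]
    unfold wd
    rw [if_pos rfl]
  have key : zvec R q μ = X • wd R q wr := by
    rw [← sub_eq_zero]
    refine (hI R q n μ.conj μ.part (zvec R q μ - X • wd R q wr) hq hq1 ?_).2 ?_
    · intro j hj hY
      rw [smul_sub, smul_sub, hZ R q n μ j hj hY, ← mul_smul, hX.left j hj hY, smul_assoc]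
    · intro w hw
      rw [huniq w hw]
      change zvec R q μ wr - (X • wd R q wr) wr = 0
      rw [hz1, hXwr, sub_self]
  refine ⟨key, ?_⟩
  have h1 : bform (zvec R q μ) (X • wd R q wr) = bform (X • zvec R q μ) (wd R q wr) :=
    (hX.adj μ.conj _ _).symm
  have h2 : X • zvec R q μ = (∏ r ∈ Finset.range n, qfac q (μ.part r)) • zvec R q μ :=
    hX.eig (Lam R q n μ.conj) (zvec R q μ) (hZ R q n μ) n μ.zero
  have h3 : bform (zvec R q μ) (wd R q wr) = q ^ inv n wr.1 := by
    unfold bform
    rw [Finset.sum_eq_single wr]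
    · rw [hz1]
      unfold wd
      rw [if_pos rfl, mul_one, mul_one]
    · intro w _ hw
      unfold wd
      rw [if_neg hw, mul_zero]
    · intro h
      exact absurd (Finset.mem_univ wr) h
  calc bform (zvec R q μ) (zvec R q μ) = bform (zvec R q μ) (X • wd R q wr) := by rw [← key]
    _ = q ^ inv n wr.1 * ∏ r ∈ Finset.range n, qfac q (μ.part r) := by
      rw [h1, h2, bform_smul_left, h3, mul_comm]

end Pool.Agent.James
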