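import Pool.Agent.James.CertOut
import Pool.Agent.James.Diam
import Pool.Agent.James.Srt
import Pool.Agent.James.Inv
import Pool.Agent.James.Sym
import Pool.Agent.James.JX
import Pool.Agent.James.ZX
import Pool.Agent.James.Subt
import Pool.Agent.James.Noniso
import Pool.Agent.James.Colw
import Pool.Agent.James.Good
import Pool.Agent.James.Ind
import Pool.Agent.James.Bas
import Pool.Agent.James.DimD
import Pool.Agent.James.Maxp
import Pool.Agent.James.Complete
import Pool.Agent.James.Semi2
import Pool.Agent.James.Span
import Pool.Agent.James.Count

/-!
All module statements, unconditionally.
-/

set_option autoImplicit false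

namespace Pool.Agent.James.All

theorem jx : S_JX := James.jx diam inv_lam srt

theorem zx : S_ZX := James.zx inv_lam zinv

theorem subt : S_SUBT := James.subt sym zx inv_lam zinv row jx

theorem noniso : S_NONISO := James.noniso sym zx inv_lam dom row zinv

theorem good : S_GOOD := James.good colw_facts

theorem ind : S_IND := James.ind diam zinv srt row colw_facts

theorem bas : S_BAS := James.bas diam srt zinv inv_lam belt noword span

theorem dimD : S_DIM := James.dimD ind bas bc

theorem maxp : S_MAX := James.maxp diam srt

theorem comp : S_COMP := James.comp maxp diam srt zinv inv_lam belt noword span ind bas subt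

theorem semi : S_SEMI := James.semi diam srt colw_facts good zinv inv_lam row sym zx

theorem certOut : S_CERTOUT := James.certOut semi bas good

end Pool.Agent.James.All
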