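import Pool.Agent.James.Comp
import Pool.Agent.James.All

/-!
Decomposition numbers and the final assembly (helper83).
-/

set_option autoImplicit false

namespace Pool.Agent.James

open Polynomial Matrix

/-! ### Composition multiplicities -/

section

open scoped Classical in
/-- The composition multiplicity `[M : X]`: the number of factors isomorphic to `X` in a composition
series of `M` (see `compMult_eq`: it does not matter which one; it is `0` by convention if there is
no composition series). -/
noncomputable def compMult (A : Type*) [Ring A] (M : Type*) [AddCommGroup M] [Module A M]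
    (X : Type*) [AddCommGroup X] [Module A X] : ℕ :=
  if h : ∃ s : CompositionSeries (Submodule A M), s.head = ⊥ ∧ s.last = ⊤ then
    mult h.choose X else 0

theorem compMult_eq {A : Type*} [Ring A] {M : Type*} [AddCommGroup M] [Module A M]
    (s : CompositionSeries (Submodule A M)) (hs : s.head = ⊥) (hs' : s.last = ⊤)
    (X : Type*) [AddCommGroup X] [Module A X] : compMult A M X = mult s X := by
  have h : ∃ s : CompositionSeries (Submodule A M), s.head = ⊥ ∧ s.last = ⊤ := ⟨s, hs, hs'⟩
  unfold compMult
  rw [dif_pos h]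
  exact mult_eq h.choose_spec.1 h.choose_spec.2 hs hs' X

end

/-- The decomposition number `[S^μ : D^ν]` of the Hecke algebra `H_n(F, q)`. -/
noncomputable def decNum (F : Type) [Field F] (q : F) {n : ℕ} (μ ν : Ptn n) : ℕ :=
  compMult (Hecke F q n) (Specht F q μ) (Dmod F q ν)

theorem exists_series (F : Type) [Field F] (q : F) {n : ℕ} (μ : Ptn n) :
    ∃ s : CompositionSeries (Submodule (Hecke F q n) (Specht F q μ)), s.head = ⊥ ∧ s.last = ⊤ := by
  have h := Complete.finite_specht (F := F) (q := q) μ
  have h1 : IsNoetherian (Hecke F q n) (Specht F q μ) := isNoetherian_of_tower F inferInstance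
  have h2 : IsArtinian (Hecke F q n) (Specht F q μ) := isArtinian_of_tower F inferInstance
  exact exists_compositionSeries_of_isNoetherian_isArtinian _ _

/-- The decomposition number may be computed from every composition series. -/
theorem decNum_eq {F : Type} [Field F] {q : F} {n : ℕ} (μ ν : Ptn n)
    (s : CompositionSeries (Submodule (Hecke F q n) (Specht F q μ))) (hs : s.head = ⊥)
    (hs' : s.last = ⊤) : decNum F q μ ν = mult s (Dmod F q ν) := compMult_eq s hs hs' _

/-- A nonzero multiplicity of `X` implies that `X` is nonzero. -/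
theorem nontrivial_of_mult {A : Type*} [Ring A] {M : Type*} [AddCommGroup M] [Module A M]
    (s : CompositionSeries (Submodule A M)) (X : Type*) [AddCommGroup X] [Module A X]
    (h : mult s X ≠ 0) : Nontrivial X := by
  unfold mult at h
  have h1 : Nonempty {i : Fin s.length // Nonempty (Factor s i ≃ₗ[A] X)} := by
    by_contra hcon
    rw [not_nonempty_iff] at hcon
    exact h Nat.card_of_isEmpty
  obtain ⟨⟨i, ⟨e⟩⟩⟩ := h1
  have := factor_simple s i
  have : Nontrivial (Factor s i) := IsSimpleModule.nontrivial A _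
  exact e.symm.toEquiv.nontrivial

theorem finite_factor {F : Type*} [Field F] {A : Type*} [Ring A] [Algebra F A] {M : Type*}
    [AddCommGroup M] [Module F M] [Module A M] [IsScalarTower F A M] [FiniteDimensional F M]
    (s : CompositionSeries (Submodule A M)) (i : Fin s.length) :
    FiniteDimensional F (Factor s i) := by
  have h2 : FiniteDimensional F (s i.succ) :=
    FiniteDimensional.finiteDimensional_submodule ((s i.succ).restrictScalars F)
  let f : (s i.succ) →ₗ[F] Factor s i :=
    (Submodule.mkQ (Submodule.comap (s i.succ).subtype (s i.castSucc))).restrictScalars F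
  apply Module.Finite.of_surjective f
  intro y
  obtain ⟨x, rfl⟩ := Submodule.Quotient.mk_surjective _ y
  exact ⟨x, rfl⟩

/-! ### Finitely many partitions -/

theorem part_le_self {n : ℕ} (μ : Ptn n) (i : ℕ) : μ.part i ≤ n := by
  by_cases hi : n ≤ i
  · rw [μ.zero i hi]
    exact Nat.zero_le _
  · conv_rhs => rw [← μ.sum]
    exact Finset.single_le_sum (f := μ.part) (fun _ _ => Nat.zero_le _)
      (Finset.mem_range.2 (not_le.1 hi))

instance finite_ptn (n : ℕ) : Finite (Ptn n) := by
  apply Finite.of_injective (β := Fin n → Fin (n + 1))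
    (fun μ i => ⟨μ.part i, Nat.lt_succ_of_le (part_le_self μ i)⟩)
  intro μ ν h
  apply Ptn.ext'
  intro i
  by_cases hi : n ≤ i
  · rw [μ.zero i hi, ν.zero i hi]
  · have := congrFun h ⟨i, not_le.1 hi⟩
    exact congrArg Fin.val this

/-! ### Parameters -/

theorem root_of_qchar {F : Type} [Field F] {q : F} (h : IsQChar 3 q) : q ^ 2 + q + 1 = 0 := by
  have h1 := h.2.1
  rw [Finset.sum_range_succ, Finset.sum_range_succ, Finset.sum_range_succ,
    Finset.sum_range_zero] at h1
  linear_combination h1

theorem ne_zero_of_root {F : Type} [Field F] {q : F} (h : q ^ 2 + q + 1 = 0) : q ≠ 0 := by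
  rintro rfl
  simp at h

theorem one_add_ne_of_root {F : Type} [Field F] {q : F} (h : q ^ 2 + q + 1 = 0) : 1 + q ≠ 0 := by
  intro h1
  have : q = -1 := by linear_combination h1
  rw [this] at h
  norm_num at h

/-- In characteristic `13` the elements of quantum characteristic `3` are `22 = 9` and
`-23 = 3`. -/
theorem eq_of_root {F : Type} [Field F] [CharP F 13] {q : F} (h : q ^ 2 + q + 1 = 0) :
    ∃ z : ℤ, (z = 22 ∨ z = -23) ∧ q = z := by
  have h13 : (13 : F) = 0 := by exact_mod_cast CharP.cast_eq_zero F 13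
  have h1 : (q - 22) * (q + 23) = 0 := by
    linear_combination h - 39 * h13
  rcases mul_eq_zero.1 h1 with h2 | h2
  · exact ⟨22, Or.inl rfl, by push_cast; linear_combination h2⟩
  · exact ⟨-23, Or.inr rfl, by push_cast; linear_combination h2⟩

/-! ### The strict inequality at `κ` -/

theorem rank_lt (hCERT : S_CERTOUT) {F : Type} [Field F] [CharP F 13] {q : F}
    (hq : q ^ 2 + q + 1 = 0) {C : Type} [Field C] [CharZero C] {ω : C} (hω : ω ^ 2 + ω + 1 = 0) :
    (spec (gram kappa) q).rank < (spec (gram kappa) ω).rank := by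
  obtain ⟨z, hz, rfl⟩ := eq_of_root hq
  obtain ⟨v, hv, hvv⟩ := hCERT z hz
  have hp : Fact (Nat.Prime 13) := ⟨by norm_num⟩
  have hz' : ((13 ^ 2 : ℕ) : ℤ) ∣ z ^ 2 + z + 1 := by
    rcases hz with rfl | rfl <;> norm_num
  have hsp : ∀ s t, (spec (gram kappa) (z : ZMod (13 ^ 2))) s t =
      (((gram kappa s t).eval z : ℤ) : ZMod (13 ^ 2)) := by
    intro s t
    have := Polynomial.aeval_algebraMap_apply (ZMod (13 ^ 2)) z (gram kappa s t)
    simpa [spec] using this
  have hsym : ∀ s t, gram kappa s t = gram kappa t s := fun s t => bform_comm _ _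
  have hcol : ∀ s, ((spec (gram kappa) (z : ZMod (13 ^ 2))) *ᵥ (fun t => (v t : ZMod (13 ^ 2)))) s =
      ((∑ t, (gram kappa s t).eval z * v t : ℤ) : ZMod (13 ^ 2)) := by
    intro s
    simp only [Matrix.mulVec, dotProduct]
    push_cast
    apply Finset.sum_congr rfl
    intro t _
    rw [hsp]
  apply rank_spec_lt (gram kappa) 13 z hz' ω hω (fun t => (v t : ZMod (13 ^ 2)))
    (fun t => (v t : ZMod (13 ^ 2)))
  · intro s
    rw [hcol]
    obtain ⟨c, hc⟩ := hv s
    refine ⟨(c : ZMod (13 ^ 2)), ?_⟩
    rw [hc]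
    push_cast
    ring
  · intro t
    have h1 : ((fun t => (v t : ZMod (13 ^ 2))) ᵥ* (spec (gram kappa) (z : ZMod (13 ^ 2)))) t =
        ((spec (gram kappa) (z : ZMod (13 ^ 2))) *ᵥ (fun t => (v t : ZMod (13 ^ 2)))) t := by
      simp only [Matrix.vecMul, Matrix.mulVec, dotProduct]
      apply Finset.sum_congr rfl
      intro s _
      rw [hsp, hsp, hsym s t]
      ring
    rw [h1, hcol]
    obtain ⟨c, hc⟩ := hv t
    refine ⟨(c : ZMod (13 ^ 2)), ?_⟩
    rw [hc]
    push_cast
    ring
  · intro h0
    apply hvv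
    have h1 : (((∑ s, ∑ t, v s * ((gram kappa s t).eval z * v t) : ℤ)) : ZMod (13 ^ 2)) = 0 := by
      rw [← h0]
      simp only [dotProduct]
      push_cast
      apply Finset.sum_congr rfl
      intro s _
      have := hcol s
      push_cast at this
      rw [this, Finset.mul_sum]
    rw [ZMod.intCast_zmod_eq_zero_iff_dvd] at h1
    exact_mod_cast h1

/-! ### The main theorem -/

/-- All inputs. -/
theorem main (hNONISO : S_NONISO) (hSUBT : S_SUBT) (hDIM : S_DIM) (hIND : S_IND) (hBAS : S_BAS)
    (hCOMP : S_COMP) (hCERT : S_CERTOUT)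
    (F : Type) [Field F] [CharP F 13] (q : F) (hq : q ^ 2 + q + 1 = 0)
    (C : Type) [Field C] [CharZero C] (ω : C) (hω : ω ^ 2 + ω + 1 = 0) :
    ∃ μ : Ptn 27, decNum F q kappa μ ≠ decNum C ω kappa μ ∧
      (Nontrivial (Dmod F q μ) ∨ Nontrivial (Dmod C ω μ)) := by
  classical
  have hq0 := ne_zero_of_root hq
  have hq1 := one_add_ne_of_root hq
  have hω0 := ne_zero_of_root hω
  have hω1 := one_add_ne_of_root hω
  obtain ⟨s₁, h₁, h₁'⟩ := exists_series F q kappa
  obtain ⟨s₂, h₂, h₂'⟩ := exists_series C ω kappa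
  have hfin1 := Complete.finite_specht (F := F) (q := q) kappa
  have hfin2 := Complete.finite_specht (F := C) (q := ω) kappa
  have : Fintype (Ptn 27) := Fintype.ofFinite _
  have hlt : Module.finrank F (Dmod F q kappa) < Module.finrank C (Dmod C ω kappa) := by
    rw [hDIM F q 27 kappa hq0 hq1, hDIM C ω 27 kappa hω0 hω1]
    exact rank_lt hCERT hq hω
  have hnt : Nontrivial (Dmod C ω kappa) := by
    have h1 : 0 < Module.finrank C (Dmod C ω kappa) := by omega
    by_contra hcon
    rw [not_nontrivial_iff_subsingleton] at hcon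
    rw [Module.finrank_zero_of_subsingleton] at h1
    exact lt_irrefl _ h1
  have hsimple : IsSimpleModule (Hecke C ω 27) (Dmod C ω kappa) :=
    (hSUBT C ω 27 kappa hω0 hω1).2.1 hnt
  obtain ⟨μ, hμ⟩ := exists_mult_ne (F₁ := F) (F₂ := C) (fun μ => Dmod F q μ)
    (fun μ => Dmod C ω μ) s₁ h₁ h₁' s₂ h₂ h₂'
    (by rw [Complete.finrank_specht hIND hBAS kappa hω0 hω1,
      Complete.finrank_specht hIND hBAS kappa hq0 hq1])
    (by
      intro i
      have h1 := factor_simple s₁ i
      have h3 : FiniteDimensional F (Factor s₁ i) := finite_factor s₁ i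
      exact hCOMP F q 27 (Factor s₁ i) hq0 hq1)
    (fun μ ν hμ hμν => hNONISO C ω 27 μ ν hω0 hω1 hμ hμν)
    (fun μ => by
      rw [hDIM F q 27 μ hq0 hq1, hDIM C ω 27 μ hω0 hω1]
      exact rank_spec_le _ q hq ω hω)
    kappa hlt
    (mult_pos h₂ h₂' (Submodule.mkQ (spechtRad C ω kappa)) (Submodule.mkQ_surjective _))
  refine ⟨μ, ?_, ?_⟩
  · rw [decNum_eq kappa μ s₁ h₁ h₁', decNum_eq kappa μ s₂ h₂ h₂']
    exact hμ
  · by_cases h0 : mult s₁ (Dmod F q μ) = 0
    · right
      apply nontrivial_of_mult s₂
      intro h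
      exact hμ (h0.trans h.symm)
    · left
      exact nontrivial_of_mult s₁ _ h0

/-- A partition is `e`-restricted if all differences of consecutive parts are less than `e`. -/
def IsRestricted {n : ℕ} (e : ℕ) (μ : Ptn n) : Prop := ∀ i, μ.part i < μ.part (i + 1) + e

end Pool.Agent.James
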