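import Pool.Agent.James.Stmts

/-!
BC: base change of the Gram matrix.
-/

set_option autoImplicit false

namespace Pool.Agent.James

open Polynomial

namespace BC

variable {A R : Type} [CommRing A] [CommRing R] (φ : A →+* R)

/-- `f'` is the image of `f` under `φ`. -/
def Im {n : ℕ} {ν : ℕ → ℕ} {x : A} {q : R} (f : Lam A x n ν) (f' : Lam R q n ν) : Prop :=
  ∀ w : Wd n ν, φ ((show Wd n ν → A from f) w) = (show Wd n ν → R from f') w

variable {φ}

theorem Im.gT {n : ℕ} {ν : ℕ → ℕ} {x : A} {q : R} (hx : φ x = q) {f : Lam A x n ν}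
    {f' : Lam R q n ν} (h : Im φ f f') {j : ℕ} (hj : j + 1 < n) :
    Im φ (gT A x n j • f) (gT R q n j • f') := by
  intro w
  rw [gT_smul hj, gT_smul hj]
  have h1 := h w
  have h2 := h (swW j w)
  change φ (lT x j (show Wd n ν → A from f) w) = lT q j (show Wd n ν → R from f') w
  rcases lt_trichotomy (w.1 j) (w.1 (j + 1)) with h3 | h3 | h3
  · rw [lT_lt h3, lT_lt h3, map_mul, hx, h2]
  · rw [lT_eq h3, lT_eq h3, map_neg, h1]
  · rw [lT_gt h3, lT_gt h3, map_add, map_mul, map_sub, map_one, hx, h1, h2]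

theorem Im.famAux {n : ℕ} {ν : ℕ → ℕ} {x : A} {q : R} (hx : φ x = q) {u : Lam A x n ν}
    {u' : Lam R q n ν} (h : Im φ u u') (m : ℕ) : ∀ w : ℕ → ℕ,
    Im φ (famAux x n u m w) (famAux q n u' m w) := by
  induction m with
  | zero =>
    intro w
    exact h
  | succ m ih =>
    intro w
    unfold James.famAux
    by_cases hd : ∃ j, j + 1 < n ∧ w (j + 1) < w j
    · rw [dif_pos hd, dif_pos hd]
      exact Im.gT hx (ih _) (Nat.find_spec hd).1
    · rw [dif_neg hd, dif_neg hd]
      exact h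

theorem Im.bform {n : ℕ} {ν : ℕ → ℕ} {x : A} {q : R} (hx : φ x = q) {f g : Lam A x n ν}
    {f' g' : Lam R q n ν} (hf : Im φ f f') (hg : Im φ g g') :
    φ (bform f g) = bform f' g' := by
  unfold James.bform
  rw [map_sum]
  apply Finset.sum_congr rfl
  intro w _
  rw [map_mul, map_mul, map_pow, hx]
  have h1 := hf w
  have h2 := hg w
  exact congrArg₂ (fun a b => q ^ inv n w.1 * a * b) h1 h2

theorem Im.zvec {n : ℕ} (μ : Ptn n) (x : A) (q : R) : Im φ (zvec A x μ) (zvec R q μ) := by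
  intro w
  unfold James.zvec
  by_cases h : BlockDistinct n μ.part w.1
  · simp only [if_pos h, map_one]
  · simp only [if_neg h, map_zero]

end BC

theorem bc : S_BC := by
  intro R _ q n μ s t
  have hx : (aeval q : ℤ[X] →ₐ[ℤ] R).toRingHom X = q := aeval_X q
  have h : ∀ t : Lat μ, BC.Im (aeval q : ℤ[X] →ₐ[ℤ] R).toRingHom (bvec ℤ[X] X μ t)
      (bvec R q μ t) := fun t => BC.Im.famAux hx (BC.Im.zvec μ X q) _ _
  exact BC.Im.bform hx (h s) (h t)

end Pool.Agent.James
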