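import Pool.Agent.James.CertMain

/-!
The certificate theorem: over `ℤ_(13)`, `q = 22` or `q = -23`, a vector `v` of the Specht lattice
of shape `(6,4,3,3,3,2,2,2,1,1)` with `⟨v, S⟩ ⊆ 13 ℤ_(13)` and `⟨v, v⟩ ∉ 169 ℤ_(13)`.
-/

set_option autoImplicit false

namespace Pool.Agent.James.Cert

open Pool.Agent.JamesSemi (cA cB GoodSet sT ext0 IsWt sF opT sL swC)

theorem pairing {q : ℚ} {C : Set (ℕ → ℤ)} [Fintype C] (j : ℕ) (ξ f : C → ℚ) :
    ∑ α : C, (cA q (α.1 j) (α.1 (j + 1)) * ξ α + cG q true (α.1 j) (α.1 (j + 1)) *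
      ext0 C ξ (JamesSemi.sw j α.1)) * f α = ∑ α : C, ξ α * sT q C j f α := by
  have h1 : ∀ α : C, sT q C j f α = cA q (α.1 j) (α.1 (j + 1)) * f α +
      cB q (α.1 j) (α.1 (j + 1)) * ext0 C f (JamesSemi.sw j α.1) := by
    intro α
    rw [JamesSemi.sT_apply]
    unfold opT
    rw [JamesSemi.ext0_mem]
  have h2 : ∑ α : C, cB q (α.1 (j + 1)) (α.1 j) * ext0 C ξ (JamesSemi.sw j α.1) * f α =
      ∑ α : C, ξ α * (cB q (α.1 j) (α.1 (j + 1)) * ext0 C f (JamesSemi.sw j α.1)) := by
    have hinv : Function.Involutive (swC C j) := JamesSemi.swC_swC C j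
    rw [← Equiv.sum_comp hinv.toPerm]
    apply Finset.sum_congr rfl
    intro α _
    change cB q ((swC C j α).1 (j + 1)) ((swC C j α).1 j) *
      ext0 C ξ (JamesSemi.sw j (swC C j α).1) * f (swC C j α) = _
    by_cases h : JamesSemi.sw j α.1 ∈ C
    · rw [JamesSemi.swC_pos h]
      simp only
      rw [JamesSemi.sw_left, JamesSemi.sw_right, JamesSemi.sw_sw, JamesSemi.ext0_mem,
        JamesSemi.ext0_mem f ⟨JamesSemi.sw j α.1, h⟩]
      ring
    · rw [JamesSemi.swC_neg h]
      unfold ext0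
      rw [dif_neg h, dif_neg h]
      ring
  have h3 : ∑ α : C, (cA q (α.1 j) (α.1 (j + 1)) * ξ α + cG q true (α.1 j) (α.1 (j + 1)) *
      ext0 C ξ (JamesSemi.sw j α.1)) * f α =
      ∑ α : C, cA q (α.1 j) (α.1 (j + 1)) * ξ α * f α +
      ∑ α : C, cB q (α.1 (j + 1)) (α.1 j) * ext0 C ξ (JamesSemi.sw j α.1) * f α := by
    rw [← Finset.sum_add_distrib]
    apply Finset.sum_congr rfl
    intro α _
    unfold cG
    simp only [if_true]
    ring
  rw [h3, h2, ← Finset.sum_add_distrib]
  apply Finset.sum_congr rfl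
  intro α _
  rw [h1]
  ring

theorem den_zero {L : List (ℕ × (ℤ × ℕ))} (h : ∀ x ∈ L, x.2.1 = 0) (α : ℕ → ℤ) :
    den L α = 0 := by
  induction L with
  | nil => rfl
  | cons x L ih =>
    rw [den_cons, ih (fun y hy => h y (List.mem_cons_of_mem _ hy)), add_zero]
    split_ifs
    · unfold toQ
      rw [h x List.mem_cons_self]
      simp
    · rfl

theorem look_sound {M : List (ℕ × (ℤ × ℕ))} (hM : ∀ x ∈ M, x.1 < 16 ^ 27) {k : ℕ}
    (hk : k < 16 ^ 27) : toQ (look k M) = den M (dec k) := by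
  induction M with
  | nil =>
    unfold look toQ
    rw [den_nil]
    simp
  | cons x M ih =>
    have ih' := ih (fun y hy => hM y (List.mem_cons_of_mem _ hy))
    unfold look
    rw [den_cons]
    split_ifs with h1 h2 h2
    · rw [toQ_qadd, ih']
    · exact absurd (congrArg dec h1).symm h2
    · exact absurd (dec_inj (hM x List.mem_cons_self) hk h2).symm h1
    · rw [ih', zero_add]

theorem dotp_sound {C : Set (ℕ → ℤ)} [Fintype C] {M L : List (ℕ × (ℤ × ℕ))}
    (hM : ∀ x ∈ M, x.1 < 16 ^ 27) (hL : ∀ x ∈ L, x.1 < 16 ^ 27) (hok : okL C L) :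
    toQ (dotp M L) = ∑ α : C, den L α.1 * den M α.1 := by
  classical
  induction L with
  | nil =>
    unfold dotp toQ
    simp [den_nil]
  | cons x L ih =>
    have ih' := ih (fun y hy => hL y (List.mem_cons_of_mem _ hy))
      (fun y hy => hok y (List.mem_cons_of_mem _ hy))
    unfold dotp
    rw [toQ_qadd, toQ_qmul, ih', look_sound hM (hL x List.mem_cons_self)]
    have hx := hok x List.mem_cons_self
    have h1 : ∑ α : C, (if dec x.1 = α.1 then toQ x.2 else 0) * den M α.1 =
        toQ x.2 * den M (dec x.1) := by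
      rw [Finset.sum_eq_single (⟨dec x.1, hx⟩ : C)]
      · rw [if_pos rfl]
      · intro b _ hb
        rw [if_neg, zero_mul]
        intro h
        exact hb (Subtype.ext h.symm)
      · intro h
        exact absurd (Finset.mem_univ _) h
    rw [← h1, ← Finset.sum_add_distrib]
    apply Finset.sum_congr rfl
    intro α _
    rw [den_cons, add_mul]

theorem okW_spec {W : List (List ℕ)} (h : okW W = true) : ∀ w ∈ W, ∀ c ∈ w,
    c % 100 < 26 ∧ c < 300 := by
  intro w hw c hc
  unfold okW at h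
  rw [List.all_eq_true] at h
  have h1 := h w hw
  rw [List.all_eq_true] at h1
  have h2 := h1 c hc
  simpa using h2

/-- The main theorem for a parameter `q`. -/
theorem cert_q {q : ℤ} (hq : Qok q) (hgen : JamesSemi.Gen (q : ℚ) 27) {c0 kap : ℤ × ℕ}
    {cs : List (ℤ × ℕ)} (hD : chkD q c0 kap cs = true) (hN : chkN q c0 = true)
    (hcs : okC cs = true) (C : Set (ℕ → ℤ)) [Fintype C] (hC : GoodSet 27 C)
    (h00 : ∀ α ∈ C, α 0 = 0) (γ : C → ℚ) (hγ : IsWt (q : ℚ) 27 C γ) (αr αc : C)
    (hr : αr.1 = dec rowK) (hc : αc.1 = dec colK) (u : ℚ) (hu : IsU u)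
    (hγr : γ αr = u * toQ c0) (S : Set (C → ℚ)) (hzero : (fun _ => 0) ∈ S)
    (hadd : ∀ f ∈ S, ∀ g ∈ S, (fun α => f α + g α) ∈ S)
    (hsmul : ∀ c, IsO c → ∀ f ∈ S, (fun α => c * f α) ∈ S)
    (hT : ∀ j, j + 1 < 27 → ∀ f ∈ S, sT (q : ℚ) C j f ∈ S)
    (he : dl αr ∈ S) (hE : ∀ f ∈ S, IsO (f αc * toQ kap)) :
    ∃ v ∈ S, (∀ w ∈ S, ∃ y, IsO y ∧ sF γ v w = 13 * y) ∧ ¬ ∃ y, IsO y ∧ sF γ v v = 169 * y := by
  classical
  have hq0 : (q : ℚ) ≠ 0 := hq.unit.2.2
  -- closure of S
  have hL : ∀ k, k < 27 → ∀ f ∈ S, (fun α : C => (q : ℚ) ^ (α.1 k) * f α) ∈ S := by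
    intro k
    induction k with
    | zero =>
      intro _ f hf
      have e : (fun α : C => (q : ℚ) ^ (α.1 0) * f α) = f := by
        funext α
        rw [h00 α.1 α.2, zpow_zero, one_mul]
      rw [e]
      exact hf
    | succ k ih =>
      intro hk f hf
      have h1 := hsmul _ hq.unit.2.1 _ (hT k hk _ (ih (by omega) _ (hT k hk f hf)))
      have h2 := JamesSemi.sT_sL_sT hgen hC hk
      have e : (fun α : C => (q : ℚ) ^ (α.1 (k + 1)) * f α) = (fun α => ((q : ℚ))⁻¹ *
          (sT (q : ℚ) C k (fun α : C => (q : ℚ) ^ (α.1 k) * sT (q : ℚ) C k f α)) α) := by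
        funext α
        have h3 := congrFun (LinearMap.congr_fun h2 f) α
        simp only [Module.End.mul_apply, LinearMap.smul_apply, Pi.smul_apply, smul_eq_mul] at h3
        have h4 : sL (q : ℚ) C k (sT (q : ℚ) C k f) =
            (fun α : C => (q : ℚ) ^ (α.1 k) * sT (q : ℚ) C k f α) := by
          funext β
          rfl
        rw [h4] at h3
        rw [h3, JamesSemi.sL_apply]
        field_simp
      rw [e]
      exact h1
  have hS : Cl (q : ℚ) C false S :=
    { zero := hzero
      add := hadd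
      smul := hsmul
      op := by
        intro j hj f hf
        have h1 := hT j hj f hf
        have e : (fun α : C => cA (q : ℚ) (α.1 j) (α.1 (j + 1)) * f α +
            cG (q : ℚ) false (α.1 j) (α.1 (j + 1)) * ext0 C f (JamesSemi.sw j α.1)) =
            sT (q : ℚ) C j f := by
          funext α
          rw [JamesSemi.sT_apply]
          unfold opT cG
          rw [JamesSemi.ext0_mem]
          rfl
        rw [e]
        exact h1
      mulL := hL }
  let S' : Set (C → ℚ) := {ξ | ∀ f ∈ S, IsO (∑ α, ξ α * f α)}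
  have hS' : Cl (q : ℚ) C true S' :=
    { zero := by
        intro f _
        simp only [zero_mul, Finset.sum_const_zero]
        exact IsO.zero
      add := by
        intro ξ hξ η hη f hf
        have e : ∑ α, (ξ α + η α) * f α = ∑ α, ξ α * f α + ∑ α, η α * f α := by
          rw [← Finset.sum_add_distrib]
          apply Finset.sum_congr rfl
          intro α _
          ring
        rw [e]
        exact (hξ f hf).add (hη f hf)
      smul := by
        intro c hc ξ hξ f hf
        have e : ∑ α, c * ξ α * f α = c * ∑ α, ξ α * f α := by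
          rw [Finset.mul_sum]
          apply Finset.sum_congr rfl
          intro α _
          ring
        rw [e]
        exact hc.mul (hξ f hf)
      op := by
        intro j hj ξ hξ f hf
        rw [pairing j ξ f]
        exact hξ _ (hT j hj f hf)
      mulL := by
        intro k hk ξ hξ f hf
        have e : ∑ α : C, (q : ℚ) ^ (α.1 k) * ξ α * f α =
            ∑ α : C, ξ α * ((q : ℚ) ^ (α.1 k) * f α) := by
          apply Finset.sum_congr rfl
          intro α _
          ring
        rw [e]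
        exact hξ _ (hL k hk f hf) }
  -- starting vectors
  have hL0 : okL C [(rowK, ((1, 1) : ℤ × ℕ))] := by
    intro x hx
    rw [List.mem_singleton] at hx
    rw [hx]
    change dec rowK ∈ C
    rw [← hr]
    exact αr.2
  have hM0 : okL C [(rowK, c0)] := by
    intro x hx
    rw [List.mem_singleton] at hx
    rw [hx]
    change dec rowK ∈ C
    rw [← hr]
    exact αr.2
  have hK0 : okL C [(colK, kap)] := by
    intro x hx
    rw [List.mem_singleton] at hx
    rw [hx]
    change dec colK ∈ C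
    rw [← hc]
    exact αc.2
  have hfn0 : fn C [(rowK, ((1, 1) : ℤ × ℕ))] ∈ S := by
    have e : fn C [(rowK, ((1, 1) : ℤ × ℕ))] = dl αr := by
      funext α
      unfold fn dl
      rw [den_cons, den_nil, add_zero]
      have e1 : toQ ((1, 1) : ℤ × ℕ) = 1 := by
        unfold toQ
        norm_num
      simp only
      rw [e1, ← hr]
      by_cases h : α = αr
      · rw [h, if_pos rfl, if_pos rfl]
      · rw [if_neg h, if_neg]
        intro h1
        exact h (Subtype.ext h1.symm)
    rw [e]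
    exact he
  have hfnK : fn C [(colK, kap)] ∈ S' := by
    intro f hf
    have e : ∑ α, fn C [(colK, kap)] α * f α = f αc * toQ kap := by
      rw [Finset.sum_eq_single αc]
      · unfold fn
        rw [den_cons, den_nil, add_zero, hc, if_pos rfl]
        ring
      · intro b _ hb
        unfold fn
        rw [den_cons, den_nil, add_zero, if_neg, zero_mul]
        intro h
        exact hb (Subtype.ext (h.symm.trans hc.symm))
      · intro h
        exact absurd (Finset.mem_univ _) h
    rw [e]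
    exact hE f hf
  -- the checks
  have hD' := hD
  unfold chkD at hD'
  rw [Bool.and_eq_true, List.all_eq_true] at hD'
  have hN' := hN
  unfold chkN at hN'
  simp only [Bool.and_eq_true, bne_iff_ne, ne_eq, List.all_eq_true, decide_eq_true_eq] at hN'
  obtain ⟨⟨⟨⟨hn1, hn2⟩, hn3⟩, hn4⟩, hn5⟩ := hN'
  have hcodesV : ∀ x ∈ wsV, ¬ 13 ∣ x.1.2 ∧ ∀ c ∈ x.2, c % 100 < 26 ∧ c < 300 := by
    intro x hx
    refine ⟨?_, okW_spec okW_V x.2 (List.mem_map.2 ⟨x, hx, rfl⟩)⟩
    have : wsV.all (fun x => x.1.2 == 1) = true := by decide +kernel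
    rw [List.all_eq_true] at this
    have h1 := this x hx
    rw [beq_iff_eq] at h1
    rw [h1]
    norm_num
  have hcodesD : ∀ x ∈ cs.zip wsD, ¬ 13 ∣ x.1.2 ∧ ∀ c ∈ x.2, c % 100 < 26 ∧ c < 300 := by
    intro x hx
    obtain ⟨h1, h2⟩ := List.of_mem_zip (a := x.1) (b := x.2) hx
    refine ⟨?_, okW_spec okW_D x.2 h2⟩
    unfold okC at hcs
    rw [List.all_eq_true] at hcs
    have h3 := hcs x.1 h1
    rw [bne_iff_ne] at h3
    intro h4
    exact h3 (Nat.mod_eq_zero_of_dvd h4)
  obtain ⟨-, hV⟩ := mem_comb hq hC hS hL0 hfn0 wsV hcodesV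
  obtain ⟨-, hDm⟩ := mem_comb hq hC hS' hK0 hfnK (cs.zip wsD) hcodesD
  have hV' : fn C (vV q).1 ∈ S := hV hn3
  have hDm' : fn C (vD q kap cs).1 ∈ S' := hDm hD'.2
  -- weight relation
  have hγ' : IsWt (q : ℚ) 27 C (fun α => u⁻¹ * γ α) := by
    constructor
    intro α j hj h
    have := hγ.bal α j hj h
    linear_combination u⁻¹ * this
  have hWR0 : WR (fun α => u⁻¹ * γ α) [(rowK, ((1, 1) : ℤ × ℕ))] [(rowK, c0)] := by
    intro α
    rw [den_cons, den_cons, den_nil]
    simp only
    have e1 : toQ ((1, 1) : ℤ × ℕ) = 1 := by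
      unfold toQ
      norm_num
    by_cases h : dec rowK = α.1
    · have h1 : α = αr := Subtype.ext (h.symm.trans hr.symm)
      have hu0 := hu.2.2
      rw [if_pos h, if_pos h, e1, h1, hγr]
      field_simp
      ring
    · rw [if_neg h, if_neg h]
      ring
  obtain ⟨hWR, hokX⟩ := WR.comb hq0 hC hγ' hL0 hM0 hWR0 wsV (fun x hx => (hcodesV x hx).2)
  have hX : ∀ α : C, den (vX q c0).1 α.1 = u⁻¹ * γ α * fn C (vV q).1 α := hWR
  have hXD : ∀ α : ℕ → ℤ, den (vX q c0).1 α = 13 * den (vD q kap cs).1 α := by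
    intro α
    have h1 := den_zero (L := merge ((vX q c0).1 ++ scal (-13, 1) (vD q kap cs).1)) (by
      intro x hx
      have := hD'.1 x hx
      rw [beq_iff_eq] at this
      exact this) α
    rw [den_merge, den_append, den_scal] at h1
    have e1 : toQ ((-13, 1) : ℤ × ℕ) = -13 := by
      unfold toQ
      norm_num
    rw [e1] at h1
    linear_combination h1
  have hu0 := hu.2.2
  have hsF : ∀ w : C → ℚ, sF γ (fn C (vV q).1) w = u * ∑ α : C, den (vX q c0).1 α.1 * w α := by
    intro w
    unfold sF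
    rw [Finset.mul_sum]
    apply Finset.sum_congr rfl
    intro α _
    rw [hX α]
    field_simp
  refine ⟨fn C (vV q).1, hV', ?_, ?_⟩
  · intro w hw
    refine ⟨u * ∑ α : C, fn C (vD q kap cs).1 α * w α, hu.1.mul (hDm' w hw), ?_⟩
    rw [hsF, Finset.mul_sum, Finset.mul_sum, Finset.mul_sum]
    apply Finset.sum_congr rfl
    intro α _
    rw [hXD]
    unfold fn
    ring
  · rintro ⟨y, hy, h1⟩
    have h2 : ∑ α : C, den (merge (vX q c0).1) α.1 * den (merge (vV q).1) α.1 =
        ∑ α : C, den (vX q c0).1 α.1 * fn C (vV q).1 α := by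
      apply Finset.sum_congr rfl
      intro α _
      rw [den_merge, den_merge]
      rfl
    have h3 := dotp_sound (C := C) (M := merge (vV q).1) (L := merge (vX q c0).1)
      (fun x hx => hn4 x hx) (fun x hx => hn5 x hx) (okL_merge hokX)
    rw [h2] at h3
    rw [hsF, ← h3] at h1
    obtain ⟨a, b, hb, hab⟩ := hu.2.1.mul hy
    have hb0 := not_dvd_ne hb
    set x := dotp (merge (vV q).1) (merge (vX q c0).1) with hx
    have hx2 : (x.2 : ℚ) ≠ 0 := by exact_mod_cast hn2
    have h4 : toQ x = 169 * (u⁻¹ * y) := by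
      field_simp
      linear_combination h1
    have h5 : (x.1 : ℚ) * b = 169 * a * x.2 := by
      unfold toQ at h4
      rw [div_eq_iff hx2] at h4
      rw [h4, ← hab]
      ring
    have h6 : x.1 * (b : ℤ) = 169 * (a * x.2) := by
      have : ((x.1 * (b : ℤ) : ℤ) : ℚ) = ((169 * (a * x.2) : ℤ) : ℚ) := by
        push_cast
        rw [h5]
        ring
      exact_mod_cast this
    have h7 : (169 : ℤ) ∣ x.1 * b := ⟨_, h6⟩
    have hcop : IsCoprime (169 : ℤ) b := by
      have : Nat.Coprime 13 b := (Nat.Prime.coprime_iff_not_dvd (by norm_num)).2 hb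
      have h8 : Nat.Coprime (13 ^ 2) b := Nat.Coprime.pow_left 2 this
      rw [Int.isCoprime_iff_gcd_eq_one]
      exact_mod_cast h8
    have h9 : (169 : ℤ) ∣ x.1 := hcop.dvd_of_dvd_mul_right h7
    exact hn1 (Int.emod_eq_zero_of_dvd h9)

end Pool.Agent.James.Cert
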