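import Pool.Agent.James.CertData

/-!
Evaluator for the certificate: sparse vectors `List (key × value)`, keys encode content sequences
(digits in base 16, shifted by 9), values are fractions `(numerator, denominator)`.
-/

set_option autoImplicit false

namespace Pool.Agent.James.Cert

/-- Reduced product. -/
def qmul (x y : ℤ × ℕ) : ℤ × ℕ :=
  let n := x.1 * y.1
  let d := x.2 * y.2
  let g := Nat.gcd n.natAbs d
  (n / (g : ℤ), d / g)

/-- Reduced sum. -/
def qadd (x y : ℤ × ℕ) : ℤ × ℕ :=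
  if x.2 = 0 then y else if y.2 = 0 then x else
  let n := x.1 * y.2 + y.1 * x.2
  let d := x.2 * y.2
  let g := Nat.gcd n.natAbs d
  (n / (g : ℤ), d / g)

/-- A fraction with integer denominator. -/
def mkQ (n d : ℤ) : ℤ × ℕ := if d < 0 then (-n, d.natAbs) else (n, d.natAbs)

/-- Digit of a key. -/
def dg (j key : ℕ) : ℕ := key / 16 ^ j % 16

/-- Exchange of the digits `j` and `j + 1`. -/
def swk (j key : ℕ) : ℕ :=
  let a := dg j key
  let b := dg (j + 1) key
  if a ≤ b then key - 15 * (b - a) * 16 ^ j else key + 15 * (a - b) * 16 ^ j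

/-- The coefficient `cA` on digits. -/
def kA (q : ℤ) (a b : ℕ) : ℤ × ℕ :=
  if b ≤ a then mkQ (q - 1) (1 - q ^ (a - b)) else mkQ ((q - 1) * q ^ (b - a)) (q ^ (b - a) - 1)

/-- The coefficient `cB` on digits (for digits that are not neighbours). -/
def kB (q : ℤ) (a b : ℕ) : ℤ × ℕ :=
  if b ≤ a then mkQ (1 - q ^ (a - b + 1)) (1 - q ^ (a - b))
  else mkQ (q ^ (b - a) - q) (q ^ (b - a) - 1)

/-- Insert an entry, adding the values of equal keys. -/
def ins (k : ℕ) (c : ℤ × ℕ) : List (ℕ × (ℤ × ℕ)) → List (ℕ × (ℤ × ℕ))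
  | [] => [(k, c)]
  | x :: L => if k = x.1 then (x.1, qadd c x.2) :: L else x :: ins k c L

/-- Merge equal keys. -/
def merge : List (ℕ × (ℤ × ℕ)) → List (ℕ × (ℤ × ℕ))
  | [] => []
  | x :: L => ins x.1 x.2 (merge L)

/-- The exchanged entry. -/
def exch (q : ℤ) (dual : Bool) (j : ℕ) (x : ℕ × (ℤ × ℕ)) : List (ℕ × (ℤ × ℕ)) :=
  let a := dg j x.1
  let b := dg (j + 1) x.1
  if a + 1 = b ∨ b + 1 = a then [] else
    [(swk j x.1, qmul x.2 (if dual then kB q a b else kB q b a))]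

/-- Off-diagonal part of `T_j`. -/
def stepP (q : ℤ) (dual : Bool) (j : ℕ) (L : List (ℕ × (ℤ × ℕ))) : List (ℕ × (ℤ × ℕ)) :=
  L.flatMap (exch q dual j)

/-- Diagonal part of `T_j`. -/
def stepD (q : ℤ) (j : ℕ) (L : List (ℕ × (ℤ × ℕ))) : List (ℕ × (ℤ × ℕ)) :=
  L.map (fun x => (x.1, qmul x.2 (kA q (dg j x.1) (dg (j + 1) x.1))))

/-- `T_j`. -/
def stepT (q : ℤ) (dual : Bool) (j : ℕ) (L : List (ℕ × (ℤ × ℕ))) : List (ℕ × (ℤ × ℕ)) :=
  merge (stepD q j L ++ stepP q dual j L)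

/-- The residues at `j` and `j + 1` are different for all entries. -/
def okP (j : ℕ) (L : List (ℕ × (ℤ × ℕ))) : Bool :=
  L.all (fun x => dg j x.1 % 3 != dg (j + 1) x.1 % 3)

/-- Multiplication by a scalar. -/
def scal (c : ℤ × ℕ) (L : List (ℕ × (ℤ × ℕ))) : List (ℕ × (ℤ × ℕ)) :=
  L.map (fun x => (x.1, qmul c x.2))

/-- One step of a word. -/
def stepAny (q : ℤ) (dual : Bool) (s : List (ℕ × (ℤ × ℕ)) × Bool) (c : ℕ) :
    List (ℕ × (ℤ × ℕ)) × Bool :=
  if 200 ≤ c then (stepP q dual (c - 200) s.1, okP (c - 200) s.1 && s.2)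
  else if 100 ≤ c then
    (merge (scal (mkQ 1 (1 + q)) (s.1 ++ stepT q dual (c - 100) s.1)), s.2)
  else (stepT q dual c s.1, s.2)

/-- Evaluation of a word. -/
def run (q : ℤ) (dual : Bool) (w : List ℕ) (s : List (ℕ × (ℤ × ℕ)) × Bool) :
    List (ℕ × (ℤ × ℕ)) × Bool :=
  w.foldl (stepAny q dual) s

/-- Linear combination of evaluated words. -/
def comb (q : ℤ) (dual : Bool) (L0 : List (ℕ × (ℤ × ℕ))) :
    List ((ℤ × ℕ) × List ℕ) → List (ℕ × (ℤ × ℕ)) × Bool
  | [] => ([], true)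
  | x :: W => (scal x.1 (run q dual x.2 (L0, true)).1 ++ (comb q dual L0 W).1,
      (run q dual x.2 (L0, true)).2 && (comb q dual L0 W).2)

/-- Sum of the values at the key `k`. -/
def look (k : ℕ) : List (ℕ × (ℤ × ℕ)) → ℤ × ℕ
  | [] => (0, 1)
  | x :: L => if k = x.1 then qadd x.2 (look k L) else look k L

/-- Scalar product of sparse vectors. -/
def dotp (M : List (ℕ × (ℤ × ℕ))) : List (ℕ × (ℤ × ℕ)) → ℤ × ℕ
  | [] => (0, 1)
  | x :: L => qadd (qmul x.2 (look x.1 M)) (dotp M L)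

/-- The vector. -/
def vV (q : ℤ) : List (ℕ × (ℤ × ℕ)) × Bool := comb q false [(rowK, (1, 1))] wsV

/-- Its covector. -/
def vX (q : ℤ) (c0 : ℤ × ℕ) : List (ℕ × (ℤ × ℕ)) × Bool := comb q true [(rowK, c0)] wsV

/-- The combination of the fourteen covectors. -/
def vD (q : ℤ) (kap : ℤ × ℕ) (cs : List (ℤ × ℕ)) : List (ℕ × (ℤ × ℕ)) × Bool :=
  comb q true [(colK, kap)] (cs.zip wsD)

/-- The covector identity. -/
def chkD (q : ℤ) (c0 kap : ℤ × ℕ) (cs : List (ℤ × ℕ)) : Bool :=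
  (merge ((vX q c0).1 ++ scal (-13, 1) (vD q kap cs).1)).all (fun x => x.2.1 == 0) &&
    (vD q kap cs).2

/-- The norm. -/
def chkN (q : ℤ) (c0 : ℤ × ℕ) : Bool :=
  (dotp (merge (vV q).1) (merge (vX q c0).1)).1 % 169 != 0 &&
    (dotp (merge (vV q).1) (merge (vX q c0).1)).2 != 0 && (vV q).2 &&
    (merge (vV q).1).all (fun x => decide (x.1 < 16 ^ 27)) &&
    (merge (vX q c0).1).all (fun x => decide (x.1 < 16 ^ 27))

/-- Validity of the codes. -/
def okW (W : List (List ℕ)) : Bool :=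
  W.all (fun w => w.all (fun c => decide (c % 100 < 26) && decide (c < 300)))

/-- The denominators are prime to 13. -/
def okC (cs : List (ℤ × ℕ)) : Bool := cs.all (fun c => c.2 % 13 != 0)

/-- Product of the coefficients along a path. -/
def pathK (q : ℤ) : List ℕ → ℕ → ℤ × ℕ
  | [], _ => (1, 1)
  | j :: p, k => qmul (kB q (dg (j + 1) k) (dg j k)) (pathK q p (swk j k))

/-- End point and admissibility of a path. -/
def pathOK : List ℕ → ℕ → ℕ → Bool
  | [], k, l => k == l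
  | j :: p, k, l => decide (j + 1 < 27) && decide (dg (j + 1) k + 2 ≤ dg j k) &&
      pathOK p (swk j k) l

end Pool.Agent.James.Cert
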