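import Pool.Agent.James.Cert

/-!
The certificate for `q = 22` and `q = -23`.
-/

set_option autoImplicit false

namespace Pool.Agent.James.Cert

open Pool.Agent.JamesSemi (cA cB GoodSet sT ext0 IsWt sF)

theorem pow_sub_not_dvd {q : ℤ} (h3 : q ^ 3 ≡ 1 [ZMOD 13]) (h1 : ¬ (13 : ℤ) ∣ q - 1)
    (h2 : ¬ (13 : ℤ) ∣ q ^ 2 - 1) {m : ℕ} (hm : m % 3 ≠ 0) : ¬ (13 : ℤ) ∣ q ^ m - 1 := by
  have e : q ^ m ≡ q ^ (m % 3) [ZMOD 13] := by
    conv_lhs => rw [← Nat.div_add_mod m 3, pow_add, pow_mul]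
    have := (h3.pow (m / 3)).mul_right (q ^ (m % 3))
    rw [one_pow, one_mul] at this
    exact this
  intro h
  have h4 : q ^ m ≡ 1 [ZMOD 13] := (Int.modEq_iff_dvd.2 (by
    rw [← dvd_neg, neg_sub]
    exact h))
  have h5 : q ^ (m % 3) ≡ 1 [ZMOD 13] := e.symm.trans h4
  have h6 : (13 : ℤ) ∣ q ^ (m % 3) - 1 := by
    have := Int.modEq_iff_dvd.1 h5
    rw [← dvd_neg, neg_sub] at this
    exact this
  have h7 : m % 3 = 1 ∨ m % 3 = 2 := by omega
  rcases h7 with h7 | h7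
  · rw [h7, pow_one] at h6
    exact h1 h6
  · rw [h7] at h6
    exact h2 h6

theorem qok_of {q : ℤ} (h3 : q ^ 3 ≡ 1 [ZMOD 13]) (h1 : ¬ (13 : ℤ) ∣ q - 1)
    (h2 : ¬ (13 : ℤ) ∣ q ^ 2 - 1) (h0 : ¬ (13 : ℤ) ∣ q) (h4 : ¬ (13 : ℤ) ∣ 1 + q) : Qok q := by
  have hu : IsU (q : ℚ) := IsU.of_int h0
  have hq0 : (q : ℚ) ≠ 0 := hu.2.2
  have key : ∀ a b : ℕ, a < b → a % 3 ≠ b % 3 →
      IsU ((q : ℚ) ^ ((b : ℤ) - 9) - (q : ℚ) ^ ((a : ℤ) - 9)) := by
    intro a b hab hm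
    have e : (q : ℚ) ^ ((b : ℤ) - 9) - (q : ℚ) ^ ((a : ℤ) - 9) =
        (q : ℚ) ^ ((a : ℤ) - 9) * ((q ^ (b - a) - 1 : ℤ) : ℚ) := by
      have e1 : ((b : ℤ) - 9) = ((a : ℤ) - 9) + ((b - a : ℕ) : ℤ) := by omega
      rw [e1, zpow_add₀ hq0, zpow_natCast]
      push_cast
      ring
    rw [e]
    exact (hu.zpow _).mul (IsU.of_int (pow_sub_not_dvd h3 h1 h2 (by omega)))
  refine ⟨hu, ?_, ?_⟩
  · have := IsU.of_int h4
    push_cast at this
    exact this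
  · intro a b hm
    rcases lt_trichotomy a b with h | h | h
    · exact key a b h hm
    · exact absurd (congrArg (· % 3) h) hm
    · have h5 := (key b a h (Ne.symm hm)).mul (IsU.of_int (a := -1) (by norm_num))
      have e : ((q : ℚ) ^ ((a : ℤ) - 9) - (q : ℚ) ^ ((b : ℤ) - 9)) * ((-1 : ℤ) : ℚ) =
          (q : ℚ) ^ ((b : ℤ) - 9) - (q : ℚ) ^ ((a : ℤ) - 9) := by
        push_cast
        ring
      rw [e] at h5
      exact h5

theorem qok_22 : Qok 22 := qok_of (by decide) (by decide) (by decide) (by decide) (by decide)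

theorem qok_m23 : Qok (-23) := qok_of (by decide) (by decide) (by decide) (by decide) (by decide)

theorem zpow_ne {q : ℤ} (h : 1 < |(q : ℚ)|) (m : ℤ) (hm : m ≠ 0) : (q : ℚ) ^ m ≠ 1 := by
  intro h1
  have h2 := congrArg abs h1
  rw [abs_zpow, abs_one, zpow_eq_one_iff_right₀ (abs_nonneg _) h.ne'] at h2
  exact hm h2

theorem pathK_sound {q : ℤ} (hq : (q : ℚ) ≠ 0) (p : List ℕ) : ∀ k l : ℕ, pathOK p k l = true →
    IsPath 27 p (dec k) (dec l) ∧ toQ (pathK q p k) = pathProd (q : ℚ) p (dec k) := by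
  induction p with
  | nil =>
    intro k l h
    unfold pathOK at h
    rw [beq_iff_eq] at h
    unfold IsPath pathK pathProd toQ
    rw [h]
    norm_num
  | cons j p ih =>
    intro k l h
    unfold pathOK at h
    simp only [Bool.and_eq_true, decide_eq_true_eq] at h
    obtain ⟨⟨h1, h2⟩, h3⟩ := h
    obtain ⟨h4, h5⟩ := ih _ _ h3
    have hsw : dec (swk j k) = sw j (dec k) := dec_swk h1 k
    have hd1 : dec k j = (dg j k : ℤ) - 9 := by
      unfold dec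
      rw [if_pos (by omega)]
    have hd2 : dec k (j + 1) = (dg (j + 1) k : ℤ) - 9 := by
      unfold dec
      rw [if_pos h1]
    refine ⟨⟨h1, ?_, ?_⟩, ?_⟩
    · rw [hd1, hd2]
      omega
    · rw [← hsw]
      exact h4
    · unfold pathK pathProd
      rw [toQ_qmul, h5, hsw, toQ_kB hq (by omega), hd1, hd2]

theorem kap_spec {q : ℤ} (hq : (q : ℚ) ≠ 0) {kap : ℤ × ℕ} (hk : kap.2 ≠ 0)
    (h : ((pathK q pth rowK).1 * kap.1 == (pathK q pth rowK).2 * kap.2 &&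
    (pathK q pth rowK).1 != 0 && (pathK q pth rowK).2 != 0) = true) :
    toQ kap * pathProd (q : ℚ) pth (dec rowK) = 1 := by
  rw [← (pathK_sound hq pth rowK colK pathOK_pth).2]
  simp only [Bool.and_eq_true, beq_iff_eq, bne_iff_ne, ne_eq] at h
  obtain ⟨⟨h1, h2⟩, h3⟩ := h
  generalize pathK q pth rowK = x at h1 h2 h3 ⊢
  have h1' : (x.1 : ℚ) * kap.1 = x.2 * kap.2 := by exact_mod_cast h1
  have h2' : (x.1 : ℚ) ≠ 0 := by exact_mod_cast h2
  have h3' : (x.2 : ℚ) ≠ 0 := by exact_mod_cast h3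
  have hk' : (kap.2 : ℚ) ≠ 0 := by exact_mod_cast hk
  unfold toQ
  field_simp
  linear_combination h1'

/-- The parameters for which the certificate is available. -/
def Good13 (q : ℤ) : Prop := q = 22 ∨ q = -23

/-- `∏ [λ_i]!` for `λ = (6,4,3,3,3,2,2,2,1,1)`. -/
noncomputable def bigC (q : ℚ) : ℚ :=
  qfac q 6 * qfac q 4 * qfac q 3 ^ 3 * qfac q 2 ^ 3

theorem c0_22_eq : toQ c0_22 = bigC ((22 : ℤ) : ℚ) := by
  unfold toQ c0_22 bigC qfac
  simp only [Finset.prod_range_succ, Finset.sum_range_succ, Finset.prod_range_zero,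
    Finset.sum_range_zero]
  norm_num

theorem c0_m23_eq : toQ c0_m23 = bigC ((-23 : ℤ) : ℚ) := by
  unfold toQ c0_m23 bigC qfac
  simp only [Finset.prod_range_succ, Finset.sum_range_succ, Finset.prod_range_zero,
    Finset.sum_range_zero]
  norm_num

/-- THE CERTIFICATE. -/
theorem cert {q : ℤ} (hgood : Good13 q) (C : Set (ℕ → ℤ)) [Fintype C] (hC : GoodSet 27 C)
    (h00 : ∀ α ∈ C, α 0 = 0) (γ : C → ℚ) (hγ : IsWt (q : ℚ) 27 C γ) (αr αc : C)
    (hr : αr.1 = dec rowK) (hc : αc.1 = dec colK) (u : ℚ) (hu : IsU u)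
    (hγr : γ αr = u * bigC q) (S : Set (C → ℚ)) (hzero : (fun _ => 0) ∈ S)
    (hadd : ∀ f ∈ S, ∀ g ∈ S, (fun α => f α + g α) ∈ S)
    (hsmul : ∀ c, IsO c → ∀ f ∈ S, (fun α => c * f α) ∈ S)
    (hT : ∀ j, j + 1 < 27 → ∀ f ∈ S, sT (q : ℚ) C j f ∈ S)
    (he : dl αr ∈ S) (hE : ∀ f ∈ S, IsO (f αc * (pathProd (q : ℚ) pth (dec rowK))⁻¹)) :
    ∃ v ∈ S, (∀ w ∈ S, ∃ y, IsO y ∧ sF γ v w = 13 * y) ∧ ¬ ∃ y, IsO y ∧ sF γ v v = 169 * y := by
  rcases hgood with rfl | rfl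
  · have hq := qok_22
    have hk := kap_spec (q := 22) hq.unit.2.2 (kap := kap_22) (by decide) path_22
    refine cert_q hq ⟨hq.unit.2.2, fun h hh _ => zpow_ne (by norm_num) h hh⟩ chkD_22 chkN_22
      okC_22 C hC h00 γ hγ αr αc hr hc u hu (by rw [hγr, c0_22_eq]) S hzero hadd hsmul hT he ?_
    intro f hf
    rw [eq_inv_of_mul_eq_one_left hk]
    exact hE f hf
  · have hq := qok_m23
    have hk := kap_spec (q := -23) hq.unit.2.2 (kap := kap_m23) (by decide) path_m23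
    refine cert_q hq ⟨hq.unit.2.2, fun h hh _ => zpow_ne (by norm_num) h hh⟩ chkD_m23 chkN_m23
      okC_m23 C hC h00 γ hγ αr αc hr hc u hu (by rw [hγr, c0_m23_eq]) S hzero hadd hsmul hT he ?_
    intro f hf
    rw [eq_inv_of_mul_eq_one_left hk]
    exact hE f hf

end Pool.Agent.James.Cert
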