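import Pool.Agent.James.CertEval

/-!
The kernel computations of the certificate.
-/

set_option autoImplicit false

namespace Pool.Agent.James.Cert

theorem chkD_22 : chkD 22 c0_22 kap_22 cs22 = true := by decide +kernel

theorem chkN_22 : chkN 22 c0_22 = true := by decide +kernel

theorem chkD_m23 : chkD (-23) c0_m23 kap_m23 csm23 = true := by decide +kernel

theorem chkN_m23 : chkN (-23) c0_m23 = true := by decide +kernel

theorem okW_D : okW wsD = true := by decide +kernel

theorem okW_V : okW (wsV.map (fun x => x.2)) = true := by decide +kernel

theorem okC_22 : okC cs22 = true := by decide +kernel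

theorem okC_m23 : okC csm23 = true := by decide +kernel

theorem pathOK_pth : pathOK pth rowK colK = true := by decide +kernel

theorem path_22 : ((pathK 22 pth rowK).1 * kap_22.1 == (pathK 22 pth rowK).2 * kap_22.2 &&
    (pathK 22 pth rowK).1 != 0 && (pathK 22 pth rowK).2 != 0) = true := by decide +kernel

theorem path_m23 : ((pathK (-23) pth rowK).1 * kap_m23.1 == (pathK (-23) pth rowK).2 * kap_m23.2 &&
    (pathK (-23) pth rowK).1 != 0 && (pathK (-23) pth rowK).2 != 0) = true := by decide +kernel

end Pool.Agent.James.Cert
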