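import Pool.Agent.James.CertSem
import Pool.Agent.James.CertKer

/-!
The certificate theorem.
-/

set_option autoImplicit false

namespace Pool.Agent.James.Cert

open Pool.Agent.JamesSemi (cA cB GoodSet sT ext0 IsWt sF opT sL)

/-! ### 13-integral numbers -/

/-- `x` is a fraction with denominator prime to 13. -/
def IsO (x : ℚ) : Prop := ∃ (a : ℤ) (b : ℕ), ¬ 13 ∣ b ∧ x * b = a

/-- `x` is a 13-adic unit. -/
def IsU (x : ℚ) : Prop := IsO x ∧ IsO x⁻¹ ∧ x ≠ 0

theorem not_dvd_ne {b : ℕ} (h : ¬ 13 ∣ b) : (b : ℚ) ≠ 0 := by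
  intro h1
  apply h
  have : b = 0 := by exact_mod_cast h1
  rw [this]
  exact dvd_zero 13

theorem not_dvd_mul {b d : ℕ} (h : ¬ 13 ∣ b) (h' : ¬ 13 ∣ d) : ¬ 13 ∣ b * d := by
  intro h1
  rcases (Nat.Prime.dvd_mul (by norm_num)).1 h1 with h2 | h2
  · exact h h2
  · exact h' h2

theorem IsO.int (a : ℤ) : IsO a := ⟨a, 1, by norm_num, by push_cast; ring⟩

theorem IsO.zero : IsO 0 := ⟨0, 1, by norm_num, by push_cast; ring⟩

theorem IsO.one : IsO 1 := ⟨1, 1, by norm_num, by push_cast; ring⟩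

theorem IsO.add {x y : ℚ} (hx : IsO x) (hy : IsO y) : IsO (x + y) := by
  obtain ⟨a, b, hb, h1⟩ := hx
  obtain ⟨c, d, hd, h2⟩ := hy
  refine ⟨a * d + c * b, b * d, not_dvd_mul hb hd, ?_⟩
  push_cast
  rw [← h1, ← h2]
  ring

theorem IsO.mul {x y : ℚ} (hx : IsO x) (hy : IsO y) : IsO (x * y) := by
  obtain ⟨a, b, hb, h1⟩ := hx
  obtain ⟨c, d, hd, h2⟩ := hy
  refine ⟨a * c, b * d, not_dvd_mul hb hd, ?_⟩
  push_cast
  rw [← h1, ← h2]
  ring

theorem IsO.neg {x : ℚ} (hx : IsO x) : IsO (-x) := by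
  have := (IsO.int (-1)).mul hx
  push_cast at this
  rw [neg_one_mul] at this
  exact this

theorem IsO.sub {x y : ℚ} (hx : IsO x) (hy : IsO y) : IsO (x - y) := by
  rw [sub_eq_add_neg]
  exact hx.add hy.neg

theorem IsO.sum {ι : Type*} (s : Finset ι) (f : ι → ℚ) (h : ∀ i ∈ s, IsO (f i)) :
    IsO (∑ i ∈ s, f i) := by
  classical
  induction s using Finset.induction_on with
  | empty =>
    rw [Finset.sum_empty]
    exact IsO.zero
  | insert a s ha ih =>
    rw [Finset.sum_insert ha]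
    exact (h a (Finset.mem_insert_self a s)).add
      (ih (fun i hi => h i (Finset.mem_insert_of_mem hi)))

theorem IsU.of_int {a : ℤ} (h : ¬ (13 : ℤ) ∣ a) : IsU a := by
  have h0 : (a : ℚ) ≠ 0 := by
    intro h1
    apply h
    have : a = 0 := by exact_mod_cast h1
    rw [this]
    exact dvd_zero 13
  have hn : ¬ 13 ∣ a.natAbs := by
    intro h1
    exact h (Int.natCast_dvd.2 h1)
  refine ⟨IsO.int a, ⟨a.sign, a.natAbs, hn, ?_⟩, h0⟩
  have h1 : ((a.natAbs : ℕ) : ℚ) = a.sign * a := by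
    have := Int.sign_mul_self_eq_abs a
    rw [Nat.cast_natAbs, ← this]
    push_cast
    ring
  rw [h1]
  field_simp

theorem IsU.mul {x y : ℚ} (hx : IsU x) (hy : IsU y) : IsU (x * y) := by
  refine ⟨hx.1.mul hy.1, ?_, mul_ne_zero hx.2.2 hy.2.2⟩
  rw [mul_inv]
  exact hx.2.1.mul hy.2.1

theorem IsU.inv {x : ℚ} (hx : IsU x) : IsU x⁻¹ := by
  refine ⟨hx.2.1, ?_, inv_ne_zero hx.2.2⟩
  rw [inv_inv]
  exact hx.1

theorem IsU.one : IsU 1 := by
  have := IsU.of_int (a := 1) (by norm_num)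
  push_cast at this
  exact this

theorem IsU.pow {x : ℚ} (hx : IsU x) (n : ℕ) : IsU (x ^ n) := by
  induction n with
  | zero =>
    rw [pow_zero]
    exact IsU.one
  | succ n ih =>
    rw [pow_succ]
    exact ih.mul hx

theorem IsU.zpow {x : ℚ} (hx : IsU x) (n : ℤ) : IsU (x ^ n) := by
  cases n with
  | ofNat n =>
    rw [Int.ofNat_eq_natCast, zpow_natCast]
    exact hx.pow n
  | negSucc n =>
    rw [zpow_negSucc]
    exact (hx.pow (n + 1)).inv

theorem toQ_isO {x : ℤ × ℕ} (h : ¬ 13 ∣ x.2) : IsO (toQ x) := by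
  refine ⟨x.1, x.2, h, ?_⟩
  unfold toQ
  rw [div_mul_cancel₀ _ (not_dvd_ne h)]

/-! ### Closed sets of functions -/

/-- Closure properties; `dual = false` : the operators `T_j`, `dual = true` : their transposes. -/
structure Cl (q : ℚ) (C : Set (ℕ → ℤ)) (dual : Bool) (S : Set (C → ℚ)) : Prop where
  zero : (fun _ => 0) ∈ S
  add : ∀ f ∈ S, ∀ g ∈ S, (fun α => f α + g α) ∈ S
  smul : ∀ c, IsO c → ∀ f ∈ S, (fun α => c * f α) ∈ S
  op : ∀ j, j + 1 < 27 → ∀ f ∈ S, (fun α : C => cA q (α.1 j) (α.1 (j + 1)) * f α +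
    cG q dual (α.1 j) (α.1 (j + 1)) * ext0 C f (JamesSemi.sw j α.1)) ∈ S
  mulL : ∀ k, k < 27 → ∀ f ∈ S, (fun α : C => q ^ (α.1 k) * f α) ∈ S

/-- The arithmetic of `q`. -/
structure Qok (q : ℤ) : Prop where
  unit : IsU (q : ℚ)
  one_add : IsU (1 + (q : ℚ))
  diff : ∀ a b : ℕ, a % 3 ≠ b % 3 → IsU ((q : ℚ) ^ ((b : ℤ) - 9) - (q : ℚ) ^ ((a : ℤ) - 9))

/-- Division by a function with unit values. -/
theorem Cl.div {q : ℚ} {C : Set (ℕ → ℤ)} {dual : Bool} {S : Set (C → ℚ)} (hS : Cl q C dual S)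
    {f : C → ℚ} (hf : f ∈ S) (N : C → ℚ) (hN : ∀ g ∈ S, (fun α => N α * g α) ∈ S)
    (l : List ℚ) (hl : ∀ x ∈ l, IsU x) (hsupp : ∀ α, f α ≠ 0 → N α ∈ l) :
    (fun α => f α / N α) ∈ S := by
  have key : ∀ l : List ℚ, (∀ x ∈ l, IsU x) → ∃ h ∈ S, (∀ α, N α ∈ l → N α * h α = f α) ∧
      ∀ α, f α = 0 → h α = 0 := by
    intro l
    induction l with
    | nil =>
      intro _
      exact ⟨fun _ => 0, hS.zero, fun α h => absurd h List.not_mem_nil, fun _ _ => rfl⟩
    | cons b l ih =>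
      intro hbl
      obtain ⟨h, hh, h1, h2⟩ := ih (fun x hx => hbl x (List.mem_cons_of_mem _ hx))
      have hb := hbl b List.mem_cons_self
      refine ⟨fun α => h α + b⁻¹ * (f α + (-1) * (N α * h α)), ?_, ?_, ?_⟩
      · exact hS.add _ hh _ (hS.smul _ hb.2.1 _ (hS.add _ hf _
          (hS.smul _ (by have := IsO.int (-1); push_cast at this; exact this) _ (hN _ hh))))
      · intro α hα
        rcases List.mem_cons.1 hα with h3 | h3
        · simp only
          rw [h3]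
          have := hb.2.2
          field_simp
          ring
        · simp only
          rw [h1 α h3]
          rw [show f α + -1 * f α = 0 by ring, mul_zero, add_zero, h1 α h3]
      · intro α hα
        simp only
        rw [h2 α hα, hα]
        ring
  obtain ⟨h, hh, h1, h2⟩ := key l hl
  have e : (fun α => f α / N α) = h := by
    funext α
    by_cases h3 : f α = 0
    · rw [h2 α h3, h3, zero_div]
    · have h4 := hsupp α h3
      have h5 := (hl _ h4).2.2
      rw [← h1 α h4, mul_comm, mul_div_assoc, div_self h5, mul_one]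
  rw [e]
  exact hh

theorem den_ne {L : List (ℕ × (ℤ × ℕ))} {α : ℕ → ℤ} (h : den L α ≠ 0) :
    ∃ x ∈ L, dec x.1 = α := by
  induction L with
  | nil => exact absurd rfl h
  | cons y L ih =>
    by_cases h1 : dec y.1 = α
    · exact ⟨y, List.mem_cons_self, h1⟩
    · rw [den_cons, if_neg h1, zero_add] at h
      obtain ⟨x, hx, h2⟩ := ih h
      exact ⟨x, List.mem_cons_of_mem _ hx, h2⟩

/-- The diagonal part. -/
theorem Cl.diag {q : ℤ} (hq : Qok q) {C : Set (ℕ → ℤ)} {dual : Bool} {S : Set (C → ℚ)}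
    (hS : Cl (q : ℚ) C dual S) {j : ℕ} (hj : j + 1 < 27) {L : List (ℕ × (ℤ × ℕ))}
    (hL : fn C L ∈ S) (hok : okP j L = true) :
    (fun α : C => cA (q : ℚ) (α.1 j) (α.1 (j + 1)) * fn C L α) ∈ S := by
  have hq0 : (q : ℚ) ≠ 0 := hq.unit.2.2
  have h1 := hS.div (hS.mulL (j + 1) hj _ hL)
    (fun α => (q : ℚ) ^ (α.1 (j + 1)) - (q : ℚ) ^ (α.1 j)) (by
      intro g hg
      have h2 := hS.add _ (hS.mulL (j + 1) hj _ hg) _ (hS.smul (-1)
        (by have := IsO.int (-1); push_cast at this; exact this) _ (hS.mulL j (by omega) _ hg))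
      have e : (fun α : C => ((q : ℚ) ^ (α.1 (j + 1)) - (q : ℚ) ^ (α.1 j)) * g α) =
          (fun α : C => (q : ℚ) ^ (α.1 (j + 1)) * g α + -1 * ((q : ℚ) ^ (α.1 j) * g α)) := by
        funext α
        ring
      rw [e]
      exact h2)
    (L.map (fun x => (q : ℚ) ^ ((dg (j + 1) x.1 : ℤ) - 9) - (q : ℚ) ^ ((dg j x.1 : ℤ) - 9)))
    (by
      intro x hx
      obtain ⟨y, hy, rfl⟩ := List.mem_map.1 hx
      apply hq.diff
      unfold okP at hok
      rw [List.all_eq_true] at hok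
      have := hok y hy
      simpa using this)
    (by
      intro α hα
      have h3 : den L α.1 ≠ 0 := right_ne_zero_of_mul hα
      obtain ⟨x, hx, h4⟩ := den_ne h3
      rw [List.mem_map]
      refine ⟨x, hx, ?_⟩
      rw [← h4]
      unfold dec
      rw [if_pos (by omega : j < 27), if_pos hj])
  have h2 := hS.smul ((q : ℚ) - 1) (hq.unit.1.sub IsO.one) _ h1
  have e : (fun α : C => cA (q : ℚ) (α.1 j) (α.1 (j + 1)) * fn C L α) =
      (fun α : C => ((q : ℚ) - 1) * ((q : ℚ) ^ (α.1 (j + 1)) * fn C L α /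
        ((q : ℚ) ^ (α.1 (j + 1)) - (q : ℚ) ^ (α.1 j)))) := by
    funext α
    by_cases h3 : fn C L α = 0
    · rw [h3]
      simp
    · unfold cA
      rw [zpow_sub₀ hq0]
      have hb : (q : ℚ) ^ (α.1 (j + 1)) ≠ 0 := zpow_ne_zero _ hq0
      have e1 : (1 : ℚ) - (q : ℚ) ^ (α.1 j) / (q : ℚ) ^ (α.1 (j + 1)) =
          ((q : ℚ) ^ (α.1 (j + 1)) - (q : ℚ) ^ (α.1 j)) / (q : ℚ) ^ (α.1 (j + 1)) := by
        field_simp
      rw [e1, div_div_eq_mul_div]
      ring
  rw [e]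
  exact h2

/-- Membership is preserved by the evaluator. -/
theorem mem_step {q : ℤ} (hq : Qok q) {C : Set (ℕ → ℤ)} (hC : GoodSet 27 C) {dual : Bool}
    {S : Set (C → ℚ)} (hS : Cl (q : ℚ) C dual S) {s : List (ℕ × (ℤ × ℕ)) × Bool} {c : ℕ}
    (hc : c % 100 < 26) (hc' : c < 300) (h : okL C s.1) :
    okL C (stepAny q dual s c).1 ∧
    ((stepAny q dual s c).2 = true → s.2 = true) ∧
    ((stepAny q dual s c).2 = true → fn C s.1 ∈ S → fn C (stepAny q dual s c).1 ∈ S) := by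
  have hq0 : (q : ℚ) ≠ 0 := hq.unit.2.2
  have hT : ∀ j, j + 1 < 27 → fn C s.1 ∈ S → fn C (stepT q dual j s.1) ∈ S := by
    intro j hj hs
    have h1 := hS.op j hj _ hs
    have e : fn C (stepT q dual j s.1) = (fun α : C => cA (q : ℚ) (α.1 j) (α.1 (j + 1)) *
        fn C s.1 α + cG (q : ℚ) dual (α.1 j) (α.1 (j + 1)) *
          ext0 C (fn C s.1) (JamesSemi.sw j α.1)) := by
      funext α
      rw [ext0_fn h]
      unfold fn
      exact den_stepT hq0 dual hj s.1 α.1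
    rw [e]
    exact h1
  unfold stepAny
  split_ifs with h1 h2
  · have hj : c - 200 + 1 < 27 := by omega
    refine ⟨okL_stepP hC q dual hj h, ?_, ?_⟩
    · intro h3
      simp only [Bool.and_eq_true] at h3
      exact h3.2
    · intro h3 hs
      simp only [Bool.and_eq_true] at h3
      have h4 := hS.op (c - 200) hj _ hs
      have h5 := hS.smul (-1) (by have := IsO.int (-1); push_cast at this; exact this) _
        (hS.diag hq hj hs h3.1)
      have h6 := hS.add _ h4 _ h5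
      have e : fn C (stepP q dual (c - 200) s.1) = (fun α : C =>
          (cA (q : ℚ) (α.1 (c - 200)) (α.1 (c - 200 + 1)) * fn C s.1 α +
          cG (q : ℚ) dual (α.1 (c - 200)) (α.1 (c - 200 + 1)) *
          ext0 C (fn C s.1) (JamesSemi.sw (c - 200) α.1)) +
          -1 * (cA (q : ℚ) (α.1 (c - 200)) (α.1 (c - 200 + 1)) * fn C s.1 α)) := by
        funext α
        rw [ext0_fn h]
        unfold fn
        rw [den_stepP hq0 dual hj s.1 α.1]
        ring
      rw [e]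
      exact h6
  · have hj : c - 100 + 1 < 27 := by omega
    refine ⟨okL_merge (okL_scal _ (okL_append h (okL_stepT hC q dual hj h))), fun h3 => h3, ?_⟩
    intro _ hs
    have h4 := hS.smul (1 + (q : ℚ))⁻¹ hq.one_add.2.1 _ (hS.add _ hs _ (hT _ hj hs))
    have e : fn C (merge (scal (mkQ 1 (1 + q)) (s.1 ++ stepT q dual (c - 100) s.1))) =
        (fun α => (1 + (q : ℚ))⁻¹ * (fn C s.1 α + fn C (stepT q dual (c - 100) s.1) α)) := by
      funext α
      unfold fn
      rw [den_merge, den_scal, den_append, toQ_mkQ]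
      push_cast
      rw [one_div]
    rw [e]
    exact h4
  · have hj : c + 1 < 27 := by omega
    exact ⟨okL_stepT hC q dual hj h, fun h3 => h3, fun _ hs => hT _ hj hs⟩

theorem mem_run {q : ℤ} (hq : Qok q) {C : Set (ℕ → ℤ)} (hC : GoodSet 27 C) {dual : Bool}
    {S : Set (C → ℚ)} (hS : Cl (q : ℚ) C dual S) (w : List ℕ)
    (hw : ∀ c ∈ w, c % 100 < 26 ∧ c < 300) :
    ∀ s : List (ℕ × (ℤ × ℕ)) × Bool, okL C s.1 → okL C (run q dual w s).1 ∧
    ((run q dual w s).2 = true → s.2 = true) ∧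
    ((run q dual w s).2 = true → fn C s.1 ∈ S → fn C (run q dual w s).1 ∈ S) := by
  induction w with
  | nil => exact fun s hs => ⟨hs, fun h => h, fun _ h => h⟩
  | cons c w ih =>
    intro s hs
    have hc := hw c List.mem_cons_self
    have h1 := mem_step hq hC hS hc.1 hc.2 hs
    have h2 := ih (fun d hd => hw d (List.mem_cons_of_mem _ hd)) (stepAny q dual s c) h1.1
    have e : run q dual (c :: w) s = run q dual w (stepAny q dual s c) := rfl
    rw [e]
    refine ⟨h2.1, fun h3 => h1.2.1 (h2.2.1 h3), fun h3 h4 => h2.2.2 h3 (h1.2.2 (h2.2.1 h3) h4)⟩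

theorem mem_comb {q : ℤ} (hq : Qok q) {C : Set (ℕ → ℤ)} (hC : GoodSet 27 C) {dual : Bool}
    {S : Set (C → ℚ)} (hS : Cl (q : ℚ) C dual S) {L0 : List (ℕ × (ℤ × ℕ))} (h0 : okL C L0)
    (h0' : fn C L0 ∈ S) (W : List ((ℤ × ℕ) × List ℕ))
    (hW : ∀ x ∈ W, ¬ 13 ∣ x.1.2 ∧ ∀ c ∈ x.2, c % 100 < 26 ∧ c < 300) :
    okL C (comb q dual L0 W).1 ∧ ((comb q dual L0 W).2 = true → fn C (comb q dual L0 W).1 ∈ S) := by
  induction W with
  | nil =>
    refine ⟨fun x hx => absurd hx List.not_mem_nil, fun _ => ?_⟩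
    exact hS.zero
  | cons x W ih =>
    have h1 := ih (fun y hy => hW y (List.mem_cons_of_mem _ hy))
    have hx := hW x List.mem_cons_self
    have h2 := mem_run hq hC hS x.2 hx.2 (L0, true) h0
    unfold comb
    refine ⟨okL_append (okL_scal _ h2.1) h1.1, ?_⟩
    intro h3
    simp only [Bool.and_eq_true] at h3
    have h4 := hS.add _ (hS.smul (toQ x.1) (toQ_isO hx.1) _ (h2.2.2 h3.1 h0')) _ (h1.2 h3.2)
    have e : fn C (scal x.1 (run q dual x.2 (L0, true)).1 ++ (comb q dual L0 W).1) =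
        (fun α => toQ x.1 * fn C (run q dual x.2 (L0, true)).1 α +
          fn C (comb q dual L0 W).1 α) := by
      funext α
      unfold fn
      rw [den_append, den_scal]
    rw [e]
    exact h4

/-! ### The covector of a vector -/

/-- The weight relation between a vector and a covector. -/
def WR {C : Set (ℕ → ℤ)} (γ : C → ℚ) (L M : List (ℕ × (ℤ × ℕ))) : Prop :=
  ∀ α : C, den M α.1 = γ α * den L α.1

theorem WR.stepP {q : ℤ} (hq : (q : ℚ) ≠ 0) {C : Set (ℕ → ℤ)} (hC : GoodSet 27 C) {γ : C → ℚ}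
    (hγ : IsWt (q : ℚ) 27 C γ) {L M : List (ℕ × (ℤ × ℕ))} (hL : okL C L) (hM : okL C M)
    (h : WR γ L M) {j : ℕ} (hj : j + 1 < 27) :
    WR γ (Cert.stepP q false j L) (Cert.stepP q true j M) := by
  intro α
  rw [den_stepP hq false hj, den_stepP hq true hj]
  unfold cG
  simp only [if_true, Bool.false_eq_true, if_false]
  by_cases hs : JamesSemi.sw j α.1 ∈ C
  · have h1 := h ⟨JamesSemi.sw j α.1, hs⟩
    simp only at h1
    rw [h1]
    have h2 := hγ.bal α j hj hs
    linear_combination (-den L (JamesSemi.sw j α.1)) * h2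
  · rw [den_eq_zero hL hs, den_eq_zero hM hs]
    ring

theorem WR.stepT {q : ℤ} (hq : (q : ℚ) ≠ 0) {C : Set (ℕ → ℤ)} (hC : GoodSet 27 C) {γ : C → ℚ}
    (hγ : IsWt (q : ℚ) 27 C γ) {L M : List (ℕ × (ℤ × ℕ))} (hL : okL C L) (hM : okL C M)
    (h : WR γ L M) {j : ℕ} (hj : j + 1 < 27) :
    WR γ (Cert.stepT q false j L) (Cert.stepT q true j M) := by
  intro α
  unfold Cert.stepT
  rw [den_merge, den_merge, den_append, den_append, den_stepD hq hj, den_stepD hq hj,
    WR.stepP hq hC hγ hL hM h hj α, h α]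
  ring

theorem WR.stepAny {q : ℤ} (hq : (q : ℚ) ≠ 0) {C : Set (ℕ → ℤ)} (hC : GoodSet 27 C) {γ : C → ℚ}
    (hγ : IsWt (q : ℚ) 27 C γ) {s t : List (ℕ × (ℤ × ℕ)) × Bool} (hL : okL C s.1)
    (hM : okL C t.1) (h : WR γ s.1 t.1) {c : ℕ} (hc : c % 100 < 26) (hc' : c < 300) :
    WR γ (Cert.stepAny q false s c).1 (Cert.stepAny q true t c).1 ∧
      okL C (Cert.stepAny q false s c).1 ∧ okL C (Cert.stepAny q true t c).1 := by
  unfold Cert.stepAny
  split_ifs with h1 h2
  · have hj : c - 200 + 1 < 27 := by omega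
    exact ⟨WR.stepP hq hC hγ hL hM h hj, okL_stepP hC q _ hj hL, okL_stepP hC q _ hj hM⟩
  · have hj : c - 100 + 1 < 27 := by omega
    refine ⟨?_, okL_merge (okL_scal _ (okL_append hL (okL_stepT hC q _ hj hL))),
      okL_merge (okL_scal _ (okL_append hM (okL_stepT hC q _ hj hM)))⟩
    intro α
    simp only
    rw [den_merge, den_merge, den_scal, den_scal, den_append, den_append,
      WR.stepT hq hC hγ hL hM h hj α, h α]
    ring
  · have hj : c + 1 < 27 := by omega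
    exact ⟨WR.stepT hq hC hγ hL hM h hj, okL_stepT hC q _ hj hL, okL_stepT hC q _ hj hM⟩

theorem WR.run {q : ℤ} (hq : (q : ℚ) ≠ 0) {C : Set (ℕ → ℤ)} (hC : GoodSet 27 C) {γ : C → ℚ}
    (hγ : IsWt (q : ℚ) 27 C γ) (w : List ℕ) (hw : ∀ c ∈ w, c % 100 < 26 ∧ c < 300) :
    ∀ s t : List (ℕ × (ℤ × ℕ)) × Bool, okL C s.1 → okL C t.1 → WR γ s.1 t.1 →
    WR γ (Cert.run q false w s).1 (Cert.run q true w t).1 ∧
      okL C (Cert.run q true w t).1 := by
  induction w with
  | nil => exact fun s t _ ht h => ⟨h, ht⟩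
  | cons c w ih =>
    intro s t hs ht h
    have hc := hw c List.mem_cons_self
    obtain ⟨h1, h2, h3⟩ := WR.stepAny hq hC hγ hs ht h hc.1 hc.2
    exact ih (fun d hd => hw d (List.mem_cons_of_mem _ hd)) _ _ h2 h3 h1

theorem WR.comb {q : ℤ} (hq : (q : ℚ) ≠ 0) {C : Set (ℕ → ℤ)} (hC : GoodSet 27 C) {γ : C → ℚ}
    (hγ : IsWt (q : ℚ) 27 C γ) {L0 M0 : List (ℕ × (ℤ × ℕ))} (hL : okL C L0) (hM : okL C M0)
    (h : WR γ L0 M0) (W : List ((ℤ × ℕ) × List ℕ))
    (hW : ∀ x ∈ W, ∀ c ∈ x.2, c % 100 < 26 ∧ c < 300) :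
    WR γ (Cert.comb q false L0 W).1 (Cert.comb q true M0 W).1 ∧
      okL C (Cert.comb q true M0 W).1 := by
  induction W with
  | nil =>
    refine ⟨fun α => ?_, fun x hx => absurd hx List.not_mem_nil⟩
    unfold Cert.comb
    rw [den_nil, mul_zero]
  | cons x W ih =>
    obtain ⟨h1, h2⟩ := ih (fun y hy => hW y (List.mem_cons_of_mem _ hy))
    obtain ⟨h3, h4⟩ := WR.run hq hC hγ x.2 (hW x List.mem_cons_self) (L0, true) (M0, true) hL hM h
    unfold Cert.comb
    refine ⟨fun α => ?_, okL_append (okL_scal _ h4) h2⟩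
    simp only
    rw [den_append, den_append, den_scal, den_scal, h3 α, h1 α]
    ring

end Pool.Agent.James.Cert
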