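import Pool.Agent.James.Stmts

/-!
The partition `(6,4,3,3,3,2,2,2,1,1)` of `27`, the quantum characteristic, and the last two module
statements (helper83).
-/

set_option autoImplicit false

namespace Pool.Agent.James

open Polynomial

/-- The partition `(6,4,3,3,3,2,2,2,1,1)` of `27`. -/
def kappa : Ptn 27 where
  part i := [6, 4, 3, 3, 3, 2, 2, 2, 1, 1].getD i 0
  anti := by
    apply antitone_nat_of_succ_le
    intro i
    by_cases hi : i < 10
    · interval_cases i <;> decide
    · rw [List.getD_eq_default _ _ (by simp; omega)]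
      exact Nat.zero_le _
  zero := by
    intro i hi
    exact List.getD_eq_default _ _ (by simp; omega)
  sum := by decide

theorem kappa_part (i : ℕ) : kappa.part i = [6, 4, 3, 3, 3, 2, 2, 2, 1, 1].getD i 0 := rfl

/-- The quantum characteristic of `q` is `e`: the least positive integer with
`1 + q + ... + q ^ (e - 1) = 0`. -/
def IsQChar {F : Type*} [Field F] (e : ℕ) (q : F) : Prop :=
  0 < e ∧ ∑ i ∈ Finset.range e, q ^ i = 0 ∧
    ∀ m, 0 < m → m < e → ∑ i ∈ Finset.range m, q ^ i ≠ 0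

/-- The certificate: an integral vector `v` with `13 ∣ G v` but `169 ∤ vᵀ G v`, `G` the Gram matrix
of `S^κ` at `q = 22` or `q = -23` (the two roots of `q ^ 2 + q + 1` modulo `169`). -/
def S_CERTOUT : Prop := ∀ z : ℤ, z = 22 ∨ z = -23 → ∃ v : Lat kappa → ℤ,
  (∀ s, (13 : ℤ) ∣ ∑ t, (gram kappa s t).eval z * v t) ∧
  ¬ (169 : ℤ) ∣ ∑ s, ∑ t, v s * ((gram kappa s t).eval z * v t)

/-- `D^μ ≠ 0` only for `e`-restricted partitions `μ`. -/
def S_RESTR : Prop := ∀ (F : Type) [Field F] (q : F) (e n : ℕ) (μ : Ptn n), q ≠ 0 → 1 + q ≠ 0 →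
  IsQChar e q → Nontrivial (Dmod F q μ) → ∀ i, μ.part i < μ.part (i + 1) + e

end Pool.Agent.James
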