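import Pool.Agent.James.CertFin
import Pool.Agent.James.BC
import Pool.Agent.James.Kap

/-!
From the certificate on content sequences to the Gram matrix modulo 169.
-/

set_option autoImplicit false

namespace Pool.Agent.James

open Polynomial Cert

/-- The parts of `κ = (6,4,3,3,3,2,2,2,1,1)`. -/
def kapPart (i : ℕ) : ℕ := [6, 4, 3, 3, 3, 2, 2, 2, 1, 1].getD i 0

def rowL : List ℕ :=
  [0, 0, 0, 0, 0, 0, 1, 1, 1, 1, 2, 2, 2, 3, 3, 3, 4, 4, 4, 5, 5, 6, 6, 7, 7, 8, 9]

def colL : List ℕ :=
  [0, 0, 0, 0, 0, 0, 0, 0, 0, 0, 1, 1, 1, 1, 1, 1, 1, 1, 2, 2, 2, 2, 2, 3, 3, 4, 5]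

def tcolL : List ℕ :=
  [0, 1, 2, 3, 4, 5, 6, 7, 8, 9, 0, 1, 2, 3, 4, 5, 6, 7, 0, 1, 2, 3, 4, 0, 1, 0, 0]

theorem getD_zero {l : List ℕ} (h : l.length = 27) {k : ℕ} (hk : 27 ≤ k) : l.getD k 0 = 0 := by
  rw [List.getD_eq_default]
  omega

theorem cnt_zero {w : ℕ → ℕ} {c m : ℕ} (h : ∀ k < m, w k ≠ c) : cnt w c m = 0 := by
  unfold cnt
  rw [Finset.card_eq_zero, Finset.filter_eq_empty_iff]
  intro k hk
  exact h k (Finset.mem_range.1 hk)

theorem kapPart_zero {c : ℕ} (hc : 10 ≤ c) : kapPart c = 0 := by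
  unfold kapPart
  rw [List.getD_eq_default]
  simp
  omega

theorem isWord_rowL : IsWord 27 kappa.part (fun k => rowL.getD k 0) := by
  refine ⟨fun k hk => getD_zero rfl hk, fun c => ?_⟩
  by_cases hc : c < 10
  · have : ∀ c < 10, cnt (fun k => rowL.getD k 0) c 27 = kapPart c := by decide +kernel
    exact this c hc
  · change _ = kapPart c
    rw [kapPart_zero (by omega)]
    apply cnt_zero
    intro k hk
    have : ∀ k < 27, rowL.getD k 0 < 10 := by decide +kernel
    have := this k hk
    omega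

theorem isWord_tcolL : IsWord 27 kappa.part (fun k => tcolL.getD k 0) := by
  refine ⟨fun k hk => getD_zero rfl hk, fun c => ?_⟩
  by_cases hc : c < 10
  · have : ∀ c < 10, cnt (fun k => tcolL.getD k 0) c 27 = kapPart c := by decide +kernel
    exact this c hc
  · change _ = kapPart c
    rw [kapPart_zero (by omega)]
    apply cnt_zero
    intro k hk
    have : ∀ k < 27, tcolL.getD k 0 < 10 := by decide +kernel
    have := this k hk
    omega

theorem isWord_colL : IsWord 27 kappa.conj (fun k => colL.getD k 0) := by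
  refine ⟨fun k hk => getD_zero rfl hk, fun c => ?_⟩
  by_cases hc : c < 6
  · have : ∀ c < 6, cnt (fun k => colL.getD k 0) c 27 =
        ((Finset.range 27).filter (fun r => c < kapPart r)).card := by decide +kernel
    exact this c hc
  · have h1 : kappa.conj c = 0 := by
      unfold Ptn.conj
      rw [Finset.card_eq_zero, Finset.filter_eq_empty_iff]
      intro k hk
      have : ∀ k < 27, kapPart k ≤ 6 := by decide +kernel
      have h2 := this k (Finset.mem_range.1 hk)
      change ¬ c < kapPart k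
      omega
    rw [h1]
    apply cnt_zero
    intro k hk
    have : ∀ k < 27, colL.getD k 0 < 6 := by decide +kernel
    have := this k hk
    omega

theorem isLat_of {l : List ℕ} (h1 : ∀ k < 27, l.getD k 0 < 10)
    (h2 : ∀ r < 10, ∀ m < 28, cnt (fun k => l.getD k 0) (r + 1) m ≤
      cnt (fun k => l.getD k 0) r m) : IsLat 27 (fun k => l.getD k 0) := by
  intro r m hm
  by_cases hr : r < 10
  · exact h2 r hr m (by omega)
  · rw [cnt_zero (c := r + 1)]
    · exact Nat.zero_le _
    · intro k hk
      have := h1 k (by omega)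
      omega

/-- The row tableau. -/
def tRow : Lat kappa := ⟨⟨fun k => rowL.getD k 0, isWord_rowL⟩,
  isLat_of (by decide +kernel) (by decide +kernel)⟩

/-- The column tableau. -/
def tCol : Lat kappa := ⟨⟨fun k => tcolL.getD k 0, isWord_tcolL⟩,
  isLat_of (by decide +kernel) (by decide +kernel)⟩

/-- The sorted column word. -/
def wCol : Wd 27 kappa.conj := ⟨fun k => colL.getD k 0, isWord_colL⟩

theorem tCol_eq : tCol.1.1 = colw 27 wCol.1 := by
  funext k
  by_cases hk : k < 27
  · have : ∀ k < 27, tcolL.getD k 0 = colw 27 (fun k => colL.getD k 0) k := by decide +kernel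
    exact this k hk
  · change tcolL.getD k 0 = _
    rw [getD_zero rfl (by omega)]
    unfold colw
    rw [if_neg hk]

theorem ctn_row : ctn 27 tRow.1.1 = dec rowK := by
  funext k
  by_cases hk : k < 27
  · have : ∀ k < 27, ctn 27 (fun k => rowL.getD k 0) k = dec rowK k := by decide +kernel
    exact this k hk
  · unfold ctn dec
    rw [if_neg hk, if_neg hk]

theorem ctn_col : ctn 27 tCol.1.1 = dec colK := by
  funext k
  by_cases hk : k < 27
  · have : ∀ k < 27, ctn 27 (fun k => tcolL.getD k 0) k = dec colK k := by decide +kernel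
    exact this k hk
  · unfold ctn dec
    rw [if_neg hk, if_neg hk]

theorem sorted_row : Sorted 27 tRow.1.1 := by
  intro j hj
  have : ∀ j < 26, rowL.getD j 0 ≤ rowL.getD (j + 1) 0 := by decide +kernel
  exact this j (by omega)

theorem sorted_col : Sorted 27 wCol.1 := by
  intro j hj
  have : ∀ j < 26, colL.getD j 0 ≤ colL.getD (j + 1) 0 := by decide +kernel
  exact this j (by omega)

theorem ctn_zero {n : ℕ} (hn : 0 < n) {w : ℕ → ℕ} (h : IsLat n w) : ctn n w 0 = 0 := by
  have h0 : w 0 = 0 := by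
    by_contra hne
    obtain ⟨a, ha⟩ := Nat.exists_eq_succ_of_ne_zero hne
    have h1 := h a 1 (by omega)
    have h2 : cnt w (a + 1) 1 = 1 := by
      unfold cnt
      rw [Finset.card_eq_one]
      refine ⟨0, ?_⟩
      ext k
      rw [Finset.mem_filter, Finset.mem_range, Finset.mem_singleton]
      constructor
      · intro hk
        omega
      · rintro rfl
        exact ⟨by omega, ha⟩
    have h3 : cnt w a 1 = 0 := by
      apply cnt_zero
      intro k hk
      have : k = 0 := by omega
      rw [this, ha]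
      omega
    omega
  unfold ctn colw
  rw [if_pos hn, if_pos hn, h0]
  have : cnt w 0 0 = 0 := by
    apply cnt_zero
    intro k hk
    omega
  rw [this]
  norm_num

theorem prod_kap (q : ℚ) : ∏ r ∈ Finset.range 27, qfac q (kappa.part r) = bigC q := by
  have e : ∀ r, kappa.part r = kapPart r := fun _ => rfl
  have h0 : qfac q 0 = 1 := by
    unfold qfac
    rw [Finset.prod_range_zero]
  have h1 : qfac q 1 = 1 := by
    unfold qfac
    rw [Finset.prod_range_one, zero_add, Finset.sum_range_one, pow_zero]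
  simp only [e]
  unfold bigC kapPart
  simp only [Finset.prod_range_succ, Finset.prod_range_zero, List.getD_cons_zero,
    List.getD_cons_succ, List.getD_nil, h0, h1]
  ring

/-! ### Images under ring homomorphisms -/

namespace BC

variable {A R : Type} [CommRing A] [CommRing R] {φ : A →+* R} {n : ℕ} {ν : ℕ → ℕ} {x : A} {q : R}

theorem Im.unique {f : Lam A x n ν} {f' f'' : Lam R q n ν} (h : Im φ f f') (h' : Im φ f f'') :
    f' = f'' := by
  funext w
  exact (h w).symm.trans (h' w)

theorem Im.smul {f : Lam A x n ν} {f' : Lam R q n ν} (h : Im φ f f') (c : A) :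
    Im φ (c • f) (φ c • f') := by
  intro w
  have := h w
  change φ (c * (show Wd n ν → A from f) w) = φ c * (show Wd n ν → R from f') w
  rw [map_mul, this]

theorem Im.add {f g : Lam A x n ν} {f' g' : Lam R q n ν} (h : Im φ f f') (h' : Im φ g g') :
    Im φ (f + g) (f' + g') := by
  intro w
  have h1 := h w
  have h2 := h' w
  change φ ((show Wd n ν → A from f) w + (show Wd n ν → A from g) w) =
    (show Wd n ν → R from f') w + (show Wd n ν → R from g') w
  rw [map_add, h1, h2]

theorem Im.zero : Im φ (0 : Lam A x n ν) (0 : Lam R q n ν) := by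
  intro w
  change φ (0 : A) = (0 : R)
  exact map_zero φ

theorem Im.sum {ι : Type*} (s : Finset ι) {f : ι → Lam A x n ν} {f' : ι → Lam R q n ν}
    (h : ∀ i ∈ s, Im φ (f i) (f' i)) : Im φ (∑ i ∈ s, f i) (∑ i ∈ s, f' i) := by
  classical
  induction s using Finset.induction_on with
  | empty =>
    rw [Finset.sum_empty, Finset.sum_empty]
    exact Im.zero
  | insert a s ha ih =>
    rw [Finset.sum_insert ha, Finset.sum_insert ha]
    exact (h a (Finset.mem_insert_self a s)).add
      (ih (fun i hi => h i (Finset.mem_insert_of_mem hi)))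

theorem Im.bvec (hx : φ x = q) {n : ℕ} (μ : Ptn n) (t : Lat μ) :
    Im φ (bvec A x μ t) (bvec R q μ t) := Im.famAux hx (Im.zvec μ x q) _ _

end BC

theorem bform_sum_left {R : Type*} [CommRing R] {q : R} {n : ℕ} {ν : ℕ → ℕ} {ι : Type*}
    (s : Finset ι) (f : ι → Lam R q n ν) (g : Lam R q n ν) :
    bform (∑ i ∈ s, f i) g = ∑ i ∈ s, bform (f i) g := by
  classical
  induction s using Finset.induction_on with
  | empty =>
    rw [Finset.sum_empty, Finset.sum_empty]
    have := bform_smul_left (0 : R) (0 : Lam R q n ν) g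
    rw [zero_smul, zero_mul] at this
    exact this
  | insert a s ha ih =>
    rw [Finset.sum_insert ha, Finset.sum_insert ha, bform_add_left, ih]

theorem sortedInv {n : ℕ} {w : ℕ → ℕ} (h : Sorted n w) : inv n w = 0 := by
  unfold inv
  rw [Finset.card_eq_zero, Finset.filter_eq_empty_iff]
  rintro ⟨a, b⟩ hab
  rw [Finset.mem_product, Finset.mem_range, Finset.mem_range] at hab
  simp only at hab ⊢
  rintro ⟨h1, h2⟩
  have key : ∀ d, a + d < n → w a ≤ w (a + d) := by
    intro d
    induction d with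
    | zero => exact fun _ => le_refl _
    | succ d ih =>
      intro hd
      exact (ih (by omega)).trans (h (a + d) (by omega))
  have := key (b - a) (by omega)
  rw [Nat.add_sub_cancel' h1.le] at this
  omega

theorem IsO.int_dvd {N : ℤ} {m : ℕ} {y : ℚ} (hm : m = 13 ∨ m = 169) (hy : IsO y)
    (h : (N : ℚ) = m * y) : (m : ℤ) ∣ N := by
  obtain ⟨a, b, hb, hab⟩ := hy
  have h1 : N * (b : ℤ) = m * a := by
    have : ((N * (b : ℤ) : ℤ) : ℚ) = ((m * a : ℤ) : ℚ) := by
      push_cast
      rw [h, ← hab]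
      ring
    exact_mod_cast this
  have hcop : IsCoprime (m : ℤ) b := by
    have h13 : Nat.Coprime 13 b := (Nat.Prime.coprime_iff_not_dvd (by norm_num)).2 hb
    rw [Int.isCoprime_iff_gcd_eq_one]
    rcases hm with rfl | rfl
    · exact_mod_cast h13
    · have h8 : Nat.Coprime (13 ^ 2) b := Nat.Coprime.pow_left 2 h13
      exact_mod_cast h8
  exact hcop.dvd_of_dvd_mul_right ⟨a, h1⟩

/-- Common denominators. -/
theorem common_den {ι : Type*} (s : Finset ι) (a : ι → ℚ) (h : ∀ i, IsO (a i)) :
    ∃ b : ℕ, ¬ 13 ∣ b ∧ ∀ i ∈ s, ∃ c : ℤ, a i * b = c := by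
  classical
  induction s using Finset.induction_on with
  | empty => exact ⟨1, by norm_num, fun i hi => absurd hi (Finset.notMem_empty i)⟩
  | insert i s hi ih =>
    obtain ⟨b, hb, hc⟩ := ih
    obtain ⟨c, d, hd, hcd⟩ := h i
    refine ⟨b * d, not_dvd_mul hb hd, ?_⟩
    intro k hk
    rcases Finset.mem_insert.1 hk with rfl | hk
    · refine ⟨c * b, ?_⟩
      push_cast
      rw [← hcd]
      ring
    · obtain ⟨e, he⟩ := hc k hk
      refine ⟨e * d, ?_⟩
      push_cast
      rw [← he]
      ring

theorem gT_bvec {R : Type} [CommRing R] {q : R} {n : ℕ} {μ : Ptn n}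
    (hB : Submodule.span R (Set.range (bvec R q μ)) = (Specht R q μ).restrictScalars R)
    (j : ℕ) (t : Lat μ) : ∃ M : Lat μ → R, ∑ s, M s • bvec R q μ s = gT R q n j • bvec R q μ t := by
  have h1 : bvec R q μ t ∈ Submodule.span R (Set.range (bvec R q μ)) :=
    Submodule.subset_span ⟨t, rfl⟩
  rw [hB] at h1
  have h2 : gT R q n j • bvec R q μ t ∈ (Specht R q μ).restrictScalars R :=
    (Specht R q μ).smul_mem _ h1
  rw [← hB] at h2
  exact (Submodule.mem_span_range_iff_exists_fun R).1 h2

/-- Integer form of the certificate. -/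
theorem certInt (hSEMI : S_SEMI) (hBAS : S_BAS) (hGOOD : S_GOOD) {q : ℤ} (hgood : Good13 q) :
    ∃ v : Lat kappa → ℤ, (∀ s, (13 : ℤ) ∣ ∑ t, v t * aeval q (gram kappa t s)) ∧
      ¬ (169 : ℤ) ∣ ∑ s, ∑ t, v s * v t * aeval q (gram kappa t s) := by
  classical
  have hqz : q ≠ 0 := by
    rcases hgood with rfl | rfl <;> decide
  have hq1 : 1 + q ≠ 0 := by
    rcases hgood with rfl | rfl <;> decide
  have hqok : Qok q := by
    rcases hgood with rfl | rfl
    · exact qok_22
    · exact qok_m23
  have hgen : ∀ h : ℤ, h ≠ 0 → (q : ℚ) ^ h ≠ 1 := by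
    intro h hh
    apply zpow_ne _ h hh
    rcases hgood with rfl | rfl <;> norm_num
  have hq0 : (q : ℚ) ≠ 0 := hqok.unit.2.2
  have : Finite (CSet kappa) := Set.finite_range _
  let _ : Fintype (CSet kappa) := Fintype.ofFinite _
  let αr : CSet kappa := ⟨ctn 27 tRow.1.1, ⟨tRow, rfl⟩⟩
  let αc : CSet kappa := ⟨ctn 27 tCol.1.1, ⟨tCol, rfl⟩⟩
  obtain ⟨Ψ, γ, κ, hinj, hΨT, hΨr, hrange, hwt, hform, hκ, L, hγr, hpath⟩ :=
    hSEMI ℚ (q : ℚ) 27 kappa hq0 hgen tRow wCol tCol sorted_row sorted_col tCol_eq αr αc rfl rfl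
  have hr : αr.1 = dec rowK := ctn_row
  have hc : αc.1 = dec colK := ctn_col
  let B : Lat kappa → Lam ℚ (q : ℚ) 27 kappa.conj := bvec ℚ (q : ℚ) kappa
  let S : Set (CSet kappa → ℚ) := {f | ∃ a : Lat kappa → ℚ, (∀ t, IsO (a t)) ∧
    Ψ f = ∑ t, a t • B t}
  have hzvec : B tRow = zvec ℚ (q : ℚ) kappa := by
    change famAux (q : ℚ) 27 (zvec ℚ (q : ℚ) kappa) (inv 27 tRow.1.1) tRow.1.1 = _
    rw [sortedInv sorted_row]
    rfl
  have hnz : q ∈ nonZeroDivisors ℤ := mem_nonZeroDivisors_of_ne_zero hqz
  have hnz1 : 1 + q ∈ nonZeroDivisors ℤ := mem_nonZeroDivisors_of_ne_zero hq1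
  have hImB : ∀ t, BC.Im (Int.castRingHom ℚ) (bvec ℤ q kappa t) (B t) := fun t =>
    BC.Im.bvec (φ := Int.castRingHom ℚ) rfl kappa t
  have hTB : ∀ j, j + 1 < 27 → ∀ t, ∃ M : Lat kappa → ℤ,
      gT ℚ (q : ℚ) 27 j • B t = ∑ s, (M s : ℚ) • B s := by
    intro j hj t
    obtain ⟨M, hM⟩ := gT_bvec (hBAS ℤ q 27 kappa hnz hnz1) j t
    refine ⟨M, ?_⟩
    have h3 : BC.Im (Int.castRingHom ℚ) (gT ℤ q 27 j • bvec ℤ q kappa t)
        (gT ℚ (q : ℚ) 27 j • B t) := (hImB t).gT rfl hj
    have h4 := BC.Im.sum Finset.univ (fun s _ => (hImB s).smul (M s))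
    rw [hM] at h4
    exact h3.unique h4
  have hSrow : ∀ t, ∃ f, f ∈ S ∧ Ψ f = B t := by
    intro t
    have h1 : B t ∈ (Specht ℚ (q : ℚ) kappa).restrictScalars ℚ := by
      rw [← hBAS ℚ (q : ℚ) 27 kappa (mem_nonZeroDivisors_of_ne_zero hq0)
        (mem_nonZeroDivisors_of_ne_zero hqok.one_add.2.2)]
      exact Submodule.subset_span ⟨t, rfl⟩
    rw [← hrange] at h1
    obtain ⟨f, hf⟩ := h1
    refine ⟨f, ⟨fun s => if s = t then 1 else 0, ?_, ?_⟩, hf⟩
    · intro s
      change IsO (if s = t then (1 : ℚ) else 0)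
      split_ifs
      · exact IsO.one
      · exact IsO.zero
    · rw [hf]
      simp
  have hcert := cert hgood (CSet kappa) (hGOOD 27 kappa).1 (by
      rintro α ⟨t, rfl⟩
      exact ctn_zero (by norm_num) t.2) γ hwt αr αc hr hc ((q : ℚ) ^ L) (hqok.unit.pow L)
      (by rw [hγr, prod_kap]) S
      ⟨fun _ => 0, fun _ => IsO.zero, by
        have : Ψ (fun _ => 0) = 0 := map_zero Ψ
        rw [this]
        simp⟩
      (by
        rintro f ⟨a, ha, hfa⟩ g ⟨b, hb, hgb⟩
        refine ⟨fun t => a t + b t, fun t => (ha t).add (hb t), ?_⟩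
        have : Ψ (fun α => f α + g α) = Ψ f + Ψ g := map_add Ψ f g
        rw [this, hfa, hgb, ← Finset.sum_add_distrib]
        apply Finset.sum_congr rfl
        intro t _
        rw [add_smul])
      (by
        rintro c hcO f ⟨a, ha, hfa⟩
        refine ⟨fun t => c * a t, fun t => hcO.mul (ha t), ?_⟩
        have : Ψ (fun α => c * f α) = c • Ψ f := map_smul Ψ c f
        rw [this, hfa, Finset.smul_sum]
        apply Finset.sum_congr rfl
        intro t _
        rw [mul_smul])
      (by
        rintro j hj f ⟨a, ha, hfa⟩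
        choose M hM using fun t => hTB j hj t
        refine ⟨fun s => ∑ t, a t * M t s, fun s => IsO.sum _ _
          (fun t _ => (ha t).mul (IsO.int _)), ?_⟩
        rw [hΨT j hj, hfa, Finset.smul_sum]
        have h1 : ∀ t, gT ℚ (q : ℚ) 27 j • a t • B t = ∑ s, (a t * M t s) • B s := by
          intro t
          rw [smul_algebra_smul_comm, hM t, Finset.smul_sum]
          apply Finset.sum_congr rfl
          intro s _
          rw [mul_smul]
        simp only [h1]
        rw [Finset.sum_comm]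
        apply Finset.sum_congr rfl
        intro s _
        rw [Finset.sum_smul])
      ⟨fun s => if s = tRow then 1 else 0, by
        intro s
        change IsO (if s = tRow then (1 : ℚ) else 0)
        split_ifs
        · exact IsO.one
        · exact IsO.zero, by
        rw [hΨr, ← hzvec]
        simp⟩
      (by
        rintro f ⟨a, ha, hfa⟩
        have hp := hpath pth (by
          rw [hr, hc]
          exact (pathK_sound hq0 pth rowK colK pathOK_pth).1)
        rw [hr] at hp
        have hqL : (q : ℚ) ^ L ≠ 0 := pow_ne_zero _ hq0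
        have hpp : pathProd (q : ℚ) pth (dec rowK) ≠ 0 := by
          intro h0
          rw [h0, mul_zero] at hp
          exact hqL hp.symm
        have h1 := hκ f
        have h2 : ∀ t, IsO (bform (B t) (wd ℚ (q : ℚ) wCol)) := by
          intro t
          have h3 : BC.Im (Int.castRingHom ℚ) (wd ℤ q wCol) (wd ℚ (q : ℚ) wCol) := by
            intro w
            change ((if w = wCol then (1 : ℤ) else 0 : ℤ) : ℚ) = if w = wCol then 1 else 0
            split_ifs <;> norm_num
          have h4 := BC.Im.bform (φ := Int.castRingHom ℚ) rfl (hImB t) h3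
          rw [← h4]
          exact IsO.int _
        have h3 : IsO (κ * f αc) := by
          rw [← h1, hfa, bform_sum_left]
          apply IsO.sum
          intro t _
          rw [bform_smul_left]
          exact (ha t).mul (h2 t)
        have h4 : f αc * (pathProd (q : ℚ) pth (dec rowK))⁻¹ = ((q : ℚ) ^ L)⁻¹ * (κ * f αc) := by
          field_simp
          rw [← hp]
          ring
        rw [h4]
        exact (hqok.unit.pow L).2.1.mul h3)
  obtain ⟨f, ⟨a, ha, hfa⟩, hf1, hf2⟩ := hcert
  obtain ⟨b, hb, hc'⟩ := common_den Finset.univ a ha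
  choose c hcc using fun t => hc' t (Finset.mem_univ t)
  have hgram : ∀ s t, bform (B s) (B t) = ((aeval q (gram kappa s t) : ℤ) : ℚ) := by
    intro s t
    rw [bc ℤ q 27 kappa s t]
    exact (BC.Im.bform (φ := Int.castRingHom ℚ) rfl (hImB s) (hImB t)).symm
  have hrow : ∀ s, bform (Ψ f) (B s) = ∑ t, a t * ((aeval q (gram kappa t s) : ℤ) : ℚ) := by
    intro s
    rw [hfa, bform_sum_left]
    apply Finset.sum_congr rfl
    intro t _
    rw [bform_smul_left, hgram]
  have hbO : IsU (b : ℚ) := by
    have := IsU.of_int (a := (b : ℤ)) (by exact_mod_cast hb)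
    push_cast at this
    exact this
  refine ⟨c, ?_, ?_⟩
  · intro s
    obtain ⟨w, hw, hws⟩ := hSrow s
    obtain ⟨y, hy, hy2⟩ := hf1 w hw
    rw [← hform, hws, hrow] at hy2
    have h1 : ((∑ t, c t * aeval q (gram kappa t s) : ℤ) : ℚ) = (13 : ℕ) * (b * y) := by
      push_cast
      rw [show (13 : ℚ) * (b * y) = b * (13 * y) by ring, ← hy2, Finset.mul_sum]
      apply Finset.sum_congr rfl
      intro t _
      rw [← hcc t]
      ring
    have h2 := IsO.int_dvd (Or.inl rfl) (hbO.1.mul hy) h1
    exact_mod_cast h2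
  · rintro ⟨m, hm⟩
    apply hf2
    refine ⟨(m : ℚ) * ((b : ℚ)⁻¹ * (b : ℚ)⁻¹), (IsO.int m).mul (hbO.2.1.mul hbO.2.1), ?_⟩
    have h1 : bform (Ψ f) (Ψ f) =
        ∑ s, ∑ t, a s * a t * ((aeval q (gram kappa t s) : ℤ) : ℚ) := by
      conv_lhs => rw [bform_comm]
      rw [show bform (Ψ f) (Ψ f) = bform (∑ s, a s • B s) (Ψ f) by rw [← hfa], bform_sum_left]
      apply Finset.sum_congr rfl
      intro s _
      rw [bform_smul_left, bform_comm, hrow, Finset.mul_sum]
      apply Finset.sum_congr rfl
      intro t _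
      ring
    have h2 : ((∑ s, ∑ t, c s * c t * aeval q (gram kappa t s) : ℤ) : ℚ) =
        (b : ℚ) * b * bform (Ψ f) (Ψ f) := by
      rw [h1]
      push_cast
      rw [Finset.mul_sum]
      apply Finset.sum_congr rfl
      intro s _
      rw [Finset.mul_sum]
      apply Finset.sum_congr rfl
      intro t _
      rw [← hcc s, ← hcc t]
      ring
    rw [← hform]
    have h3 : (169 : ℚ) * m = (b : ℚ) * b * bform (Ψ f) (Ψ f) := by
      rw [← h2, hm]
      push_cast
      ring
    have hb0 : (b : ℚ) ≠ 0 := hbO.2.2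
    field_simp
    linear_combination -h3

theorem certOut (hSEMI : S_SEMI) (hBAS : S_BAS) (hGOOD : S_GOOD) : S_CERTOUT := by
  intro z hz
  obtain ⟨v, h1, h2⟩ := certInt hSEMI hBAS hGOOD (q := z) hz
  have he : ∀ s t, (gram kappa s t).eval z = aeval z (gram kappa t s) := by
    intro s t
    rw [Polynomial.coe_aeval_eq_eval, show gram kappa s t = gram kappa t s from bform_comm _ _]
  refine ⟨v, ?_, ?_⟩
  · intro s
    have h3 : ∑ t, (gram kappa s t).eval z * v t = ∑ t, v t * aeval z (gram kappa t s) := by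
      apply Finset.sum_congr rfl
      intro t _
      rw [he, mul_comm]
    rw [h3]
    exact h1 s
  · have h3 : ∑ s, ∑ t, v s * ((gram kappa s t).eval z * v t) =
        ∑ s, ∑ t, v s * v t * aeval z (gram kappa t s) := by
      apply Finset.sum_congr rfl
      intro s _
      apply Finset.sum_congr rfl
      intro t _
      rw [he]
      ring
    rw [h3]
    exact h2

end Pool.Agent.James
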