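import Mathlib

/-!
Ranks of matrices over the polynomial ring at a cube root of unity (helper83).
-/

set_option autoImplicit false

namespace Pool.Agent.James

open Matrix Polynomial

section Minor

variable {K : Type*} [Field K] {m n : Type*} [Fintype m] [Fintype n]

/-- A matrix of rank `r` has rows, as many as its rank, which are linearly independent. -/
theorem exists_rows (M : Matrix m n K) :
    ∃ I : Fin M.rank → m, LinearIndependent K (M.submatrix I id).row := by
  obtain ⟨κ, a, ha, hsp, hli⟩ := exists_linearIndependent' K M.row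
  have : Finite κ := Finite.of_injective a ha
  have : Fintype κ := Fintype.ofFinite κ
  have h1 : Fintype.card κ = M.rank := by
    rw [Matrix.rank_eq_finrank_span_row, ← hsp, finrank_span_eq_card hli]
  let e : Fin M.rank ≃ κ := (finCongr h1.symm).trans (Fintype.equivFin κ).symm
  exact ⟨a ∘ e, hli.comp e e.injective⟩

/-- A matrix of rank `r` has a nonzero minor of size `r`. -/
theorem exists_minor (M : Matrix m n K) :
    ∃ (I : Fin M.rank → m) (J : Fin M.rank → n), (M.submatrix I J).det ≠ 0 := by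
  obtain ⟨I, hI⟩ := exists_rows M
  have h1 : (M.submatrix I id).rank = M.rank := by
    rw [hI.rank_matrix, Fintype.card_fin]
  obtain ⟨J, hJ⟩ := exists_rows ((M.submatrix I id)ᵀ)
  have h2 : ((M.submatrix I id)ᵀ).rank = M.rank := by rw [Matrix.rank_transpose, h1]
  refine ⟨I, J ∘ (finCongr h2.symm), ?_⟩
  have h3 : LinearIndependent K ((M.submatrix I (J ∘ (finCongr h2.symm)))ᵀ).row :=
    hJ.comp (finCongr h2.symm) (finCongr h2.symm).injective
  have h4 := Matrix.linearIndependent_rows_iff_isUnit.1 h3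
  rw [Matrix.isUnit_iff_isUnit_det, Matrix.det_transpose] at h4
  exact h4.ne_zero

omit [Fintype m] in
/-- A nonzero minor bounds the rank from below. -/
theorem le_rank_of_det_ne_zero (M : Matrix m n K) {l : Type*} [Fintype l] [DecidableEq l]
    (I : l → m) (J : l → n) (h : (M.submatrix I J).det ≠ 0) : Fintype.card l ≤ M.rank := by
  have h1 : (M.submatrix I J).rank = Fintype.card l := Matrix.rank_of_det_ne_zero h
  rw [← h1]
  exact Matrix.rank_submatrix_le M I J

end Minor

section Cyclotomic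

/-- An integer polynomial which vanishes at a primitive cube root of unity of characteristic zero
is divisible by `X ^ 2 + X + 1`. -/
theorem dvd_of_aeval_eq_zero {C : Type*} [Field C] [CharZero C] (ω : C) (hω : ω ^ 2 + ω + 1 = 0)
    (P : ℤ[X]) (hP : aeval ω P = 0) : (X ^ 2 + X + 1 : ℤ[X]) ∣ P := by
  have hmonic : (X ^ 2 + X + 1 : ℤ[X]).Monic := by monicity!
  have hdeg : (X ^ 2 + X + 1 : ℤ[X]).natDegree = 2 := by compute_degree!
  rw [← Polynomial.modByMonic_eq_zero_iff_dvd hmonic]
  have h1 : (P %ₘ (X ^ 2 + X + 1 : ℤ[X])).natDegree < 2 := by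
    have := Polynomial.natDegree_modByMonic_lt P hmonic (by
      intro h; rw [h] at hdeg; simp at hdeg)
    omega
  have h2 : aeval ω (P %ₘ (X ^ 2 + X + 1 : ℤ[X])) = 0 := by
    have h3 := Polynomial.modByMonic_add_div P (X ^ 2 + X + 1 : ℤ[X])
    have h4 := congrArg (aeval ω) h3
    rw [map_add, map_mul, hP] at h4
    have h5 : aeval ω (X ^ 2 + X + 1 : ℤ[X]) = 0 := by simp [hω]
    rw [h5, zero_mul, add_zero] at h4
    exact h4
  generalize P %ₘ (X ^ 2 + X + 1 : ℤ[X]) = R at h1 h2
  obtain ⟨a, b, rfl⟩ := Polynomial.exists_eq_X_add_C_of_natDegree_le_one (p := R) (by omega)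
  have h3 : (a : C) * ω + b = 0 := by simpa using h2
  -- `(a ω + b) (a ω̄ + b) = a² - ab + b²`
  have h4 : ((a ^ 2 - a * b + b ^ 2 : ℤ) : C) = 0 := by
    push_cast
    have : ((a : C) * ω + b) * (a * (-1 - ω) + b) = a ^ 2 - a * b + b ^ 2 := by
      have hω' : ω ^ 2 = -ω - 1 := by linear_combination hω
      ring_nf
      rw [hω']
      ring
    rw [← this, h3, zero_mul]
  have h5 : a ^ 2 - a * b + b ^ 2 = 0 := by exact_mod_cast h4
  have h6 : a = 0 := by nlinarith [sq_nonneg (2 * b - a), sq_nonneg a]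
  have h7 : b = 0 := by nlinarith [sq_nonneg (2 * b - a), sq_nonneg b]
  rw [h6, h7]
  simp

/-- Hence it vanishes at every root of `X ^ 2 + X + 1` in every commutative ring. -/
theorem aeval_eq_zero_of_omega {C : Type*} [Field C] [CharZero C] (ω : C)
    (hω : ω ^ 2 + ω + 1 = 0) {R : Type*} [CommRing R] (q : R) (hq : q ^ 2 + q + 1 = 0)
    (P : ℤ[X]) (hP : aeval ω P = 0) : aeval q P = 0 := by
  obtain ⟨Q, rfl⟩ := dvd_of_aeval_eq_zero ω hω P hP
  rw [map_mul]
  have h5 : aeval q (X ^ 2 + X + 1 : ℤ[X]) = 0 := by simp [hq]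
  rw [h5, zero_mul]

/-- The specialisation of a matrix of integer polynomials. -/
noncomputable abbrev spec {ι κ : Type*} (G : Matrix ι κ ℤ[X]) {R : Type*} [CommRing R] (q : R) : Matrix ι κ R :=
  G.map (aeval q)

theorem det_spec {l : Type*} [Fintype l] [DecidableEq l] (G : Matrix l l ℤ[X]) {R : Type*}
    [CommRing R] (q : R) : (spec G q).det = aeval q G.det := by
  have := (RingHom.map_det (aeval q : ℤ[X] →ₐ[ℤ] R).toRingHom G).symm
  simpa [spec] using this

variable {ι κ : Type*} [Fintype ι] [Fintype κ]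

/-- Reduction modulo `p` does not increase the rank: for a matrix of integer polynomials, the rank
at a root `q` of `X ^ 2 + X + 1` in any field is at most the rank at a primitive cube root of unity
in characteristic zero. -/
theorem rank_spec_le (G : Matrix ι κ ℤ[X]) {F : Type*} [Field F] (q : F) (hq : q ^ 2 + q + 1 = 0)
    {C : Type*} [Field C] [CharZero C] (ω : C) (hω : ω ^ 2 + ω + 1 = 0) :
    (spec G q).rank ≤ (spec G ω).rank := by
  obtain ⟨I, J, h⟩ := exists_minor (spec G q)
  have h1 : (spec (G.submatrix I J) q).det ≠ 0 := h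
  have h2 : (spec (G.submatrix I J) ω).det ≠ 0 := by
    intro h3
    apply h1
    rw [det_spec] at h3 ⊢
    exact aeval_eq_zero_of_omega ω hω q hq _ h3
  have h3 := le_rank_of_det_ne_zero (spec G ω) I J h2
  rwa [Fintype.card_fin] at h3

/-- The Schur complement: a matrix over a commutative ring with an invertible minor all of whose
bordered minors vanish. -/
theorem schur {R : Type*} [CommRing R] {ι κ : Type*} (g : Matrix ι κ R) {r : ℕ}
    (I : Fin r → ι) (J : Fin r → κ) (hB : IsUnit (g.submatrix I J).det)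
    (hbord : ∀ a b, (g.submatrix (Sum.elim I (fun _ : Unit => a))
      (Sum.elim J (fun _ : Unit => b))).det = 0) :
    g = g.submatrix id J * (g.submatrix I J)⁻¹ * g.submatrix I id := by
  ext a b
  have hinv : Invertible (g.submatrix I J) := Matrix.invertibleOfIsUnitDet _ hB
  have h2 := hbord a b
  have h3 : g.submatrix (Sum.elim I (fun _ : Unit => a)) (Sum.elim J (fun _ : Unit => b)) =
      Matrix.fromBlocks (g.submatrix I J) (Matrix.of fun i (_ : Unit) => g (I i) b)
        (Matrix.of fun (_ : Unit) j => g a (J j)) (Matrix.of fun (_ _ : Unit) => g a b) := by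
    ext x y
    rcases x with x | x <;> rcases y with y | y <;> rfl
  rw [h3, Matrix.det_fromBlocks₁₁] at h2
  have h4 := (hB.mul_right_eq_zero).1 h2
  rw [Matrix.det_unique] at h4
  simp only [Matrix.sub_apply, Matrix.of_apply] at h4
  rw [sub_eq_zero] at h4
  rw [h4, Matrix.invOf_eq_nonsing_inv]
  simp only [Matrix.mul_apply, Matrix.submatrix_apply, Matrix.of_apply, id]

/-- Consequence for values of the bilinear form with matrix `g`. -/
theorem form_eq_zero {R : Type*} [CommRing R] {ι κ : Type*} [Fintype ι] [Fintype κ]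
    (g : Matrix ι κ R) {r : ℕ}
    (I : Fin r → ι) (J : Fin r → κ) (hB : IsUnit (g.submatrix I J).det)
    (hbord : ∀ a b, (g.submatrix (Sum.elim I (fun _ : Unit => a))
      (Sum.elim J (fun _ : Unit => b))).det = 0)
    (p : R) (hp : p * p = 0) (v : κ → R) (w : ι → R)
    (hv : ∀ i, p ∣ (g *ᵥ v) i) (hw : ∀ j, p ∣ (w ᵥ* g) j) : w ⬝ᵥ (g *ᵥ v) = 0 := by
  have e1 := schur g I J hB hbord
  have hfin : w ⬝ᵥ (g *ᵥ v) =
      ((w ᵥ* g) ∘ J) ⬝ᵥ ((g.submatrix I J)⁻¹ *ᵥ ((g *ᵥ v) ∘ I)) := by
    have e2 : (g *ᵥ v) ∘ I = g.submatrix I id *ᵥ v := rfl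
    have e3 : (w ᵥ* g) ∘ J = w ᵥ* g.submatrix id J := rfl
    rw [e2, e3]
    conv_lhs => rw [e1]
    rw [← Matrix.mulVec_mulVec, ← Matrix.mulVec_mulVec, Matrix.dotProduct_mulVec]
  rw [hfin]
  simp only [dotProduct, Matrix.mulVec, Function.comp]
  apply Finset.sum_eq_zero
  intro j _
  rw [Finset.mul_sum]
  apply Finset.sum_eq_zero
  intro i _
  obtain ⟨x, hx⟩ := hw (J j)
  obtain ⟨y, hy⟩ := hv (I i)
  have hy'' : (∑ a, g (I i) a * v a) = p * y := hy
  rw [hx, hy'']
  calc p * x * ((g.submatrix I J)⁻¹ j i * (p * y)) =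
      p * p * (x * (g.submatrix I J)⁻¹ j i * y) := by ring
    _ = 0 := by rw [hp, zero_mul]

/-- The strict inequality.  `p` is a prime, `z` a root of `X ^ 2 + X + 1` modulo `p ^ 2`, `F` a
field of characteristic `p`, and `v`, `w` are vectors modulo `p ^ 2` such that all
entries of `G v` and of `w G` are divisible by `p` but `w G v` is not zero modulo `p ^ 2`. -/
theorem rank_spec_lt (G : Matrix ι κ ℤ[X]) (p : ℕ) [Fact p.Prime] {F : Type*} [Field F] [CharP F p]
    (z : ℤ) (hz : ((p ^ 2 : ℕ) : ℤ) ∣ z ^ 2 + z + 1)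
    {C : Type*} [Field C] [CharZero C] (ω : C) (hω : ω ^ 2 + ω + 1 = 0)
    (v : κ → ZMod (p ^ 2)) (w : ι → ZMod (p ^ 2))
    (hv : ∀ i, (p : ZMod (p ^ 2)) ∣ (spec G (z : ZMod (p ^ 2)) *ᵥ v) i)
    (hw : ∀ j, (p : ZMod (p ^ 2)) ∣ (w ᵥ* spec G (z : ZMod (p ^ 2))) j)
    (hvw : w ⬝ᵥ (spec G (z : ZMod (p ^ 2)) *ᵥ v) ≠ 0) :
    (spec G (z : F)).rank < (spec G ω).rank := by
  have hzF : (z : F) ^ 2 + z + 1 = 0 := by
    have h1 : ((z ^ 2 + z + 1 : ℤ) : F) = 0 := by
      rw [CharP.intCast_eq_zero_iff F p]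
      refine dvd_trans ?_ hz
      push_cast
      exact dvd_pow_self _ (by norm_num)
    exact_mod_cast h1
  have hzR : (z : ZMod (p ^ 2)) ^ 2 + z + 1 = 0 := by
    have h1 : ((z ^ 2 + z + 1 : ℤ) : ZMod (p ^ 2)) = 0 := by
      rw [ZMod.intCast_zmod_eq_zero_iff_dvd]
      exact hz
    exact_mod_cast h1
  by_contra hcon
  have hle := rank_spec_le G (z : F) hzF ω hω
  have hrank : (spec G ω).rank = (spec G (z : F)).rank := le_antisymm (not_lt.1 hcon) hle
  obtain ⟨I, J, h⟩ := exists_minor (spec G (z : F))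
  have h1 : (spec (G.submatrix I J) (z : F)).det ≠ 0 := h
  rw [det_spec] at h1
  -- the minor is a unit modulo `p ^ 2`
  have hp2 : ((p : ZMod (p ^ 2))) ^ 2 = 0 := by
    have := ZMod.natCast_self (p ^ 2)
    push_cast at this
    exact this
  have hunit : IsUnit (spec (G.submatrix I J) (z : ZMod (p ^ 2))).det := by
    rw [det_spec]
    generalize (G.submatrix I J).det = P at h1 ⊢
    have e1 : aeval (z : F) P = ((P.eval z : ℤ) : F) := by
      have := Polynomial.aeval_algebraMap_apply F z P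
      simpa using this
    have e2 : aeval (z : ZMod (p ^ 2)) P = ((P.eval z : ℤ) : ZMod (p ^ 2)) := by
      have := Polynomial.aeval_algebraMap_apply (ZMod (p ^ 2)) z P
      simpa using this
    rw [e1, Ne, CharP.intCast_eq_zero_iff F p] at h1
    rw [e2]
    have h2 : IsCoprime ((P.eval z : ℤ)) ((p : ℤ) ^ 2) := by
      apply IsCoprime.pow_right
      have h3 : Prime (p : ℤ) := Nat.prime_iff_prime_int.1 Fact.out
      exact ((Prime.coprime_iff_not_dvd h3).2 h1).symm
    obtain ⟨a, b, hab⟩ := h2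
    have h3 := congrArg (Int.cast : ℤ → ZMod (p ^ 2)) hab
    rw [Int.cast_add, Int.cast_mul, Int.cast_mul, Int.cast_pow, Int.cast_natCast, hp2, mul_zero,
      add_zero, Int.cast_one] at h3
    exact IsUnit.of_mul_eq_one _ (by rw [mul_comm]; exact h3)
  apply hvw
  apply form_eq_zero (spec G (z : ZMod (p ^ 2))) I J hunit ?_ (p : ZMod (p ^ 2))
    (by rw [← sq]; exact hp2) v w hv hw
  -- all bordered minors vanish modulo `p ^ 2`
  intro a b
  have e3 : (spec G (z : ZMod (p ^ 2))).submatrix (Sum.elim I (fun _ : Unit => a))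
      (Sum.elim J (fun _ : Unit => b)) = spec (G.submatrix (Sum.elim I (fun _ : Unit => a))
      (Sum.elim J (fun _ : Unit => b))) (z : ZMod (p ^ 2)) := rfl
  rw [e3, det_spec]
  apply aeval_eq_zero_of_omega ω hω _ hzR
  rw [← det_spec]
  by_contra hne
  have h2 := le_rank_of_det_ne_zero (spec G ω) (Sum.elim I (fun _ : Unit => a))
    (Sum.elim J (fun _ : Unit => b)) hne
  rw [hrank, Fintype.card_sum, Fintype.card_fin, Fintype.card_unit] at h2
  omega

end Cyclotomic

section Gram

variable {K : Type*} [Field K] {V : Type*} [AddCommGroup V] [Module K V]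
  {ι : Type*} [Fintype ι]

/-- The dimension of a space modulo the radical of a form is the rank of the Gram matrix. -/
theorem finrank_quotient_ker_eq_rank (B : V →ₗ[K] V →ₗ[K] K) (b : Module.Basis ι K V) :
    Module.finrank K (V ⧸ LinearMap.ker B) = (Matrix.of fun i j => B (b i) (b j)).rank := by
  classical
  have h1 : Module.finrank K (V ⧸ LinearMap.ker B) = Module.finrank K (LinearMap.range B) :=
    LinearEquiv.finrank_eq B.quotKerEquivRange
  have h2 : Module.finrank K (LinearMap.range B) =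
      (LinearMap.toMatrix b b.dualBasis B).rank := by
    rw [Matrix.rank_eq_finrank_range_toLin _ b.dualBasis b, Matrix.toLin_toMatrix]
  rw [h1, h2, ← Matrix.rank_transpose]
  congr 1
  ext i j
  simp [LinearMap.toMatrix_apply]

end Gram

end Pool.Agent.James
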