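import Pool.Agent.James.Defs
import Pool.Agent.James.Rank
import Pool.Agent.Lib_helper92.James.SemiMod

/-!
Module statements for the counterexample to James' conjecture for `e = 3` (`n = 27`, `p = 13`).
Each `S_XXX` is a proposition; the doc comment sketches the proof.
-/

set_option autoImplicit false

namespace Pool.Agent.James

open Polynomial

/-! ### Families of vectors indexed by words -/

/-- `w` is weakly increasing. -/
def Sorted (n : ℕ) (w : ℕ → ℕ) : Prop := ∀ j, j + 1 < n → w j ≤ w (j + 1)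

section Fam
variable {R : Type*} [CommRing R] {n : ℕ} {ν : ℕ → ℕ}
  {V : Type*} [AddCommGroup V] [Module R V]

/-- The rules `T_j g_w = g_{s_j w}` (ascents) and `T_j g_w = ε g_w` (ties). -/
def IsFam (q : R) [Module (Hecke R q n) V] (ε : R) (g : Wd n ν → V) : Prop :=
  ∀ (w : Wd n ν) (j : ℕ), j + 1 < n →
    (w.1 j < w.1 (j + 1) → gT R q n j • g w = g (swW j w)) ∧
    (w.1 j = w.1 (j + 1) → gT R q n j • g w = ε • g w)

open scoped Classical in
/-- The vectors `g_w` built from `u = g_{w_0}` by always removing the first descent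
(`m` is a bound for the number of steps). -/
noncomputable def famAux (q : R) (n : ℕ) [Module (Hecke R q n) V] (u : V) : ℕ → (ℕ → ℕ) → V
  | 0, _ => u
  | m + 1, w => if h : ∃ j, j + 1 < n ∧ w (j + 1) < w j then
      gT R q n (Nat.find h) • famAux q n u m (sw (Nat.find h) w) else u

/-- The family generated by `u`. -/
noncomputable def fam (q : R) (ν : ℕ → ℕ) [Module (Hecke R q n) V] (u : V) (w : Wd n ν) : V :=
  famAux q n u (inv n w.1) w.1

end Fam

/-- DIAMOND LEMMA. For every vector `u` on which the `T_j` with `w0_j = w0_{j+1}` (`w0` sorted) act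
by `ε`, the family generated by `u` satisfies both rules (whatever `ε` is).
Proof: induction on `inv w`. If `w` has the descent `i` and the chosen descent is `j`: `i = j`
trivial; `|i - j| > 1` commute and use the induction hypothesis for `s_i s_j w`; `|i - j| = 1`: three
letters `a > b > c`, braid relation. Ties: if `w` is sorted use the hypothesis; else take the chosen
descent `j`; `|i - j| > 1` commute; `j = i + 1`: letters `a a b` (`a > b`):
`T_i T_{i+1} T_i g(baa) = T_{i+1} T_i T_{i+1} g(baa) = ε T_{i+1} T_i g(baa)`; `j = i - 1` similar. -/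
def S_DIAM : Prop := ∀ (R : Type) [CommRing R] (q ε : R) (n : ℕ) (ν : ℕ → ℕ)
  (V : Type) [AddCommGroup V] [Module R V] [Module (Hecke R q n) V]
  [IsScalarTower R (Hecke R q n) V] (w0 : Wd n ν) (u : V), Sorted n w0.1 →
  (∀ j, j + 1 < n → w0.1 j = w0.1 (j + 1) → gT R q n j • u = ε • u) →
  fam q ν u w0 = u ∧ IsFam q ε (fam q ν u : Wd n ν → V)

open scoped Classical in
/-- The basis vector of a word. -/
noncomputable def wd (R : Type*) [CommRing R] (q : R) {n : ℕ} {ν : ℕ → ℕ} (w : Wd n ν) :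
    Lam R q n ν := fun w' => if w' = w then 1 else 0

/-- Uniqueness of families. Proof: induction on `inv w`. -/
def S_UNIQ : Prop := ∀ (R : Type) [CommRing R] (q ε : R) (n : ℕ) (ν : ℕ → ℕ)
  (V : Type) [AddCommGroup V] [Module R V] [Module (Hecke R q n) V] (g g' : Wd n ν → V)
  (w0 : Wd n ν), Sorted n w0.1 → IsFam q ε g → IsFam q ε g' → g w0 = g' w0 → g = g'

/-- `ν` is a composition of `n`. -/
def IsComp (n : ℕ) (ν : ℕ → ℕ) : Prop := ∃ N, (∀ i, N ≤ i → ν i = 0) ∧ ps ν N = n

/-- The sorted word of content `ν`: it exists, is unique, and its ties are the generators in the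
parabolic subgroup of `ν`. -/
def S_SRT : Prop := ∀ (n : ℕ) (ν : ℕ → ℕ),
  (IsComp n ν → ∃ w0 : Wd n ν, Sorted n w0.1 ∧
    ∀ j, j + 1 < n → (w0.1 j = w0.1 (j + 1) ↔ InY ν j)) ∧
  ∀ w w' : Wd n ν, Sorted n w.1 → Sorted n w'.1 → w = w'

/-! ### Invariants -/

section Inv
variable {R : Type*} [CommRing R] {n : ℕ} {V : Type*} [AddCommGroup V] [Module R V]

/-- `v` is invariant under the parabolic subalgebra of `ν`: `T_j v = q v`. -/
def IsInv (q : R) (n : ℕ) [Module (Hecke R q n) V] (ν : ℕ → ℕ) (v : V) : Prop :=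
  ∀ j, j + 1 < n → InY ν j → gT R q n j • v = q • v

/-- Left invariant elements of the Hecke algebra. -/
def LInv (q : R) (n : ℕ) (ν : ℕ → ℕ) (h : Hecke R q n) : Prop :=
  ∀ j, j + 1 < n → InY ν j → gT R q n j * h = q • h

end Inv

/-- Strictly increasing inside each block of `ν`. -/
def BlockIncr (n : ℕ) (ν : ℕ → ℕ) (w : ℕ → ℕ) : Prop :=
  ∀ k l, k < l → l < n → SameBlock ν k l → w k < w l

/-- Invariants of word modules. Proof: if `T_j f = q f` then at a tie `-f w = q f w`, at an ascent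
`q f (s_j w) = q f w`. So `f` is constant along exchanges inside blocks and vanishes on words with
two equal letters in a block (bring them together: induction on the distance); a word with distinct
letters in the blocks can be sorted inside the blocks (induction on `inv`). -/
def S_INV : Prop := ∀ (R : Type) [CommRing R] (q : R) (n : ℕ) (μ ν : ℕ → ℕ) (f : Lam R q n μ),
  q ∈ nonZeroDivisors R → (1 + q) ∈ nonZeroDivisors R → IsInv q n ν f →
  (∀ w : Wd n μ, ¬ BlockDistinct n ν w.1 → f w = 0) ∧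
  ((∀ w : Wd n μ, BlockIncr n ν w.1 → f w = 0) → f = 0)

/-- `z_λ` is invariant. -/
def S_ZINV : Prop := ∀ (R : Type) [CommRing R] (q : R) (n : ℕ) (μ : Ptn n),
  IsInv q n μ.part (zvec R q μ)

/-- The row word: the unique word of content `λ'` increasing in the blocks of `λ` (it is
`0 1 ... λ_0 - 1 0 1 ... λ_1 - 1 ...`); it has the smallest number of inversions among the words of
content `λ'` with distinct letters in the blocks. Proof: if `w` is block distinct then the letters
in block `r` are `0, ..., λ_r - 1`: count the positions with a letter `< m`: it is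
`∑_{c<m} λ'_c = ∑_r min (λ_r) m`, and block `r` contains at most `min (λ_r) m` of them, so
equality everywhere; take `m = λ_r`. -/
def S_ROW : Prop := ∀ (n : ℕ) (μ : Ptn n), ∃ wr : Wd n μ.conj, BlockIncr n μ.part wr.1 ∧
  ∀ w : Wd n μ.conj, BlockDistinct n μ.part w.1 →
    inv n wr.1 ≤ inv n w.1 ∧ (inv n w.1 = inv n wr.1 → w = wr) ∧
    (BlockIncr n μ.part w.1 → w = wr)

/-- Dominance. Proof: the letter `c` occurs in at most `min k (μ'_c)` of the first `k` blocks of
`ν`; `∑_c min k (μ'_c) = ∑_{i<k} μ_i`. -/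
def S_DOM : Prop := ∀ (n : ℕ) (μ ν : Ptn n) (w : Wd n μ.conj),
  BlockDistinct n ν.part w.1 → ∀ k, ps ν.part k ≤ ps μ.part k

/-- The composition of the Garnir relation `(r, c)`, `c < λ_{r+1}`: the rows `r, r + 1` (lengths
`a, b`) are replaced by three blocks of lengths `c, a + 1, b - c - 1`. -/
def garComp (μ : ℕ → ℕ) (r c : ℕ) : ℕ → ℕ := fun i =>
  if i < r then μ i else if i = r then c else if i = r + 1 then μ r + 1 else
    if i = r + 2 then μ (r + 1) - c - 1 else μ (i - 1)

/-- There is no word of content `λ'` with distinct letters in the blocks of `garComp`.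
Proof: the first `r` blocks and the block of length `λ_r + 1` contain `λ_0 + ... + λ_r + 1`
positions, but the letter `c'` occurs at most `min (r + 1) (λ'_{c'})` times in them. -/
def S_NOWORD : Prop := ∀ (n : ℕ) (μ : Ptn n) (r c : ℕ), c < μ.part (r + 1) →
  ∀ w : Wd n μ.conj, ¬ BlockDistinct n (garComp μ.part r c) w.1

/-! ### Symmetrizers -/

/-- `[m]_q!` -/
def qfac {R : Type*} [CommRing R] (q : R) (m : ℕ) : R :=
  ∏ i ∈ Finset.range m, ∑ k ∈ Finset.range (i + 1), q ^ k

/-- The symmetrizer of the parabolic subalgebra of `ν`. -/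
structure IsSym {R : Type} [CommRing R] (q : R) (n : ℕ) (ν : ℕ → ℕ) (X : Hecke R q n) : Prop where
  left : LInv q n ν X
  right : ∀ j, j + 1 < n → InY ν j → X * gT R q n j = q • X
  eig : ∀ (V : Type) [AddCommGroup V] [Module R V] [Module (Hecke R q n) V]
    [IsScalarTower R (Hecke R q n) V] (v : V), IsInv q n ν v →
    ∀ N, (∀ i, N ≤ i → ν i = 0) → X • v = (∏ r ∈ Finset.range N, qfac q (ν r)) • v
  adj : ∀ (μ : ℕ → ℕ) (f g : Lam R q n μ), bform (X • f) g = bform f (X • g)
  supp : ∀ (μ : ℕ → ℕ) (f : Lam R q n μ), (∀ w : Wd n μ, ¬ BlockIncr n ν w.1 → f w = 0) →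
    ∀ w : Wd n μ, BlockIncr n ν w.1 → (X • f) w = f w

/-- Existence. For a block of length `m` starting at `o` (1-based generators `T_1, T_2, ...` of the
block): `σ_0 = 1`, `ρ_0 = 1`, `ρ_m = 1 + T_m ρ_{m-1}`, `ρ'_m = 1 + ρ'_{m-1} T_m`,
`σ_{m+1} = σ_m ρ_m = ρ'_m σ_m` (the equality by induction: `σ_m ρ_m =
ρ'_{m-1} σ_{m-1} (1 + T_m ρ_{m-1}) = ρ'_{m-1} (σ_{m-1} + T_m σ_m)`, `ρ'_m σ_m = σ_m +
ρ'_{m-1} T_m σ_m`). Left invariance: for `i < m` from `σ_m ρ_m`; `T_m ρ_{m-1} ρ_m = q ρ_{m-1} ρ_m`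
by induction. `X` = product of the block symmetrizers. `supp`: if `f` vanishes on all words that
agree with `w` outside the block except `w` and `w` is increasing in the block then
`(σ f) w = f w` (induction on `m` with `σ_{m+1} = σ_m ρ_m`). -/
def S_SYM : Prop := ∀ (R : Type) [CommRing R] (q : R) (n : ℕ) (ν : ℕ → ℕ), IsComp n ν →
  ∃ X, IsSym q n ν X

/-- `J_ν = X H`. Proof: `M = Lam` of content `1^n` (all letters distinct); `h ↦ h δ_{w0}` and
`f ↦ ∑ f w g_w` (`g` the family generated by `1` in the left regular module) are inverse to each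
other; an invariant `m` of `M` equals `X m₁`, `m₁` = restriction of `m` to the block increasing
words (`S_INV`, `supp`). -/
def S_JX : Prop := ∀ (R : Type) [CommRing R] (q : R) (n : ℕ) (ν : ℕ → ℕ) (X h : Hecke R q n),
  q ∈ nonZeroDivisors R → (1 + q) ∈ nonZeroDivisors R → IsComp n ν → IsSym q n ν X →
  LInv q n ν h → ∃ h', h = X * h'

/-- `z_λ = X δ_{row}`, and `⟨z, z⟩ = q^L [λ]!`. -/
def S_ZX : Prop := ∀ (R : Type) [CommRing R] (q : R) (n : ℕ) (μ : Ptn n) (X : Hecke R q n)
  (wr : Wd n μ.conj), q ∈ nonZeroDivisors R → (1 + q) ∈ nonZeroDivisors R →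
  IsSym q n μ.part X → BlockIncr n μ.part wr.1 → (∀ w : Wd n μ.conj, BlockIncr n μ.part w.1 → w = wr) →
  zvec R q μ = X • wd R q wr ∧
  bform (zvec R q μ) (zvec R q μ) =
    q ^ inv n wr.1 * ∏ r ∈ Finset.range n, qfac q (μ.part r)

/-! ### The submodule theorem -/

section Sub
variable (F : Type) [Field F] (q : F) (n : ℕ)

/-- Submodule theorem. Proof: if `N` is not orthogonal to `S = H z` then it is not orthogonal to
`z` (the orthogonal space is a submodule), so `⟨x', z⟩ ≠ 0`, `x' ∈ N`; `z = X δ`, so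
`⟨X x', δ⟩ ≠ 0` and `X x'` is an invariant of `N`, a nonzero multiple of `z`. -/
def S_SUBT : Prop := ∀ (F : Type) [Field F] (q : F) (n : ℕ) (μ : Ptn n), q ≠ 0 → 1 + q ≠ 0 →
  (∀ N : Submodule (Hecke F q n) (Specht F q μ), N = ⊤ ∨ N ≤ spechtRad F q μ) ∧
  (Nontrivial (Dmod F q μ) → IsSimpleModule (Hecke F q n) (Dmod F q μ)) ∧
  (∀ (h : Hecke F q n) (s : Lam F q n μ.conj), LInv q n μ.part h → s ∈ Specht F q μ → h • s ≠ 0 →
    Nontrivial (Dmod F q μ))

/-- The modules `D^μ` are pairwise non isomorphic. Proof: `X_μ D^μ ≠ 0` (as `⟨z, s⟩ ≠ 0` gives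
`X s ≠ 0` modulo the radical); if `D^μ ≅ D^ν` then `X_μ (Lam ν') ≠ 0`, so `μ ⊴ ν` by `S_DOM`. -/
def S_NONISO : Prop := ∀ (F : Type) [Field F] (q : F) (n : ℕ) (μ ν : Ptn n), q ≠ 0 → 1 + q ≠ 0 →
  Nontrivial (Dmod F q μ) → Nonempty (Dmod F q μ ≃ₗ[Hecke F q n] Dmod F q ν) → μ = ν

end Sub

/-! ### Lattice words, basis, Gram matrix -/

/-- Lattice words (row words of standard tableaux). -/
def IsLat (n : ℕ) (w : ℕ → ℕ) : Prop := ∀ r m, m ≤ n → cnt w (r + 1) m ≤ cnt w r m

/-- Standard tableaux of shape `λ`, as lattice words of content `λ`: the letter at `k` is the row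
(numbered from 0) of the entry `k + 1`. -/
abbrev Lat {n : ℕ} (μ : Ptn n) : Type := {w : Wd n μ.part // IsLat n w.1}

noncomputable instance {n : ℕ} (μ : Ptn n) : Fintype (Lat μ) := Fintype.ofFinite _

/-- The column word of a row word (and conversely). -/
def colw (n : ℕ) (w : ℕ → ℕ) : ℕ → ℕ := fun k => if k < n then cnt w (w k) k else 0

/-- Facts on column words. -/
def S_COLW : Prop := ∀ (n : ℕ) (μ : Ptn n) (t : Lat μ), IsWord n μ.conj (colw n t.1.1) ∧
  colw n (colw n t.1.1) = t.1.1 ∧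
  (∀ j, j + 1 < n → t.1.1 (j + 1) < t.1.1 j → colw n t.1.1 j < colw n t.1.1 (j + 1)) ∧
  (∀ j, j + 1 < n → colw n t.1.1 (j + 1) < colw n t.1.1 j → t.1.1 j < t.1.1 (j + 1)) ∧
  (∀ j, j + 1 < n → t.1.1 (j + 1) < t.1.1 j → IsLat n (sw j t.1.1)) ∧
  (∀ j, j + 1 < n → colw n t.1.1 (j + 1) < colw n t.1.1 j → IsLat n (sw j t.1.1)) ∧
  (∀ j, j + 1 < n → t.1.1 j ≠ t.1.1 (j + 1) → colw n (sw j t.1.1) = sw j (colw n t.1.1))

/-- The vectors `g_t z`. -/
noncomputable def bvec (R : Type) [CommRing R] (q : R) {n : ℕ} (μ : Ptn n) (t : Lat μ) :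
    Lam R q n μ.conj := fam q μ.part (zvec R q μ) t.1

/-- Independence. Proof: let `L = inv (row word)`. (a) `g_t w ≠ 0` implies `inv t + inv w ≥ L`
(induction on `inv t`); (b) if `inv t + inv w = L` then `g_t w = q ^ inv t` if `w = colw t` and `0`
otherwise. -/
def S_IND : Prop := ∀ (R : Type) [CommRing R] (q : R) (n : ℕ) (μ : Ptn n),
  q ∈ nonZeroDivisors R → (1 + q) ∈ nonZeroDivisors R → LinearIndependent R (bvec R q μ)

/-- The belt of the Garnir relation `(r, c)`. -/
def InBelt (μ : ℕ → ℕ) (r c : ℕ) (w0 w : ℕ → ℕ) : Prop :=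
  ∀ k, (k < ps μ r + c ∨ ps μ (r + 1) + c + 1 ≤ k) → w k = w0 k

open scoped Classical in
/-- Invariance of the belt sums. Proof: pair `w` and `s_j w`. -/
def S_BELT : Prop := ∀ (R : Type) [CommRing R] (q : R) (n : ℕ) (μ : Ptn n)
  (V : Type) [AddCommGroup V] [Module R V] [Module (Hecke R q n) V]
  [IsScalarTower R (Hecke R q n) V] (g : Wd n μ.part → V) (w0 : Wd n μ.part), Sorted n w0.1 →
  IsFam q q g → ∀ r c, c < μ.part (r + 1) →
  IsInv q n (garComp μ.part r c) (∑ w ∈ Finset.univ.filter (fun w => InBelt μ.part r c w0.1 w.1), g w)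

open scoped Classical in
/-- STRAIGHTENING. Proof: for a non-lattice word `w` choose `r`, `c` such that some prefix contains
more than `c` letters `r + 1` and at most `c` letters `r` (property `V (r, c)`); claim: `g_w` is in the
span of the `g_{w'}` with `inv w' < inv w`. Induction on `inv w` for fixed `(r, c)`: if some descent
`i` of `w` has `V (s_i w)`: `g_w = T_i g_{s_i w}`. Otherwise `w` has exactly one descent `i`, with
letters `r + 1, r`, the first `i + 1` letters contain exactly `c + 1` letters `r + 1` and `c` letters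
`r`, and `w` is the element of the belt with the most inversions: use the belt relation. -/
def S_SPAN : Prop := ∀ (R : Type) [CommRing R] (q : R) (n : ℕ) (μ : Ptn n)
  (V : Type) [AddCommGroup V] [Module R V] [Module (Hecke R q n) V]
  [IsScalarTower R (Hecke R q n) V] (g : Wd n μ.part → V) (w0 : Wd n μ.part), Sorted n w0.1 →
  IsFam q q g →
  (∀ r c, c < μ.part (r + 1) →
    ∑ w ∈ Finset.univ.filter (fun w => InBelt μ.part r c w0.1 w.1), g w = 0) →
  ∀ w, g w ∈ Submodule.span R (Set.range (fun t : Lat μ => g t.1))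

/-- The vectors `g_t z` span the Specht module. -/
def S_BAS : Prop := ∀ (R : Type) [CommRing R] (q : R) (n : ℕ) (μ : Ptn n),
  q ∈ nonZeroDivisors R → (1 + q) ∈ nonZeroDivisors R →
  Submodule.span R (Set.range (bvec R q μ)) = (Specht R q μ).restrictScalars R

/-- The universal Gram matrix. -/
noncomputable def gram {n : ℕ} (μ : Ptn n) : Matrix (Lat μ) (Lat μ) ℤ[X] :=
  fun s t => bform (bvec ℤ[X] X μ s) (bvec ℤ[X] X μ t)

/-- Base change of the Gram matrix. -/
def S_BC : Prop := ∀ (R : Type) [CommRing R] (q : R) (n : ℕ) (μ : Ptn n) (s t : Lat μ),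
  aeval q (gram μ s t) = bform (bvec R q μ s) (bvec R q μ t)

/-- The dimension of `D^μ` is the rank of the Gram matrix. -/
def S_DIM : Prop := ∀ (F : Type) [Field F] (q : F) (n : ℕ) (μ : Ptn n), q ≠ 0 → 1 + q ≠ 0 →
  Module.finrank F (Dmod F q μ) = (spec (gram μ) q).rank

/-! ### Completeness -/

/-- For a nonzero module choose the partition `λ` with `J_λ V ≠ 0` for which `∑ (3 ^ λ_i - 1)` is
maximal: then `J_ν V = 0` for the Garnir compositions `ν`. (If `J_ν V ≠ 0`, `h ∈ J_ν`, then also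
`J_{ν∘π} V ≠ 0` for every permutation `π` of the parts: the family generated by `h` in the left
regular module at the word with the blocks permuted.) -/
def S_MAX : Prop := ∀ (F : Type) [Field F] (q : F) (n : ℕ) (V : Type) [AddCommGroup V] [Module F V]
  [Module (Hecke F q n) V] [IsScalarTower F (Hecke F q n) V] [Nontrivial V], q ≠ 0 →
  ∃ μ : Ptn n, (∃ (h : Hecke F q n) (v : V), LInv q n μ.part h ∧ h • v ≠ 0) ∧
    ∀ r c, c < μ.part (r + 1) → ∀ h : Hecke F q n, LInv q n (garComp μ.part r c) h →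
      ∀ v : V, h • v = 0

/-- Every simple module is some `D^μ`. Proof: take `μ` from `S_MAX`, `u = h e ≠ 0`; the belt sums of
the family generated by `(u, z)` in `V × S^μ` vanish (`S_BELT` applied in the Hecke algebra and
`S_NOWORD`), so by `S_SPAN` the submodule `G` generated by `(u, z)` has dimension at most the number
of lattice words = `dim S^μ`; as `G → S^μ` is onto it is injective on `G`, so `V` is a quotient of
`S^μ` with `z ↦ u`. By `S_SUBT` (third part: `h` acts nontrivially) it is `D^μ`. -/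
def S_COMP : Prop := ∀ (F : Type) [Field F] (q : F) (n : ℕ) (V : Type) [AddCommGroup V] [Module F V]
  [Module (Hecke F q n) V] [IsScalarTower F (Hecke F q n) V]
  [IsSimpleModule (Hecke F q n) V] [FiniteDimensional F V], q ≠ 0 → 1 + q ≠ 0 →
  ∃ μ : Ptn n, Nonempty (V ≃ₗ[Hecke F q n] Dmod F q μ)

/-! ### The seminormal form -/

/-- The content sequence of a word. -/
def ctn (n : ℕ) (w : ℕ → ℕ) : ℕ → ℤ := fun k => if k < n then (colw n w k : ℤ) - w k else 0

/-- The set of content sequences of standard tableaux of shape `μ`. -/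
def CSet {n : ℕ} (μ : Ptn n) : Set (ℕ → ℤ) := Set.range (fun t : Lat μ => ctn n t.1.1)

/-- `ctn` is injective and the set of content sequences is good in the sense of `SemiMod`. -/
def S_GOOD : Prop := ∀ (n : ℕ) (μ : Ptn n), JamesSemi.GoodSet n (CSet μ) ∧
  Function.Injective (fun t : Lat μ => ctn n t.1.1)

/-- Paths: successive exchanges of neighbours `a = α j`, `b = α (j + 1)` with `b + 2 ≤ a`. -/
def IsPath (n : ℕ) : List ℕ → (ℕ → ℤ) → (ℕ → ℤ) → Prop
  | [], α, β => α = β
  | j :: p, α, β => j + 1 < n ∧ α (j + 1) + 2 ≤ α j ∧ IsPath n p (sw j α) β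

/-- The product of the coefficients along a path. -/
noncomputable def pathProd {K : Type} [Field K] (q : K) : List ℕ → (ℕ → ℤ) → K
  | [], _ => 1
  | j :: p, α => JamesSemi.cB q (α (j + 1)) (α j) * pathProd q p (sw j α)

/-- The delta function. -/
noncomputable def dl {K : Type} [Field K] {C : Set (ℕ → ℤ)} (α : C) : C → K :=
  open scoped Classical in fun β => if β = α then 1 else 0

/-- THE SEMINORMAL FORM OF THE SPECHT MODULE (generic `q`). `w0` sorted word of content `μ`
(the row tableau), `w1` sorted word of content `μ'` (the column tableau), `colw n w1` its row word.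
Proof: `V^∨` = functions on `C` with the transposed action; `Θ : Lam → V^∨`, `δ_w ↦ g_w`, `g` the
family (ε = -1) generated by the functional `e_col^*`; `Θ` is onto by connectivity; its adjoint
`Θ^† : V → Lam` is injective, commutes with the `T_j`, maps `e_row` to an invariant, that is `c z`,
`c ≠ 0`. `Ψ = c⁻¹ Θ^†`. The form: the Jucys-Murphy operators are self adjoint, so the `e_α` are
orthogonal; `γ α = ⟨Ψ e_α, Ψ e_α⟩`. The last statement: `⟨Θ^† v, δ_{w1}⟩ = v(col)` and
`c q^L = ⟨g_{row word}, e_row⟩ = pathProd`. -/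
def S_SEMI : Prop := ∀ (K : Type) [Field K] (q : K) (n : ℕ) (μ : Ptn n), q ≠ 0 →
  (∀ h : ℤ, h ≠ 0 → q ^ h ≠ 1) → ∀ (w0 : Lat μ) (w1 : Wd n μ.conj) (t1 : Lat μ),
  Sorted n w0.1.1 → Sorted n w1.1 → t1.1.1 = colw n w1.1 →
  ∀ (αr αc : CSet μ), αr.1 = ctn n w0.1.1 → αc.1 = ctn n t1.1.1 →
  ∀ [Fintype (CSet μ)],
  ∃ (Ψ : (CSet μ → K) →ₗ[K] Lam K q n μ.conj) (γ : CSet μ → K) (κ : K),
    Function.Injective Ψ ∧
    (∀ j, j + 1 < n → ∀ f, Ψ (JamesSemi.sT q (CSet μ) j f) = gT K q n j • Ψ f) ∧
    Ψ (dl αr) = zvec K q μ ∧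
    LinearMap.range Ψ = (Specht K q μ).restrictScalars K ∧
    JamesSemi.IsWt q n (CSet μ) γ ∧
    (∀ f g, bform (Ψ f) (Ψ g) = JamesSemi.sF γ f g) ∧
    (∀ f, bform (Ψ f) (wd K q w1) = κ * f αc) ∧
    (∃ L : ℕ, γ αr = q ^ L * ∏ r ∈ Finset.range n, qfac q (μ.part r) ∧
      ∀ p, IsPath n p αr.1 αc.1 → κ * pathProd q p αr.1 = q ^ L)

end Pool.Agent.James
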