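import Pool.Agent.James.CertEval
import Pool.Agent.James.Stmts

/-!
Soundness of the evaluator of the certificate.
-/

set_option autoImplicit false

namespace Pool.Agent.James.Cert

open Pool.Agent.JamesSemi (cA cB GoodSet sT ext0 IsWt sF opT sL)

/-! ### Fractions -/

/-- Value of a fraction. -/
def toQ (x : ℤ × ℕ) : ℚ := (x.1 : ℚ) / (x.2 : ℚ)

theorem toQ_red (n : ℤ) (d : ℕ) :
    toQ (n / ((Nat.gcd n.natAbs d : ℕ) : ℤ), d / Nat.gcd n.natAbs d) = (n : ℚ) / d := by
  unfold toQ
  simp only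
  set g := Nat.gcd n.natAbs d with hg
  by_cases h : g = 0
  · have h1 := Nat.eq_zero_of_gcd_eq_zero_left (hg.symm.trans h)
    have h2 := Nat.eq_zero_of_gcd_eq_zero_right (hg.symm.trans h)
    rw [Int.natAbs_eq_zero] at h1
    rw [h1, h2]
    simp
  · have hn : (g : ℤ) ∣ n := Int.natCast_dvd.2 (Nat.gcd_dvd_left _ _)
    have hd : g ∣ d := Nat.gcd_dvd_right _ _
    have hgq : (g : ℚ) ≠ 0 := by exact_mod_cast h
    rw [Int.cast_div hn (by exact_mod_cast h), Nat.cast_div hd hgq]
    push_cast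
    by_cases hd0 : (d : ℚ) = 0
    · rw [hd0]
      simp
    · field_simp

theorem toQ_qmul (x y : ℤ × ℕ) : toQ (qmul x y) = toQ x * toQ y := by
  unfold qmul
  simp only
  rw [toQ_red]
  unfold toQ
  push_cast
  rw [div_mul_div_comm]

theorem toQ_qadd (x y : ℤ × ℕ) : toQ (qadd x y) = toQ x + toQ y := by
  unfold qadd
  split_ifs with h1 h2
  · unfold toQ
    rw [h1]
    simp
  · unfold toQ
    rw [h2]
    simp
  · simp only
    rw [toQ_red]
    unfold toQ
    have h1' : (x.2 : ℚ) ≠ 0 := by exact_mod_cast h1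
    have h2' : (y.2 : ℚ) ≠ 0 := by exact_mod_cast h2
    push_cast
    field_simp

theorem toQ_mkQ (n d : ℤ) : toQ (mkQ n d) = (n : ℚ) / d := by
  unfold mkQ toQ
  split_ifs with h
  · simp only [Nat.cast_natAbs]
    rw [abs_of_neg h]
    push_cast
    rw [neg_div_neg_eq]
  · simp only [Nat.cast_natAbs]
    rw [abs_of_nonneg (not_lt.1 h)]

theorem toQ_kA {q : ℤ} (hq : (q : ℚ) ≠ 0) (a b : ℕ) :
    toQ (kA q a b) = cA (q : ℚ) ((a : ℤ) - 9) ((b : ℤ) - 9) := by
  unfold kA cA
  have e : (a : ℤ) - 9 - ((b : ℤ) - 9) = (a : ℤ) - b := by ring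
  rw [e]
  split_ifs with h
  · rw [toQ_mkQ]
    have e2 : (a : ℤ) - b = ((a - b : ℕ) : ℤ) := by omega
    rw [e2, zpow_natCast]
    push_cast
    rfl
  · rw [toQ_mkQ]
    have e2 : (a : ℤ) - b = -((b - a : ℕ) : ℤ) := by omega
    rw [e2, zpow_neg, zpow_natCast]
    push_cast
    have hx : (q : ℚ) ^ (b - a) ≠ 0 := pow_ne_zero _ hq
    generalize (q : ℚ) ^ (b - a) = x at hx ⊢
    have h4 : (1 : ℚ) - x⁻¹ = (x - 1) / x := by field_simp
    rw [h4, div_div_eq_mul_div]

theorem toQ_kB {q : ℤ} (hq : (q : ℚ) ≠ 0) {a b : ℕ} (hab : ¬ (a + 1 = b ∨ b + 1 = a)) :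
    toQ (kB q a b) = cB (q : ℚ) ((a : ℤ) - 9) ((b : ℤ) - 9) := by
  unfold kB cB
  have e : (a : ℤ) - 9 - ((b : ℤ) - 9) = (a : ℤ) - b := by ring
  have h0 : ¬ ((a : ℤ) - b = 1 ∨ (a : ℤ) - b = -1) := by omega
  rw [e, if_neg h0]
  split_ifs with h
  · rw [toQ_mkQ]
    have e2 : (a : ℤ) - b = ((a - b : ℕ) : ℤ) := by omega
    have e3 : (a : ℤ) - b + 1 = ((a - b + 1 : ℕ) : ℤ) := by omega
    rw [e3, e2, zpow_natCast, zpow_natCast]
    push_cast
    rfl
  · rw [toQ_mkQ]
    have e2 : (a : ℤ) - b = -((b - a : ℕ) : ℤ) := by omega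
    rw [zpow_add₀ hq, e2, zpow_neg, zpow_natCast, zpow_one]
    push_cast
    have hx : (q : ℚ) ^ (b - a) ≠ 0 := pow_ne_zero _ hq
    generalize (q : ℚ) ^ (b - a) = x at hx ⊢
    have h4 : (1 : ℚ) - x⁻¹ = (x - 1) / x := by field_simp
    have h5 : (1 : ℚ) - x⁻¹ * q = (x - q) / x := by field_simp
    rw [h4, h5, div_div_div_cancel_right₀ hx]

/-! ### Keys -/

/-- The content sequence of a key. -/
def dec (key : ℕ) : ℕ → ℤ := fun k => if k < 27 then (dg k key : ℤ) - 9 else 0

theorem dg_lt (j k : ℕ) : dg j k < 16 := Nat.mod_lt _ (by norm_num)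

theorem dg_low {i j : ℕ} (h : i < j) (M lo : ℕ) : dg i (M * 16 ^ j + lo) = dg i lo := by
  unfold dg
  obtain ⟨k, rfl⟩ := Nat.exists_eq_add_of_lt h
  have e : M * 16 ^ (i + k + 1) + lo = lo + 16 ^ i * (16 * (M * 16 ^ k)) := by ring
  rw [e, Nat.add_mul_div_left _ _ (by positivity), Nat.add_mul_mod_self_left]

theorem dg_high {i j : ℕ} (h : j ≤ i) {M lo : ℕ} (hlo : lo < 16 ^ j) :
    dg i (M * 16 ^ j + lo) = M / 16 ^ (i - j) % 16 := by
  unfold dg
  obtain ⟨k, rfl⟩ := Nat.exists_eq_add_of_le h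
  have e : (M * 16 ^ j + lo) / 16 ^ (j + k) = M / 16 ^ k := by
    rw [pow_add, ← Nat.div_div_eq_div_mul]
    congr 1
    rw [mul_comm, Nat.mul_add_div (by positivity), Nat.div_eq_of_lt hlo, add_zero]
  rw [e]
  congr 3
  omega

theorem swk_eq (j key : ℕ) : ∃ H, key = ((H * 16 + dg (j + 1) key) * 16 + dg j key) * 16 ^ j +
      key % 16 ^ j ∧
    swk j key = ((H * 16 + dg j key) * 16 + dg (j + 1) key) * 16 ^ j + key % 16 ^ j := by
  refine ⟨key / 16 ^ j / 16 / 16, ?_⟩
  have hb : dg (j + 1) key = key / 16 ^ j / 16 % 16 := by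
    unfold dg
    rw [pow_succ, Nat.div_div_eq_div_mul]
  have h1 : key / 16 ^ j / 16 / 16 * 16 + dg (j + 1) key = key / 16 ^ j / 16 := by
    rw [hb]
    omega
  have h2 : (key / 16 ^ j / 16) * 16 + dg j key = key / 16 ^ j := by
    unfold dg
    omega
  have h3 : key = ((key / 16 ^ j / 16 / 16 * 16 + dg (j + 1) key) * 16 + dg j key) * 16 ^ j +
      key % 16 ^ j := by
    rw [h1, h2, mul_comm]
    exact (Nat.div_add_mod key (16 ^ j)).symm
  refine ⟨h3, ?_⟩
  generalize key / 16 ^ j / 16 / 16 = H at h3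
  generalize key % 16 ^ j = lo at h3 ⊢
  unfold swk
  simp only
  generalize dg (j + 1) key = b at h3 ⊢
  generalize dg j key = a at h3 ⊢
  generalize 16 ^ j = A at h3 ⊢
  split_ifs with h
  · obtain ⟨d, rfl⟩ := Nat.exists_eq_add_of_le h
    rw [h3, Nat.add_sub_cancel_left]
    apply Nat.sub_eq_of_eq_add
    ring
  · obtain ⟨d, rfl⟩ := Nat.exists_eq_add_of_le (le_of_not_ge h)
    rw [h3, Nat.add_sub_cancel_left]
    ring

theorem dg_swk (i j key : ℕ) : dg i (swk j key) =
    if i = j then dg (j + 1) key else if i = j + 1 then dg j key else dg i key := by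
  obtain ⟨H, h1, h2⟩ := swk_eq j key
  have hlo : key % 16 ^ j < 16 ^ j := Nat.mod_lt _ (by positivity)
  have ha := dg_lt j key
  have hb := dg_lt (j + 1) key
  rcases lt_or_ge i j with h | h
  · rw [if_neg (by omega), if_neg (by omega), h2, dg_low h]
    conv_rhs => rw [h1]
    rw [dg_low h]
  · rw [h2, dg_high h hlo]
    generalize dg (j + 1) key = b at *
    generalize dg j key = a at *
    split_ifs with h3 h4
    · rw [h3, Nat.sub_self, pow_zero, Nat.div_one]
      omega
    · have e : i - j = 1 := by omega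
      rw [e, pow_one]
      omega
    · obtain ⟨k, hk⟩ : ∃ k, i - j = k + 2 := ⟨i - j - 2, by omega⟩
      have e1 : dg i key = (((H * 16 + b) * 16 + a)) / 16 ^ (i - j) % 16 := by
        conv_lhs => rw [h1]
        rw [dg_high h hlo]
      have e2 : ∀ c d : ℕ, c < 16 → d < 16 →
          ((H * 16 + c) * 16 + d) / 16 ^ (k + 2) = H / 16 ^ k := by
        intro c d hc hd
        have : 16 ^ (k + 2) = 16 * 16 * 16 ^ k := by ring
        rw [this, ← Nat.div_div_eq_div_mul]
        congr 1
        omega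
      rw [e1, hk, e2 a b ha hb, e2 b a hb ha]

theorem dec_swk {j : ℕ} (hj : j + 1 < 27) (key : ℕ) :
    dec (swk j key) = JamesSemi.sw j (dec key) := by
  funext i
  by_cases h1 : i = j
  · rw [h1, JamesSemi.sw_left]
    unfold dec
    rw [if_pos (by omega), if_pos hj, dg_swk, if_pos rfl]
  by_cases h2 : i = j + 1
  · rw [h2, JamesSemi.sw_right]
    unfold dec
    rw [if_pos hj, if_pos (by omega), dg_swk, if_neg (by omega), if_pos rfl]
  · rw [JamesSemi.sw_ne _ h1 h2]
    unfold dec
    rw [dg_swk, if_neg h1, if_neg h2]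

theorem key_ext (m : ℕ) : ∀ k l : ℕ, k < 16 ^ m → l < 16 ^ m → (∀ i < m, dg i k = dg i l) →
    k = l := by
  induction m with
  | zero =>
    intro k l hk hl _
    rw [pow_zero] at hk hl
    omega
  | succ m ih =>
    intro k l hk hl h
    have h0 := h 0 (by omega)
    unfold dg at h0
    rw [pow_zero, Nat.div_one, Nat.div_one] at h0
    have h1 : k / 16 = l / 16 := by
      apply ih
      · rw [pow_succ] at hk
        omega
      · rw [pow_succ] at hl
        omega
      · intro i hi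
        have h2 := h (i + 1) (by omega)
        unfold dg at h2 ⊢
        rw [pow_succ, mul_comm, ← Nat.div_div_eq_div_mul, ← Nat.div_div_eq_div_mul] at h2
        exact h2
    omega

theorem dec_inj {k l : ℕ} (hk : k < 16 ^ 27) (hl : l < 16 ^ 27) (h : dec k = dec l) : k = l := by
  apply key_ext 27 k l hk hl
  intro i hi
  have := congrFun h i
  unfold dec at this
  rw [if_pos hi, if_pos hi] at this
  omega

/-! ### Denotation of sparse vectors -/

open scoped Classical in
/-- The function represented by a sparse vector. -/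
noncomputable def den (L : List (ℕ × (ℤ × ℕ))) (α : ℕ → ℤ) : ℚ :=
  (L.map (fun x => if dec x.1 = α then toQ x.2 else 0)).sum

theorem den_nil (α : ℕ → ℤ) : den [] α = 0 := rfl

open scoped Classical in
theorem den_cons (x : ℕ × (ℤ × ℕ)) (L : List (ℕ × (ℤ × ℕ))) (α : ℕ → ℤ) :
    den (x :: L) α = (if dec x.1 = α then toQ x.2 else 0) + den L α := by
  unfold den
  rw [List.map_cons, List.sum_cons]

theorem den_append (L M : List (ℕ × (ℤ × ℕ))) (α : ℕ → ℤ) :
    den (L ++ M) α = den L α + den M α := by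
  unfold den
  rw [List.map_append, List.sum_append]

open scoped Classical in
theorem den_ins (k : ℕ) (c : ℤ × ℕ) (L : List (ℕ × (ℤ × ℕ))) (α : ℕ → ℤ) :
    den (ins k c L) α = (if dec k = α then toQ c else 0) + den L α := by
  induction L with
  | nil =>
    unfold ins
    rw [den_cons]
  | cons x L ih =>
    unfold ins
    split_ifs with h1 h2 h2
    · rw [den_cons, den_cons]
      simp only
      rw [← h1, if_pos h2, if_pos h2, toQ_qadd]
      ring
    · rw [den_cons, den_cons]
      simp only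
      rw [← h1, if_neg h2, if_neg h2]
      ring
    · rw [den_cons, den_cons, ih, if_pos h2]
      ring
    · rw [den_cons, den_cons, ih, if_neg h2]
      ring

theorem den_merge (L : List (ℕ × (ℤ × ℕ))) (α : ℕ → ℤ) : den (merge L) α = den L α := by
  induction L with
  | nil => rfl
  | cons x L ih =>
    unfold merge
    rw [den_ins, den_cons, ih]

theorem den_scal (c : ℤ × ℕ) (L : List (ℕ × (ℤ × ℕ))) (α : ℕ → ℤ) :
    den (scal c L) α = toQ c * den L α := by
  induction L with
  | nil =>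
    unfold scal
    rw [List.map_nil, den_nil, mul_zero]
  | cons x L ih =>
    unfold scal at ih ⊢
    rw [List.map_cons, den_cons, den_cons, ih]
    simp only
    split_ifs
    · rw [toQ_qmul]
      ring
    · ring

/-- Coefficient of the exchanged term. -/
noncomputable def cG (q : ℚ) (dual : Bool) (a b : ℤ) : ℚ := if dual then cB q b a else cB q a b

theorem cB_adj {q : ℚ} {a b : ℤ} (h : a - b = 1 ∨ a - b = -1) : cB q a b = 0 := by
  unfold cB
  rw [if_pos h]

theorem den_stepP {q : ℤ} (hq : (q : ℚ) ≠ 0) (dual : Bool) {j : ℕ} (hj : j + 1 < 27)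
    (L : List (ℕ × (ℤ × ℕ))) (α : ℕ → ℤ) :
    den (stepP q dual j L) α =
      cG (q : ℚ) dual (α j) (α (j + 1)) * den L (JamesSemi.sw j α) := by
  induction L with
  | nil =>
    unfold stepP
    rw [List.flatMap_nil, den_nil, den_nil, mul_zero]
  | cons x L ih =>
    unfold stepP at ih ⊢
    rw [List.flatMap_cons, den_append, ih, den_cons, mul_add]
    congr 1
    unfold exch
    simp only
    have hd1 : dec x.1 j = (dg j x.1 : ℤ) - 9 := by
      unfold dec
      rw [if_pos (by omega)]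
    have hd2 : dec x.1 (j + 1) = (dg (j + 1) x.1 : ℤ) - 9 := by
      unfold dec
      rw [if_pos hj]
    have hiff : JamesSemi.sw j (dec x.1) = α ↔ dec x.1 = JamesSemi.sw j α := by
      constructor
      · intro h
        rw [← h, JamesSemi.sw_sw]
      · intro h
        rw [h, JamesSemi.sw_sw]
    by_cases h : dg j x.1 + 1 = dg (j + 1) x.1 ∨ dg (j + 1) x.1 + 1 = dg j x.1
    · rw [if_pos h, den_nil]
      split_ifs with h2
      · have e1 : α j = dec x.1 (j + 1) := by rw [h2, JamesSemi.sw_right]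
        have e2 : α (j + 1) = dec x.1 j := by rw [h2, JamesSemi.sw_left]
        have : cG (q : ℚ) dual (α j) (α (j + 1)) = 0 := by
          unfold cG
          rw [e1, e2, hd1, hd2]
          split_ifs
          · exact cB_adj (by omega)
          · exact cB_adj (by omega)
        rw [this, zero_mul]
      · rw [mul_zero]
    · rw [if_neg h, den_cons, den_nil, add_zero]
      simp only
      rw [dec_swk hj]
      by_cases h2 : dec x.1 = JamesSemi.sw j α
      · rw [if_pos (hiff.2 h2), if_pos h2, toQ_qmul, mul_comm]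
        congr 1
        have e1 : α j = dec x.1 (j + 1) := by rw [h2, JamesSemi.sw_right]
        have e2 : α (j + 1) = dec x.1 j := by rw [h2, JamesSemi.sw_left]
        unfold cG
        rw [e1, e2, hd1, hd2]
        cases dual
        · simp only [Bool.false_eq_true, if_false]
          exact toQ_kB hq (by omega)
        · simp only [if_true]
          exact toQ_kB hq (by omega)
      · rw [if_neg (fun h => h2 (hiff.1 h)), if_neg h2, mul_zero]

theorem den_stepD {q : ℤ} (hq : (q : ℚ) ≠ 0) {j : ℕ} (hj : j + 1 < 27)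
    (L : List (ℕ × (ℤ × ℕ))) (α : ℕ → ℤ) :
    den (stepD q j L) α = cA (q : ℚ) (α j) (α (j + 1)) * den L α := by
  induction L with
  | nil =>
    unfold stepD
    rw [List.map_nil, den_nil, mul_zero]
  | cons x L ih =>
    unfold stepD at ih ⊢
    rw [List.map_cons, den_cons, den_cons, ih, mul_add]
    congr 1
    simp only
    split_ifs with h
    · rw [toQ_qmul, toQ_kA hq, mul_comm, ← h]
      congr 2
      · unfold dec
        rw [if_pos (by omega)]
      · unfold dec
        rw [if_pos hj]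
    · rw [mul_zero]

theorem den_stepT {q : ℤ} (hq : (q : ℚ) ≠ 0) (dual : Bool) {j : ℕ} (hj : j + 1 < 27)
    (L : List (ℕ × (ℤ × ℕ))) (α : ℕ → ℤ) :
    den (stepT q dual j L) α = cA (q : ℚ) (α j) (α (j + 1)) * den L α +
      cG (q : ℚ) dual (α j) (α (j + 1)) * den L (JamesSemi.sw j α) := by
  unfold stepT
  rw [den_merge, den_append, den_stepD hq hj, den_stepP hq dual hj]

/-! ### Supports -/

/-- All keys lie in `C`. -/
def okL (C : Set (ℕ → ℤ)) (L : List (ℕ × (ℤ × ℕ))) : Prop := ∀ x ∈ L, dec x.1 ∈ C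

theorem okL_ins {C : Set (ℕ → ℤ)} {k : ℕ} {c : ℤ × ℕ} {L : List (ℕ × (ℤ × ℕ))}
    (hk : dec k ∈ C) (h : okL C L) : okL C (ins k c L) := by
  induction L with
  | nil =>
    intro x hx
    unfold ins at hx
    rw [List.mem_singleton] at hx
    rw [hx]
    exact hk
  | cons y L ih =>
    intro x hx
    have hy := h y (List.mem_cons_self)
    have hL : okL C L := fun z hz => h z (List.mem_cons_of_mem _ hz)
    unfold ins at hx
    split_ifs at hx with h1
    · rcases List.mem_cons.1 hx with h2 | h2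
      · rw [h2]
        exact hy
      · exact hL x h2
    · rcases List.mem_cons.1 hx with h2 | h2
      · rw [h2]
        exact hy
      · exact ih hL x h2

theorem okL_merge {C : Set (ℕ → ℤ)} {L : List (ℕ × (ℤ × ℕ))} (h : okL C L) : okL C (merge L) := by
  induction L with
  | nil => exact h
  | cons y L ih =>
    unfold merge
    exact okL_ins (h y List.mem_cons_self) (ih (fun z hz => h z (List.mem_cons_of_mem _ hz)))

theorem okL_append {C : Set (ℕ → ℤ)} {L M : List (ℕ × (ℤ × ℕ))} (h : okL C L) (h' : okL C M) :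
    okL C (L ++ M) := by
  intro x hx
  rcases List.mem_append.1 hx with h1 | h1
  · exact h x h1
  · exact h' x h1

theorem okL_scal {C : Set (ℕ → ℤ)} {L : List (ℕ × (ℤ × ℕ))} (c : ℤ × ℕ) (h : okL C L) :
    okL C (scal c L) := by
  intro x hx
  unfold scal at hx
  obtain ⟨y, hy, rfl⟩ := List.mem_map.1 hx
  exact h y hy

theorem okL_stepD {C : Set (ℕ → ℤ)} {L : List (ℕ × (ℤ × ℕ))} (q : ℤ) (j : ℕ) (h : okL C L) :
    okL C (stepD q j L) := by
  intro x hx
  unfold stepD at hx
  obtain ⟨y, hy, rfl⟩ := List.mem_map.1 hx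
  exact h y hy

theorem okL_stepP {C : Set (ℕ → ℤ)} (hC : GoodSet 27 C) {L : List (ℕ × (ℤ × ℕ))} (q : ℤ)
    (dual : Bool) {j : ℕ} (hj : j + 1 < 27) (h : okL C L) : okL C (stepP q dual j L) := by
  intro x hx
  unfold stepP at hx
  obtain ⟨y, hy, hx⟩ := List.mem_flatMap.1 hx
  unfold exch at hx
  simp only at hx
  by_cases h1 : dg j y.1 + 1 = dg (j + 1) y.1 ∨ dg (j + 1) y.1 + 1 = dg j y.1
  · rw [if_pos h1] at hx
    exact absurd hx (List.not_mem_nil)
  · rw [if_neg h1, List.mem_singleton] at hx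
    rw [hx]
    simp only
    rw [dec_swk hj]
    apply hC.sw_mem _ (h y hy) j hj
    have hd1 : dec y.1 j = (dg j y.1 : ℤ) - 9 := by
      unfold dec
      rw [if_pos (by omega)]
    have hd2 : dec y.1 (j + 1) = (dg (j + 1) y.1 : ℤ) - 9 := by
      unfold dec
      rw [if_pos hj]
    rw [hd1, hd2]
    omega

theorem okL_stepT {C : Set (ℕ → ℤ)} (hC : GoodSet 27 C) {L : List (ℕ × (ℤ × ℕ))} (q : ℤ)
    (dual : Bool) {j : ℕ} (hj : j + 1 < 27) (h : okL C L) : okL C (stepT q dual j L) :=
  okL_merge (okL_append (okL_stepD q j h) (okL_stepP hC q dual hj h))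

theorem den_eq_zero {C : Set (ℕ → ℤ)} {L : List (ℕ × (ℤ × ℕ))} (h : okL C L) {α : ℕ → ℤ}
    (hα : α ∉ C) : den L α = 0 := by
  induction L with
  | nil => rfl
  | cons y L ih =>
    rw [den_cons, ih (fun z hz => h z (List.mem_cons_of_mem _ hz)), add_zero, if_neg]
    intro h1
    apply hα
    rw [← h1]
    exact h y List.mem_cons_self

/-- Restriction to `C`. -/
noncomputable def fn (C : Set (ℕ → ℤ)) (L : List (ℕ × (ℤ × ℕ))) : C → ℚ := fun α => den L α.1

theorem ext0_fn {C : Set (ℕ → ℤ)} {L : List (ℕ × (ℤ × ℕ))} (h : okL C L) (α : ℕ → ℤ) :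
    ext0 C (fn C L) α = den L α := by
  unfold ext0
  split_ifs with h1
  · rfl
  · exact (den_eq_zero h h1).symm

end Pool.Agent.James.Cert
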