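import Mathlib

/-!
Composition multiplicities and the counting argument (helper83).
-/

set_option autoImplicit false

namespace Pool.Agent.James

open Submodule

universe u

section Mult

variable {A : Type*} [Ring A] {M : Type*} [AddCommGroup M] [Module A M]

/-- The `i`-th factor of a composition series. -/
abbrev Factor (s : CompositionSeries (Submodule A M)) (i : Fin s.length) : Type _ :=
  (s i.succ) ⧸ (Submodule.comap (s i.succ).subtype (s i.castSucc))

/-- The number of factors of the composition series `s` isomorphic to `X`. -/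
noncomputable def mult (s : CompositionSeries (Submodule A M)) (X : Type*) [AddCommGroup X]
    [Module A X] : ℕ :=
  Nat.card {i : Fin s.length // Nonempty (Factor s i ≃ₗ[A] X)}

theorem mult_eq_of_equivalent {s t : CompositionSeries (Submodule A M)}
    (h : s.Equivalent t) (X : Type*) [AddCommGroup X] [Module A X] : mult s X = mult t X := by
  obtain ⟨f, hf⟩ := h
  refine Nat.card_congr (Equiv.subtypeEquiv f ?_)
  intro i
  have e := (hf i).linearEquiv
  constructor
  · rintro ⟨g⟩
    exact ⟨e.symm.trans g⟩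
  · rintro ⟨g⟩
    exact ⟨e.trans g⟩

/-- Composition multiplicities do not depend on the composition series. -/
theorem mult_eq {s t : CompositionSeries (Submodule A M)} (hs : s.head = ⊥) (hs' : s.last = ⊤)
    (ht : t.head = ⊥) (ht' : t.last = ⊤) (X : Type*) [AddCommGroup X] [Module A X] :
    mult s X = mult t X :=
  mult_eq_of_equivalent (CompositionSeries.jordan_holder s t (hs.trans ht.symm)
    (hs'.trans ht'.symm)) X

theorem factor_simple (s : CompositionSeries (Submodule A M)) (i : Fin s.length) :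
    IsSimpleModule A (Factor s i) :=
  (covBy_iff_quot_is_simple (s.step i).le).1 (s.step i)

theorem mult_pos {s : CompositionSeries (Submodule A M)} (hs : s.head = ⊥) (hs' : s.last = ⊤)
    {X : Type*} [AddCommGroup X] [Module A X] [IsSimpleModule A X] (f : M →ₗ[A] X)
    (hf : Function.Surjective f) : 1 ≤ mult s X := by
  classical
  -- the first index with nonzero image
  have hX : (⊤ : Submodule A X) ≠ ⊥ := by
    have : Nontrivial X := IsSimpleModule.nontrivial A X
    exact top_ne_bot
  have key : ∃ i : Fin s.length, Submodule.map f (s i.castSucc) = ⊥ ∧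
      Submodule.map f (s i.succ) = ⊤ := by
    by_contra hcon
    push Not at hcon
    have h0 : ∀ k : ℕ, (hk : k < s.length + 1) → Submodule.map f (s ⟨k, hk⟩) = ⊥ := by
      intro k
      induction k with
      | zero =>
        intro hk
        have : s ⟨0, hk⟩ = ⊥ := hs
        rw [this, Submodule.map_bot]
      | succ k ih =>
        intro hk
        have h1 := ih (by omega)
        have h2 := hcon ⟨k, by omega⟩ h1
        rcases eq_bot_or_eq_top (Submodule.map f (s ⟨k + 1, hk⟩)) with h3 | h3
        · exact h3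
        · exact absurd h3 h2
    have h1 := h0 s.length (by omega)
    have h2 : s ⟨s.length, by omega⟩ = ⊤ := hs'
    rw [h2, Submodule.map_top, LinearMap.range_eq_top.2 hf] at h1
    exact hX h1
  obtain ⟨i, hi0, hi1⟩ := key
  -- the induced map
  let g : (s i.succ) →ₗ[A] X := f.comp (s i.succ).subtype
  have hg : Submodule.comap (s i.succ).subtype (s i.castSucc) ≤ LinearMap.ker g := by
    intro x hx
    have h1 : f x.1 ∈ Submodule.map f (s i.castSucc) := ⟨x.1, hx, rfl⟩
    rw [hi0] at h1
    exact h1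
  let h : Factor s i →ₗ[A] X := (Submodule.comap (s i.succ).subtype (s i.castSucc)).liftQ g hg
  have hsurj : Function.Surjective h := by
    intro y
    have hy : y ∈ Submodule.map f (s i.succ) := by rw [hi1]; trivial
    obtain ⟨x, hx, hxy⟩ := hy
    exact ⟨Submodule.Quotient.mk ⟨x, hx⟩, by simpa [h, g] using hxy⟩
  have := factor_simple s i
  have hne : h ≠ 0 := by
    intro h0
    apply hX
    rw [eq_bot_iff]
    intro y _
    obtain ⟨x, hx⟩ := hsurj y
    rw [h0] at hx
    simpa using hx.symm
  have hbij := LinearMap.bijective_of_ne_zero hne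
  have : Nonempty {i : Fin s.length // Nonempty (Factor s i ≃ₗ[A] X)} :=
    ⟨⟨i, ⟨LinearEquiv.ofBijective h hbij⟩⟩⟩
  exact Nat.card_pos

end Mult

section Count

variable {F : Type*} [Field F] {A : Type*} [Ring A] [Algebra F A] {M : Type*} [AddCommGroup M]
  [Module F M] [Module A M] [IsScalarTower F A M]

theorem finrank_step [FiniteDimensional F M] {N N' : Submodule A M} (h : N ≤ N') :
    Module.finrank F N' = Module.finrank F N +
      Module.finrank F (N' ⧸ (Submodule.comap N'.subtype N)) := by
  have h1 : FiniteDimensional F N' :=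
    FiniteDimensional.finiteDimensional_submodule (N'.restrictScalars F)
  have h2 := Submodule.finrank_quotient_add_finrank
    ((Submodule.comap N'.subtype N).restrictScalars F)
  have h3 : Module.finrank F ((Submodule.comap N'.subtype N).restrictScalars F) =
      Module.finrank F N := by
    apply LinearEquiv.finrank_eq
    exact ((Submodule.comapSubtypeEquivOfLe h).restrictScalars F)
  rw [h3] at h2
  have h4 : Module.finrank F (N' ⧸ (Submodule.comap N'.subtype N)) =
      Module.finrank F (N' ⧸ ((Submodule.comap N'.subtype N).restrictScalars F)) := by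
    apply LinearEquiv.finrank_eq
    exact (Submodule.Quotient.restrictScalarsEquiv F (Submodule.comap N'.subtype N)).symm
  rw [h4]
  omega

theorem finrank_eq_sum [FiniteDimensional F M] (s : CompositionSeries (Submodule A M))
    (hs : s.head = ⊥) (hs' : s.last = ⊤) :
    Module.finrank F M = ∑ i : Fin s.length, Module.finrank F (Factor s i) := by
  have key : ∀ k : ℕ, (hk : k < s.length + 1) → Module.finrank F (s ⟨k, hk⟩) =
      ∑ i : Fin k, Module.finrank F (Factor s ⟨i.1, by omega⟩) := by
    intro k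
    induction k with
    | zero =>
      intro hk
      have : s ⟨0, hk⟩ = ⊥ := hs
      rw [this]
      have h0 : Subsingleton (⊥ : Submodule A M) := inferInstance
      rw [Module.finrank_zero_of_subsingleton]
      simp
    | succ k ih =>
      intro hk
      rw [Fin.sum_univ_castSucc]
      have h1 : s ⟨k, by omega⟩ ≤ s ⟨k + 1, hk⟩ := (s.step ⟨k, by omega⟩).le
      rw [finrank_step h1, ih (by omega)]
      rfl
  have h1 := key s.length (by omega)
  have h2 : s ⟨s.length, by omega⟩ = ⊤ := hs'
  rw [h2] at h1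
  have h3 : Module.finrank F (⊤ : Submodule A M) = Module.finrank F M := by
    apply LinearEquiv.finrank_eq
    exact (Submodule.topEquiv (R := A) (M := M)).restrictScalars F
  rw [h3] at h1
  exact h1

variable {ι : Type*} [Fintype ι] (D : ι → Type*) [∀ μ, AddCommGroup (D μ)]
  [∀ μ, Module F (D μ)] [∀ μ, Module A (D μ)] [∀ μ, IsScalarTower F A (D μ)]

/-- Upper bound: pairwise non-isomorphic modules. -/
theorem sum_mult_le [FiniteDimensional F M] (s : CompositionSeries (Submodule A M))
    (hs : s.head = ⊥) (hs' : s.last = ⊤)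
    (hD : ∀ μ ν, Nontrivial (D μ) → Nonempty (D μ ≃ₗ[A] D ν) → μ = ν) :
    ∑ μ, mult s (D μ) * Module.finrank F (D μ) ≤ Module.finrank F M := by
  classical
  rw [finrank_eq_sum s hs hs']
  have h1 : ∀ μ, mult s (D μ) * Module.finrank F (D μ) =
      ∑ i : Fin s.length, if Nonempty (Factor s i ≃ₗ[A] D μ) then
        Module.finrank F (Factor s i) else 0 := by
    intro μ
    rw [← Finset.sum_filter]
    have h2 : ∀ i ∈ Finset.univ.filter (fun i : Fin s.length => Nonempty (Factor s i ≃ₗ[A] D μ)),
        Module.finrank F (Factor s i) = Module.finrank F (D μ) := by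
      intro i hi
      obtain ⟨e⟩ := (Finset.mem_filter.1 hi).2
      exact LinearEquiv.finrank_eq (e.restrictScalars F)
    rw [Finset.sum_congr rfl h2, Finset.sum_const, smul_eq_mul]
    congr 1
    unfold mult
    rw [Nat.card_eq_fintype_card, Fintype.card_subtype]
  rw [Finset.sum_congr rfl (fun μ _ => h1 μ), Finset.sum_comm]
  apply Finset.sum_le_sum
  intro i _
  by_cases hex : ∃ μ, Nonempty (Factor s i ≃ₗ[A] D μ)
  · obtain ⟨μ, hμ⟩ := hex
    rw [Finset.sum_eq_single μ]
    · split_ifs
      · exact le_refl _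
    · intro ν _ hν
      rw [if_neg]
      intro hν'
      apply hν
      obtain ⟨e⟩ := hμ
      obtain ⟨e'⟩ := hν'
      have := factor_simple s i
      have hnt : Nontrivial (Factor s i) := IsSimpleModule.nontrivial A _
      have : Nontrivial (D ν) := e'.symm.toEquiv.nontrivial
      exact hD ν μ this ⟨e'.symm.trans e⟩
    · intro h
      exact absurd (Finset.mem_univ _) h
  · push Not at hex
    rw [Finset.sum_eq_zero]
    · exact Nat.zero_le _
    · intro μ _
      rw [if_neg (by have := hex μ; simpa using this)]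

/-- Lower bound: a complete set. -/
theorem le_sum_mult [FiniteDimensional F M] (s : CompositionSeries (Submodule A M))
    (hs : s.head = ⊥) (hs' : s.last = ⊤)
    (hD : ∀ i : Fin s.length, ∃ μ, Nonempty (Factor s i ≃ₗ[A] D μ)) :
    Module.finrank F M ≤ ∑ μ, mult s (D μ) * Module.finrank F (D μ) := by
  classical
  rw [finrank_eq_sum s hs hs']
  have h1 : ∀ μ, mult s (D μ) * Module.finrank F (D μ) =
      ∑ i : Fin s.length, if Nonempty (Factor s i ≃ₗ[A] D μ) then
        Module.finrank F (Factor s i) else 0 := by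
    intro μ
    rw [← Finset.sum_filter]
    have h2 : ∀ i ∈ Finset.univ.filter (fun i : Fin s.length => Nonempty (Factor s i ≃ₗ[A] D μ)),
        Module.finrank F (Factor s i) = Module.finrank F (D μ) := by
      intro i hi
      obtain ⟨e⟩ := (Finset.mem_filter.1 hi).2
      exact LinearEquiv.finrank_eq (e.restrictScalars F)
    rw [Finset.sum_congr rfl h2, Finset.sum_const, smul_eq_mul]
    congr 1
    unfold mult
    rw [Nat.card_eq_fintype_card, Fintype.card_subtype]
  rw [Finset.sum_congr rfl (fun μ _ => h1 μ), Finset.sum_comm]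
  apply Finset.sum_le_sum
  intro i _
  obtain ⟨μ, hμ⟩ := hD i
  refine le_trans ?_ (Finset.single_le_sum (fun ν _ => Nat.zero_le _) (Finset.mem_univ μ))
  rw [if_pos hμ]

end Count

/-- The counting contradiction. -/
theorem exists_mult_ne {F₁ F₂ : Type*} [Field F₁] [Field F₂] {A₁ A₂ : Type*} [Ring A₁] [Ring A₂]
    [Algebra F₁ A₁] [Algebra F₂ A₂] {M₁ M₂ : Type*} [AddCommGroup M₁] [AddCommGroup M₂]
    [Module F₁ M₁] [Module A₁ M₁] [IsScalarTower F₁ A₁ M₁]
    [Module F₂ M₂] [Module A₂ M₂] [IsScalarTower F₂ A₂ M₂]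
    [FiniteDimensional F₁ M₁] [FiniteDimensional F₂ M₂]
    {ι : Type*} [Fintype ι]
    (D₁ : ι → Type*) [∀ μ, AddCommGroup (D₁ μ)] [∀ μ, Module F₁ (D₁ μ)] [∀ μ, Module A₁ (D₁ μ)]
    [∀ μ, IsScalarTower F₁ A₁ (D₁ μ)]
    (D₂ : ι → Type*) [∀ μ, AddCommGroup (D₂ μ)] [∀ μ, Module F₂ (D₂ μ)] [∀ μ, Module A₂ (D₂ μ)]
    [∀ μ, IsScalarTower F₂ A₂ (D₂ μ)]
    (s₁ : CompositionSeries (Submodule A₁ M₁)) (h₁ : s₁.head = ⊥) (h₁' : s₁.last = ⊤)
    (s₂ : CompositionSeries (Submodule A₂ M₂)) (h₂ : s₂.head = ⊥) (h₂' : s₂.last = ⊤)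
    (hdim : Module.finrank F₂ M₂ ≤ Module.finrank F₁ M₁)
    (hcomplete : ∀ i : Fin s₁.length, ∃ μ, Nonempty (Factor s₁ i ≃ₗ[A₁] D₁ μ))
    (hnoniso : ∀ μ ν, Nontrivial (D₂ μ) → Nonempty (D₂ μ ≃ₗ[A₂] D₂ ν) → μ = ν)
    (hle : ∀ μ, Module.finrank F₁ (D₁ μ) ≤ Module.finrank F₂ (D₂ μ))
    (κ : ι) (hlt : Module.finrank F₁ (D₁ κ) < Module.finrank F₂ (D₂ κ))
    (hκ : 1 ≤ mult s₂ (D₂ κ)) :
    ∃ μ, mult s₁ (D₁ μ) ≠ mult s₂ (D₂ μ) := by
  by_contra hcon
  push Not at hcon
  have e1 := le_sum_mult (F := F₁) D₁ s₁ h₁ h₁' hcomplete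
  have e2 := sum_mult_le (F := F₂) D₂ s₂ h₂ h₂' hnoniso
  have e3 : ∑ μ, mult s₁ (D₁ μ) * Module.finrank F₁ (D₁ μ) <
      ∑ μ, mult s₂ (D₂ μ) * Module.finrank F₂ (D₂ μ) := by
    apply Finset.sum_lt_sum
    · intro μ _
      rw [hcon μ]
      exact Nat.mul_le_mul_left _ (hle μ)
    · exact ⟨κ, Finset.mem_univ _, by
        rw [hcon κ]
        exact Nat.mul_lt_mul_of_pos_left hlt hκ⟩
  omega

end Pool.Agent.James
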