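import Pool.Agent.James.Lam

/-!
Partitions, Specht modules `S^λ = H z_λ` inside the word module of content `λ'`, the modules
`D^λ = S^λ / (S^λ ∩ (S^λ)^⊥)`.
-/

set_option autoImplicit false

namespace Pool.Agent.James

/-- Partitions of `n` (as weakly decreasing functions, `part i` is the `(i + 1)`-st part). -/
structure Ptn (n : ℕ) where
  part : ℕ → ℕ
  anti : Antitone part
  zero : ∀ i, n ≤ i → part i = 0
  sum : ∑ i ∈ Finset.range n, part i = n

theorem Ptn.ext' {n : ℕ} {μ ν : Ptn n} (h : ∀ i, μ.part i = ν.part i) : μ = ν := by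
  cases μ
  cases ν
  congr
  funext i
  exact h i

/-- The conjugate partition: column lengths. -/
def Ptn.conj {n : ℕ} (μ : Ptn n) (c : ℕ) : ℕ :=
  ((Finset.range n).filter (fun r => c < μ.part r)).card

/-- Partial sums. -/
def ps (ν : ℕ → ℕ) (r : ℕ) : ℕ := ∑ i ∈ Finset.range r, ν i

/-- The positions `k < l` lie in the same block of the composition `ν`. -/
def SameBlock (ν : ℕ → ℕ) (k l : ℕ) : Prop := ∀ r, ¬ (k < ps ν r ∧ ps ν r ≤ l)

/-- The generator `T_j` belongs to the parabolic subalgebra of the composition `ν`. -/
def InY (ν : ℕ → ℕ) (j : ℕ) : Prop := ∀ r, ps ν r ≠ j + 1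

/-- The letters of `w` are distinct inside each block of `ν`. -/
def BlockDistinct (n : ℕ) (ν : ℕ → ℕ) (w : ℕ → ℕ) : Prop :=
  ∀ k l, k < l → l < n → SameBlock ν k l → w k ≠ w l

section
variable (R : Type*) [CommRing R] (q : R) {n : ℕ}

open scoped Classical in
/-- The generator `z_λ` of the Specht module: the sum of all words of content `λ'` whose letters
in the positions of each row of the (row reading) tableau of shape `λ` are distinct, i.e. form a
permutation of the column numbers `0, ..., λ_r - 1`. -/
noncomputable def zvec (μ : Ptn n) : Lam R q n μ.conj :=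
  fun w => if BlockDistinct n μ.part w.1 then 1 else 0

/-- The Specht module. -/
noncomputable def Specht (μ : Ptn n) : Submodule (Hecke R q n) (Lam R q n μ.conj) :=
  Submodule.span (Hecke R q n) {zvec R q μ}

/-- The radical of the form on the Specht module. -/
noncomputable def spechtRad (μ : Ptn n) : Submodule (Hecke R q n) (Specht R q μ) where
  carrier := {x | ∀ y : Specht R q μ, bform x.1 y.1 = 0}
  add_mem' := by
    intro a b ha hb y
    have h1 := ha y
    have h2 := hb y
    change bform (a.1 + b.1) y.1 = 0
    rw [bform_add_left, h1, h2, add_zero]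
  zero_mem' := by
    intro y
    change bform (0 : Lam R q n μ.conj) y.1 = 0
    have := bform_smul_left (0 : R) (0 : Lam R q n μ.conj) y.1
    rw [zero_smul, zero_mul] at this
    exact this
  smul_mem' := by
    intro a x hx y
    exact bform_smul_mem (N := Specht R q μ) (fun y hy => hx ⟨y, hy⟩) a y.1 y.2

/-- The module `D^μ = S^μ / rad`; it is simple or zero. -/
abbrev Dmod (μ : Ptn n) : Type _ := Specht R q μ ⧸ spechtRad R q μ

end

end Pool.Agent.James
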