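import Pool.Agent.James.Defs

/-!
Families indexed by words: the universal property of the word modules (helper83).
-/

set_option autoImplicit false

namespace Pool.Agent.James.F83

/-- `w` has no descents among the first `n` letters. -/
def NoDesc (n : ℕ) (w : ℕ → ℕ) : Prop := ∀ j, j + 1 < n → w j ≤ w (j + 1)

open scoped Classical in
/-- The list of the least descents met when a word is sorted (`m` is the number of steps). -/
noncomputable def famWord (n : ℕ) : ℕ → (ℕ → ℕ) → List ℕ
  | 0, _ => []
  | m + 1, w => if h : ∃ j, j + 1 < n ∧ w (j + 1) < w j then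
      Nat.find h :: famWord n m (sw (Nat.find h) w) else []

section
variable {R : Type*} [CommRing R] {q : R} {n : ℕ} {V : Type*} [AddCommGroup V]
  [Module (Hecke R q n) V]

/-- Action of a list of generators. -/
noncomputable def gact (q : R) (n : ℕ) {V : Type*} [AddCommGroup V] [Module (Hecke R q n) V]
    (l : List ℕ) (u : V) : V :=
  l.foldr (fun j x => gT R q n j • x) u

theorem gact_nil (u : V) : gact q n [] u = u := rfl

theorem gact_cons (j : ℕ) (l : List ℕ) (u : V) :
    gact q n (j :: l) u = gT R q n j • gact q n l u := rfl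

/-- The family generated by `u`. -/
noncomputable def fam (q : R) (n : ℕ) {ν : ℕ → ℕ} {V : Type*} [AddCommGroup V]
    [Module (Hecke R q n) V] (u : V) (w : Wd n ν) : V :=
  gact q n (famWord n (inv n w.1) w.1) u

/-- Families of vectors indexed by words. -/
structure IsFam (q : R) (n : ℕ) {ν : ℕ → ℕ} {V : Type*} [AddCommGroup V] [Module R V]
    [Module (Hecke R q n) V] (ε : R) (g : Wd n ν → V) : Prop where
  asc : ∀ (w : Wd n ν) (j : ℕ), j + 1 < n → w.1 j < w.1 (j + 1) →
    gT R q n j • g w = g (swW j w)
  tie : ∀ (w : Wd n ν) (j : ℕ), j + 1 < n → w.1 j = w.1 (j + 1) → gT R q n j • g w = ε • g w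

variable {ν : ℕ → ℕ}

theorem fam_noDesc (u : V) {w : Wd n ν} (h : NoDesc n w.1) : fam q n u w = u := by
  unfold fam
  cases hm : inv n w.1 with
  | zero => rfl
  | succ m =>
    unfold famWord
    rw [dif_neg]
    · rfl
    · rintro ⟨j, hj, hlt⟩
      exact absurd (h j hj) (by omega)

theorem fam_find (u : V) {w : Wd n ν} (h : ∃ j, j + 1 < n ∧ w.1 (j + 1) < w.1 j) :
    fam q n u w = gT R q n (Nat.find h) • fam q n u (swW (Nat.find h) w) := by
  have hs := Nat.find_spec h
  have e1 := inv_sw' hs.1 hs.2
  unfold fam
  rw [e1, swW_val hs.1]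
  conv_lhs => unfold famWord
  rw [dif_pos h]
  rfl

theorem braid_smul {j : ℕ} (hj : j + 2 < n) (x : V) :
    gT R q n j • gT R q n (j + 1) • gT R q n j • x =
      gT R q n (j + 1) • gT R q n j • gT R q n (j + 1) • x := by
  have := congrArg (fun a => a • x) ((gT_rel (R := R) (q := q) (n := n)).braid j hj)
  simp only [mul_smul] at this
  exact this

theorem comm_smul {j k : ℕ} (hjk : j + 1 < k) (hk : k + 1 < n) (x : V) :
    gT R q n j • gT R q n k • x = gT R q n k • gT R q n j • x := by
  have := congrArg (fun a => a • x) ((gT_rel (R := R) (q := q) (n := n)).comm j k hjk hk)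
  simp only [mul_smul] at this
  exact this

theorem gact_map {V' : Type*} [AddCommGroup V'] [Module (Hecke R q n) V']
    (f : V →ₗ[Hecke R q n] V') (l : List ℕ) (u : V) :
    f (gact q n l u) = gact q n l (f u) := by
  induction l with
  | nil => rfl
  | cons j l ih => rw [gact_cons, gact_cons, map_smul, ih]

theorem fam_map {V' : Type*} [AddCommGroup V'] [Module (Hecke R q n) V']
    (f : V →ₗ[Hecke R q n] V') (u : V) (w : Wd n ν) :
    f (fam q n u w) = fam q n (f u) w := gact_map f _ u

theorem fam_smul (h : Hecke R q n) (e : V) (w : Wd n ν) :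
    fam q n (h • e) w = fam q n h w • e := by
  have := fam_map (LinearMap.toSpanSingleton (Hecke R q n) V e) h w
  simp only [LinearMap.toSpanSingleton_apply] at this
  exact this.symm

variable [Module R V] [IsScalarTower R (Hecke R q n) V]

theorem quad_smul {j : ℕ} (hj : j + 1 < n) (x : V) :
    gT R q n j • gT R q n j • x = (q - 1) • gT R q n j • x + q • x := by
  have := congrArg (fun a => a • x) ((gT_rel (R := R) (q := q) (n := n)).quad j hj)
  simp only [mul_smul, add_smul, smul_assoc, one_smul] at this
  exact this

theorem smul_smul_comm (a : Hecke R q n) (r : R) (x : V) : a • r • x = r • a • x := by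
  rw [← algebraMap_smul (Hecke R q n) r x, ← mul_smul, ← Algebra.commutes, mul_smul,
    algebraMap_smul]

/-- Main lemma (the diamond lemma): all descents give the same family. -/
theorem fam_main (ε : R) (u : V) (hu : ∀ w : Wd n ν, NoDesc n w.1 → ∀ j, j + 1 < n →
    w.1 j = w.1 (j + 1) → gT R q n j • u = ε • u) :
    ∀ (N : ℕ) (w : Wd n ν), inv n w.1 = N →
      (∀ j, j + 1 < n → w.1 (j + 1) < w.1 j → fam q n u w = gT R q n j • fam q n u (swW j w)) ∧
      (∀ j, j + 1 < n → w.1 j = w.1 (j + 1) →
        gT R q n j • fam q n u w = ε • fam q n u w) := by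
  intro N
  induction N using Nat.strong_induction_on with
  | _ N ih =>
  intro w hw
  by_cases h : ∃ j, j + 1 < n ∧ w.1 (j + 1) < w.1 j
  · have hfind := fam_find (q := q) u h
    have hs := Nat.find_spec h
    have hmin : ∀ j, j + 1 < n → w.1 (j + 1) < w.1 j → Nat.find h ≤ j := fun j h1 h2 =>
      Nat.find_min' h ⟨h1, h2⟩
    generalize Nat.find h = i at hfind hs hmin
    obtain ⟨hi, hlt⟩ := hs
    have hinv : inv n (swW i w).1 < N := by
      rw [swW_val hi]
      have := inv_sw' hi hlt
      omega
    have ih' := ih _ hinv (swW i w) rfl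
    have e1 : (swW i w).1 i = w.1 (i + 1) := swW_left hi w
    have e2 : (swW i w).1 (i + 1) = w.1 i := swW_right hi w
    have e3 : ∀ k, k ≠ i → k ≠ i + 1 → (swW i w).1 k = w.1 k := fun k h1 h2 => swW_ne hi w h1 h2
    constructor
    · intro j hj hjlt
      rcases Nat.eq_or_lt_of_le (hmin j hj hjlt) with hij | hij
      · subst hij
        exact hfind
      · rcases Nat.eq_or_lt_of_le (Nat.succ_le_of_lt hij) with hij' | hij'
        · -- `j = i + 1`
          have hji : j = i + 1 := by omega
          subst hji
          have f1 := ih'.1 (i + 1) hj (by rw [e2, e3 (i + 1 + 1) (by omega) (by omega)]; omega)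
          have g1 : (swW (i + 1) (swW i w)).1 i = w.1 (i + 1) := by
            rw [swW_ne hj _ (by omega) (by omega), e1]
          have g2 : (swW (i + 1) (swW i w)).1 (i + 1) = w.1 (i + 1 + 1) := by
            rw [swW_left hj, e3 _ (by omega) (by omega)]
          have hinv2 : inv n (swW (i + 1) (swW i w)).1 < N := by
            rw [swW_val hj]
            have := inv_sw' (w := (swW i w).1) hj
              (by rw [e2, e3 (i + 1 + 1) (by omega) (by omega)]; omega)
            omega
          have f2 := (ih _ hinv2 _ rfl).1 i hi (by rw [g1, g2]; exact hjlt)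
          -- the other side
          have a1 : (swW (i + 1) w).1 i = w.1 i := swW_ne hj w (by omega) (by omega)
          have a2 : (swW (i + 1) w).1 (i + 1) = w.1 (i + 1 + 1) := swW_left hj w
          have a3 : (swW (i + 1) w).1 (i + 1 + 1) = w.1 (i + 1) := swW_right hj w
          have hinv3 : inv n (swW (i + 1) w).1 < N := by
            rw [swW_val hj]
            have := inv_sw' (w := w.1) hj hjlt
            omega
          have f3 := (ih _ hinv3 _ rfl).1 i hi (by rw [a1, a2]; omega)
          have b2 : (swW i (swW (i + 1) w)).1 (i + 1) = w.1 i := by rw [swW_right hi, a1]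
          have b3 : (swW i (swW (i + 1) w)).1 (i + 1 + 1) = w.1 (i + 1) := by
            rw [swW_ne hi _ (by omega) (by omega), a3]
          have hinv4 : inv n (swW i (swW (i + 1) w)).1 < N := by
            rw [swW_val hi]
            have := inv_sw' (w := (swW (i + 1) w).1) hi (by rw [a1, a2]; omega)
            omega
          have f4 := (ih _ hinv4 _ rfl).1 (i + 1) hj (by rw [b2, b3]; exact hlt)
          rw [hfind, f1, f2, f3, f4, swW_braid (by omega) w, braid_smul (by omega)]
        · -- `j > i + 1`
          have f1 := ih'.1 j hj (by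
            rw [e3 j (by omega) (by omega), e3 (j + 1) (by omega) (by omega)]; exact hjlt)
          have hinv3 : inv n (swW j w).1 < N := by
            rw [swW_val hj]
            have := inv_sw' (w := w.1) hj hjlt
            omega
          have f3 := (ih _ hinv3 _ rfl).1 i hi (by
            rw [swW_ne hj w (by omega) (by omega), swW_ne hj w (by omega) (by omega)]; exact hlt)
          rw [hfind, f1, f3, swW_comm (by omega) hj, comm_smul (by omega) hj]
    · intro j hj hjeq
      have hne : j ≠ i := by
        rintro rfl
        omega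
      rcases lt_trichotomy (j + 1) i with hji | hji | hji
      · -- far to the left
        have f1 := ih'.2 j hj (by
          rw [e3 j (by omega) (by omega), e3 (j + 1) (by omega) (by omega)]; exact hjeq)
        rw [hfind, comm_smul hji hi, f1, smul_smul_comm]
      · -- `i = j + 1`
        subst hji
        have f1 := ih'.1 j hj (by rw [e1, e3 j (by omega) (by omega)]; omega)
        have hinv2 : inv n (swW j (swW (j + 1) w)).1 < N := by
          rw [swW_val hj]
          have := inv_sw' (w := (swW (j + 1) w).1) hj
            (by rw [e1, e3 j (by omega) (by omega)]; omega)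
          omega
        have f2 := (ih _ hinv2 _ rfl).2 (j + 1) hi (by
          rw [swW_right hj, e3 j (by omega) (by omega), swW_ne hj _ (by omega) (by omega), e2]
          exact hjeq)
        rw [hfind, f1, braid_smul (by omega), f2, smul_smul_comm, smul_smul_comm]
      · rcases Nat.eq_or_lt_of_le (show i + 1 ≤ j by omega) with hij | hij
        · -- `j = i + 1`
          subst hij
          have f1 := ih'.1 (i + 1) hj (by rw [e2, e3 (i + 1 + 1) (by omega) (by omega)]; omega)
          have hinv2 : inv n (swW (i + 1) (swW i w)).1 < N := by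
            rw [swW_val hj]
            have := inv_sw' (w := (swW i w).1) hj
              (by rw [e2, e3 (i + 1 + 1) (by omega) (by omega)]; omega)
            omega
          have f2 := (ih _ hinv2 _ rfl).2 i hi (by
            rw [swW_ne hj _ (by omega) (by omega), e1, swW_left hj,
              e3 _ (by omega) (by omega)]
            exact hjeq)
          rw [hfind, f1, ← braid_smul (by omega), f2, smul_smul_comm, smul_smul_comm]
        · have f1 := ih'.2 j hj (by
            rw [e3 j (by omega) (by omega), e3 (j + 1) (by omega) (by omega)]; exact hjeq)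
          rw [hfind, ← comm_smul hij hj, f1, smul_smul_comm]
  · -- no descents
    have hnd : NoDesc n w.1 := by
      intro j hj
      by_contra hcon
      exact h ⟨j, hj, not_le.1 hcon⟩
    constructor
    · intro j hj hlt
      exact absurd ⟨j, hj, hlt⟩ h
    · intro j hj hjeq
      rw [fam_noDesc u hnd]
      exact hu w hnd j hj hjeq

/-- The universal property. -/
theorem isFam_fam {ε : R} {u : V} (hu : ∀ w : Wd n ν, NoDesc n w.1 → ∀ j, j + 1 < n →
    w.1 j = w.1 (j + 1) → gT R q n j • u = ε • u) : IsFam q n ε (fam q n (ν := ν) u) := by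
  constructor
  · intro w j hj hlt
    have h := (fam_main ε u hu _ (swW j w) rfl).1 j hj (by
      rw [swW_left hj, swW_right hj]
      exact hlt)
    rw [swW_swW] at h
    exact h.symm
  · intro w j hj heq
    exact (fam_main ε u hu _ w rfl).2 j hj heq

namespace IsFam

variable {ε : R} {g : Wd n ν → V}

omit [IsScalarTower R (Hecke R q n) V] in
theorem desc (hg : IsFam q n ε g) (w : Wd n ν) {j : ℕ} (hj : j + 1 < n)
    (h : w.1 (j + 1) < w.1 j) : g w = gT R q n j • g (swW j w) := by
  rw [hg.asc (swW j w) j hj (by rw [swW_left hj, swW_right hj]; exact h), swW_swW]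

theorem desc' (hg : IsFam q n ε g) (w : Wd n ν) {j : ℕ} (hj : j + 1 < n)
    (h : w.1 (j + 1) < w.1 j) : gT R q n j • g w = (q - 1) • g w + q • g (swW j w) := by
  rw [hg.desc w hj h, quad_smul hj]

/-- The span of a family is stable under the Hecke algebra. -/
theorem smul_mem_span (hg : IsFam q n ε g) (a : Hecke R q n) {x : V}
    (hx : x ∈ Submodule.span R (Set.range g)) : a • x ∈ Submodule.span R (Set.range g) := by
  apply smul_mem_of_gT _ a hx
  intro j hj x hx
  induction hx using Submodule.span_induction with
  | mem x hx =>
    obtain ⟨w, rfl⟩ := hx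
    rcases lt_trichotomy (w.1 j) (w.1 (j + 1)) with h | h | h
    · rw [hg.asc w j hj h]
      exact Submodule.subset_span ⟨_, rfl⟩
    · rw [hg.tie w j hj h]
      exact Submodule.smul_mem _ _ (Submodule.subset_span ⟨_, rfl⟩)
    · rw [hg.desc' w hj h]
      exact Submodule.add_mem _ (Submodule.smul_mem _ _ (Submodule.subset_span ⟨_, rfl⟩))
        (Submodule.smul_mem _ _ (Submodule.subset_span ⟨_, rfl⟩))
  | zero => rw [smul_zero]; exact Submodule.zero_mem _
  | add x y _ _ hx hy => rw [smul_add]; exact Submodule.add_mem _ hx hy
  | smul r x _ hx => rw [smul_smul_comm]; exact Submodule.smul_mem _ _ hx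

end IsFam

end

end Pool.Agent.James.F83
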