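import Pool.Agent.James.Asm

/-!
Short self-contained definitions for the final statement, and their comparison with the
definitions of the library (helper83).
-/

set_option autoImplicit false

namespace Pool.Agent.James.Final

/-- The Iwahori-Hecke algebra `H_n(R, q)` of type `A`: generators `T_i` with the relations
`(T_i - q)(T_i + 1) = 0`, braid relations and commutation relations. -/
abbrev HeckeAlg (R : Type) [CommRing R] (q : R) (n : ℕ) : Type := RingQuot (HRel R q n)

/-- The generator `T_i`. -/
noncomputable def gen (R : Type) [CommRing R] (q : R) (n : ℕ) (i : Fin (n - 1)) :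
    HeckeAlg R q n := RingQuot.mkRingHom (HRel R q n) (FreeAlgebra.ι R i)

/-- The action of `T_j` on functions on words (on the basis of words: `T_j w = -w` if
`w_j = w_{j+1}`, `T_j w = s_j w` if `w_j < w_{j+1}`, `T_j w = q s_j w + (q - 1) w` if
`w_j > w_{j+1}`). -/
def op {R : Type} [CommRing R] (q : R) {n : ℕ} {ν : ℕ → ℕ} (j : ℕ) (f : Wd n ν → R) :
    Wd n ν → R := fun w =>
  if w.1 j = w.1 (j + 1) then -f w else
    if w.1 j < w.1 (j + 1) then q * f (swW j w) else f (swW j w) + (q - 1) * f w

/-- The module structure of the library. -/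
noncomputable abbrev oldAction (R : Type) [CommRing R] (q : R) (n : ℕ) (ν : ℕ → ℕ) :
    Module (HeckeAlg R q n) (Wd n ν → R) :=
  inferInstanceAs (Module (Hecke R q n) (Lam R q n ν))

theorem gen_eq (R : Type) [CommRing R] (q : R) (n : ℕ) (i : Fin (n - 1)) :
    (gen R q n i : Hecke R q n) = gT R q n i := by
  unfold gT
  rw [dif_pos i.2]
  unfold Hecke.mk gen
  rw [← RingQuot.mkAlgHom_coe R]
  rfl

theorem gen_smul_lam {R : Type} [CommRing R] {q : R} {n : ℕ} {ν : ℕ → ℕ} (i : Fin (n - 1))
    (f : Lam R q n ν) : @HSMul.hSMul (Hecke R q n) (Lam R q n ν) (Lam R q n ν) _ (gen R q n i) f =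
      (lT q (i : ℕ) f : Wd n ν → R) := by
  have hi : (i : ℕ) + 1 < n := by
    have := i.2
    omega
  rw [gen_eq, gT_smul hi]

theorem gen_smul_old {R : Type} [CommRing R] {q : R} {n : ℕ} {ν : ℕ → ℕ} (i : Fin (n - 1))
    (f : Wd n ν → R) : (haveI := oldAction R q n ν; gen R q n i • f) = op q i f :=
  gen_smul_lam i f

theorem exists_action (R : Type) [CommRing R] (q : R) (n : ℕ) (ν : ℕ → ℕ) :
    ∃ _ : Module (HeckeAlg R q n) (Wd n ν → R),
      (∀ (r : R) (f : Wd n ν → R), algebraMap R (HeckeAlg R q n) r • f = r • f) ∧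
      ∀ (i : Fin (n - 1)) (f : Wd n ν → R), gen R q n i • f = op q i f := by
  refine ⟨oldAction R q n ν, ?_, ?_⟩
  · intro r f
    exact algebraMap_smul (Hecke R q n) r (show Lam R q n ν from f)
  · intro i f
    exact gen_smul_old i f

/-- The word module: the Hecke algebra acts on the functions on words; scalars act as scalars and
`T_i` acts by `op`. -/
noncomputable instance action (R : Type) [CommRing R] (q : R) (n : ℕ) (ν : ℕ → ℕ) :
    Module (HeckeAlg R q n) (Wd n ν → R) := (exists_action R q n ν).choose

/-- The bilinear form with `⟨w, w⟩ = q ^ inv w` on the basis of words. -/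
noncomputable def form {R : Type} [CommRing R] (q : R) {n : ℕ} {ν : ℕ → ℕ} (f g : Wd n ν → R) :
    R := ∑ w : Wd n ν, q ^ inv n w.1 * f w * g w

open scoped Classical in
/-- The generator `z_μ` of the Specht module: the sum of the words of content `μ'` with distinct
letters in each row block. -/
noncomputable def zvec (R : Type) [CommRing R] {n : ℕ} (μ : Ptn n) : Wd n μ.conj → R :=
  fun w => if BlockDistinct n μ.part w.1 then 1 else 0

/-- The Specht module `S^μ`. -/
noncomputable def specht (R : Type) [CommRing R] (q : R) {n : ℕ} (μ : Ptn n) :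
    Submodule (HeckeAlg R q n) (Wd n μ.conj → R) :=
  Submodule.span (HeckeAlg R q n) {zvec R μ}

section generic
variable {A : Type} [Ring A] {M : Type} [AddCommGroup M] [Module A M]

/-- `0 = N_0 ⋖ N_1 ⋖ ... ⋖ N_m = S` is a composition series of `S`. -/
def IsCompSeries (S : Submodule A M) (N : ℕ → Submodule A M) (m : ℕ) : Prop :=
  N 0 = ⊥ ∧ N m = S ∧ ∀ i, i < m → N i ⋖ N (i + 1)

/-- `X` is isomorphic to `S / rad S`, `rad S = {x ∈ S | B(x, y) = 0 for all y ∈ S}`. -/
def IsoModRad {R : Type} [CommRing R] (B : M → M → R) (S : Submodule A M) (X : Type)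
    [AddCommGroup X] [Module A X] : Prop :=
  ∃ f : S →ₗ[A] X, Function.Surjective f ∧ ∀ x : S, f x = 0 ↔ ∀ y : S, B x y = 0

/-- The composition multiplicity of `S' / rad S'` in `S` is `k`: `S` has a composition series, and
in every composition series exactly `k` factors are isomorphic to `S' / rad S'`. -/
def MultIs {R : Type} [CommRing R] {M' : Type} [AddCommGroup M'] [Module A M']
    (S : Submodule A M) (B : M' → M' → R) (S' : Submodule A M') (k : ℕ) : Prop :=
  (∃ N m, IsCompSeries S N m) ∧ ∀ N m, IsCompSeries S N m →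
    Nat.card {i // i < m ∧ IsoModRad B S' (N (i + 1) ⧸ (N i).submoduleOf (N (i + 1)))} = k

end generic

/-- The decomposition number `[S^μ : D^ν]` of `H_n(F, q)` is `k`, where
`D^ν = S^ν / rad S^ν`. -/
def DecNum (F : Type) [Field F] (q : F) {n : ℕ} (μ ν : Ptn n) (k : ℕ) : Prop :=
  MultIs (specht F q μ) (form q) (specht F q ν) k

/-! ### Comparison with the library -/

section series
variable {A : Type} [Ring A] {M : Type} [AddCommGroup M] [Module A M]

/-- The factors do not change under an injective map. -/
theorem factor_map {M' : Type} [AddCommGroup M'] [Module A M'] (f : M →ₗ[A] M')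
    (hf : Function.Injective f) {N N' : Submodule A M} :
    Nonempty ((N' ⧸ Submodule.comap N'.subtype N) ≃ₗ[A]
      (Submodule.map f N' ⧸ Submodule.comap (Submodule.map f N').subtype (Submodule.map f N))) := by
  refine ⟨Submodule.Quotient.equiv _ _ (Submodule.equivMapOfInjective f hf N') ?_⟩
  ext x
  constructor
  · rintro ⟨y, hy, rfl⟩
    exact ⟨y.1, hy, rfl⟩
  · rintro ⟨y, hy, hyx⟩
    obtain ⟨z, hz, hzx⟩ := x.2
    have hyz : y = z := hf (hyx.trans hzx.symm)
    subst hyz
    exact ⟨⟨y, hz⟩, hy, Subtype.ext hzx⟩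

/-- A chain of submodules as a composition series of Mathlib. -/
noncomputable def toSeries {S : Submodule A M} {N : ℕ → Submodule A M} {m : ℕ}
    (h : IsCompSeries S N m) : CompositionSeries (Submodule A M) where
  length := m
  toFun i := N i
  step i := h.2.2 i i.2

theorem count_eq_mult {S : Submodule A M} {N : ℕ → Submodule A M} {m : ℕ}
    (h : IsCompSeries S N m) (Y : Type) [AddCommGroup Y] [Module A Y] :
    Nat.card {i // i < m ∧ Nonempty ((N (i + 1) ⧸ (N i).submoduleOf (N (i + 1))) ≃ₗ[A] Y)} =
      mult (toSeries h) Y := by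
  unfold mult
  apply Nat.card_congr
  exact
    { toFun := fun i => ⟨⟨i.1, i.2.1⟩, i.2.2⟩
      invFun := fun i => ⟨i.1.1, i.1.2, i.2⟩
      left_inv := fun _ => rfl
      right_inv := fun _ => rfl }

/-- A composition series of the module `S` as a composition series from `⊥` to `S`. -/
noncomputable def mapSeries (S : Submodule A M) (s : CompositionSeries (Submodule A S)) :
    CompositionSeries (Submodule A M) where
  length := s.length
  toFun i := Submodule.map S.subtype (s i)
  step i := by
    have h1 : (s i.castSucc) ⋖ (s i.succ) := s.step i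
    have h2 : Submodule.map S.subtype (s i.castSucc) ≤ Submodule.map S.subtype (s i.succ) :=
      Submodule.map_mono h1.le
    have h3 := (covBy_iff_quot_is_simple h1.le).1 h1
    obtain ⟨e⟩ := factor_map S.subtype S.subtype_injective (N := s i.castSucc) (N' := s i.succ)
    exact (covBy_iff_quot_is_simple h2).2 (IsSimpleModule.congr e.symm)

theorem mult_mapSeries (S : Submodule A M) (s : CompositionSeries (Submodule A S)) (Y : Type)
    [AddCommGroup Y] [Module A Y] : mult (mapSeries S s) Y = mult s Y := by
  unfold mult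
  apply Nat.card_congr
  refine Equiv.subtypeEquiv (Equiv.refl _) ?_
  intro i
  obtain ⟨e⟩ := factor_map S.subtype S.subtype_injective (N := s i.castSucc) (N' := s i.succ)
  constructor
  · rintro ⟨g⟩
    exact ⟨e.trans g⟩
  · rintro ⟨g⟩
    exact ⟨e.symm.trans g⟩

theorem mapSeries_head {S : Submodule A M} {s : CompositionSeries (Submodule A S)}
    (h : s.head = ⊥) : (mapSeries S s).head = ⊥ := by
  change Submodule.map S.subtype (s.head) = ⊥
  rw [h, Submodule.map_bot]

theorem mapSeries_last {S : Submodule A M} {s : CompositionSeries (Submodule A S)}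
    (h : s.last = ⊤) : (mapSeries S s).last = S := by
  change Submodule.map S.subtype (s.last) = S
  rw [h, Submodule.map_subtype_top]

theorem count_eq {S : Submodule A M} {N : ℕ → Submodule A M} {m : ℕ}
    (h : IsCompSeries S N m) (s : CompositionSeries (Submodule A S)) (hs : s.head = ⊥)
    (hs' : s.last = ⊤) (Y : Type) [AddCommGroup Y] [Module A Y] :
    Nat.card {i // i < m ∧ Nonempty ((N (i + 1) ⧸ (N i).submoduleOf (N (i + 1))) ≃ₗ[A] Y)} =
      mult s Y := by
  rw [count_eq_mult h, ← mult_mapSeries S s]
  apply mult_eq_of_equivalent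
  apply CompositionSeries.jordan_holder
  · rw [mapSeries_head hs]
    exact h.1
  · rw [mapSeries_last hs']
    exact h.2.1

theorem exists_of_series {S : Submodule A M} (t : CompositionSeries (Submodule A M))
    (ht : t.head = ⊥) (ht' : t.last = S) : ∃ N m, IsCompSeries S N m := by
  refine ⟨fun i => if h : i < t.length + 1 then t ⟨i, h⟩ else ⊥, t.length, ?_, ?_, ?_⟩
  · simp only
    rw [dif_pos (by omega)]
    exact ht
  · simp only
    rw [dif_pos (by omega)]
    exact ht'
  · intro i hi
    simp only
    rw [dif_pos (by omega), dif_pos (by omega)]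
    exact t.step ⟨i, hi⟩

theorem exists_compSeries {S : Submodule A M} (s : CompositionSeries (Submodule A S))
    (hs : s.head = ⊥) (hs' : s.last = ⊤) : ∃ N m, IsCompSeries S N m :=
  exists_of_series (mapSeries S s) (mapSeries_head hs) (mapSeries_last hs')

theorem isoModRad_iff {R : Type} [CommRing R] {B : M → M → R} {S : Submodule A M}
    {K : Submodule A S} (hK : ∀ x, x ∈ K ↔ ∀ y : S, B x y = 0) (X : Type)
    [AddCommGroup X] [Module A X] : IsoModRad B S X ↔ Nonempty (X ≃ₗ[A] (S ⧸ K)) := by
  constructor
  · rintro ⟨f, hf, hker⟩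
    have h1 : LinearMap.ker f = K := by
      ext x
      rw [LinearMap.mem_ker, hker, hK]
    exact ⟨((Submodule.quotEquivOfEq _ _ h1.symm).trans (f.quotKerEquivOfSurjective hf)).symm⟩
  · rintro ⟨e⟩
    refine ⟨e.symm.toLinearMap.comp K.mkQ, ?_, ?_⟩
    · exact e.symm.surjective.comp K.mkQ_surjective
    · intro x
      rw [← hK]
      simp only [LinearMap.comp_apply, LinearEquiv.coe_coe, LinearEquiv.map_eq_zero_iff,
        Submodule.mkQ_apply, Submodule.Quotient.mk_eq_zero]

theorem multIs {R : Type} [CommRing R] {M' : Type} [AddCommGroup M'] [Module A M']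
    {S : Submodule A M} {B : M' → M' → R} {S' : Submodule A M'} {K : Submodule A S'}
    (hK : ∀ x, x ∈ K ↔ ∀ y : S', B x y = 0)
    (h : ∃ s : CompositionSeries (Submodule A S), s.head = ⊥ ∧ s.last = ⊤) :
    MultIs S B S' (compMult A S (S' ⧸ K)) := by
  obtain ⟨s, hs, hs'⟩ := h
  refine ⟨exists_compSeries s hs hs', ?_⟩
  intro N m hN
  rw [compMult_eq s hs hs', ← count_eq hN s hs hs']
  apply Nat.card_congr
  refine Equiv.subtypeEquiv (Equiv.refl _) ?_
  intro i
  rw [Equiv.refl_apply, isoModRad_iff hK]

end series

/-- The statement for the objects of the library. -/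
theorem multIs_old (F : Type) [Field F] (q : F) {n : ℕ} (μ ν : Ptn n) :
    MultIs (A := Hecke F q n) (Specht F q μ) (fun x y : Lam F q n ν.conj => bform x y)
      (Specht F q ν) (decNum F q μ ν) :=
  multIs (K := spechtRad F q ν) (fun _ => Iff.rfl) (exists_series F q μ)

/-! ### The module structure is unique -/

theorem action_algebraMap (R : Type) [CommRing R] (q : R) (n : ℕ) (ν : ℕ → ℕ) (r : R)
    (f : Wd n ν → R) : algebraMap R (HeckeAlg R q n) r • f = r • f :=
  (exists_action R q n ν).choose_spec.1 r f

theorem action_gen (R : Type) [CommRing R] (q : R) (n : ℕ) (ν : ℕ → ℕ) (i : Fin (n - 1))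
    (f : Wd n ν → R) : gen R q n i • f = op q i f :=
  (exists_action R q n ν).choose_spec.2 i f

theorem action_eq (R : Type) [CommRing R] (q : R) (n : ℕ) (ν : ℕ → ℕ) :
    action R q n ν = oldAction R q n ν := by
  apply Module.ext'
  have key : ∀ a : Hecke R q n, ∀ f : Wd n ν → R,
      (haveI := action R q n ν; (show HeckeAlg R q n from a) • f) =
        (haveI := oldAction R q n ν; (show HeckeAlg R q n from a) • f) := by
    intro a
    induction a using Hecke.induction with
    | h0 r =>
      intro f
      have h1 := action_algebraMap R q n ν r f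
      have h2 : (haveI := oldAction R q n ν; algebraMap R (HeckeAlg R q n) r • f) = r • f :=
        algebraMap_smul (Hecke R q n) r (show Lam R q n ν from f)
      exact h1.trans h2.symm
    | hT j hj =>
      intro f
      have h1 := action_gen R q n ν ⟨j, by omega⟩ f
      have h2 := gen_smul_old (q := q) (n := n) (ν := ν) ⟨j, by omega⟩ f
      have h3 := h1.trans h2.symm
      have h4 := gen_eq R q n ⟨j, by omega⟩
      rw [← h4]
      exact h3
    | hadd a b ha hb =>
      intro f
      have h1 := @add_smul (HeckeAlg R q n) (Wd n ν → R) _ _ (action R q n ν) a b f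
      have h2 := @add_smul (HeckeAlg R q n) (Wd n ν → R) _ _ (oldAction R q n ν) a b f
      exact h1.trans (by rw [ha f, hb f]; exact h2.symm)
    | hmul a b ha hb =>
      intro f
      have h1 := @mul_smul (HeckeAlg R q n) (Wd n ν → R) _ (action R q n ν).toMulAction.toSemigroupAction a b f
      have h2 := @mul_smul (HeckeAlg R q n) (Wd n ν → R) _ (oldAction R q n ν).toMulAction.toSemigroupAction a b f
      exact h1.trans (by rw [hb f, ha]; exact h2.symm)
  exact key

/-- The statement `DecNum` for an arbitrary module structure on the word modules. -/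
def DecNumW (F : Type) [Field F] (q : F) {n : ℕ}
    (m : ∀ ν : ℕ → ℕ, Module (HeckeAlg F q n) (Wd n ν → F)) (μ ν : Ptn n) (k : ℕ) : Prop :=
  @MultIs (HeckeAlg F q n) _ (Wd n μ.conj → F) _ (m μ.conj) F _ (Wd n ν.conj → F) _ (m ν.conj)
    (@Submodule.span (HeckeAlg F q n) (Wd n μ.conj → F) _ _ (m μ.conj) {zvec F μ})
    (form q) (@Submodule.span (HeckeAlg F q n) (Wd n ν.conj → F) _ _ (m ν.conj) {zvec F ν}) k

theorem decNumW_old (F : Type) [Field F] (q : F) {n : ℕ} (μ ν : Ptn n) :
    DecNumW F q (oldAction F q n) μ ν (decNum F q μ ν) := multIs_old F q μ ν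

/-- The decomposition numbers of the library are the decomposition numbers. -/
theorem decNum_spec (F : Type) [Field F] (q : F) {n : ℕ} (μ ν : Ptn n) :
    DecNum F q μ ν (decNum F q μ ν) := by
  have h := decNumW_old F q μ ν
  have h1 : oldAction F q n = action F q n := funext fun ν => (action_eq F q n ν).symm
  rw [h1] at h
  exact h

/-- Decomposition numbers are unique. -/
theorem decNum_unique {F : Type} [Field F] {q : F} {n : ℕ} {μ ν : Ptn n} {k l : ℕ}
    (h : DecNum F q μ ν k) (h' : DecNum F q μ ν l) : k = l := by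
  obtain ⟨⟨N, m, hN⟩, h1⟩ := h
  rw [← h1 N m hN, h'.2 N m hN]

end Pool.Agent.James.Final
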