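import Pool.Agent.James.Words

/-!
The Hecke algebra `H_n(R, q)` of type `A` and the (fermionic) word modules.
-/

set_option autoImplicit false

namespace Pool.Agent.James

/-- The relations of the Hecke algebra `H_n` (generators `T 0, ..., T (n - 2)`) in an algebra. -/
structure HeckeRel {R A : Type*} [CommRing R] [Ring A] [Algebra R A] (q : R) (n : ℕ)
    (T : ℕ → A) : Prop where
  quad : ∀ j, j + 1 < n → T j * T j = (q - 1) • T j + q • 1
  braid : ∀ j, j + 2 < n → T j * T (j + 1) * T j = T (j + 1) * T j * T (j + 1)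
  comm : ∀ j k, j + 1 < k → k + 1 < n → T j * T k = T k * T j

/-- The defining relations: `(T_i - q)(T_i + 1) = 0`, the braid relation and commutation. -/
inductive HRel (R : Type*) [CommRing R] (q : R) (n : ℕ) :
    FreeAlgebra R (Fin (n - 1)) → FreeAlgebra R (Fin (n - 1)) → Prop
  | quad (i : Fin (n - 1)) : HRel R q n
      ((FreeAlgebra.ι R i - algebraMap R _ q) * (FreeAlgebra.ι R i + 1)) 0
  | braid (i j : Fin (n - 1)) (h : (i : ℕ) + 1 = j) : HRel R q n
      (FreeAlgebra.ι R i * FreeAlgebra.ι R j * FreeAlgebra.ι R i)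
      (FreeAlgebra.ι R j * FreeAlgebra.ι R i * FreeAlgebra.ι R j)
  | comm (i j : Fin (n - 1)) (h : (i : ℕ) + 1 < j) : HRel R q n
      (FreeAlgebra.ι R i * FreeAlgebra.ι R j) (FreeAlgebra.ι R j * FreeAlgebra.ι R i)

/-- The Iwahori-Hecke algebra of type `A_{n-1}` over `R` with parameter `q`. -/
def Hecke (R : Type*) [CommRing R] (q : R) (n : ℕ) : Type _ := RingQuot (HRel R q n)

variable {R : Type*} [CommRing R] {q : R} {n : ℕ}

noncomputable instance : Ring (Hecke R q n) := inferInstanceAs (Ring (RingQuot (HRel R q n)))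

noncomputable instance : Algebra R (Hecke R q n) :=
  inferInstanceAs (Algebra R (RingQuot (HRel R q n)))

/-- The quotient map from the free algebra. -/
noncomputable def Hecke.mk (R : Type*) [CommRing R] (q : R) (n : ℕ) :
    FreeAlgebra R (Fin (n - 1)) →ₐ[R] Hecke R q n := RingQuot.mkAlgHom R (HRel R q n)

theorem Hecke.mk_rel {x y : FreeAlgebra R (Fin (n - 1))} (h : HRel R q n x y) :
    Hecke.mk R q n x = Hecke.mk R q n y := RingQuot.mkAlgHom_rel R h

theorem Hecke.mk_surjective : Function.Surjective (Hecke.mk R q n) :=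
  RingQuot.mkAlgHom_surjective R (HRel R q n)

/-- The generator `T_j` for `j + 1 < n` (and `0` otherwise). -/
noncomputable def gT (R : Type*) [CommRing R] (q : R) (n : ℕ) (j : ℕ) : Hecke R q n :=
  if h : j < n - 1 then Hecke.mk R q n (FreeAlgebra.ι R ⟨j, h⟩) else 0

theorem gT_rel : HeckeRel q n (gT R q n) := by
  have e : ∀ j (h : j < n - 1), gT R q n j = Hecke.mk R q n (FreeAlgebra.ι R ⟨j, h⟩) := by
    intro j h
    unfold gT
    rw [dif_pos h]
  constructor
  · intro j hj
    have h : j < n - 1 := by omega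
    have h1 := Hecke.mk_rel (HRel.quad (R := R) (q := q) (n := n) ⟨j, h⟩)
    rw [map_mul, map_sub, map_add, map_one, map_zero, AlgHom.commutes, ← e j h] at h1
    have h2 : (gT R q n j - algebraMap R (Hecke R q n) q) * (gT R q n j + 1) = 0 := h1
    rw [Algebra.smul_def, Algebra.smul_def, mul_one, map_sub, map_one]
    generalize gT R q n j = t at h2 ⊢
    generalize algebraMap R (Hecke R q n) q = a at h2 ⊢
    have h3 : t * t - ((a - 1) * t + a) = (t - a) * (t + 1) := by
      simp only [sub_mul, mul_add, one_mul, mul_one]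
      abel
    rw [← sub_eq_zero, h3, h2]
  · intro j hj
    have h : j < n - 1 := by omega
    have h' : j + 1 < n - 1 := by omega
    have h1 := Hecke.mk_rel
      (HRel.braid (R := R) (q := q) (n := n) ⟨j, h⟩ ⟨j + 1, h'⟩ rfl)
    rw [map_mul, map_mul, map_mul, map_mul, ← e j h, ← e (j + 1) h'] at h1
    exact h1
  · intro j k hjk hk
    have h : j < n - 1 := by omega
    have h' : k < n - 1 := by omega
    have h1 := Hecke.mk_rel
      (HRel.comm (R := R) (q := q) (n := n) ⟨j, h⟩ ⟨k, h'⟩ hjk)
    rw [map_mul, map_mul, ← e j h, ← e k h'] at h1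
    exact h1

theorem HeckeRel.free {A : Type*} [Ring A] [Algebra R A] {T : ℕ → A} (h : HeckeRel q n T)
    ⦃x y : FreeAlgebra R (Fin (n - 1))⦄ (hxy : HRel R q n x y) :
    FreeAlgebra.lift R (fun i : Fin (n - 1) => T i) x =
      FreeAlgebra.lift R (fun i : Fin (n - 1) => T i) y := by
  cases hxy with
  | quad i =>
    simp only [map_mul, map_sub, map_add, map_one, map_zero, FreeAlgebra.lift_ι_apply,
      AlgHom.commutes]
    have h1 := h.quad i (by omega)
    rw [Algebra.smul_def, Algebra.smul_def, mul_one, map_sub, map_one] at h1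
    generalize T i = t at h1 ⊢
    generalize algebraMap R A q = a at h1 ⊢
    have h3 : (t - a) * (t + 1) = t * t - ((a - 1) * t + a) := by
      simp only [sub_mul, mul_add, one_mul, mul_one]
      abel
    rw [h3, h1, sub_self]
  | braid i j hij =>
    simp only [map_mul, FreeAlgebra.lift_ι_apply]
    rw [← hij]
    exact h.braid i (by omega)
  | comm i j hij =>
    simp only [map_mul, FreeAlgebra.lift_ι_apply]
    exact h.comm i j hij (by omega)

/-- The universal property of the Hecke algebra. -/
noncomputable def Hecke.lift {A : Type*} [Ring A] [Algebra R A] (T : ℕ → A)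
    (h : HeckeRel q n T) : Hecke R q n →ₐ[R] A :=
  RingQuot.liftAlgHom R (s := HRel R q n)
    ⟨FreeAlgebra.lift R (fun i : Fin (n - 1) => T i), h.free⟩

theorem Hecke.lift_mk {A : Type*} [Ring A] [Algebra R A] {T : ℕ → A}
    (h : HeckeRel q n T) (x : FreeAlgebra R (Fin (n - 1))) :
    Hecke.lift T h (Hecke.mk R q n x) = FreeAlgebra.lift R (fun i : Fin (n - 1) => T i) x :=
  RingQuot.liftAlgHom_mkAlgHom_apply (S := R) (s := HRel R q n)
    (FreeAlgebra.lift R (fun i : Fin (n - 1) => T i)) h.free x

theorem Hecke.lift_gT {A : Type*} [Ring A] [Algebra R A] {T : ℕ → A}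
    (h : HeckeRel q n T) {j : ℕ} (hj : j + 1 < n) : Hecke.lift T h (gT R q n j) = T j := by
  unfold gT
  rw [dif_pos (by omega : j < n - 1), Hecke.lift_mk, FreeAlgebra.lift_ι_apply]

/-- Induction principle: the algebra is generated by the `T_j`. -/
theorem Hecke.induction {P : Hecke R q n → Prop} (h0 : ∀ r : R, P (algebraMap R _ r))
    (hT : ∀ j, j + 1 < n → P (gT R q n j)) (hadd : ∀ a b, P a → P b → P (a + b))
    (hmul : ∀ a b, P a → P b → P (a * b)) (a : Hecke R q n) : P a := by
  obtain ⟨x, rfl⟩ := Hecke.mk_surjective a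
  induction x using FreeAlgebra.induction with
  | grade0 r =>
    have := h0 r
    rw [AlgHom.commutes]
    exact this
  | grade1 i =>
    have := hT i (by omega)
    unfold gT at this
    rw [dif_pos i.2] at this
    exact this
  | mul a b ha hb =>
    rw [map_mul]
    exact hmul _ _ ha hb
  | add a b ha hb =>
    rw [map_add]
    exact hadd _ _ ha hb

section Module
variable {V : Type*} [AddCommGroup V] [Module R V] [Module (Hecke R q n) V]
  [IsScalarTower R (Hecke R q n) V]

/-- An `R`-submodule stable under the generators is stable under the Hecke algebra. -/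
theorem smul_mem_of_gT {N : Submodule R V}
    (h : ∀ j, j + 1 < n → ∀ x ∈ N, gT R q n j • x ∈ N) (a : Hecke R q n) {x : V} (hx : x ∈ N) :
    a • x ∈ N := by
  have : ∀ a : Hecke R q n, ∀ x ∈ N, a • x ∈ N := by
    intro a
    induction a using Hecke.induction with
    | h0 r =>
      intro x hx
      rw [algebraMap_smul]
      exact N.smul_mem r hx
    | hT j hj => exact h j hj
    | hadd a b ha hb =>
      intro x hx
      rw [add_smul]
      exact N.add_mem (ha x hx) (hb x hx)
    | hmul a b ha hb =>
      intro x hx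
      rw [mul_smul]
      exact ha _ (hb x hx)
  exact this a x hx

end Module

end Pool.Agent.James
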