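import Pool.Agent.James.Hecke

/-!
The fermionic word module `Lam R q n ν` (functions on the words of content `ν`), with its form.
In terms of the basis of words: `T_j w = -w` if `w_j = w_{j+1}`, `T_j w = s_j w` if
`w_j < w_{j+1}`, `T_j w = q s_j w + (q - 1) w` if `w_j > w_{j+1}`; `⟨w, w⟩ = q ^ inv w`.
-/

set_option autoImplicit false

namespace Pool.Agent.James

variable {R : Type*} [CommRing R]

/-- The operator `T_j` on functions on words. -/
def lT (q : R) {n : ℕ} {ν : ℕ → ℕ} (j : ℕ) : Module.End R (Wd n ν → R) where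
  toFun f w := if w.1 j = w.1 (j + 1) then -f w else
    if w.1 j < w.1 (j + 1) then q * f (swW j w) else f (swW j w) + (q - 1) * f w
  map_add' f g := by
    funext w
    simp only [Pi.add_apply]
    split_ifs <;> ring
  map_smul' c f := by
    funext w
    simp only [Pi.smul_apply, smul_eq_mul, RingHom.id_apply]
    split_ifs <;> ring

section
variable {q : R} {n : ℕ} {ν : ℕ → ℕ}

theorem lT_eq {j : ℕ} {f : Wd n ν → R} {w : Wd n ν} (h : w.1 j = w.1 (j + 1)) :
    lT q j f w = -f w := by
  unfold lT
  simp only [LinearMap.coe_mk, AddHom.coe_mk]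
  rw [if_pos h]

theorem lT_lt {j : ℕ} {f : Wd n ν → R} {w : Wd n ν} (h : w.1 j < w.1 (j + 1)) :
    lT q j f w = q * f (swW j w) := by
  unfold lT
  simp only [LinearMap.coe_mk, AddHom.coe_mk]
  rw [if_neg h.ne, if_pos h]

theorem lT_gt {j : ℕ} {f : Wd n ν → R} {w : Wd n ν} (h : w.1 (j + 1) < w.1 j) :
    lT q j f w = f (swW j w) + (q - 1) * f w := by
  unfold lT
  simp only [LinearMap.coe_mk, AddHom.coe_mk]
  rw [if_neg h.ne', if_neg (by omega)]

theorem swW_left {j : ℕ} (hj : j + 1 < n) (w : Wd n ν) : (swW j w).1 j = w.1 (j + 1) := by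
  rw [swW_val hj, sw_left]

theorem swW_right {j : ℕ} (hj : j + 1 < n) (w : Wd n ν) : (swW j w).1 (j + 1) = w.1 j := by
  rw [swW_val hj, sw_right]

theorem swW_ne {j k : ℕ} (hj : j + 1 < n) (w : Wd n ν) (h1 : k ≠ j) (h2 : k ≠ j + 1) :
    (swW j w).1 k = w.1 k := by
  rw [swW_val hj, sw_ne w.1 h1 h2]

theorem lT_quad {j : ℕ} (hj : j + 1 < n) (f : Wd n ν → R) (w : Wd n ν) :
    lT q j (lT q j f) w = (q - 1) * lT q j f w + q * f w := by
  rcases lt_trichotomy (w.1 j) (w.1 (j + 1)) with h | h | h
  · have h' : (swW j w).1 (j + 1) < (swW j w).1 j := by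
      rw [swW_left hj, swW_right hj]
      exact h
    rw [lT_lt h, lT_gt h', swW_swW, lT_lt h]
    ring
  · rw [lT_eq h, lT_eq h]
    ring
  · have h' : (swW j w).1 j < (swW j w).1 (j + 1) := by
      rw [swW_left hj, swW_right hj]
      exact h
    rw [lT_gt h, lT_lt h', swW_swW, lT_gt h]
    ring

theorem lT_comm {j k : ℕ} (hjk : j + 1 < k) (hk : k + 1 < n) (f : Wd n ν → R) (w : Wd n ν) :
    lT q j (lT q k f) w = lT q k (lT q j f) w := by
  have e1 : (swW j w).1 k = w.1 k := swW_ne (by omega) w (by omega) (by omega)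
  have e2 : (swW j w).1 (k + 1) = w.1 (k + 1) := swW_ne (by omega) w (by omega) (by omega)
  have e3 : (swW k w).1 j = w.1 j := swW_ne hk w (by omega) (by omega)
  have e4 : (swW k w).1 (j + 1) = w.1 (j + 1) := swW_ne hk w (by omega) (by omega)
  have e5 := swW_comm hjk hk w
  unfold lT
  simp only [LinearMap.coe_mk, AddHom.coe_mk, e1, e2, e3, e4, e5]
  split_ifs <;> ring

theorem lT_braid {j : ℕ} (hj : j + 2 < n) (f : Wd n ν → R) (w : Wd n ν) :
    lT q j (lT q (j + 1) (lT q j f)) w = lT q (j + 1) (lT q j (lT q (j + 1) f)) w := by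
  have hj1 : j + 1 < n := by omega
  have hj2 : j + 1 + 1 < n := by omega
  have a1 : ∀ w : Wd n ν, (swW j w).1 j = w.1 (j + 1) := fun w => swW_left hj1 w
  have a2 : ∀ w : Wd n ν, (swW j w).1 (j + 1) = w.1 j := fun w => swW_right hj1 w
  have a3 : ∀ w : Wd n ν, (swW j w).1 (j + 1 + 1) = w.1 (j + 1 + 1) := fun w =>
    swW_ne hj1 w (by omega) (by omega)
  have b1 : ∀ w : Wd n ν, (swW (j + 1) w).1 (j + 1) = w.1 (j + 1 + 1) := fun w => swW_left hj2 w
  have b2 : ∀ w : Wd n ν, (swW (j + 1) w).1 (j + 1 + 1) = w.1 (j + 1) := fun w => swW_right hj2 w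
  have b3 : ∀ w : Wd n ν, (swW (j + 1) w).1 j = w.1 j := fun w =>
    swW_ne hj2 w (by omega) (by omega)
  have e5 := swW_braid hj w
  have e6 : ∀ w : Wd n ν, swW j (swW j w) = w := fun w => swW_swW j w
  have e7 : ∀ w : Wd n ν, swW (j + 1) (swW (j + 1) w) = w := fun w => swW_swW (j + 1) w
  unfold lT
  simp only [LinearMap.coe_mk, AddHom.coe_mk, a1, a2, a3, b1, b2, b3, e6, e7, e5]
  split_ifs <;> first
    | (exfalso; omega)
    | ring1

theorem lT_rel : HeckeRel q n (lT (ν := ν) q (n := n)) := by
  constructor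
  · intro j hj
    ext f w
    simp only [Module.End.mul_apply, LinearMap.add_apply, LinearMap.smul_apply,
      Module.End.one_apply, Pi.add_apply, Pi.smul_apply, smul_eq_mul]
    exact lT_quad hj f w
  · intro j hj
    ext f w
    simp only [Module.End.mul_apply]
    exact lT_braid hj f w
  · intro j k hjk hk
    ext f w
    simp only [Module.End.mul_apply]
    exact lT_comm hjk hk f w

instance finite_Wd : Finite (Wd n ν) := by
  rcases isEmpty_or_nonempty (Wd n ν) with h | ⟨⟨w0⟩⟩
  · infer_instance
  · let S : Finset ℕ := (Finset.range n).image w0.1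
    have hmem : ∀ (w : Wd n ν) (k : ℕ), k < n → w.1 k ∈ S := by
      intro w k hk
      have h1 : 0 < cnt w.1 (w.1 k) n := by
        unfold cnt
        rw [Finset.card_pos]
        exact ⟨k, by rw [Finset.mem_filter, Finset.mem_range]; exact ⟨hk, rfl⟩⟩
      rw [w.2.2, ← w0.2.2] at h1
      unfold cnt at h1
      rw [Finset.card_pos] at h1
      obtain ⟨l, hl⟩ := h1
      rw [Finset.mem_filter] at hl
      rw [← hl.2]
      exact Finset.mem_image_of_mem _ hl.1
    let F : Wd n ν → (Fin n → S) := fun w k => ⟨w.1 k, hmem w k k.2⟩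
    apply Finite.of_injective F
    intro w w' h
    apply Subtype.ext
    funext k
    by_cases hk : k < n
    · have := congrFun h ⟨k, hk⟩
      exact congrArg Subtype.val this
    · rw [w.2.1 k (by omega), w'.2.1 k (by omega)]

noncomputable instance fintype_Wd : Fintype (Wd n ν) := Fintype.ofFinite _

end

/-- The word module of content `ν`: functions on the set of words. -/
def Lam (R : Type*) [CommRing R] (q : R) (n : ℕ) (ν : ℕ → ℕ) : Type _ := Wd n ν → R

section
variable {q : R} {n : ℕ} {ν : ℕ → ℕ}

instance : AddCommGroup (Lam R q n ν) := inferInstanceAs (AddCommGroup (Wd n ν → R))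

instance : Module R (Lam R q n ν) := inferInstanceAs (Module R (Wd n ν → R))

noncomputable instance : Module (Hecke R q n) (Lam R q n ν) :=
  Module.compHom (Wd n ν → R) (Hecke.lift _ (lT_rel (q := q) (n := n) (ν := ν))).toRingHom

instance : IsScalarTower R (Hecke R q n) (Lam R q n ν) where
  smul_assoc r a f := by
    change Hecke.lift _ (lT_rel (q := q) (n := n) (ν := ν)) (r • a) f =
      r • (Hecke.lift _ (lT_rel (q := q) (n := n) (ν := ν)) a f)
    rw [map_smul]
    rfl

theorem gT_smul {j : ℕ} (hj : j + 1 < n) (f : Lam R q n ν) :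
    gT R q n j • f = (lT q j f : Wd n ν → R) := by
  change Hecke.lift _ (lT_rel (q := q) (n := n) (ν := ν)) (gT R q n j) f = _
  rw [Hecke.lift_gT _ hj]

/-- The symmetric bilinear form with `⟨w, w⟩ = q ^ inv w`. -/
noncomputable def bform (f g : Lam R q n ν) : R := ∑ w : Wd n ν, q ^ inv n w.1 * f w * g w

theorem bform_comm (f g : Lam R q n ν) : bform f g = bform g f := by
  unfold bform
  apply Finset.sum_congr rfl
  intro w _
  ring

theorem bform_add_left (f f' g : Lam R q n ν) : bform (f + f') g = bform f g + bform f' g := by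
  unfold bform
  rw [← Finset.sum_add_distrib]
  apply Finset.sum_congr rfl
  intro w _
  change q ^ inv n w.1 * (f w + f' w) * g w = _
  ring

theorem bform_smul_left (r : R) (f g : Lam R q n ν) : bform (r • f) g = r * bform f g := by
  unfold bform
  rw [Finset.mul_sum]
  apply Finset.sum_congr rfl
  intro w _
  change q ^ inv n w.1 * (r * f w) * g w = _
  ring

theorem bform_add_right (f g g' : Lam R q n ν) : bform f (g + g') = bform f g + bform f g' := by
  rw [bform_comm, bform_add_left, bform_comm g, bform_comm g']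

theorem bform_smul_right (r : R) (f g : Lam R q n ν) : bform f (r • g) = r * bform f g := by
  rw [bform_comm, bform_smul_left, bform_comm]

/-- The generators are self-adjoint. -/
theorem bform_gT {j : ℕ} (hj : j + 1 < n) (f g : Lam R q n ν) :
    bform (gT R q n j • f) g = bform f (gT R q n j • g) := by
  rw [gT_smul hj, gT_smul hj]
  unfold bform
  rw [← sub_eq_zero, ← Finset.sum_sub_distrib]
  apply Finset.sum_involution (fun w _ => swW j w)
  · intro w _
    rcases lt_trichotomy (w.1 j) (w.1 (j + 1)) with h | h | h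
    · have h' : (swW j w).1 (j + 1) < (swW j w).1 j := by
        rw [swW_left hj, swW_right hj]
        exact h
      rw [lT_lt h, lT_lt h, lT_gt h', lT_gt h', swW_swW, swW_val hj, inv_sw hj h]
      ring
    · rw [swW_eq_self hj h, lT_eq h, lT_eq h]
      ring
    · have h' : (swW j w).1 j < (swW j w).1 (j + 1) := by
        rw [swW_left hj, swW_right hj]
        exact h
      rw [lT_gt h, lT_gt h, lT_lt h', lT_lt h', swW_swW, swW_val hj, inv_sw' hj h]
      ring
  · intro w _ hne he
    apply hne
    have h : w.1 j = w.1 (j + 1) := by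
      rw [← swW_right hj w, he]
    rw [lT_eq h, lT_eq h]
    ring
  · intro w _
    exact Finset.mem_univ _
  · intro w _
    exact swW_swW j w

/-- The space of vectors orthogonal to a submodule is a submodule. -/
theorem bform_smul_mem {N : Submodule (Hecke R q n) (Lam R q n ν)} {x : Lam R q n ν}
    (h : ∀ y ∈ N, bform x y = 0) (a : Hecke R q n) : ∀ y ∈ N, bform (a • x) y = 0 := by
  let O : Submodule R (Lam R q n ν) :=
    { carrier := {x | ∀ y ∈ N, bform x y = 0}
      add_mem' := by
        intro a b ha hb y hy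
        rw [bform_add_left, ha y hy, hb y hy, add_zero]
      zero_mem' := by
        intro y _
        have := bform_smul_left (0 : R) (0 : Lam R q n ν) y
        rw [zero_smul, zero_mul] at this
        exact this
      smul_mem' := by
        intro r a ha y hy
        rw [bform_smul_left, ha y hy, mul_zero] }
  have : a • x ∈ O := by
    apply smul_mem_of_gT _ a (show x ∈ O from h)
    intro j hj x hx y hy
    rw [bform_gT hj]
    exact hx _ (N.smul_mem _ hy)
  exact this

end

end Pool.Agent.James
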