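import Pool.Agent.James.Restr4

/-!
`D^μ ≠ 0` only for `e`-restricted partitions (helper99). Proof: let the columns `c ∈ C`,
`C = [μ_{i+1}, μ_{i+1} + e)`, have the same length `i + 1`. For `x, y ∈ S^μ` let `Φ_c` be the part
of `⟨x, y⟩` of the words whose first letter from `C` is `c`. The operators `E` (replace `a + 1` by
`a`) and `F` (replace `a` by `a + 1`) kill `S^μ`, which gives `Φ_{a+1} = q Φ_a`, so
`⟨x, y⟩ = (1 + q + ... + q ^ (e - 1)) Φ = 0`.
-/

set_option autoImplicit false

namespace Pool.Agent.James.Rs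

/-- The first position with a letter in `C`. -/
noncomputable def fp (C : Finset ℕ) (w : ℕ → ℕ) : ℕ := sInf {p | w p ∈ C}

theorem fp_mem {C : Finset ℕ} {w : ℕ → ℕ} {p : ℕ} (h : w p ∈ C) : w (fp C w) ∈ C :=
  Nat.sInf_mem (s := {p | w p ∈ C}) ⟨p, h⟩

theorem fp_le {C : Finset ℕ} {w : ℕ → ℕ} {p : ℕ} (h : w p ∈ C) : fp C w ≤ p :=
  Nat.sInf_le (s := {p | w p ∈ C}) h

theorem fp_lt {C : Finset ℕ} {w : ℕ → ℕ} {l : ℕ} (h : l < fp C w) : w l ∉ C :=
  Nat.notMem_of_lt_sInf (s := {p | w p ∈ C}) h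

theorem fp_eq {C : Finset ℕ} {w : ℕ → ℕ} {p : ℕ} (h : w p ∈ C) (h' : ∀ l, l < p → w l ∉ C) :
    fp C w = p := by
  have h1 := fp_le h
  by_contra h2
  exact h' (fp C w) (by omega) (fp_mem h)

section Main
variable {F : Type} [Field F] {q : F} {n : ℕ} {ν : ℕ → ℕ}

/-- The part of the form of the words whose first letter from `C` is `c`. -/
noncomputable def Phi (C : Finset ℕ) (x y : Lam F q n ν) (c : ℕ) : F :=
  ∑ w ∈ (Finset.univ : Finset (Wd n ν)).filter (fun w => w.1 (fp C w.1) = c),
    q ^ inv n w.1 * exL x w.1 * exL y w.1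

theorem bform_exL (x y : Lam F q n ν) :
    bform x y = ∑ w : Wd n ν, q ^ inv n w.1 * exL x w.1 * exL y w.1 := by
  unfold bform
  apply Finset.sum_congr rfl
  intro w _
  rw [exL_word, exL_word]

theorem bform_Phi (C : Finset ℕ) (hC : ∀ w : Wd n ν, ∃ p, p < n ∧ w.1 p ∈ C)
    (x y : Lam F q n ν) : bform x y = ∑ c ∈ C, Phi C x y c := by
  rw [bform_exL]
  unfold Phi
  rw [Finset.sum_fiberwise_of_maps_to]
  intro w _
  obtain ⟨p, _, hp⟩ := hC w
  exact fp_mem hp

/-- The exchange of the first position with a letter in `C` and the position `k`. -/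
noncomputable def xW (C : Finset ℕ) (k : ℕ) (w : Wd n ν) : Wd n ν :=
  if h : fp C w.1 < n ∧ k < n then ⟨xch (fp C w.1) k w.1, xch_isWord h.1 h.2 w.2⟩ else w

theorem xW_val {C : Finset ℕ} {k : ℕ} {w : Wd n ν} (h1 : fp C w.1 < n) (h2 : k < n) :
    (xW C k w).1 = xch (fp C w.1) k w.1 := by
  unfold xW
  rw [dif_pos ⟨h1, h2⟩]

theorem Phi_step (C : Finset ℕ) (hC : ∀ w : Wd n ν, ∃ p, p < n ∧ w.1 p ∈ C) (a h : ℕ)
    (ha : a ∈ C) (ha' : a + 1 ∈ C) (hh : ν (a + 1) = h + 1) (x y : Lam F q n ν)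
    (hx : ∀ u, IsWord n (mv ν a (a + 1)) u → tK (lamE a) (rhoE q a) a (a + 1) n (exL x) u = 0)
    (hy : ∀ u, IsWord n (mv ν (a + 1) a) u → tK (lamF q a) rhoF (a + 1) a n (exL y) u = 0) :
    q ^ h * Phi C x y (a + 1) = q ^ (h + 1) * Phi C x y a := by
  have hfn : ∀ w : Wd n ν, fp C w.1 < n := by
    intro w
    obtain ⟨p, hp, hp'⟩ := hC w
    exact lt_of_le_of_lt (fp_le hp') hp
  -- the two expansions
  have hE : ∀ w : Wd n ν, w.1 (fp C w.1) = a + 1 → q ^ h * exL x w.1 =
      -∑ k ∈ Finset.range n, if fp C w.1 < k ∧ w.1 k = a then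
        kc (lamE a) (rhoE q a) n k (Function.update w.1 (fp C w.1) a) *
          exL x (xch (fp C w.1) k w.1) else 0 := by
    intro w hw
    have h1 : ∀ l, l < fp C w.1 → w.1 l ≠ a ∧ w.1 l ≠ a + 1 := by
      intro l hl
      have := fp_lt hl
      exact ⟨fun e => this (e ▸ ha), fun e => this (e ▸ ha')⟩
    have h2 := kill_solve (lam := lamE a) (rho := rhoE q a) (n := n) (exL x) w.1
      (show a ≠ a + 1 by omega) (hfn w) hw (fun l hl => (h1 l hl).1)
      (hx _ (isWord_update w.2 (hfn w) hw (by omega)))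
    rw [kcE_zero q _ (by
      intro l hl
      rw [Function.update_of_ne (by omega)]
      exact h1 l hl)] at h2
    have h3 : ((Finset.Ico (fp C w.1 + 1) n).filter (fun l =>
        Function.update w.1 (fp C w.1) a l = a + 1)).card = h := by
      have h4 := cnt_split (hfn w) w.1 (a + 1) (fun l hl => (h1 l hl).2) hw
      rw [w.2.2, hh] at h4
      have h5 : ((Finset.Ico (fp C w.1 + 1) n).filter (fun l =>
        Function.update w.1 (fp C w.1) a l = a + 1)).card =
        ((Finset.Ico (fp C w.1 + 1) n).filter (fun l => w.1 l = a + 1)).card := by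
        congr 1
        apply Finset.filter_congr
        intro l hl
        rw [Finset.mem_Ico] at hl
        rw [Function.update_of_ne (by omega)]
      omega
    rw [h3] at h2
    exact h2
  have hF : ∀ v : Wd n ν, v.1 (fp C v.1) = a → exL y v.1 =
      -∑ k ∈ Finset.range n, if fp C v.1 < k ∧ v.1 k = a + 1 then
        kc (lamF q a) rhoF n k (Function.update v.1 (fp C v.1) (a + 1)) *
          exL y (xch (fp C v.1) k v.1) else 0 := by
    intro v hv
    have h1 : ∀ l, l < fp C v.1 → v.1 l ≠ a ∧ v.1 l ≠ a + 1 := by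
      intro l hl
      have := fp_lt hl
      exact ⟨fun e => this (e ▸ ha), fun e => this (e ▸ ha')⟩
    have h2 := kill_solve (lam := lamF q a) (rho := rhoF) (n := n) (exL y) v.1
      (show a + 1 ≠ a by omega) (hfn v) hv (fun l hl => (h1 l hl).2)
      (hy _ (isWord_update v.2 (hfn v) hv (by omega)))
    rw [kcF_zero q _ (by
      intro l hl
      rw [Function.update_of_ne (by omega)]
      exact h1 l hl), one_mul] at h2
    exact h2
  -- the sums over pairs
  have hL : q ^ h * Phi C x y (a + 1) = -∑ k ∈ Finset.range n,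
      ∑ w ∈ (Finset.univ : Finset (Wd n ν)).filter
        (fun w => w.1 (fp C w.1) = a + 1 ∧ fp C w.1 < k ∧ w.1 k = a),
        q ^ inv n w.1 * kc (lamE a) (rhoE q a) n k (Function.update w.1 (fp C w.1) a) *
          exL x (xch (fp C w.1) k w.1) * exL y w.1 := by
    unfold Phi
    rw [Finset.mul_sum]
    have e1 : ∑ w ∈ (Finset.univ : Finset (Wd n ν)).filter (fun w => w.1 (fp C w.1) = a + 1),
        q ^ h * (q ^ inv n w.1 * exL x w.1 * exL y w.1) =
        ∑ w ∈ (Finset.univ : Finset (Wd n ν)).filter (fun w => w.1 (fp C w.1) = a + 1),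
        -∑ k ∈ Finset.range n, if fp C w.1 < k ∧ w.1 k = a then
        q ^ inv n w.1 * kc (lamE a) (rhoE q a) n k (Function.update w.1 (fp C w.1) a) *
          exL x (xch (fp C w.1) k w.1) * exL y w.1 else 0 := by
      apply Finset.sum_congr rfl
      intro w hw
      rw [Finset.mem_filter] at hw
      have h1 := hE w hw.2
      have h2 : q ^ h * (q ^ inv n w.1 * exL x w.1 * exL y w.1) =
        q ^ inv n w.1 * exL y w.1 * (q ^ h * exL x w.1) := by ring
      rw [h2, h1, mul_neg, Finset.mul_sum]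
      congr 1
      apply Finset.sum_congr rfl
      intro k _
      split_ifs <;> ring
    rw [e1, Finset.sum_neg_distrib, Finset.sum_comm]
    congr 1
    apply Finset.sum_congr rfl
    intro k _
    rw [← Finset.sum_filter, Finset.filter_filter]
  have hR : q ^ (h + 1) * Phi C x y a = -∑ k ∈ Finset.range n,
      ∑ v ∈ (Finset.univ : Finset (Wd n ν)).filter
        (fun v => v.1 (fp C v.1) = a ∧ fp C v.1 < k ∧ v.1 k = a + 1),
        q ^ (h + 1) * (q ^ inv n v.1 *
          kc (lamF q a) rhoF n k (Function.update v.1 (fp C v.1) (a + 1))) *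
          exL x v.1 * exL y (xch (fp C v.1) k v.1) := by
    unfold Phi
    rw [Finset.mul_sum]
    have e1 : ∑ v ∈ (Finset.univ : Finset (Wd n ν)).filter (fun w => w.1 (fp C w.1) = a),
        q ^ (h + 1) * (q ^ inv n v.1 * exL x v.1 * exL y v.1) =
        ∑ v ∈ (Finset.univ : Finset (Wd n ν)).filter (fun w => w.1 (fp C w.1) = a),
        -∑ k ∈ Finset.range n, if fp C v.1 < k ∧ v.1 k = a + 1 then
        q ^ (h + 1) * (q ^ inv n v.1 *
          kc (lamF q a) rhoF n k (Function.update v.1 (fp C v.1) (a + 1))) *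
          exL x v.1 * exL y (xch (fp C v.1) k v.1) else 0 := by
      apply Finset.sum_congr rfl
      intro v hv
      rw [Finset.mem_filter] at hv
      have h1 := hF v hv.2
      have h2 : q ^ (h + 1) * (q ^ inv n v.1 * exL x v.1 * exL y v.1) =
        q ^ (h + 1) * q ^ inv n v.1 * exL x v.1 * exL y v.1 := by ring
      rw [h2]
      conv_lhs => rw [h1]
      rw [mul_neg, Finset.mul_sum]
      congr 1
      apply Finset.sum_congr rfl
      intro k _
      split_ifs <;> ring
    rw [e1, Finset.sum_neg_distrib, Finset.sum_comm]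
    congr 1
    apply Finset.sum_congr rfl
    intro k _
    rw [← Finset.sum_filter, Finset.filter_filter]
  rw [hL, hR]
  congr 1
  apply Finset.sum_congr rfl
  intro k hk
  rw [Finset.mem_range] at hk
  -- properties of the exchange
  have hfp : ∀ (w : Wd n ν) (c d : ℕ), c ∈ C → d ∈ C → w.1 (fp C w.1) = c → fp C w.1 < k →
      w.1 k = d → fp C (xW C k w).1 = fp C w.1 ∧ (xW C k w).1 (fp C w.1) = d ∧
      (xW C k w).1 k = c := by
    intro w c d hc hd h1 h2 h3
    rw [xW_val (hfn w) hk]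
    refine ⟨?_, ?_, ?_⟩
    · apply fp_eq
      · rw [xch_left, h3]
        exact hd
      · intro l hl
        rw [xch_ne w.1 (by omega) (by omega)]
        exact fp_lt hl
    · rw [xch_left, h3]
    · rw [xch_right, h1]
  have hinv : ∀ (w : Wd n ν), fp C (xW C k w).1 = fp C w.1 → xW C k (xW C k w) = w := by
    intro w h1
    apply Subtype.ext
    rw [xW_val (hfn _) hk, h1, xW_val (hfn w) hk, xch_xch]
  refine Finset.sum_bij' (fun w _ => xW C k w) (fun v _ => xW C k v) ?_ ?_ ?_ ?_ ?_
  · intro w hw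
    rw [Finset.mem_filter] at hw ⊢
    obtain ⟨h1, h2, h3⟩ := hfp w (a + 1) a ha' ha hw.2.1 hw.2.2.1 hw.2.2.2
    refine ⟨Finset.mem_univ _, ?_, ?_, h3⟩
    · rw [h1, h2]
    · rw [h1]
      exact hw.2.2.1
  · intro w hw
    rw [Finset.mem_filter] at hw ⊢
    obtain ⟨h1, h2, h3⟩ := hfp w a (a + 1) ha ha' hw.2.1 hw.2.2.1 hw.2.2.2
    refine ⟨Finset.mem_univ _, ?_, ?_, h3⟩
    · rw [h1, h2]
    · rw [h1]
      exact hw.2.2.1
  · intro w hw
    rw [Finset.mem_filter] at hw
    exact hinv w (hfp w (a + 1) a ha' ha hw.2.1 hw.2.2.1 hw.2.2.2).1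
  · intro w hw
    rw [Finset.mem_filter] at hw
    exact hinv w (hfp w a (a + 1) ha ha' hw.2.1 hw.2.2.1 hw.2.2.2).1
  · intro w hw
    rw [Finset.mem_filter] at hw
    obtain ⟨h1, h2, h3⟩ := hfp w (a + 1) a ha' ha hw.2.1 hw.2.2.1 hw.2.2.2
    have h4 : ∀ l, l < fp C w.1 → w.1 l ≠ a ∧ w.1 l ≠ a + 1 := by
      intro l hl
      have := fp_lt hl
      exact ⟨fun e => this (e ▸ ha), fun e => this (e ▸ ha')⟩
    have h5 := coef_cmp q hw.2.2.1 hk w.1 h4 hw.2.1 hw.2.2.2
    rw [w.2.2, hh] at h5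
    rw [h5, h1, xW_val (hfn w) hk, xch_xch]

end Main

/-- The heights of the columns between `μ_{i+1}` and `μ_i`. -/
theorem conj_between {n : ℕ} (μ : Ptn n) (i c : ℕ) (h1 : μ.part (i + 1) ≤ c) (h2 : c < μ.part i) :
    μ.conj c = i + 1 := by
  have hi : i < n := by
    by_contra h
    rw [μ.zero i (by omega)] at h2
    omega
  unfold Ptn.conj
  have : (Finset.range n).filter (fun r => c < μ.part r) = Finset.range (i + 1) := by
    ext r
    rw [Finset.mem_filter, Finset.mem_range, Finset.mem_range]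
    constructor
    · rintro ⟨_, h3⟩
      by_contra h4
      have := μ.anti (show i + 1 ≤ r by omega)
      omega
    · intro h3
      have := μ.anti (show r ≤ i by omega)
      exact ⟨by omega, by omega⟩
  rw [this, Finset.card_range]

/-- `D^μ ≠ 0` only for `e`-restricted partitions `μ`. -/
theorem restr' (F : Type) [Field F] (q : F) (e n : ℕ) (μ : Ptn n) (hq : q ≠ 0) (h1 : 1 + q ≠ 0)
    (he : 0 < e) (hs : ∑ i ∈ Finset.range e, q ^ i = 0) (hD : Nontrivial (Dmod F q μ)) :
    ∀ i, μ.part i < μ.part (i + 1) + e := by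
  intro i
  by_contra hi
  have hq' : q ∈ nonZeroDivisors F := mem_nonZeroDivisors_of_ne_zero hq
  have h1' : (1 + q) ∈ nonZeroDivisors F := mem_nonZeroDivisors_of_ne_zero h1
  set b := μ.part (i + 1) with hb
  let C : Finset ℕ := Finset.Ico b (b + e)
  have hcol : ∀ c ∈ C, μ.conj c = i + 1 := by
    intro c hc
    rw [Finset.mem_Ico] at hc
    exact conj_between μ i c hc.1 (by omega)
  have hC : ∀ w : Wd n μ.conj, ∃ p, p < n ∧ w.1 p ∈ C := by
    intro w
    have hbC : b ∈ C := Finset.mem_Ico.2 ⟨le_refl _, by omega⟩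
    have h2 : 0 < cnt w.1 b n := by
      rw [w.2.2, hcol b hbC]
      omega
    unfold cnt at h2
    rw [Finset.card_pos] at h2
    obtain ⟨p, hp⟩ := h2
    rw [Finset.mem_filter, Finset.mem_range] at hp
    exact ⟨p, hp.1, by rw [hp.2]; exact hbC⟩
  have hzero : ∀ x y : Lam F q n μ.conj, x ∈ Specht F q μ → y ∈ Specht F q μ → bform x y = 0 := by
    intro x y hx hy
    rw [bform_Phi C hC]
    have hstep : ∀ t, t < e → Phi C x y (b + t) = q ^ t * Phi C x y b := by
      intro t
      induction t with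
      | zero =>
        intro _
        rw [add_zero, pow_zero, one_mul]
      | succ t ih =>
        intro ht
        have ha : b + t ∈ C := Finset.mem_Ico.2 ⟨by omega, by omega⟩
        have ha' : b + t + 1 ∈ C := Finset.mem_Ico.2 ⟨by omega, by omega⟩
        have h3 := Phi_step (q := q) C hC (b + t) i ha ha' (hcol _ ha') x y
          (fun u hu => restr_kill inv_lam μ _ _ _ _ _ (pairE q (b + t)) hq' h1'
            (restr_noE μ (b + t)) (zinv F q n μ) x hx u hu)
          (fun u hu => restr_kill inv_lam μ _ _ _ _ _ (pairF q (b + t)) hq' h1'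
            (restr_noF μ (b + t) (by rw [hcol _ ha, hcol _ ha'])) (zinv F q n μ) y hy u hu)
        have h4 : Phi C x y (b + t + 1) = q * Phi C x y (b + t) := by
          have h5 : q ^ i ≠ 0 := pow_ne_zero _ hq
          apply mul_left_cancel₀ h5
          rw [h3]
          ring
        rw [← add_assoc, h4, ih (by omega)]
        ring
    have h3 : ∑ c ∈ C, Phi C x y c = ∑ t ∈ Finset.range e, Phi C x y (b + t) := by
      have := Finset.sum_Ico_eq_sum_range (fun c => Phi C x y c) b (b + e)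
      rw [Nat.add_sub_cancel_left] at this
      exact this
    rw [h3, Finset.sum_congr rfl (fun t ht => hstep t (Finset.mem_range.1 ht)),
      ← Finset.sum_mul, hs, zero_mul]
  have htop : spechtRad F q μ = ⊤ := by
    rw [eq_top_iff]
    intro x _ y
    exact hzero x.1 y.1 x.2 y.2
  have hsub : Subsingleton (Dmod F q μ) := by
    unfold Dmod
    rw [htop]
    exact Submodule.Quotient.subsingleton_iff.2 rfl
  exact not_subsingleton _ hsub

/-- `D^μ ≠ 0` only for `e`-restricted partitions `μ`, in the form of `Kap.lean`. -/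
theorem restr : S_RESTR := by
  intro F _ q e n μ hq h1 he hD
  exact restr' F q e n μ hq h1 he.1 he.2.1 hD

end Pool.Agent.James.Rs
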