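import Pool.Agent.James.Stmts

/-!
Operators replacing letters in words, commuting with the Hecke algebra (helper99).
-/

set_option autoImplicit false

namespace Pool.Agent.James.Rs

section Tot
variable {R : Type*} [CommRing R]

/-- `T_j` on functions of all sequences. -/
def tT (q : R) (j : ℕ) (φ : (ℕ → ℕ) → R) : (ℕ → ℕ) → R := fun w =>
  if w j = w (j + 1) then -φ w else
    if w j < w (j + 1) then q * φ (sw j w) else φ (sw j w) + (q - 1) * φ w

open scoped Classical in
/-- Extension by zero of a function on words. -/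
noncomputable def ex {n : ℕ} {ν : ℕ → ℕ} (f : Wd n ν → R) : (ℕ → ℕ) → R := fun w =>
  if h : IsWord n ν w then f ⟨w, h⟩ else 0

theorem ex_word {n : ℕ} {ν : ℕ → ℕ} (f : Wd n ν → R) (w : Wd n ν) : ex f w.1 = f w := by
  unfold ex
  rw [dif_pos w.2]

theorem ex_not {n : ℕ} {ν : ℕ → ℕ} (f : Wd n ν → R) {w : ℕ → ℕ} (h : ¬ IsWord n ν w) :
    ex f w = 0 := by
  unfold ex
  rw [dif_neg h]

theorem ex_lT {q : R} {n : ℕ} {ν : ℕ → ℕ} {j : ℕ} (hj : j + 1 < n) (f : Wd n ν → R) :
    ex (lT q j f) = tT q j (ex f) := by
  funext w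
  by_cases h : IsWord n ν w
  · have e1 : ex (lT q j f) w = lT q j f ⟨w, h⟩ := ex_word _ ⟨w, h⟩
    have e2 : ex f w = f ⟨w, h⟩ := ex_word _ ⟨w, h⟩
    have e3 : ex f (sw j w) = f (swW j ⟨w, h⟩) := by
      have := ex_word f (swW j ⟨w, h⟩)
      rw [swW_val hj] at this
      exact this
    rw [e1]
    unfold tT lT
    simp only [LinearMap.coe_mk, AddHom.coe_mk, e2, e3]
  · have h' : ¬ IsWord n ν (sw j w) := by
      intro h2
      apply h
      have := isWord_sw h2 hj
      rwa [sw_sw] at this
    unfold tT
    rw [ex_not _ h, ex_not _ h, ex_not _ h']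
    simp

/-- The coefficient of the replacement at the position `k`. -/
def kc (lam rho : ℕ → R) (n k : ℕ) (u : ℕ → ℕ) : R :=
  (∏ l ∈ Finset.range k, lam (u l)) * ∏ l ∈ Finset.Ico (k + 1) n, rho (u l)

/-- Replace one letter `s` by `t`, all positions, with coefficients. -/
def tK (lam rho : ℕ → R) (s t n : ℕ) (φ : (ℕ → ℕ) → R) : (ℕ → ℕ) → R := fun u =>
  ∑ k ∈ Finset.range n, if u k = s then kc lam rho n k u * φ (Function.update u k t) else 0

/-- The compatibility of the coefficients with `T`. -/
def PairOK (q : R) (lam rho : ℕ → R) (s t : ℕ) : Prop :=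
  ∀ (ψ : ℕ → ℕ → R) (c d : ℕ),
    let T : (ℕ → ℕ → R) → ℕ → ℕ → R := fun χ c d =>
      if c = d then -χ c d else if c < d then q * χ d c else χ d c + (q - 1) * χ c d
    let K : (ℕ → ℕ → R) → ℕ → ℕ → R := fun χ c d =>
      (if c = s then rho d * χ t d else 0) + (if d = s then lam c * χ c t else 0)
    K (T ψ) c d = T (K ψ) c d

theorem sum_two {n j : ℕ} (hj : j + 1 < n) (g r : ℕ → R)
    (h1 : ∀ k, k < n → k ≠ j → k ≠ j + 1 → g k = r k) (h2 : g j + g (j + 1) = r j + r (j + 1)) :
    ∑ k ∈ Finset.range n, g k = ∑ k ∈ Finset.range n, r k := by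
  have hmem1 : j ∈ Finset.range n := Finset.mem_range.2 (by omega)
  have hmem2 : j + 1 ∈ (Finset.range n).erase j :=
    Finset.mem_erase.2 ⟨by omega, Finset.mem_range.2 hj⟩
  rw [← Finset.add_sum_erase _ g hmem1, ← Finset.add_sum_erase _ r hmem1,
    ← Finset.add_sum_erase _ g hmem2, ← Finset.add_sum_erase _ r hmem2, ← add_assoc, ← add_assoc,
    h2]
  congr 1
  apply Finset.sum_congr rfl
  intro k hk
  rw [Finset.mem_erase, Finset.mem_erase, Finset.mem_range] at hk
  exact h1 k hk.2.2 hk.2.1 hk.1

theorem prod_sw_range {j k : ℕ} (h1 : k ≠ j + 1) (lam : ℕ → R) (u : ℕ → ℕ) :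
    ∏ l ∈ Finset.range k, lam (sw j u l) = ∏ l ∈ Finset.range k, lam (u l) := by
  refine Finset.prod_bij' (fun l _ => Equiv.swap j (j + 1) l) (fun l _ => Equiv.swap j (j + 1) l)
    ?_ ?_ ?_ ?_ ?_
  · intro l hl
    rw [Finset.mem_range] at hl ⊢
    rw [Equiv.swap_apply_def]
    split_ifs <;> omega
  · intro l hl
    rw [Finset.mem_range] at hl ⊢
    rw [Equiv.swap_apply_def]
    split_ifs <;> omega
  · intro l _
    exact Equiv.swap_apply_self _ _ _
  · intro l _
    exact Equiv.swap_apply_self _ _ _
  · intro l _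
    rfl

theorem prod_sw_Ico {n j k : ℕ} (hj : j + 1 < n) (h1 : k ≠ j) (rho : ℕ → R) (u : ℕ → ℕ) :
    ∏ l ∈ Finset.Ico (k + 1) n, rho (sw j u l) = ∏ l ∈ Finset.Ico (k + 1) n, rho (u l) := by
  refine Finset.prod_bij' (fun l _ => Equiv.swap j (j + 1) l) (fun l _ => Equiv.swap j (j + 1) l)
    ?_ ?_ ?_ ?_ ?_
  · intro l hl
    rw [Finset.mem_Ico] at hl ⊢
    rw [Equiv.swap_apply_def]
    split_ifs <;> omega
  · intro l hl
    rw [Finset.mem_Ico] at hl ⊢
    rw [Equiv.swap_apply_def]
    split_ifs <;> omega
  · intro l _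
    exact Equiv.swap_apply_self _ _ _
  · intro l _
    exact Equiv.swap_apply_self _ _ _
  · intro l _
    rfl

theorem kc_sw {n j k : ℕ} (hj : j + 1 < n) (h1 : k ≠ j) (h2 : k ≠ j + 1) (lam rho : ℕ → R)
    (u : ℕ → ℕ) : kc lam rho n k (sw j u) = kc lam rho n k u := by
  unfold kc
  rw [prod_sw_range h2, prod_sw_Ico hj h1]

theorem kc_left {n j : ℕ} (hj : j + 1 < n) (lam rho : ℕ → R) (u : ℕ → ℕ) :
    kc lam rho n j u = (∏ l ∈ Finset.range j, lam (u l)) *
      (∏ l ∈ Finset.Ico (j + 1 + 1) n, rho (u l)) * rho (u (j + 1)) := by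
  unfold kc
  rw [Finset.prod_eq_prod_Ico_succ_bot (by omega)]
  ring

theorem kc_right {n j : ℕ} (lam rho : ℕ → R) (u : ℕ → ℕ) :
    kc lam rho n (j + 1) u = (∏ l ∈ Finset.range j, lam (u l)) *
      (∏ l ∈ Finset.Ico (j + 1 + 1) n, rho (u l)) * lam (u j) := by
  unfold kc
  rw [Finset.prod_range_succ]
  ring

/-- Two given letters at the positions `j, j + 1`. -/
def put (j : ℕ) (u : ℕ → ℕ) (c d : ℕ) : ℕ → ℕ := Function.update (Function.update u j c) (j + 1) d

theorem put_left (j : ℕ) (u : ℕ → ℕ) (c d : ℕ) : put j u c d j = c := by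
  unfold put
  rw [Function.update_of_ne (by omega), Function.update_self]

theorem put_right (j : ℕ) (u : ℕ → ℕ) (c d : ℕ) : put j u c d (j + 1) = d := by
  unfold put
  rw [Function.update_self]

theorem put_ne {j k : ℕ} (u : ℕ → ℕ) (c d : ℕ) (h1 : k ≠ j) (h2 : k ≠ j + 1) :
    put j u c d k = u k := by
  unfold put
  rw [Function.update_of_ne h2, Function.update_of_ne h1]

theorem put_self (j : ℕ) (u : ℕ → ℕ) : put j u (u j) (u (j + 1)) = u := by
  funext k
  by_cases h1 : k = j
  · rw [h1, put_left]
  by_cases h2 : k = j + 1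
  · rw [h2, put_right]
  rw [put_ne u _ _ h1 h2]

theorem sw_put (j : ℕ) (u : ℕ → ℕ) (c d : ℕ) : sw j (put j u c d) = put j u d c := by
  funext k
  by_cases h1 : k = j
  · rw [h1, sw_left, put_left, put_right]
  by_cases h2 : k = j + 1
  · rw [h2, sw_right, put_left, put_right]
  rw [sw_ne _ h1 h2, put_ne u _ _ h1 h2, put_ne u _ _ h1 h2]

theorem update_put_left (j : ℕ) (u : ℕ → ℕ) (c d t : ℕ) :
    Function.update (put j u c d) j t = put j u t d := by
  funext k
  by_cases h1 : k = j
  · rw [h1, Function.update_self, put_left]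
  rw [Function.update_of_ne h1]
  by_cases h2 : k = j + 1
  · rw [h2, put_right, put_right]
  rw [put_ne u _ _ h1 h2, put_ne u _ _ h1 h2]

theorem update_put_right (j : ℕ) (u : ℕ → ℕ) (c d t : ℕ) :
    Function.update (put j u c d) (j + 1) t = put j u c t := by
  funext k
  by_cases h2 : k = j + 1
  · rw [h2, Function.update_self, put_right]
  rw [Function.update_of_ne h2]
  by_cases h1 : k = j
  · rw [h1, put_left, put_left]
  rw [put_ne u _ _ h1 h2, put_ne u _ _ h1 h2]

theorem tT_put (q : R) (j : ℕ) (φ : (ℕ → ℕ) → R) (u : ℕ → ℕ) (c d : ℕ) :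
    tT q j φ (put j u c d) = if c = d then -φ (put j u c d) else
      if c < d then q * φ (put j u d c) else φ (put j u d c) + (q - 1) * φ (put j u c d) := by
  unfold tT
  rw [put_left, put_right, sw_put]

/-- The replacement operators commute with the Hecke algebra. -/
theorem tK_tT {q : R} {lam rho : ℕ → R} {s t n j : ℕ} (hj : j + 1 < n)
    (hp : PairOK q lam rho s t) (φ : (ℕ → ℕ) → R) :
    tK lam rho s t n (tT q j φ) = tT q j (tK lam rho s t n φ) := by
  funext u
  set P : R := (∏ l ∈ Finset.range j, lam (u l)) * (∏ l ∈ Finset.Ico (j + 1 + 1) n, rho (u l))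
    with hP
  have hPp : ∀ c d, (∏ l ∈ Finset.range j, lam (put j u c d l)) *
      (∏ l ∈ Finset.Ico (j + 1 + 1) n, rho (put j u c d l)) = P := by
    intro c d
    rw [hP]
    congr 1
    · apply Finset.prod_congr rfl
      intro l hl
      rw [Finset.mem_range] at hl
      rw [put_ne u _ _ (by omega) (by omega)]
    · apply Finset.prod_congr rfl
      intro l hl
      rw [Finset.mem_Ico] at hl
      rw [put_ne u _ _ (by omega) (by omega)]
  -- the terms
  let g : ((ℕ → ℕ) → R) → ℕ → (ℕ → ℕ) → R := fun χ k v =>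
    if v k = s then kc lam rho n k v * χ (Function.update v k t) else 0
  have hg : ∀ χ v, tK lam rho s t n χ v = ∑ k ∈ Finset.range n, g χ k v := fun χ v => rfl
  have hR : tT q j (tK lam rho s t n φ) u = ∑ k ∈ Finset.range n, tT q j (g φ k) u := by
    unfold tT
    rw [hg, hg]
    split_ifs
    · rw [Finset.sum_neg_distrib]
    · rw [Finset.mul_sum]
    · rw [Finset.sum_add_distrib, Finset.mul_sum]
  rw [hR, hg]
  apply sum_two hj
  · intro k hk h1 h2
    have e1 : Function.update u k t j = u j := Function.update_of_ne (Ne.symm h1) _ _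
    have e2 : Function.update u k t (j + 1) = u (j + 1) := Function.update_of_ne (Ne.symm h2) _ _
    have e3 : sw j (Function.update u k t) = Function.update (sw j u) k t := by
      funext l
      by_cases h3 : l = j
      · rw [h3, sw_left, Function.update_of_ne (Ne.symm h1), Function.update_of_ne (Ne.symm h2),
          sw_left]
      by_cases h4 : l = j + 1
      · rw [h4, sw_right, Function.update_of_ne (Ne.symm h1), Function.update_of_ne (Ne.symm h2),
          sw_right]
      rw [sw_ne _ h3 h4]
      by_cases h5 : l = k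
      · rw [h5, Function.update_self, Function.update_self]
      · rw [Function.update_of_ne h5, Function.update_of_ne h5, sw_ne _ h3 h4]
    have e4 : sw j u k = u k := sw_ne _ h1 h2
    have e5 := kc_sw hj h1 h2 lam rho u
    simp only [g, tT, e1, e2, e3, e4, e5]
    split_ifs <;> ring
  · -- the two positions
    have key := hp (fun c d => P * φ (put j u c d)) (u j) (u (j + 1))
    have hgl : ∀ χ c d, g χ j (put j u c d) =
        if c = s then P * rho d * χ (put j u t d) else 0 := by
      intro χ c d
      simp only [g]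
      rw [put_left, update_put_left, kc_left hj, hPp, put_right]
    have hgr : ∀ χ c d, g χ (j + 1) (put j u c d) =
        if d = s then P * lam c * χ (put j u c t) else 0 := by
      intro χ c d
      simp only [g]
      rw [put_right, update_put_right, kc_right, hPp, put_left]
    have hu := put_self j u
    have L1 : g (tT q j φ) j u = if u j = s then P * rho (u (j + 1)) *
        tT q j φ (put j u t (u (j + 1))) else 0 := by
      conv_lhs => rw [← hu]
      exact hgl _ _ _
    have L2 : g (tT q j φ) (j + 1) u = if u (j + 1) = s then P * lam (u j) *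
        tT q j φ (put j u (u j) t) else 0 := by
      conv_lhs => rw [← hu]
      exact hgr _ _ _
    have R1 : ∀ k, tT q j (g φ k) u = if u j = u (j + 1) then
        -g φ k (put j u (u j) (u (j + 1))) else
        if u j < u (j + 1) then q * g φ k (put j u (u (j + 1)) (u j)) else
        g φ k (put j u (u (j + 1)) (u j)) + (q - 1) * g φ k (put j u (u j) (u (j + 1))) := by
      intro k
      conv_lhs => rw [← hu]
      exact tT_put _ _ _ _ _ _
    rw [L1, L2, R1, R1, hgl, hgl, hgr, hgr, tT_put, tT_put]
    dsimp only at key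
    refine Eq.trans ?_ (Eq.trans key ?_)
    · split_ifs <;> ring
    · split_ifs <;> ring

end Tot

section Maps
variable {R : Type*} [CommRing R]

/-- The weights of `E` : replace `a + 1` by `a` (in the word of the source). -/
def lamE (a : ℕ) (x : ℕ) : R := if x = a ∨ x = a + 1 then -1 else 1
def rhoE (q : R) (a : ℕ) (x : ℕ) : R := if x = a + 1 then q else 1
def lamF (q : R) (a : ℕ) (x : ℕ) : R := if x = a then -q else if x = a + 1 then -1 else 1
def rhoF (x : ℕ) : R := 1

theorem pairE (q : R) (a : ℕ) : PairOK q (lamE a) (rhoE q a) a (a + 1) := by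
  intro ψ c d
  simp only [lamE, rhoE]
  by_cases c1 : c = a
  · subst c1
    by_cases d1 : d = c
    · subst d1
      simp
      try ring
    by_cases d2 : d = c + 1
    · subst d2
      simp
      try ring
    rcases lt_or_gt_of_ne d1 with h | h
    · have h1 : ¬ c = d := by omega
      have h2 : ¬ c < d := by omega
      have h3 : ¬ c + 1 = d := by omega
      have h4 : ¬ c + 1 < d := by omega
      simp [d1, d2, h1, h2, h3, h4]
      try ring
    · have h1 : ¬ c = d := by omega
      have h2 : c < d := by omega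
      have h3 : ¬ c + 1 = d := by omega
      have h4 : c + 1 < d := by omega
      simp [d1, d2, h1, h2, h3, h4]
      try ring
  by_cases c2 : c = a + 1
  · subst c2
    by_cases d1 : d = a
    · subst d1
      simp
      try ring
    by_cases d2 : d = a + 1
    · subst d2
      simp
      try ring
    simp [d1, d2]
    try ring
  by_cases d1 : d = a
  · subst d1
    rcases lt_or_gt_of_ne c1 with h | h
    · have h1 : ¬ d = c := by omega
      have h2 : ¬ d < c := by omega
      have h3 : ¬ c = d + 1 := by omega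
      have h4 : c < d + 1 := by omega
      simp [c1, c2, h, h1, h2, h3, h4]
      try ring
    · have h1 : ¬ d = c := by omega
      have h2 : ¬ c < d := by omega
      have h3 : ¬ c = d + 1 := by omega
      have h4 : ¬ c < d + 1 := by omega
      simp [c1, c2, h, h1, h2, h3, h4]
      try ring
  by_cases d2 : d = a + 1
  · subst d2
    rcases lt_or_gt_of_ne c2 with h | h
    · have h1 : ¬ a = c := by omega
      have h2 : ¬ a + 1 = c := by omega
      simp [c1, c2, h, h1, h2]
      try ring
    · have h1 : ¬ a = c := by omega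
      have h2 : ¬ a + 1 = c := by omega
      simp [c1, c2, h, h1, h2]
      try ring
  simp [c1, c2, d1, d2]

theorem pairF (q : R) (a : ℕ) : PairOK q (lamF q a) rhoF (a + 1) a := by
  intro ψ c d
  simp only [lamF, rhoF]
  by_cases c1 : c = a
  · subst c1
    by_cases d1 : d = c
    · subst d1
      simp
      try ring
    by_cases d2 : d = c + 1
    · subst d2
      simp
      try ring
    simp [d1, d2]
    try ring
  by_cases c2 : c = a + 1
  · subst c2
    by_cases d1 : d = a
    · subst d1
      simp
      try ring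
    by_cases d2 : d = a + 1
    · subst d2
      simp
      try ring
    rcases lt_or_gt_of_ne d2 with h | h
    · have h1 : ¬ a + 1 = d := by omega
      have h2 : ¬ a + 1 < d := by omega
      have h3 : ¬ a = d := by omega
      have h4 : ¬ a < d := by omega
      simp [d1, d2, h1, h2, h3, h4]
      try ring
    · have h1 : ¬ a + 1 = d := by omega
      have h2 : a + 1 < d := by omega
      have h3 : ¬ a = d := by omega
      have h4 : a < d := by omega
      simp [d1, d2, h1, h2, h3, h4]
      try ring
  by_cases d2 : d = a + 1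
  · subst d2
    rcases lt_or_gt_of_ne c2 with h | h
    · have h1 : ¬ a = c := by omega
      have h2 : ¬ a + 1 = c := by omega
      have h3 : c < a := by omega
      simp [c1, c2, h, h1, h2, h3]
      try ring
    · have h1 : ¬ a = c := by omega
      have h2 : ¬ a + 1 = c := by omega
      have h3 : ¬ c < a := by omega
      have h4 : ¬ c < a + 1 := by omega
      simp [c1, c2, h, h1, h2, h3, h4]
      try ring
  by_cases d1 : d = a
  · subst d1
    simp [c1, c2]
    try ring
  simp [c1, c2, d1, d2]

end Maps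

end Pool.Agent.James.Rs
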