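import Pool.Agent.James.Restr1

/-!
The replacement operators kill the Specht module if the two columns have the same length
(helper99).
-/

set_option autoImplicit false

namespace Pool.Agent.James.Rs

theorem ps_succ (ν : ℕ → ℕ) (r : ℕ) : ps ν (r + 1) = ps ν r + ν r := by
  unfold ps
  rw [Finset.sum_range_succ]

theorem ps_mono (ν : ℕ → ℕ) : Monotone (ps ν) :=
  monotone_nat_of_le_succ (fun r => by rw [ps_succ]; omega)

theorem ptn_ps_n {n : ℕ} (μ : Ptn n) : ps μ.part n = n := μ.sum

/-- Positions with letters in `L` in the first `R` blocks. -/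
theorem restr_count_le {n : ℕ} (ν : ℕ → ℕ) (L : Finset ℕ) (w : ℕ → ℕ) (hw : BlockDistinct n ν w)
    (R : ℕ) (hR : ps ν R ≤ n) :
    ∑ k ∈ Finset.range (ps ν R), (if w k ∈ L then 1 else 0) ≤
      ∑ r ∈ Finset.range R, min (ν r) L.card := by
  induction R with
  | zero =>
    have : ps ν 0 = 0 := by unfold ps; simp
    rw [this]
    simp
  | succ R ih =>
    have h1 : ps ν R ≤ ps ν (R + 1) := ps_mono ν (Nat.le_succ R)
    rw [← Finset.sum_range_add_sum_Ico _ h1, Finset.sum_range_succ]
    apply Nat.add_le_add (ih (by omega))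
    rw [← Finset.card_filter]
    apply le_min
    · refine (Finset.card_filter_le _ _).trans ?_
      rw [Nat.card_Ico, ps_succ]
      omega
    · apply Finset.card_le_card_of_injOn w
      · intro k hk
        rw [Finset.mem_coe, Finset.mem_filter] at hk
        exact hk.2
      · intro k hk l hl hkl
        rw [Finset.mem_coe, Finset.mem_filter, Finset.mem_Ico] at hk hl
        have key : ∀ k l, ps ν R ≤ k → k < l → l < ps ν (R + 1) → w k ≠ w l := by
          intro k l h2 h3 h4
          apply hw k l h3 (by omega)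
          intro r' h5
          have h6 : R < r' := by
            by_contra h7
            have := ps_mono ν (not_lt.1 h7)
            omega
          have := ps_mono ν (show R + 1 ≤ r' from h6)
          omega
        rcases lt_trichotomy k l with h | h | h
        · exact absurd hkl (key k l hk.1.1 h hl.1.2)
        · exact h
        · exact absurd hkl.symm (key l k hl.1.1 h hk.1.2)

theorem restr_sum_conj {n : ℕ} (μ : Ptn n) (m : ℕ) :
    ∑ r ∈ Finset.range n, min (μ.part r) m = ∑ c ∈ Finset.range m, μ.conj c := by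
  unfold Ptn.conj
  simp only [Finset.card_filter]
  rw [Finset.sum_comm]
  apply Finset.sum_congr rfl
  intro r _
  rw [← Finset.card_filter]
  have : (Finset.range m).filter (fun c => c < μ.part r) = Finset.range (min (μ.part r) m) := by
    ext c
    rw [Finset.mem_filter, Finset.mem_range, Finset.mem_range]
    omega
  rw [this, Finset.card_range]

theorem restr_cnt_sum (w : ℕ → ℕ) (L : Finset ℕ) (n : ℕ) :
    ∑ k ∈ Finset.range n, (if w k ∈ L then 1 else 0) = ∑ c ∈ L, cnt w c n := by
  unfold cnt
  simp only [Finset.card_filter]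
  rw [Finset.sum_comm]
  apply Finset.sum_congr rfl
  intro k _
  rw [Finset.sum_ite_eq]

/-- No block distinct words if some set of letters is too frequent. -/
theorem restr_noword {n : ℕ} (μ : Ptn n) (ν : ℕ → ℕ) (L : Finset ℕ)
    (hL : ∑ c ∈ Finset.range L.card, μ.conj c < ∑ c ∈ L, ν c) (w : ℕ → ℕ) (hw : IsWord n ν w) :
    ¬ BlockDistinct n μ.part w := by
  intro hd
  have h1 := restr_count_le μ.part L w hd n (le_of_eq (ptn_ps_n μ))
  rw [(ptn_ps_n μ), restr_sum_conj, restr_cnt_sum] at h1
  have h2 : ∑ c ∈ L, cnt w c n = ∑ c ∈ L, ν c :=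
    Finset.sum_congr rfl (fun c _ => hw.2 c)
  omega

/-- The content with one letter `s` more and one letter `t` less. -/
def mv (ν : ℕ → ℕ) (s t : ℕ) : ℕ → ℕ := fun c =>
  if c = s then ν c + 1 else if c = t then ν c - 1 else ν c

section Kill
variable {R : Type} [CommRing R] {q : R} {n : ℕ}

theorem ex_add {ν : ℕ → ℕ} (f g : Wd n ν → R) : ex (f + g) = ex f + ex g := by
  funext w
  by_cases h : IsWord n ν w
  · have := ex_word (f + g) ⟨w, h⟩
    have h1 := ex_word f ⟨w, h⟩
    have h2 := ex_word g ⟨w, h⟩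
    dsimp only at this h1 h2
    rw [Pi.add_apply, this, h1, h2, Pi.add_apply]
  · rw [Pi.add_apply, ex_not _ h, ex_not _ h, ex_not _ h, add_zero]

theorem ex_smul {ν : ℕ → ℕ} (r : R) (f : Wd n ν → R) : ex (r • f) = r • ex f := by
  funext w
  by_cases h : IsWord n ν w
  · have := ex_word (r • f) ⟨w, h⟩
    have h1 := ex_word f ⟨w, h⟩
    dsimp only at this h1
    rw [Pi.smul_apply, this, h1, Pi.smul_apply]
  · rw [Pi.smul_apply, ex_not _ h, ex_not _ h, smul_zero]

theorem tK_add (lam rho : ℕ → R) (s t : ℕ) (φ χ : (ℕ → ℕ) → R) :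
    tK lam rho s t n (φ + χ) = tK lam rho s t n φ + tK lam rho s t n χ := by
  funext u
  rw [Pi.add_apply]
  unfold tK
  rw [← Finset.sum_add_distrib]
  apply Finset.sum_congr rfl
  intro k _
  rw [Pi.add_apply]
  split_ifs <;> ring

theorem tK_smul (lam rho : ℕ → R) (s t : ℕ) (r : R) (φ : (ℕ → ℕ) → R) :
    tK lam rho s t n (r • φ) = r • tK lam rho s t n φ := by
  funext u
  rw [Pi.smul_apply]
  unfold tK
  rw [Finset.smul_sum]
  apply Finset.sum_congr rfl
  intro k _
  rw [Pi.smul_apply, smul_eq_mul, smul_eq_mul]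
  split_ifs <;> ring

/-- Extension by zero of an element of a word module. -/
noncomputable def exL {ν : ℕ → ℕ} (x : Lam R q n ν) : (ℕ → ℕ) → R :=
  ex (n := n) (ν := ν) (fun w => (x : Wd n ν → R) w)

theorem exL_word {ν : ℕ → ℕ} (x : Lam R q n ν) (w : Wd n ν) :
    exL x w.1 = (x : Wd n ν → R) w := ex_word _ w

theorem exL_gT {ν : ℕ → ℕ} {j : ℕ} (hj : j + 1 < n) (x : Lam R q n ν) :
    exL (gT R q n j • x) = tT q j (exL x) := by
  have h := ex_lT (q := q) hj (x : Wd n ν → R)
  have h2 := gT_smul (q := q) hj x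
  unfold exL
  rw [h2]
  exact h

theorem exL_add {ν : ℕ → ℕ} (x y : Lam R q n ν) : exL (x + y) = exL x + exL y :=
  ex_add (x : Wd n ν → R) y

theorem exL_smul {ν : ℕ → ℕ} (r : R) (x : Lam R q n ν) : exL (r • x) = r • exL x :=
  ex_smul r (x : Wd n ν → R)

/-- The replacement operators kill the Specht module. -/
theorem restr_kill (hInv : S_INV) (μ : Ptn n) (lam rho : ℕ → R) (s t : ℕ) (ν' : ℕ → ℕ)
    (hp : PairOK q lam rho s t) (hq : q ∈ nonZeroDivisors R) (h1 : (1 + q) ∈ nonZeroDivisors R)
    (hno : ∀ w, IsWord n ν' w → ¬ BlockDistinct n μ.part w) (hz : IsInv q n μ.part (zvec R q μ))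
    (x : Lam R q n μ.conj) (hx : x ∈ Specht R q μ) (u : ℕ → ℕ) (hu : IsWord n ν' u) :
    tK lam rho s t n (exL x) u = 0 := by
  let N : Submodule R (Lam R q n μ.conj) :=
    { carrier := {x | ∀ u, IsWord n ν' u → tK lam rho s t n (exL x) u = 0}
      add_mem' := by
        intro a b ha hb u hu
        rw [exL_add, tK_add, Pi.add_apply, ha u hu, hb u hu, add_zero]
      zero_mem' := by
        intro u hu
        have e : exL (0 : Lam R q n μ.conj) = (0 : R) • exL (0 : Lam R q n μ.conj) := by
          rw [← exL_smul, zero_smul]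
        rw [e, tK_smul, Pi.smul_apply, zero_smul]
      smul_mem' := by
        intro r a ha u hu
        rw [exL_smul, tK_smul, Pi.smul_apply, ha u hu, smul_zero] }
  have hstab : ∀ j, j + 1 < n → ∀ x ∈ N, gT R q n j • x ∈ N := by
    intro j hj x hx u hu
    rw [exL_gT hj, tK_tT hj hp]
    unfold tT
    rw [hx u hu, hx (sw j u) (isWord_sw hu hj)]
    simp
  have hzN : zvec R q μ ∈ N := by
    let f : Lam R q n ν' := fun w => tK lam rho s t n (exL (zvec R q μ)) w.1
    have hf : IsInv q n μ.part f := by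
      intro j hj hY
      rw [gT_smul hj]
      funext w
      have e1 : ∀ w : Wd n ν', (f : Wd n ν' → R) w =
          tK lam rho s t n (exL (zvec R q μ)) w.1 := fun w => rfl
      have e2 : lT q j (f : Wd n ν' → R) w =
          tT q j (tK lam rho s t n (exL (zvec R q μ))) w.1 := by
        unfold tT lT
        simp only [LinearMap.coe_mk, AddHom.coe_mk]
        rw [e1, e1, swW_val hj]
      have h2 := hz j hj hY
      have h3 : tT q j (tK lam rho s t n (exL (zvec R q μ))) =
          q • tK lam rho s t n (exL (zvec R q μ)) := by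
        rw [← tK_tT hj hp, ← exL_gT hj, h2, exL_smul, tK_smul]
      refine e2.trans ?_
      rw [h3]
      rfl
    have h4 := (hInv R q n ν' μ.part f hq h1 hf).1
    intro u hu
    exact h4 ⟨u, hu⟩ (hno u hu)
  have key : ∀ x ∈ Specht R q μ, x ∈ N := by
    intro x hx
    unfold Specht at hx
    rw [Submodule.mem_span_singleton] at hx
    obtain ⟨a, rfl⟩ := hx
    exact smul_mem_of_gT hstab a hzN
  exact key x hx u hu

end Kill

theorem restr_noE {n : ℕ} (μ : Ptn n) (a : ℕ) (w : ℕ → ℕ) (hw : IsWord n (mv μ.conj a (a + 1)) w) :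
    ¬ BlockDistinct n μ.part w := by
  apply restr_noword μ (mv μ.conj a (a + 1)) (Finset.range (a + 1)) _ w hw
  rw [Finset.card_range, Finset.sum_range_succ, Finset.sum_range_succ]
  have h1 : ∑ c ∈ Finset.range a, mv μ.conj a (a + 1) c = ∑ c ∈ Finset.range a, μ.conj c := by
    apply Finset.sum_congr rfl
    intro c hc
    rw [Finset.mem_range] at hc
    unfold mv
    rw [if_neg (by omega), if_neg (by omega)]
  have h2 : mv μ.conj a (a + 1) a = μ.conj a + 1 := by
    unfold mv
    rw [if_pos rfl]
  rw [h1, h2]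
  omega

theorem restr_noF {n : ℕ} (μ : Ptn n) (a : ℕ) (hab : μ.conj (a + 1) = μ.conj a) (w : ℕ → ℕ)
    (hw : IsWord n (mv μ.conj (a + 1) a) w) : ¬ BlockDistinct n μ.part w := by
  apply restr_noword μ (mv μ.conj (a + 1) a) (insert (a + 1) (Finset.range a)) _ w hw
  rw [Finset.card_insert_of_notMem (by rw [Finset.mem_range]; omega), Finset.card_range,
    Finset.sum_insert (by rw [Finset.mem_range]; omega), Finset.sum_range_succ]
  have h1 : ∑ c ∈ Finset.range a, mv μ.conj (a + 1) a c = ∑ c ∈ Finset.range a, μ.conj c := by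
    apply Finset.sum_congr rfl
    intro c hc
    rw [Finset.mem_range] at hc
    unfold mv
    rw [if_neg (by omega), if_neg (by omega)]
  have h2 : mv μ.conj (a + 1) a (a + 1) = μ.conj (a + 1) + 1 := by
    unfold mv
    rw [if_pos rfl]
  rw [h1, h2, hab]
  omega

end Pool.Agent.James.Rs
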