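import Pool.Agent.James.Restr2

/-!
`D^μ ≠ 0` only for `e`-restricted partitions (helper99).
-/

set_option autoImplicit false

namespace Pool.Agent.James.Rs

/-! ### Inversions and exchanges -/

theorem double_split {n p k : ℕ} (hpk : p ≠ k) (hp : p < n) (hk : k < n) (g : ℕ → ℕ → ℤ)
    (hg : ∀ i j, i ≠ p → i ≠ k → j ≠ p → j ≠ k → g i j = 0) :
    ∑ i ∈ Finset.range n, ∑ j ∈ Finset.range n, g i j = g p p + g p k + g k p + g k k +
      ∑ l ∈ ((Finset.range n).erase p).erase k, (g p l + g k l + g l p + g l k) := by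
  have split : ∀ f : ℕ → ℤ, ∑ i ∈ Finset.range n, f i =
      f p + f k + ∑ l ∈ ((Finset.range n).erase p).erase k, f l := by
    intro f
    have h1 : p ∈ Finset.range n := Finset.mem_range.2 hp
    have h2 : k ∈ (Finset.range n).erase p := Finset.mem_erase.2 ⟨hpk.symm, Finset.mem_range.2 hk⟩
    rw [← Finset.add_sum_erase _ f h1, ← Finset.add_sum_erase _ f h2, add_assoc]
  rw [split]
  simp only [split]
  have h0 : ∑ i ∈ ((Finset.range n).erase p).erase k,
      (g i p + g i k + ∑ l ∈ ((Finset.range n).erase p).erase k, g i l) =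
      ∑ i ∈ ((Finset.range n).erase p).erase k, (g i p + g i k) := by
    apply Finset.sum_congr rfl
    intro i hi
    rw [Finset.mem_erase, Finset.mem_erase] at hi
    have : ∑ l ∈ ((Finset.range n).erase p).erase k, g i l = 0 := by
      apply Finset.sum_eq_zero
      intro l hl
      rw [Finset.mem_erase, Finset.mem_erase] at hl
      exact hg i l hi.2.1 hi.1 hl.2.1 hl.1
    rw [this, add_zero]
  rw [h0]
  simp only [Finset.sum_add_distrib]
  ring

/-- `w` with the letters at the positions `p`, `k` exchanged. -/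
def xch (p k : ℕ) (w : ℕ → ℕ) : ℕ → ℕ := fun l => w (Equiv.swap p k l)

theorem xch_left (p k : ℕ) (w : ℕ → ℕ) : xch p k w p = w k := by
  unfold xch
  rw [Equiv.swap_apply_left]

theorem xch_right (p k : ℕ) (w : ℕ → ℕ) : xch p k w k = w p := by
  unfold xch
  rw [Equiv.swap_apply_right]

theorem xch_ne {p k l : ℕ} (w : ℕ → ℕ) (h1 : l ≠ p) (h2 : l ≠ k) : xch p k w l = w l := by
  unfold xch
  rw [Equiv.swap_apply_of_ne_of_ne h1 h2]

theorem xch_xch (p k : ℕ) (w : ℕ → ℕ) : xch p k (xch p k w) = w := by
  funext l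
  unfold xch
  rw [Equiv.swap_apply_self]

theorem xch_isWord {n p k : ℕ} {ν w : ℕ → ℕ} (hp : p < n) (hk : k < n) (h : IsWord n ν w) :
    IsWord n ν (xch p k w) := by
  refine ⟨fun l hl => ?_, fun c => ?_⟩
  · rw [xch_ne w (by omega) (by omega)]
    exact h.1 l hl
  · rw [← h.2 c]
    unfold cnt
    have hmem : ∀ l, l < n → Equiv.swap p k l < n := by
      intro l hl
      rw [Equiv.swap_apply_def]
      split_ifs <;> omega
    refine Finset.card_bij' (fun l _ => Equiv.swap p k l) (fun l _ => Equiv.swap p k l) ?_ ?_ ?_ ?_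
    · intro l hl
      rw [Finset.mem_filter, Finset.mem_range] at hl ⊢
      exact ⟨hmem l hl.1, hl.2⟩
    · intro l hl
      rw [Finset.mem_filter, Finset.mem_range] at hl ⊢
      refine ⟨hmem l hl.1, ?_⟩
      unfold xch
      rw [Equiv.swap_apply_self]
      exact hl.2
    · intro l _
      exact Equiv.swap_apply_self _ _ _
    · intro l _
      exact Equiv.swap_apply_self _ _ _

theorem inv_sum (n : ℕ) (w : ℕ → ℕ) : (inv n w : ℤ) =
    ∑ i ∈ Finset.range n, ∑ j ∈ Finset.range n, if i < j ∧ w j < w i then (1 : ℤ) else 0 := by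
  unfold inv
  rw [Finset.card_filter, Finset.sum_product]
  push_cast
  rfl

theorem inv_xch {n p k a : ℕ} (hpk : p < k) (hk : k < n) {w : ℕ → ℕ} (h1 : w p = a + 1)
    (h2 : w k = a) : inv n w = inv n (xch p k w) + 1 +
      ((Finset.Ico (p + 1) k).filter (fun l => w l = a ∨ w l = a + 1)).card := by
  have hmem : ∀ l, l < n → Equiv.swap p k l < n := by
    intro l hl
    rw [Equiv.swap_apply_def]
    split_ifs <;> omega
  have hre : ∀ f : ℕ → ℤ, ∑ i ∈ Finset.range n, f (Equiv.swap p k i) =
      ∑ i ∈ Finset.range n, f i := by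
    intro f
    refine Finset.sum_bij' (fun l _ => Equiv.swap p k l) (fun l _ => Equiv.swap p k l)
      ?_ ?_ ?_ ?_ ?_
    · intro l hl
      rw [Finset.mem_range] at hl ⊢
      exact hmem l hl
    · intro l hl
      rw [Finset.mem_range] at hl ⊢
      exact hmem l hl
    · intro l _
      exact Equiv.swap_apply_self _ _ _
    · intro l _
      exact Equiv.swap_apply_self _ _ _
    · intro l _
      rfl
  have e1 : (inv n (xch p k w) : ℤ) = ∑ i ∈ Finset.range n, ∑ j ∈ Finset.range n,
      if Equiv.swap p k i < Equiv.swap p k j ∧ w j < w i then (1 : ℤ) else 0 := by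
    rw [inv_sum, ← hre (fun i => ∑ j ∈ Finset.range n,
      if Equiv.swap p k i < Equiv.swap p k j ∧ w j < w i then (1 : ℤ) else 0)]
    apply Finset.sum_congr rfl
    intro i _
    rw [← hre (fun j => if Equiv.swap p k (Equiv.swap p k i) < Equiv.swap p k j ∧
      w j < w (Equiv.swap p k i) then (1 : ℤ) else 0)]
    apply Finset.sum_congr rfl
    intro j _
    rw [Equiv.swap_apply_self, Equiv.swap_apply_self]
    rfl
  have e2 : (inv n w : ℤ) - inv n (xch p k w) = ∑ i ∈ Finset.range n, ∑ j ∈ Finset.range n,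
      ((if i < j ∧ w j < w i then (1 : ℤ) else 0) -
        if Equiv.swap p k i < Equiv.swap p k j ∧ w j < w i then (1 : ℤ) else 0) := by
    rw [e1, inv_sum, ← Finset.sum_sub_distrib]
    apply Finset.sum_congr rfl
    intro i _
    rw [← Finset.sum_sub_distrib]
  rw [double_split (p := p) (k := k) (show p ≠ k by omega) (show p < n by omega) hk] at e2
  · have e3 : ∀ l ∈ ((Finset.range n).erase p).erase k,
        (((if p < l ∧ w l < w p then (1 : ℤ) else 0) -
          if Equiv.swap p k p < Equiv.swap p k l ∧ w l < w p then (1 : ℤ) else 0) +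
        ((if k < l ∧ w l < w k then (1 : ℤ) else 0) -
          if Equiv.swap p k k < Equiv.swap p k l ∧ w l < w k then (1 : ℤ) else 0) +
        ((if l < p ∧ w p < w l then (1 : ℤ) else 0) -
          if Equiv.swap p k l < Equiv.swap p k p ∧ w p < w l then (1 : ℤ) else 0) +
        ((if l < k ∧ w k < w l then (1 : ℤ) else 0) -
          if Equiv.swap p k l < Equiv.swap p k k ∧ w k < w l then (1 : ℤ) else 0)) =
        if (p < l ∧ l < k) ∧ (w l = a ∨ w l = a + 1) then 1 else 0 := by
      intro l hl
      rw [Finset.mem_erase, Finset.mem_erase] at hl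
      rw [Equiv.swap_apply_left, Equiv.swap_apply_right,
        Equiv.swap_apply_of_ne_of_ne hl.2.1 hl.1, h1, h2]
      have h3 := hl.1
      have h4 := hl.2.1
      split_ifs <;> omega
    rw [Finset.sum_congr rfl e3, ← Finset.sum_filter] at e2
    have e4 : (((Finset.range n).erase p).erase k).filter
        (fun l => (p < l ∧ l < k) ∧ (w l = a ∨ w l = a + 1)) =
        (Finset.Ico (p + 1) k).filter (fun l => w l = a ∨ w l = a + 1) := by
      ext l
      simp only [Finset.mem_filter, Finset.mem_erase, Finset.mem_range, Finset.mem_Ico]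
      constructor
      · rintro ⟨h3, h4, h5⟩
        exact ⟨⟨by omega, h4.2⟩, h5⟩
      · rintro ⟨h3, h5⟩
        exact ⟨⟨by omega, by omega, by omega⟩, ⟨by omega, h3.2⟩, h5⟩
    rw [e4, Finset.sum_const, nsmul_eq_mul, mul_one] at e2
    rw [Equiv.swap_apply_left, Equiv.swap_apply_right, h1, h2] at e2
    have e5 : ¬ (k < p) := by omega
    simp only [lt_irrefl, false_and, if_false, hpk, e5, true_and, Nat.lt_succ_self, if_true,
      sub_self, sub_zero, zero_add, add_zero] at e2
    have e6 : ¬ (a + 1 < a) := by omega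
    have e7 : a < a + 1 := by omega
    simp only [e6, e7, if_true, if_false, sub_zero, and_false, and_true] at e2
    omega
  · intro i j hi hi' hj hj'
    rw [Equiv.swap_apply_of_ne_of_ne hi hi', Equiv.swap_apply_of_ne_of_ne hj hj']
    ring

end Pool.Agent.James.Rs
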