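import Pool.Agent.James.Restr3
import Pool.Agent.James.Inv
import Pool.Agent.James.Kap

/-!
`D^μ ≠ 0` only for `e`-restricted partitions (helper99).
-/

set_option autoImplicit false

namespace Pool.Agent.James.Rs

section Coef
variable {R : Type*} [CommRing R]

theorem prod_one {S : Finset ℕ} (f : ℕ → R) (h : ∀ l ∈ S, f l = 1) : ∏ l ∈ S, f l = 1 :=
  Finset.prod_eq_one h

theorem prod_lamE (a : ℕ) (S : Finset ℕ) (w : ℕ → ℕ) :
    ∏ l ∈ S, (lamE a (w l) : R) = (-1) ^ (S.filter (fun l => w l = a ∨ w l = a + 1)).card := by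
  unfold lamE
  rw [Finset.prod_ite, Finset.prod_const, Finset.prod_const_one, mul_one]

theorem prod_rhoE (q : R) (a : ℕ) (S : Finset ℕ) (w : ℕ → ℕ) :
    ∏ l ∈ S, rhoE q a (w l) = q ^ (S.filter (fun l => w l = a + 1)).card := by
  unfold rhoE
  rw [Finset.prod_ite, Finset.prod_const, Finset.prod_const_one, mul_one]

theorem prod_lamF (q : R) (a : ℕ) (S : Finset ℕ) (w : ℕ → ℕ) :
    ∏ l ∈ S, lamF q a (w l) = (-1) ^ (S.filter (fun l => w l = a ∨ w l = a + 1)).card *
      q ^ (S.filter (fun l => w l = a)).card := by
  rw [← prod_lamE (R := R)]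
  have : q ^ (S.filter (fun l => w l = a)).card = ∏ l ∈ S, if w l = a then q else 1 := by
    rw [Finset.prod_ite, Finset.prod_const, Finset.prod_const_one, mul_one]
  rw [this, ← Finset.prod_mul_distrib]
  apply Finset.prod_congr rfl
  intro l _
  unfold lamF lamE
  by_cases h1 : w l = a
  · rw [if_pos h1, if_pos (Or.inl h1), if_pos h1]
    ring
  · by_cases h2 : w l = a + 1
    · rw [if_neg h1, if_pos h2, if_pos (Or.inr h2), if_neg h1]
      ring
    · rw [if_neg h1, if_neg h2, if_neg (by tauto), if_neg h1]
      ring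

/-- Products over an initial segment, split at `p < k`. -/
theorem prod_split {p k : ℕ} (hpk : p < k) (f : ℕ → R) :
    ∏ l ∈ Finset.range k, f l =
      (∏ l ∈ Finset.range p, f l) * f p * ∏ l ∈ Finset.Ico (p + 1) k, f l := by
  rw [← Finset.prod_range_mul_prod_Ico f (show p ≤ k by omega), mul_assoc,
    ← Finset.prod_eq_prod_Ico_succ_bot hpk]

theorem kcE_val {n p k a : ℕ} (q : R) (hpk : p < k) (u : ℕ → ℕ)
    (h1 : ∀ l, l < p → u l ≠ a ∧ u l ≠ a + 1) (h2 : u p = a) :
    kc (lamE a) (rhoE q a) n k u =
      (-1) ^ (1 + ((Finset.Ico (p + 1) k).filter (fun l => u l = a ∨ u l = a + 1)).card) *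
        q ^ ((Finset.Ico (k + 1) n).filter (fun l => u l = a + 1)).card := by
  unfold kc
  rw [prod_split hpk]
  have e1 : ∏ l ∈ Finset.range p, (lamE a (u l) : R) = 1 := by
    apply Finset.prod_eq_one
    intro l hl
    rw [Finset.mem_range] at hl
    have := h1 l hl
    unfold lamE
    rw [if_neg (by tauto)]
  have e2 : (lamE a (u p) : R) = -1 := by
    unfold lamE
    rw [if_pos (Or.inl h2)]
  rw [e1, e2, prod_lamE, prod_rhoE]
  ring

theorem kcE_zero {n p a : ℕ} (q : R) (u : ℕ → ℕ)
    (h1 : ∀ l, l < p → u l ≠ a ∧ u l ≠ a + 1) :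
    kc (lamE a) (rhoE q a) n p u =
        q ^ ((Finset.Ico (p + 1) n).filter (fun l => u l = a + 1)).card := by
  unfold kc
  rw [prod_rhoE]
  have e1 : ∏ l ∈ Finset.range p, (lamE a (u l) : R) = 1 := by
    apply Finset.prod_eq_one
    intro l hl
    rw [Finset.mem_range] at hl
    have := h1 l hl
    unfold lamE
    rw [if_neg (by tauto)]
  rw [e1, one_mul]

theorem kcF_val {n p k a : ℕ} (q : R) (hpk : p < k) (u : ℕ → ℕ)
    (h1 : ∀ l, l < p → u l ≠ a ∧ u l ≠ a + 1) (h2 : u p = a + 1) :
    kc (lamF q a) (rhoF (R := R)) n k u =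
      (-1) ^ (1 + ((Finset.Ico (p + 1) k).filter (fun l => u l = a ∨ u l = a + 1)).card) *
        q ^ ((Finset.Ico (p + 1) k).filter (fun l => u l = a)).card := by
  unfold kc
  rw [prod_split hpk]
  have e1 : ∏ l ∈ Finset.range p, (lamF q a (u l) : R) = 1 := by
    apply Finset.prod_eq_one
    intro l hl
    rw [Finset.mem_range] at hl
    have := h1 l hl
    unfold lamF
    rw [if_neg (by tauto), if_neg (by tauto)]
  have e2 : (lamF q a (u p) : R) = -1 := by
    unfold lamF
    rw [if_neg (by omega), if_pos h2]
  have e3 : ∏ l ∈ Finset.Ico (k + 1) n, (rhoF (u l) : R) = 1 :=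
    Finset.prod_eq_one (fun l _ => rfl)
  rw [e1, e2, e3, prod_lamF]
  ring

theorem kcF_zero {n p a : ℕ} (q : R) (u : ℕ → ℕ)
    (h1 : ∀ l, l < p → u l ≠ a ∧ u l ≠ a + 1) :
    kc (lamF q a) (rhoF (R := R)) n p u = 1 := by
  unfold kc
  have e1 : ∏ l ∈ Finset.range p, (lamF q a (u l) : R) = 1 := by
    apply Finset.prod_eq_one
    intro l hl
    rw [Finset.mem_range] at hl
    have := h1 l hl
    unfold lamF
    rw [if_neg (by tauto), if_neg (by tauto)]
  have e3 : ∏ l ∈ Finset.Ico (p + 1) n, (rhoF (u l) : R) = 1 :=
    Finset.prod_eq_one (fun l _ => rfl)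
  rw [e1, e3, one_mul]

/-- The kill relation solved for the first letter. -/
theorem kill_solve {lam rho : ℕ → R} {s t n p : ℕ} (φ : (ℕ → ℕ) → R) (w : ℕ → ℕ) (hst : s ≠ t)
    (hp : p < n) (hw : w p = t) (hl : ∀ l, l < p → w l ≠ s)
    (h0 : tK lam rho s t n φ (Function.update w p s) = 0) :
    kc lam rho n p (Function.update w p s) * φ w =
      -∑ k ∈ Finset.range n, if p < k ∧ w k = s then
        kc lam rho n k (Function.update w p s) * φ (xch p k w) else 0 := by
  unfold tK at h0
  have hmem : p ∈ Finset.range n := Finset.mem_range.2 hp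
  rw [← Finset.add_sum_erase _ _ hmem] at h0
  rw [Function.update_self, if_pos rfl, Function.update_idem] at h0
  have e1 : Function.update w p t = w := by
    rw [← hw]
    exact Function.update_eq_self p w
  rw [e1] at h0
  have e2 : ∑ k ∈ (Finset.range n).erase p, (if Function.update w p s k = s then
      kc lam rho n k (Function.update w p s) *
        φ (Function.update (Function.update w p s) k t) else 0) =
      ∑ k ∈ Finset.range n, if p < k ∧ w k = s then
        kc lam rho n k (Function.update w p s) * φ (xch p k w) else 0 := by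
    rw [← Finset.add_sum_erase (Finset.range n) (fun k => if p < k ∧ w k = s then
        kc lam rho n k (Function.update w p s) * φ (xch p k w) else 0) hmem]
    rw [if_neg (by omega), zero_add]
    apply Finset.sum_congr rfl
    intro k hk
    rw [Finset.mem_erase, Finset.mem_range] at hk
    rw [Function.update_of_ne hk.1]
    by_cases h1 : w k = s
    · have h2 : p < k := by
        by_contra h2
        exact hl k (by omega) h1
      rw [if_pos h1, if_pos ⟨h2, h1⟩]
      congr 2
      funext l
      by_cases h3 : l = k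
      · rw [h3, Function.update_self, xch_right, hw]
      rw [Function.update_of_ne h3]
      by_cases h4 : l = p
      · rw [h4, Function.update_self, xch_left, h1]
      rw [Function.update_of_ne h4, xch_ne w h4 h3]
    · rw [if_neg h1, if_neg (by tauto)]
  rw [e2] at h0
  linear_combination h0

end Coef

theorem cnt_split {n p : ℕ} (hp : p < n) (w : ℕ → ℕ) (c : ℕ) (h1 : ∀ l, l < p → w l ≠ c)
    (h2 : w p = c) : cnt w c n = 1 + ((Finset.Ico (p + 1) n).filter (fun l => w l = c)).card := by
  unfold cnt
  rw [Finset.card_filter, Finset.card_filter,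
    ← Finset.sum_range_add_sum_Ico _ (show p ≤ n by omega),
    Finset.sum_eq_sum_Ico_succ_bot hp]
  have : ∑ l ∈ Finset.range p, (if w l = c then 1 else 0) = 0 := by
    apply Finset.sum_eq_zero
    intro l hl
    rw [Finset.mem_range] at hl
    rw [if_neg (h1 l hl)]
  rw [this, if_pos h2]
  omega

theorem isWord_update {n p s t : ℕ} {ν w : ℕ → ℕ} (hw : IsWord n ν w) (hp : p < n)
    (hpt : w p = t) (hst : s ≠ t) : IsWord n (mv ν s t) (Function.update w p s) := by
  refine ⟨fun k hk => ?_, fun c => ?_⟩
  · rw [Function.update_of_ne (by omega)]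
    exact hw.1 k hk
  · have hmem : p ∈ Finset.range n := Finset.mem_range.2 hp
    have e1 : cnt (Function.update w p s) c n = (if s = c then 1 else 0) +
        ∑ k ∈ (Finset.range n).erase p, (if w k = c then 1 else 0) := by
      unfold cnt
      rw [Finset.card_filter, ← Finset.add_sum_erase _ _ hmem, Function.update_self]
      congr 1
      apply Finset.sum_congr rfl
      intro k hk
      rw [Finset.mem_erase] at hk
      rw [Function.update_of_ne hk.1]
    have e2 : cnt w c n = (if t = c then 1 else 0) +
        ∑ k ∈ (Finset.range n).erase p, (if w k = c then 1 else 0) := by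
      unfold cnt
      rw [Finset.card_filter, ← Finset.add_sum_erase _ _ hmem, hpt]
    have e3 := hw.2 c
    rw [e1]
    unfold mv
    by_cases h1 : c = s
    · rw [if_pos h1, if_pos h1.symm]
      rw [if_neg (by rw [h1]; exact hst.symm)] at e2
      omega
    · rw [if_neg h1, if_neg (Ne.symm h1)]
      by_cases h2 : c = t
      · rw [if_pos h2]
        rw [if_pos h2.symm] at e2
        omega
      · rw [if_neg h2]
        rw [if_neg (Ne.symm h2)] at e2
        omega

/-- The comparison of the coefficients. -/
theorem coef_cmp {R : Type*} [CommRing R] (q : R) {n p k a : ℕ} (hpk : p < k) (hk : k < n)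
    (w : ℕ → ℕ) (h1 : ∀ l, l < p → w l ≠ a ∧ w l ≠ a + 1) (h2 : w p = a + 1) (h3 : w k = a) :
    q ^ inv n w * kc (lamE a) (rhoE q a) n k (Function.update w p a) =
      q ^ cnt w (a + 1) n * (q ^ inv n (xch p k w) *
        kc (lamF q a) rhoF n k (Function.update (xch p k w) p (a + 1))) := by
  have hp : p < n := by omega
  rw [kcE_val q hpk _ (by
      intro l hl
      rw [Function.update_of_ne (by omega)]
      exact h1 l hl) (Function.update_self _ _ _),
    kcF_val q hpk _ (by
      intro l hl
      rw [Function.update_of_ne (by omega), xch_ne w (by omega) (by omega)]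
      exact h1 l hl) (Function.update_self _ _ _)]
  have c1 : ((Finset.Ico (p + 1) k).filter (fun l => Function.update w p a l = a ∨
      Function.update w p a l = a + 1)).card =
      ((Finset.Ico (p + 1) k).filter (fun l => w l = a ∨ w l = a + 1)).card := by
    congr 1
    apply Finset.filter_congr
    intro l hl
    rw [Finset.mem_Ico] at hl
    rw [Function.update_of_ne (by omega)]
  have c2 : ((Finset.Ico (p + 1) k).filter (fun l =>
      Function.update (xch p k w) p (a + 1) l = a ∨
      Function.update (xch p k w) p (a + 1) l = a + 1)).card =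
      ((Finset.Ico (p + 1) k).filter (fun l => w l = a ∨ w l = a + 1)).card := by
    congr 1
    apply Finset.filter_congr
    intro l hl
    rw [Finset.mem_Ico] at hl
    rw [Function.update_of_ne (by omega), xch_ne w (by omega) (by omega)]
  have c3 : ((Finset.Ico (k + 1) n).filter (fun l => Function.update w p a l = a + 1)).card =
      ((Finset.Ico (k + 1) n).filter (fun l => w l = a + 1)).card := by
    congr 1
    apply Finset.filter_congr
    intro l hl
    rw [Finset.mem_Ico] at hl
    rw [Function.update_of_ne (by omega)]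
  have c4 : ((Finset.Ico (p + 1) k).filter (fun l =>
      Function.update (xch p k w) p (a + 1) l = a)).card =
      ((Finset.Ico (p + 1) k).filter (fun l => w l = a)).card := by
    congr 1
    apply Finset.filter_congr
    intro l hl
    rw [Finset.mem_Ico] at hl
    rw [Function.update_of_ne (by omega), xch_ne w (by omega) (by omega)]
  rw [c1, c2, c3, c4]
  have d1 := inv_xch hpk hk h2 h3
  have d2 := cnt_split hp w (a + 1) (fun l hl => (h1 l hl).2) h2
  have d3 : ((Finset.Ico (p + 1) n).filter (fun l => w l = a + 1)).card =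
      ((Finset.Ico (p + 1) k).filter (fun l => w l = a + 1)).card +
      ((Finset.Ico (k + 1) n).filter (fun l => w l = a + 1)).card := by
    rw [Finset.card_filter, Finset.card_filter, Finset.card_filter,
      ← Finset.sum_Ico_consecutive _ (show p + 1 ≤ k by omega) (show k ≤ n by omega),
      Finset.sum_eq_sum_Ico_succ_bot hk, if_neg (by omega), zero_add]
  have d4 : ((Finset.Ico (p + 1) k).filter (fun l => w l = a ∨ w l = a + 1)).card =
      ((Finset.Ico (p + 1) k).filter (fun l => w l = a)).card +
      ((Finset.Ico (p + 1) k).filter (fun l => w l = a + 1)).card := by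
    rw [Finset.filter_or, Finset.card_union_of_disjoint]
    rw [Finset.disjoint_filter]
    intro l _ h4 h5
    omega
  rw [d1, d2, d3, d4]
  ring

end Pool.Agent.James.Rs
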