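import Pool.Agent.James.Comb

/-!
Garnir relations and straightening (helper83).
-/

set_option autoImplicit false

namespace Pool.Agent.James.F83

/-- The word `w` agrees with the sorted word outside the positions of the Garnir belt
`[μ_0 + ... + μ_{r-1} + c, μ_0 + ... + μ_r + c + 1)`. -/
def InBelt (n : ℕ) (μ : ℕ → ℕ) (r c : ℕ) (w : Wd n μ) : Prop :=
  ∀ k, k < n → (k < ps μ r + c ∨ ps μ (r + 1) + c + 1 ≤ k) → ∀ x, (w.1 k < x ↔ k < ps μ x)

/-- Lattice words: in every initial segment the letter `r` occurs at least as often as `r + 1`. -/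
def Lat (n : ℕ) (w : ℕ → ℕ) : Prop := ∀ m r, m ≤ n → cnt w (r + 1) m ≤ cnt w r m

section comb
variable {n : ℕ} {μ : ℕ → ℕ}

theorem inBelt_swW {r c : ℕ} {w : Wd n μ} (hw : InBelt n μ r c w) {j : ℕ}
    (hj : ps μ r + c ≤ j) (hj' : j + 1 < ps μ (r + 1) + c + 1) :
    InBelt n μ r c (swW j w) := by
  by_cases hjn : j + 1 < n
  · intro k hk hkb x
    rw [swW_ne hjn w (by omega) (by omega)]
    exact hw k hk hkb x
  · unfold swW
    rw [dif_neg hjn]
    exact hw

theorem belt_unique {r c : ℕ} (hB : ps μ (r + 1) + c + 1 ≤ n)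
    {w w' : Wd n μ} (hw : InBelt n μ r c w) (hw' : InBelt n μ r c w')
    (hd : ∀ j, ps μ r + c ≤ j → j + 1 < ps μ (r + 1) + c + 1 → w.1 (j + 1) ≤ w.1 j)
    (hd' : ∀ j, ps μ r + c ≤ j → j + 1 < ps μ (r + 1) + c + 1 → w'.1 (j + 1) ≤ w'.1 j) :
    w = w' := by
  have hAB : ps μ r + c ≤ ps μ (r + 1) + c + 1 := by
    have := ps_mono μ (show r ≤ r + 1 by omega)
    omega
  have hout : ∀ k, k < n → (k < ps μ r + c ∨ ps μ (r + 1) + c + 1 ≤ k) → w.1 k = w'.1 k := by
    intro k hk hkb
    have h1 := hw k hk hkb (w.1 k)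
    have h2 := hw' k hk hkb (w.1 k)
    have h3 := hw k hk hkb (w'.1 k)
    have h4 := hw' k hk hkb (w'.1 k)
    omega
  have hlow : ∀ x, low w.1 x (ps μ r + c) (ps μ (r + 1) + c + 1) =
      low w'.1 x (ps μ r + c) (ps μ (r + 1) + c + 1) := by
    intro x
    have e1 := low_word w.2 x
    have e2 := low_word w'.2 x
    have a1 := low_add w.1 x (Nat.zero_le (ps μ r + c)) (hAB.trans hB)
    have a2 := low_add w.1 x hAB hB
    have b1 := low_add w'.1 x (Nat.zero_le (ps μ r + c)) (hAB.trans hB)
    have b2 := low_add w'.1 x hAB hB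
    have c1 : low w.1 x 0 (ps μ r + c) = low w'.1 x 0 (ps μ r + c) :=
      low_congr x (fun k _ hk => hout k (by omega) (Or.inl hk))
    have c2 : low w.1 x (ps μ (r + 1) + c + 1) n = low w'.1 x (ps μ (r + 1) + c + 1) n :=
      low_congr x (fun k hk hk' => hout k hk' (Or.inr hk))
    omega
  apply word_ext
  intro k hk
  by_cases hkb : k < ps μ r + c ∨ ps μ (r + 1) + c + 1 ≤ k
  · exact hout k hk hkb
  · push Not at hkb
    have h1 := le_iff_of_anti hd (w.1 k) hkb.1 hkb.2
    have h2 := le_iff_of_anti hd' (w.1 k) hkb.1 hkb.2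
    have h3 := le_iff_of_anti hd (w'.1 k) hkb.1 hkb.2
    have h4 := le_iff_of_anti hd' (w'.1 k) hkb.1 hkb.2
    rw [hlow] at h1 h3
    omega

/-- The decreasing word is the unique word of the belt with the maximal number of inversions. -/
theorem belt_max {r c : ℕ} (hB : ps μ (r + 1) + c + 1 ≤ n)
    {w : Wd n μ} (hw : InBelt n μ r c w)
    (hd : ∀ j, ps μ r + c ≤ j → j + 1 < ps μ (r + 1) + c + 1 → w.1 (j + 1) ≤ w.1 j)
    {w' : Wd n μ} (hw' : InBelt n μ r c w') (hne : w' ≠ w) : inv n w'.1 < inv n w.1 := by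
  classical
  have key : ∀ v : Wd n μ, InBelt n μ r c v →
      (∀ v' : Wd n μ, InBelt n μ r c v' → inv n v'.1 ≤ inv n v.1) → v = w := by
    intro v hv hmax
    apply belt_unique hB hv hw _ hd
    intro j hj hj'
    by_contra hcon
    rw [not_le] at hcon
    have h1 := hmax (swW j v) (inBelt_swW hv hj hj')
    rw [swW_val (by omega), inv_sw (by omega) hcon] at h1
    omega
  obtain ⟨v, hv, hmax⟩ := Finset.exists_max_image
    ((Finset.univ : Finset (Wd n μ)).filter (InBelt n μ r c)) (fun v => inv n v.1)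
    ⟨w, by rw [Finset.mem_filter]; exact ⟨Finset.mem_univ _, hw⟩⟩
  rw [Finset.mem_filter] at hv
  have hmax' : ∀ v' : Wd n μ, InBelt n μ r c v' → inv n v'.1 ≤ inv n v.1 := by
    intro v' hv'
    exact hmax v' (by rw [Finset.mem_filter]; exact ⟨Finset.mem_univ _, hv'⟩)
  have hvw := key v hv.2 hmax'
  rw [hvw] at hmax'
  by_contra hcon
  apply hne
  apply key w' hw'
  intro v' hv'
  have := hmax' v' hv'
  omega

theorem cnt_swW {w : Wd n μ} {j : ℕ} (hj : j + 1 < n) (c : ℕ) {m : ℕ} (hm : m ≠ j + 1) :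
    cnt (swW j w).1 c m = cnt w.1 c m := by
  rw [swW_val hj]
  rcases lt_or_ge m (j + 1) with h | h
  · exact cnt_congr c (fun k hk => sw_ne _ (by omega) (by omega))
  · exact cnt_sw (by omega) w.1 c

end comb

section extreme
variable {n : ℕ} {μ : Ptn n}

/-- The extreme words are the decreasing words of the belts. -/
theorem extreme {w : Wd n μ.part} {r m : ℕ} (hm0 : 0 < m) (hmn : m < n)
    (h1 : ∀ j, j + 1 < m → w.1 j ≤ w.1 (j + 1))
    (h2 : ∀ j, m ≤ j → j + 1 < n → w.1 j ≤ w.1 (j + 1))
    (h3 : w.1 (m - 1) = r + 1) (h4 : w.1 m = r)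
    (h5 : cnt w.1 (r + 1) m = cnt w.1 r m + 1) :
    ∃ c, c < μ.part (r + 1) ∧ InBelt n μ.part r c w ∧ ps μ.part (r + 1) + c + 1 ≤ n ∧
      ∀ j, ps μ.part r + c ≤ j → j + 1 < ps μ.part (r + 1) + c + 1 → w.1 (j + 1) ≤ w.1 j := by
  have hpre : ∀ x k, k < m → (w.1 k < x ↔ k < low w.1 x 0 m) := by
    intro x k hk
    have := lt_iff_of_mono (w := w.1) (a := 0) (b := m) (fun j _ hj => h1 j hj) x
      (Nat.zero_le k) hk
    rw [this, Nat.zero_add]
  have hsuf : ∀ x k, m ≤ k → k < n → (w.1 k < x ↔ k < m + low w.1 x m n) := by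
    intro x k hk hkn
    exact lt_iff_of_mono (w := w.1) (a := m) (b := n) (fun j hj hj' => h2 j hj hj') x hk hkn
  have hadd : ∀ x, low w.1 x 0 m + low w.1 x m n = ps μ.part x := by
    intro x
    rw [low_add w.1 x (Nat.zero_le m) hmn.le, low_word w.2]
  have hsucc : ∀ x, low w.1 (x + 1) 0 m = low w.1 x 0 m + cnt w.1 x m := fun x =>
    low_succ_letter w.1 x m
  -- letters `< r` do not occur in the suffix
  have hs0 : ∀ x, x ≤ r → low w.1 x m n = 0 := by
    intro x hx
    have := hsuf x m le_rfl hmn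
    omega
  -- letters `> r + 1` do not occur in the prefix
  have hp0 : ∀ x, r + 2 ≤ x → low w.1 x 0 m = m := by
    intro x hx
    have := hpre x (m - 1) (by omega)
    have h6 := low_le w.1 x 0 m
    omega
  have ea := hadd r
  have eb := hadd (r + 1)
  have ec := hsucc r
  have ed := hsucc (r + 1)
  have ee := hp0 (r + 2) le_rfl
  have ef := hs0 r le_rfl
  have eg := ps_succ μ.part r
  have eh := ps_succ μ.part (r + 1)
  have ei : cnt w.1 (r + 1) m ≤ cnt w.1 (r + 1) n := cnt_mono _ _ hmn.le
  rw [w.2.2 (r + 1)] at ei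
  have ej : μ.part (r + 1) ≤ μ.part r := μ.anti (by omega)
  have ek : ps μ.part (r + 2) ≤ n := (ptn_isComp μ).ps_le _
  set c := cnt w.1 r m with hc
  have em : r + 1 + 1 = r + 2 := rfl
  rw [em] at ed eh
  refine ⟨c, by omega, ?_, by omega, ?_⟩
  · intro k hkn hk x
    rcases hk with hk | hk
    · rw [hpre x k (by omega)]
      rcases lt_or_ge x (r + 1) with hx | hx
      · have e1 := hadd x
        have e2 := hs0 x (by omega)
        omega
      · rcases Nat.eq_or_lt_of_le hx with hx | hx
        · subst hx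
          omega
        · have e1 := hp0 x (by omega)
          have e2 := ps_mono μ.part (show r + 1 ≤ x by omega)
          omega
    · rw [hsuf x k (by omega) hkn]
      rcases lt_or_ge x (r + 1) with hx | hx
      · have e1 := hs0 x (by omega)
        have e2 := ps_mono μ.part (show x ≤ r by omega)
        omega
      · rcases Nat.eq_or_lt_of_le hx with hx | hx
        · subst hx
          omega
        · have e1 := hp0 x (by omega)
          have e2 := hadd x
          omega
  · intro j hj hj'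
    rcases lt_or_ge (j + 1) m with hjm | hjm
    · have e1 := hpre (r + 2) (j + 1) hjm
      have e2 := hpre (r + 1) j (by omega)
      omega
    · have e1 := hsuf (r + 1) (j + 1) hjm (by omega)
      rcases lt_or_ge j m with hjm' | hjm'
      · have e2 := hpre (r + 1) j (by omega)
        omega
      · have e2 := hsuf r j hjm' (by omega)
        omega

end extreme

section straight
variable {R : Type*} [CommRing R] {q : R} {n : ℕ} {V : Type*} [AddCommGroup V] [Module R V]
  [Module (Hecke R q n) V] [IsScalarTower R (Hecke R q n) V] {μ : Ptn n}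

open scoped Classical in
/-- The Garnir relations. -/
def Garnir {V : Type*} [AddCommGroup V] (μ : Ptn n) (g : Wd n μ.part → V) : Prop :=
  ∀ r c, c < μ.part (r + 1) →
    ∑ w ∈ (Finset.univ : Finset (Wd n μ.part)).filter (InBelt n μ.part r c), g w = 0

variable {ν : ℕ → ℕ}

theorem gT_mem_span_lt {g : Wd n ν → V} {ε : R} (hg : IsFam q n ε g) {j : ℕ} (hj : j + 1 < n)
    {M : ℕ} {x : V} (hx : x ∈ Submodule.span R (g '' {w' | inv n w'.1 < M})) :
    gT R q n j • x ∈ Submodule.span R (g '' {w' | inv n w'.1 < M + 1}) := by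
  induction hx using Submodule.span_induction with
  | mem x hx =>
    obtain ⟨w, hw, rfl⟩ := hx
    have hw' : inv n w.1 < M := hw
    rcases lt_trichotomy (w.1 j) (w.1 (j + 1)) with h | h | h
    · rw [hg.asc w j hj h]
      refine Submodule.subset_span ⟨_, ?_, rfl⟩
      have := inv_sw hj h
      rw [Set.mem_ofPred_eq, swW_val hj]
      omega
    · rw [hg.tie w j hj h]
      refine Submodule.smul_mem _ _ (Submodule.subset_span ⟨_, ?_, rfl⟩)
      rw [Set.mem_ofPred_eq]
      omega
    · rw [hg.desc' w hj h]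
      refine Submodule.add_mem _ (Submodule.smul_mem _ _ (Submodule.subset_span ⟨_, ?_, rfl⟩))
        (Submodule.smul_mem _ _ (Submodule.subset_span ⟨_, ?_, rfl⟩))
      · rw [Set.mem_ofPred_eq]
        omega
      · have := inv_sw' hj h
        rw [Set.mem_ofPred_eq, swW_val hj]
        omega
  | zero => rw [smul_zero]; exact Submodule.zero_mem _
  | add x y _ _ hx hy => rw [smul_add]; exact Submodule.add_mem _ hx hy
  | smul r x _ hx => rw [smul_smul_comm]; exact Submodule.smul_mem _ _ hx

/-- Straightening: one step. -/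
theorem straight_lt {g : Wd n μ.part → V} {ε : R} (hg : IsFam q n ε g) (hG : Garnir μ g) :
    ∀ (N : ℕ) (w : Wd n μ.part), inv n w.1 = N → ¬ Lat n w.1 →
      g w ∈ Submodule.span R (g '' {w' | inv n w'.1 < N}) := by
  classical
  intro N
  induction N using Nat.strong_induction_on with
  | _ N ih =>
  intro w hwN hw
  -- undoing a descent
  have step : ∀ j, j + 1 < n → w.1 (j + 1) < w.1 j → ¬ Lat n (swW j w).1 →
      g w ∈ Submodule.span R (g '' {w' | inv n w'.1 < N}) := by
    intro j hj hlt hnl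
    have e1 := inv_sw' hj hlt
    have e2 := ih (inv n (swW j w).1) (by rw [swW_val hj]; omega) (swW j w) rfl hnl
    have e3 := gT_mem_span_lt hg hj e2
    rw [← hg.desc w hj hlt, swW_val hj] at e3
    have e4 : inv n (sw j w.1) + 1 = N := by omega
    rw [e4] at e3
    exact e3
  -- a minimal violation
  have hw' : ∃ r m, m ≤ n ∧ cnt w.1 r m < cnt w.1 (r + 1) m := by
    unfold Lat at hw
    push Not at hw
    obtain ⟨m, r, hm, hlt⟩ := hw
    exact ⟨r, m, hm, hlt⟩
  obtain ⟨r, hr⟩ := hw'
  have hspec := Nat.find_spec hr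
  have hmin := fun k (hk : k < Nat.find hr) => Nat.find_min hr hk
  generalize Nat.find hr = m at hspec hmin
  obtain ⟨hmn, hlt⟩ := hspec
  have hm0 : 0 < m := by
    rcases Nat.eq_zero_or_pos m with h | h
    · subst h
      rw [cnt_zero, cnt_zero] at hlt
      omega
    · exact h
  have hlast : w.1 (m - 1) = r + 1 ∧ cnt w.1 (r + 1) m = cnt w.1 r m + 1 := by
    have h1 := hmin (m - 1) (by omega)
    have h2 : ¬ cnt w.1 r (m - 1) < cnt w.1 (r + 1) (m - 1) := fun h3 => h1 ⟨by omega, h3⟩
    have e1 := cnt_succ w.1 r (m - 1)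
    have e2 := cnt_succ w.1 (r + 1) (m - 1)
    have e3 : m - 1 + 1 = m := by omega
    rw [e3] at e1 e2
    split_ifs at e1 e2 <;> omega
  -- Case 1
  by_cases hc1 : ∃ j, j + 1 < n ∧ j + 1 ≠ m ∧ w.1 (j + 1) < w.1 j
  · obtain ⟨j, hj, hjm, hjlt⟩ := hc1
    apply step j hj hjlt
    intro hL
    have h1 := hL m r hmn
    rw [cnt_swW hj _ (fun h => hjm h.symm), cnt_swW hj _ (fun h => hjm h.symm)] at h1
    omega
  push Not at hc1
  -- there are letters `r` in the suffix
  have hcr : cnt w.1 r m < cnt w.1 r n := by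
    have h1 : cnt w.1 (r + 1) m ≤ cnt w.1 (r + 1) n := cnt_mono _ _ hmn
    rw [w.2.2] at h1 ⊢
    have h2 : μ.part (r + 1) ≤ μ.part r := μ.anti (by omega)
    omega
  have hmn' : m < n := by
    rcases Nat.eq_or_lt_of_le hmn with h | h
    · rw [h] at hcr
      omega
    · exact h
  have hsufmono : ∀ k l, m ≤ k → k ≤ l → l < n → w.1 k ≤ w.1 l := by
    intro k l hk hkl
    induction l, hkl using Nat.le_induction with
    | base => intro _; exact le_rfl
    | succ l hkl ih2 =>
      intro hl
      exact (ih2 (by omega)).trans (hc1 l hl (by omega))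
  have hmr : w.1 m ≤ r := by
    by_contra hcon
    have : cnt w.1 r n = cnt w.1 r m := by
      have key : ∀ l, m ≤ l → l ≤ n → cnt w.1 r l = cnt w.1 r m := by
        intro l hl
        induction l, hl using Nat.le_induction with
        | base => intro _; rfl
        | succ l hl ih2 =>
          intro hln
          rw [cnt_succ, ih2 (by omega), if_neg, Nat.add_zero]
          have := hsufmono m l le_rfl hl (by omega)
          omega
      exact key n hmn le_rfl
    omega
  rcases Nat.lt_or_eq_of_le hmr with hlt2 | heq2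
  · -- Case 2a
    have hj : m - 1 + 1 < n := by omega
    have e3 : m - 1 + 1 = m := by omega
    apply step (m - 1) hj (by rw [e3, hlast.1]; omega)
    intro hL
    have h1 := hL (m + 1) r (by omega)
    rw [cnt_swW hj _ (by omega), cnt_swW hj _ (by omega), cnt_succ, cnt_succ] at h1
    rw [if_neg (by omega), if_neg (by omega)] at h1
    omega
  · -- Case 2b
    obtain ⟨c, hc, hb, hB, hd⟩ := extreme (w := w) hm0 hmn'
      (fun j hj => hc1 j (by omega) (by omega)) (fun j hj hj' => hc1 j hj' (by omega))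
      hlast.1 heq2 hlast.2
    have hsum := hG r c hc
    rw [← Finset.add_sum_erase _ _ (show w ∈ (Finset.univ : Finset (Wd n μ.part)).filter
      (InBelt n μ.part r c) by rw [Finset.mem_filter]; exact ⟨Finset.mem_univ _, hb⟩)] at hsum
    rw [eq_neg_of_add_eq_zero_left hsum]
    apply Submodule.neg_mem
    apply Submodule.sum_mem
    intro w' hw2
    rw [Finset.mem_erase, Finset.mem_filter] at hw2
    refine Submodule.subset_span ⟨w', ?_, rfl⟩
    have := belt_max hB hb hd hw2.2.2 hw2.1
    rw [Set.mem_ofPred_eq]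
    omega

/-- Straightening: the family is spanned by its members indexed by lattice words. -/
theorem straight {g : Wd n μ.part → V} {ε : R} (hg : IsFam q n ε g) (hG : Garnir μ g)
    (w : Wd n μ.part) : g w ∈ Submodule.span R (g '' {w' | Lat n w'.1}) := by
  have key : ∀ (N : ℕ) (w : Wd n μ.part), inv n w.1 = N →
      g w ∈ Submodule.span R (g '' {w' | Lat n w'.1}) := by
    intro N
    induction N using Nat.strong_induction_on with
    | _ N ih =>
    intro w hw
    by_cases h : Lat n w.1
    · exact Submodule.subset_span ⟨w, h, rfl⟩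
    · have h1 := straight_lt hg hG N w hw h
      refine Submodule.span_le.2 ?_ h1
      rintro _ ⟨w', hw', rfl⟩
      exact ih _ hw' w' rfl
  exact key _ w rfl

/-- `H u` is spanned by the `g_t`, `t` a lattice word. -/
theorem smul_mem_span_lat {u : V} (hu : ∀ j, j + 1 < n → InY μ.part j → gT R q n j • u = q • u)
    (hG : Garnir μ (fam q n (ν := μ.part) u)) (a : Hecke R q n) :
    a • u ∈ Submodule.span R (fam q n (ν := μ.part) u '' {w' | Lat n w'.1}) := by
  refine Submodule.span_le.2 ?_ (smul_mem_span_fam hu (ptn_isComp μ) a)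
  rintro _ ⟨w, rfl⟩
  exact straight (isFam_of_inY hu) hG w

end straight

end Pool.Agent.James.F83
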