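import Mathlib

/-!
Words, inversions, and the word modules of the Hecke algebra of type `A` (James' conjecture for
`e = 3`, problem MP_36c429_al).

Everything is indexed by natural numbers: positions are `0, ..., n - 1`, the generator `T j`
(`j + 1 < n`) acts at the positions `j, j + 1`, letters are natural numbers.
-/

set_option autoImplicit false

namespace Pool.Agent.James

/-- Exchange of the letters at the positions `j` and `j + 1`. -/
def sw {X : Type*} (j : ℕ) (w : ℕ → X) : ℕ → X := fun k => w (Equiv.swap j (j + 1) k)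

section sw
variable {X : Type*}

theorem sw_left (j : ℕ) (w : ℕ → X) : sw j w j = w (j + 1) := by
  unfold sw
  rw [Equiv.swap_apply_left]

theorem sw_right (j : ℕ) (w : ℕ → X) : sw j w (j + 1) = w j := by
  unfold sw
  rw [Equiv.swap_apply_right]

theorem sw_ne {j k : ℕ} (w : ℕ → X) (h1 : k ≠ j) (h2 : k ≠ j + 1) : sw j w k = w k := by
  unfold sw
  rw [Equiv.swap_apply_of_ne_of_ne h1 h2]

theorem sw_sw (j : ℕ) (w : ℕ → X) : sw j (sw j w) = w := by
  funext k
  unfold sw
  rw [Equiv.swap_apply_self]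

theorem sw_comm {j k : ℕ} (h : j + 1 < k) (w : ℕ → X) : sw j (sw k w) = sw k (sw j w) := by
  funext i
  unfold sw
  have : Equiv.swap k (k + 1) (Equiv.swap j (j + 1) i) =
      Equiv.swap j (j + 1) (Equiv.swap k (k + 1) i) := by
    simp only [Equiv.swap_apply_def]
    split_ifs <;> omega
  rw [this]

theorem sw_braid (j : ℕ) (w : ℕ → X) :
    sw j (sw (j + 1) (sw j w)) = sw (j + 1) (sw j (sw (j + 1) w)) := by
  funext i
  unfold sw
  have : Equiv.swap j (j + 1) (Equiv.swap (j + 1) (j + 1 + 1) (Equiv.swap j (j + 1) i)) =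
      Equiv.swap (j + 1) (j + 1 + 1) (Equiv.swap j (j + 1)
        (Equiv.swap (j + 1) (j + 1 + 1) i)) := by
    simp only [Equiv.swap_apply_def]
    split_ifs <;> omega
  rw [this]

theorem sw_eq_self {j : ℕ} {w : ℕ → X} (h : w j = w (j + 1)) : sw j w = w := by
  funext k
  by_cases h1 : k = j
  · rw [h1, sw_left, h]
  by_cases h2 : k = j + 1
  · rw [h2, sw_right, h]
  · exact sw_ne w h1 h2

end sw

/-- Number of occurrences of the letter `c` among the first `m` letters of `w`. -/
def cnt (w : ℕ → ℕ) (c m : ℕ) : ℕ := ((Finset.range m).filter (fun k => w k = c)).card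

/-- Number of inversions among the first `n` letters: pairs `k < l < n` with `w k > w l`. -/
def inv (n : ℕ) (w : ℕ → ℕ) : ℕ :=
  ((Finset.range n ×ˢ Finset.range n).filter (fun p => p.1 < p.2 ∧ w p.2 < w p.1)).card

/-- Words of length `n` (extended by zeros) and content `ν`: the letter `c` occurs `ν c` times. -/
def IsWord (n : ℕ) (ν w : ℕ → ℕ) : Prop := (∀ k, n ≤ k → w k = 0) ∧ ∀ c, cnt w c n = ν c

/-- The set of words of length `n` and content `ν`. -/
abbrev Wd (n : ℕ) (ν : ℕ → ℕ) : Type := {w : ℕ → ℕ // IsWord n ν w}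

theorem swap_lt {n j k : ℕ} (hj : j + 1 < n) (hk : k < n) : Equiv.swap j (j + 1) k < n := by
  rw [Equiv.swap_apply_def]
  split_ifs <;> omega

theorem cnt_sw {n j : ℕ} (hj : j + 1 < n) (w : ℕ → ℕ) (c : ℕ) : cnt (sw j w) c n = cnt w c n := by
  unfold cnt
  refine Finset.card_bij' (fun k _ => Equiv.swap j (j + 1) k) (fun k _ => Equiv.swap j (j + 1) k)
    ?_ ?_ ?_ ?_
  · intro k hk
    rw [Finset.mem_filter, Finset.mem_range] at hk ⊢
    exact ⟨swap_lt hj hk.1, hk.2⟩
  · intro k hk
    rw [Finset.mem_filter, Finset.mem_range] at hk ⊢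
    refine ⟨swap_lt hj hk.1, ?_⟩
    unfold sw
    rw [Equiv.swap_apply_self]
    exact hk.2
  · intro k _
    exact Equiv.swap_apply_self _ _ _
  · intro k _
    exact Equiv.swap_apply_self _ _ _

theorem isWord_sw {n : ℕ} {ν w : ℕ → ℕ} (h : IsWord n ν w) {j : ℕ} (hj : j + 1 < n) :
    IsWord n ν (sw j w) := by
  refine ⟨fun k hk => ?_, fun c => ?_⟩
  · rw [sw_ne w (by omega) (by omega)]
    exact h.1 k hk
  · rw [cnt_sw hj, h.2 c]

/-- The exchange of neighbouring letters as a map on words (the identity if `j + 1 < n` fails). -/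
def swW {n : ℕ} {ν : ℕ → ℕ} (j : ℕ) (w : Wd n ν) : Wd n ν :=
  if h : j + 1 < n then ⟨sw j w.1, isWord_sw w.2 h⟩ else w

theorem swW_val {n : ℕ} {ν : ℕ → ℕ} {j : ℕ} (hj : j + 1 < n) (w : Wd n ν) :
    (swW j w).1 = sw j w.1 := by
  unfold swW
  rw [dif_pos hj]

theorem swW_swW {n : ℕ} {ν : ℕ → ℕ} (j : ℕ) (w : Wd n ν) : swW j (swW j w) = w := by
  by_cases hj : j + 1 < n
  · apply Subtype.ext
    rw [swW_val hj, swW_val hj, sw_sw]
  · unfold swW
    rw [dif_neg hj, dif_neg hj]

theorem swW_eq_self {n : ℕ} {ν : ℕ → ℕ} {j : ℕ} (hj : j + 1 < n) {w : Wd n ν}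
    (h : w.1 j = w.1 (j + 1)) : swW j w = w := by
  apply Subtype.ext
  rw [swW_val hj, sw_eq_self h]

theorem swW_comm {n : ℕ} {ν : ℕ → ℕ} {j k : ℕ} (h : j + 1 < k) (hk : k + 1 < n) (w : Wd n ν) :
    swW j (swW k w) = swW k (swW j w) := by
  apply Subtype.ext
  rw [swW_val (by omega), swW_val hk, swW_val hk, swW_val (by omega), sw_comm h]

theorem swW_braid {n : ℕ} {ν : ℕ → ℕ} {j : ℕ} (hj : j + 2 < n) (w : Wd n ν) :
    swW j (swW (j + 1) (swW j w)) = swW (j + 1) (swW j (swW (j + 1) w)) := by
  apply Subtype.ext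
  rw [swW_val (by omega), swW_val (by omega), swW_val (by omega), swW_val (by omega),
    swW_val (by omega), swW_val (by omega), sw_braid]

/-- An ascending exchange increases the number of inversions by one. -/
theorem inv_sw {n j : ℕ} (hj : j + 1 < n) {w : ℕ → ℕ} (h : w j < w (j + 1)) :
    inv n (sw j w) = inv n w + 1 := by
  unfold inv
  set S := (Finset.range n ×ˢ Finset.range n).filter (fun p => p.1 < p.2 ∧ w p.2 < w p.1) with hS
  have key : (Finset.range n ×ˢ Finset.range n).filter
      (fun p => p.1 < p.2 ∧ sw j w p.2 < sw j w p.1) =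
      insert (j, j + 1) (S.image (fun p => (Equiv.swap j (j + 1) p.1, Equiv.swap j (j + 1) p.2))) := by
    ext ⟨a, b⟩
    rw [Finset.mem_insert, Finset.mem_image, Finset.mem_filter, Finset.mem_product,
      Finset.mem_range, Finset.mem_range]
    simp only
    constructor
    · rintro ⟨⟨ha, hb⟩, hab, hw⟩
      by_cases hc : a = j ∧ b = j + 1
      · left
        rw [hc.1, hc.2]
      · right
        refine ⟨(Equiv.swap j (j + 1) a, Equiv.swap j (j + 1) b), ?_, ?_⟩
        · rw [hS, Finset.mem_filter, Finset.mem_product, Finset.mem_range, Finset.mem_range]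
          refine ⟨⟨swap_lt hj ha, swap_lt hj hb⟩, ?_, hw⟩
          simp only [Equiv.swap_apply_def]
          split_ifs <;> omega
        · simp only [Equiv.swap_apply_self]
    · rintro (h1 | ⟨⟨c, d⟩, hcd, he⟩)
      · simp only [Prod.mk.injEq] at h1
        rw [h1.1, h1.2]
        refine ⟨⟨by omega, hj⟩, by omega, ?_⟩
        rw [sw_left, sw_right]
        exact h
      · rw [hS, Finset.mem_filter, Finset.mem_product, Finset.mem_range, Finset.mem_range] at hcd
        simp only [Prod.mk.injEq] at he hcd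
        obtain ⟨⟨hc, hd⟩, hlt, hw⟩ := hcd
        rw [← he.1, ← he.2]
        refine ⟨⟨swap_lt hj hc, swap_lt hj hd⟩, ?_, ?_⟩
        · have hne : ¬ (c = j ∧ d = j + 1) := by
            rintro ⟨h1, h2⟩
            rw [h1, h2] at hw
            omega
          simp only [Equiv.swap_apply_def]
          split_ifs <;> omega
        · unfold sw
          rw [Equiv.swap_apply_self, Equiv.swap_apply_self]
          exact hw
  have hmem' : (j, j + 1) ∉
      S.image (fun p => (Equiv.swap j (j + 1) p.1, Equiv.swap j (j + 1) p.2)) := by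
    rw [Finset.mem_image]
    rintro ⟨⟨a, b⟩, hab, he⟩
    simp only [Prod.mk.injEq] at he
    have h1 : a = j + 1 := by
      have := congrArg (Equiv.swap j (j + 1)) he.1
      rw [Equiv.swap_apply_self, Equiv.swap_apply_left] at this
      exact this
    have h2 : b = j := by
      have := congrArg (Equiv.swap j (j + 1)) he.2
      rw [Equiv.swap_apply_self, Equiv.swap_apply_right] at this
      exact this
    rw [hS, Finset.mem_filter] at hab
    rw [h1, h2] at hab
    have := hab.2.1
    simp only at this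
    omega
  rw [key, Finset.card_insert_of_notMem hmem', Finset.card_image_of_injective]
  intro p p' hpp
  simp only [Prod.mk.injEq, EmbeddingLike.apply_eq_iff_eq] at hpp
  exact Prod.ext hpp.1 hpp.2

theorem inv_sw' {n j : ℕ} (hj : j + 1 < n) {w : ℕ → ℕ} (h : w (j + 1) < w j) :
    inv n w = inv n (sw j w) + 1 := by
  have := inv_sw (w := sw j w) hj (by rw [sw_left, sw_right]; exact h)
  rw [sw_sw] at this
  exact this

end Pool.Agent.James
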